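import Pool.Agent.TFF.Defs

/-! # Package A1: one isosceles face, the other four angles algebraic (helper81) -/

set_option autoImplicit false

namespace Pool.Agent.TFF

open Pool.Agent.TetRel Real

namespace CaseA

/-- a polynomial relation with algebraic coefficients for a transcendental number is trivial -/
theorem quartic {A B C D z : ℂ} (hA : IsAlgebraic ℚ A) (hB : IsAlgebraic ℚ B)
    (hC : IsAlgebraic ℚ C) (hD : IsAlgebraic ℚ D) (hz : ¬ IsAlgebraic ℚ z)
    (h : A * z ^ 4 + B * z ^ 3 + C * z + D = 0) : A = 0 ∧ B = 0 ∧ C = 0 ∧ D = 0 := by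
  classical
  let K := algebraicClosure ℚ ℂ
  let a : K := ⟨A, mem_algebraicClosure_iff.mpr hA⟩
  let b : K := ⟨B, mem_algebraicClosure_iff.mpr hB⟩
  let c : K := ⟨C, mem_algebraicClosure_iff.mpr hC⟩
  let d : K := ⟨D, mem_algebraicClosure_iff.mpr hD⟩
  let p : Polynomial K := Polynomial.C a * Polynomial.X ^ 4 + Polynomial.C b * Polynomial.X ^ 3 +
    Polynomial.C c * Polynomial.X + Polynomial.C d
  have hp : Polynomial.aeval z p = 0 := by
    simp only [p, map_add, map_mul, Polynomial.aeval_C, map_pow, Polynomial.aeval_X]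
    exact h
  have h0 : p = 0 := by
    by_contra hne
    have : Algebra.IsAlgebraic ℚ (algebraicClosure ℚ ℂ) := algebraicClosure.isAlgebraic ℚ ℂ
    exact hz (IsAlgebraic.restrictScalars ℚ (⟨p, hne, hp⟩ :
      IsAlgebraic (algebraicClosure ℚ ℂ) z))
  have e4 : p.coeff 4 = a := by
    simp [p, Polynomial.coeff_X_pow]
  have e3 : p.coeff 3 = b := by
    simp [p, Polynomial.coeff_X, Polynomial.coeff_C, Polynomial.coeff_X_pow]
  have e1 : p.coeff 1 = c := by
    simp [p, Polynomial.coeff_X, Polynomial.coeff_C, Polynomial.coeff_X_pow]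
  have e0 : p.coeff 0 = d := by
    simp [p, Polynomial.coeff_X, Polynomial.coeff_C, Polynomial.coeff_X_pow]
  rw [h0, Polynomial.coeff_zero] at e4 e3 e1 e0
  exact ⟨(congrArg Subtype.val e4).symm, (congrArg Subtype.val e3).symm,
    (congrArg Subtype.val e1).symm, (congrArg Subtype.val e0).symm⟩

theorem alg_half : IsAlgebraic ℚ (1 / 2 : ℂ) := by
  have : (1 / 2 : ℂ) = algebraMap ℚ ℂ (1 / 2) := by simp
  rw [this]
  exact isAlgebraic_algebraMap _

theorem alg_cos {x : ℝ} (h : AA x) : IsAlgebraic ℚ (Complex.cos (x : ℂ)) := by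
  have h' : IsAlgebraic ℚ (Complex.exp ((x : ℂ) * Complex.I)) := h
  have : Complex.cos (x : ℂ) = (1 / 2 : ℂ) * (Complex.exp ((x : ℂ) * Complex.I) +
      (Complex.exp ((x : ℂ) * Complex.I))⁻¹) := by
    rw [← Complex.exp_neg, Complex.cos]
    ring_nf
  rw [this]
  exact alg_half.mul (h'.add h'.inv)

theorem aux {x f y y' s : ℝ} (hf : AA f) (hy : AA y) (hy' : AA y') (hs : AA s) (hx : ¬ AA x)
    (h : cos y' * sin (f - x) - cos s * sin x + cos y * sin (f - 2 * x) = 0) :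
    cos y = 0 ∧ cos y' * cos f + cos s = 0 ∧ cos y' * sin f = 0 := by
  set z : ℂ := Complex.exp ((x : ℂ) * Complex.I) with hz
  set F : ℂ := Complex.exp ((f : ℂ) * Complex.I) with hF
  have hzn : z ≠ 0 := Complex.exp_ne_zero _
  have hFn : F ≠ 0 := Complex.exp_ne_zero _
  have hFA : IsAlgebraic ℚ F := hf
  have h1 : Complex.sin ((f - x : ℝ) : ℂ) = (F⁻¹ * z - F * z⁻¹) * Complex.I / 2 := by
    rw [Complex.sin, hF, hz, ← Complex.exp_neg, ← Complex.exp_neg, ← Complex.exp_add,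
      ← Complex.exp_add]
    push_cast
    ring_nf
  have h2 : Complex.sin (x : ℂ) = (z⁻¹ - z) * Complex.I / 2 := by
    rw [Complex.sin, hz, ← Complex.exp_neg]
    ring_nf
  have h3 : Complex.sin ((f - 2 * x : ℝ) : ℂ) = (F⁻¹ * z ^ 2 - F * z⁻¹ ^ 2) * Complex.I / 2 := by
    rw [Complex.sin, hF, hz, ← Complex.exp_neg, ← Complex.exp_neg, ← Complex.exp_nat_mul,
      ← Complex.exp_nat_mul, ← Complex.exp_add, ← Complex.exp_add]
    push_cast
    ring_nf
  have hC : Complex.cos (y' : ℂ) * Complex.sin ((f - x : ℝ) : ℂ) -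
      Complex.cos (s : ℂ) * Complex.sin (x : ℂ) +
      Complex.cos (y : ℂ) * Complex.sin ((f - 2 * x : ℝ) : ℂ) = 0 := by
    exact_mod_cast h
  rw [h1, h2, h3] at hC
  have hp : (Complex.cos (y : ℂ) * F⁻¹) * z ^ 4 +
      (Complex.cos (y' : ℂ) * F⁻¹ + Complex.cos (s : ℂ)) * z ^ 3 +
      (-(Complex.cos (y' : ℂ) * F + Complex.cos (s : ℂ))) * z +
      -(Complex.cos (y : ℂ) * F) = 0 := by
    have hI : Complex.I ≠ 0 := Complex.I_ne_zero
    have e : (Complex.cos (y : ℂ) * F⁻¹) * z ^ 4 +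
      (Complex.cos (y' : ℂ) * F⁻¹ + Complex.cos (s : ℂ)) * z ^ 3 +
      (-(Complex.cos (y' : ℂ) * F + Complex.cos (s : ℂ))) * z +
      -(Complex.cos (y : ℂ) * F) = (-2 * Complex.I) * z ^ 2 *
      (Complex.cos (y' : ℂ) * ((F⁻¹ * z - F * z⁻¹) * Complex.I / 2) -
      Complex.cos (s : ℂ) * ((z⁻¹ - z) * Complex.I / 2) +
      Complex.cos (y : ℂ) * ((F⁻¹ * z ^ 2 - F * z⁻¹ ^ 2) * Complex.I / 2)) := by
      have hII : Complex.I ^ 2 = -1 := Complex.I_sq
      field_simp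
      rw [hII]
      ring
    rw [e, hC, mul_zero]
  obtain ⟨-, hb, hc, hd⟩ := quartic ((alg_cos hy).mul hFA.inv)
    (((alg_cos hy').mul hFA.inv).add (alg_cos hs))
    ((((alg_cos hy').mul hFA).add (alg_cos hs)).neg) (((alg_cos hy).mul hFA).neg) hx hp
  have hF' : F = ((cos f : ℝ) : ℂ) + ((sin f : ℝ) : ℂ) * Complex.I := by
    rw [hF, Complex.exp_mul_I]
    push_cast
    ring
  have hc' : Complex.cos (y' : ℂ) * F + Complex.cos (s : ℂ) = 0 := neg_eq_zero.mp hc
  rw [hF'] at hc'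
  have hre := congrArg Complex.re hc'
  have him := congrArg Complex.im hc'
  rw [← Complex.ofReal_cos, ← Complex.ofReal_cos] at hre him
  simp only [Complex.add_re, Complex.mul_re, Complex.ofReal_re, Complex.ofReal_im,
    Complex.I_re, Complex.I_im, Complex.add_im, Complex.mul_im, Complex.zero_re,
    Complex.zero_im] at hre him
  refine ⟨?_, by linarith, by linarith⟩
  have hd' : Complex.cos (y : ℂ) * F = 0 := neg_eq_zero.mp hd
  have := (mul_eq_zero.mp hd').resolve_right hFn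
  exact_mod_cast this

/-- the isosceles face `012` (a local copy of `iso01`) -/
theorem iso {θ : Fin 6 → ℝ} {a : Fin 4 → ℝ} (h : Geo θ a)
    (h1 : a 2 * sin (θ 0) = a 1 * sin (θ 1)) :
    cos (θ 4) * sin (θ 1) - cos (θ 5) * sin (θ 0) + cos (θ 3) * sin (θ 1 - θ 0) = 0 := by
  have s0 : 0 < sin (θ 0) := sin_pos_of_pos_of_lt_pi (h.mem 0).1 (h.mem 0).2
  obtain ⟨t, ht⟩ : ∃ t, a 1 = t * sin (θ 0) := ⟨a 1 / sin (θ 0), by field_simp⟩
  have ht2 : a 2 = t * sin (θ 1) := by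
    apply mul_right_cancel₀ s0.ne'
    rw [h1, ht]
    ring
  have htn : t ≠ 0 := by
    rintro rfl
    have := h.pos 1
    rw [ht] at this
    simp at this
  have e0 := sin_sq_add_cos_sq (θ 0)
  have e1 := sin_sq_add_cos_sq (θ 1)
  have r1 := h.r1
  have r2 := h.r2
  have r3 := h.r3
  rw [ht, ht2] at r1 r2 r3
  rw [sin_sub]
  have key : t * a 0 * (cos (θ 4) * sin (θ 1) - cos (θ 5) * sin (θ 0) +
      cos (θ 3) * (sin (θ 1) * cos (θ 0) - cos (θ 1) * sin (θ 0))) = 0 := by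
    linear_combination (t * sin (θ 0)) * r1 - (t * sin (θ 1)) * r2 +
      (-t) * (sin (θ 1) * cos (θ 0) - cos (θ 1) * sin (θ 0)) * r3 +
      (-t ^ 2 * sin (θ 1) ^ 2) * e0 + (t ^ 2 * sin (θ 0) ^ 2) * e1
  exact (mul_eq_zero.mp key).resolve_left (mul_ne_zero htn (h.pos 0).ne')

end CaseA

open CaseA in
/-- the case of one isosceles face -/
theorem caseA' {θ : Fin 6 → ℝ} {a : Fin 4 → ℝ} (h : Geo θ a)
    (h1 : a 2 * sin (θ 0) = a 1 * sin (θ 1))
    (hiso : cos (θ 4) * sin (θ 1) - cos (θ 5) * sin (θ 0) + cos (θ 3) * sin (θ 1 - θ 0) = 0)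
    (hΦ : AA (θ 0 + θ 1)) (h3 : AA (θ 3)) (h4 : AA (θ 4)) (h5 : AA (θ 5)) :
    AA (θ 0) := by
  by_contra hx
  have hi : cos (θ 4) * sin (θ 0 + θ 1 - θ 0) - cos (θ 5) * sin (θ 0) +
      cos (θ 3) * sin (θ 0 + θ 1 - 2 * θ 0) = 0 := by
    have e1 : θ 0 + θ 1 - θ 0 = θ 1 := by ring
    have e2 : θ 0 + θ 1 - 2 * θ 0 = θ 1 - θ 0 := by ring
    rw [e1, e2]
    exact hiso
  obtain ⟨c3, c5, c4⟩ := aux hΦ h3 h4 h5 hx hi
  obtain ⟨p0, q0⟩ := h.mem 0
  obtain ⟨p1, q1⟩ := h.mem 1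
  rcases mul_eq_zero.mp c4 with c4 | c4
  · -- all three cosines vanish
    have c5' : cos (θ 5) = 0 := by rw [c4] at c5; linarith
    have := h.r0
    rw [c3, c4, c5'] at this
    have := h.pos 0
    linarith
  · -- `Φ = π`
    have hpi : θ 0 + θ 1 = π := by
      by_contra hne
      rcases lt_or_gt_of_ne hne with hl | hg
      · exact (sin_pos_of_pos_of_lt_pi (by linarith) hl).ne' c4
      · have := sin_neg_of_neg_of_neg_pi_lt (x := θ 0 + θ 1 - 2 * π) (by linarith) (by linarith)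
        rw [sin_sub_two_pi] at this
        exact this.ne c4
    have e1 : θ 1 = π - θ 0 := by linarith
    have s0 : 0 < sin (θ 0) := sin_pos_of_pos_of_lt_pi p0 q0
    rw [e1, sin_pi_sub] at h1
    have h12 : a 2 = a 1 := mul_right_cancel₀ s0.ne' h1
    have := h.r3
    rw [c3, e1, cos_pi_sub, h12] at this
    have := h.pos 3
    linarith

set_option linter.unusedVariables false in
/-- package A1 -/
theorem caseA {θ : Fin 6 → ℝ} {a : Fin 4 → ℝ} (h : Geo θ a)
    (h1 : a 2 * sin (θ 0) = a 1 * sin (θ 1)) (hΦ : AA (θ 0 + θ 1))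
    (h2 : AA (θ 2)) (h3 : AA (θ 3)) (h4 : AA (θ 4)) (h5 : AA (θ 5)) : AA (θ 0) :=
  caseA' h h1 (CaseA.iso h h1) hΦ h3 h4 h5

end Pool.Agent.TFF
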