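import Pool.Agent.TFF.Defs
import Pool.Agent.TetRot.Ultra

/-! # Two isosceles faces on the two ends of an edge, case B (helper57) -/

set_option autoImplicit false

open Real

namespace Pool.Agent.TFF

namespace B57

open Pool.Agent.TetRot

/-- `exp (i x)` -/
noncomputable def E (x : ℝ) : ℂ := Complex.exp (x * Complex.I)

theorem E_ne (x : ℝ) : E x ≠ 0 := Complex.exp_ne_zero _

theorem E_add (x y : ℝ) : E (x + y) = E x * E y := by
  unfold E
  rw [← Complex.exp_add]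
  congr 1
  push_cast
  ring

theorem E_neg (x : ℝ) : E (-x) = (E x)⁻¹ := by
  unfold E
  rw [← Complex.exp_neg]
  congr 1
  push_cast
  ring

theorem cos_E (x : ℝ) : ((cos x : ℝ) : ℂ) = (E x + (E x)⁻¹) * (1 / 2 : ℚ) := by
  rw [← E_neg, Complex.ofReal_cos, Complex.cos]
  unfold E
  push_cast
  ring_nf

theorem sin_E (x : ℝ) : ((sin x : ℝ) : ℂ) * Complex.I = (E x - (E x)⁻¹) * (1 / 2 : ℚ) := by
  rw [← E_neg, Complex.ofReal_sin, Complex.sin]
  unfold E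
  push_cast
  ring_nf
  rw [Complex.I_sq]
  ring

variable (p : Place)

/-- the value of `exp (i x)` -/
noncomputable def tv (x : ℝ) : ℚ := p.v (E x)

theorem tv_add (x y : ℝ) : tv p (x + y) = tv p x + tv p y := by
  unfold tv
  rw [E_add, p.mul _ _ (E_ne x) (E_ne y)]

theorem tv_neg (x : ℝ) : tv p (-x) = - tv p x := by
  unfold tv
  rw [E_neg, p.inv _ (E_ne x)]

theorem tv_sub (x y : ℝ) : tv p (x - y) = tv p x - tv p y := by
  rw [sub_eq_add_neg, tv_add, tv_neg]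
  ring

theorem tv_AA {x : ℝ} (h : AA x) : tv p x = 0 := p.alg _ (E_ne x) h

/-- the value is at least `r`, or the number is zero -/
def Ge (r : ℚ) (z : ℂ) : Prop := z = 0 ∨ r ≤ p.v z

variable {p}

theorem Ge.add {r : ℚ} {z w : ℂ} (hz : Ge p r z) (hw : Ge p r w) : Ge p r (z + w) := by
  by_cases h0 : z + w = 0
  · exact Or.inl h0
  rcases hz with rfl | hz
  · rw [zero_add]
    exact hw
  rcases hw with rfl | hw
  · rw [add_zero]
    exact Or.inr hz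
  by_cases z0 : z = 0
  · rw [z0, zero_add]
    exact Or.inr hw
  by_cases w0 : w = 0
  · rw [w0, add_zero]
    exact Or.inr hz
  exact Or.inr (le_trans (le_min hz hw) (p.add z w z0 w0 h0))

theorem Ge.neg {r : ℚ} {z : ℂ} (hz : Ge p r z) : Ge p r (-z) := by
  rcases hz with rfl | hz
  · exact Or.inl neg_zero
  · exact Or.inr (by rw [p.neg]; exact hz)

theorem Ge.sub {r : ℚ} {z w : ℂ} (hz : Ge p r z) (hw : Ge p r w) : Ge p r (z - w) := by
  rw [sub_eq_add_neg]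
  exact hz.add hw.neg

theorem Ge.mul {r s : ℚ} {z w : ℂ} (hz : Ge p r z) (hw : Ge p s w) : Ge p (r + s) (z * w) := by
  by_cases z0 : z = 0
  · exact Or.inl (by rw [z0, zero_mul])
  by_cases w0 : w = 0
  · exact Or.inl (by rw [w0, mul_zero])
  right
  rw [p.mul z w z0 w0]
  exact add_le_add (hz.resolve_left z0) (hw.resolve_left w0)

theorem Ge.mono {r s : ℚ} {z : ℂ} (h : s ≤ r) (hz : Ge p r z) : Ge p s z :=
  hz.imp id fun hz => le_trans h hz

theorem Ge.of_alg {z : ℂ} (hz : IsAlgebraic ℚ z) : Ge p 0 z := by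
  by_cases z0 : z = 0
  · exact Or.inl z0
  · exact Or.inr (p.alg z z0 hz).ge

theorem alg_zero {r : ℚ} (hr : 0 < r) {z : ℂ} (hz : IsAlgebraic ℚ z) (h : Ge p r z) : z = 0 := by
  by_contra z0
  have h1 := h.resolve_left z0
  rw [p.alg z z0 hz] at h1
  exact absurd hr (not_lt.2 h1)

theorem half_ne : (((1 / 2 : ℚ)) : ℂ) ≠ 0 := by norm_num

theorem half_v : p.v ((1 / 2 : ℚ) : ℂ) = 0 := p.rat (1 / 2) (by norm_num)

theorem E_ge (x : ℝ) : Ge p (-|tv p x|) (E x) := Or.inr (neg_abs_le _)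

theorem E_inv_ge (x : ℝ) : Ge p (-|tv p x|) (E x)⁻¹ := by
  right
  rw [p.inv _ (E_ne x)]
  exact neg_le_neg (le_abs_self _)

theorem cos_ge (x : ℝ) : Ge p (-|tv p x|) ((cos x : ℝ) : ℂ) := by
  rw [cos_E]
  have h := ((E_ge (p := p) x).add (E_inv_ge x)).mul (Or.inr half_v.ge : Ge p 0 ((1 / 2 : ℚ) : ℂ))
  rwa [add_zero] at h

theorem sin_ge (x : ℝ) : Ge p (-|tv p x|) ((sin x : ℝ) : ℂ) := by
  have h := ((E_ge (p := p) x).sub (E_inv_ge x)).mul (Or.inr half_v.ge : Ge p 0 ((1 / 2 : ℚ) : ℂ))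
  rw [← sin_E, add_zero] at h
  rcases h with h | h
  · left
    exact (mul_eq_zero.1 h).resolve_right Complex.I_ne_zero
  · by_cases h0 : ((sin x : ℝ) : ℂ) = 0
    · exact Or.inl h0
    · right
      rwa [p.mul _ _ h0 Complex.I_ne_zero, p.vI, add_zero] at h

theorem cos_v {x : ℝ} (hx : tv p x ≠ 0) : ((cos x : ℝ) : ℂ) ≠ 0 ∧
    p.v ((cos x : ℝ) : ℂ) = -|tv p x| := by
  have h1 : p.v (E x)⁻¹ = - tv p x := p.inv _ (E_ne x)
  rw [cos_E]
  rcases lt_or_gt_of_ne hx with h | h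
  · have h2 := p.add_lt (E x) (E x)⁻¹ (E_ne x) (inv_ne_zero (E_ne x)) (by
      rw [h1]
      change tv p x < _
      linarith)
    refine ⟨mul_ne_zero h2.1 half_ne, ?_⟩
    rw [p.mul _ _ h2.1 half_ne, h2.2, half_v, add_zero, abs_of_neg h, neg_neg]
    rfl
  · have h2 := p.add_lt (E x)⁻¹ (E x) (inv_ne_zero (E_ne x)) (E_ne x) (by
      rw [h1]
      change _ < tv p x
      linarith)
    rw [add_comm] at h2
    refine ⟨mul_ne_zero h2.1 half_ne, ?_⟩
    rw [p.mul _ _ h2.1 half_ne, h2.2, half_v, add_zero, abs_of_pos h, h1]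

theorem sin_v {x : ℝ} (hx : tv p x ≠ 0) : ((sin x : ℝ) : ℂ) ≠ 0 ∧
    p.v ((sin x : ℝ) : ℂ) = -|tv p x| := by
  have h1 : p.v (E x)⁻¹ = - tv p x := p.inv _ (E_ne x)
  have key : E x - (E x)⁻¹ ≠ 0 ∧ p.v (E x - (E x)⁻¹) = -|tv p x| := by
    rcases lt_or_gt_of_ne hx with h | h
    · have h2 := p.add_lt (E x) (-(E x)⁻¹) (E_ne x) (neg_ne_zero.2 (inv_ne_zero (E_ne x))) (by
        rw [p.neg, h1]
        change tv p x < _
        linarith)
      rw [← sub_eq_add_neg] at h2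
      refine ⟨h2.1, ?_⟩
      rw [h2.2, abs_of_neg h, neg_neg]
      rfl
    · have h2 := p.add_lt (-(E x)⁻¹) (E x) (neg_ne_zero.2 (inv_ne_zero (E_ne x))) (E_ne x) (by
        rw [p.neg, h1]
        change _ < tv p x
        linarith)
      rw [add_comm, ← sub_eq_add_neg] at h2
      refine ⟨h2.1, ?_⟩
      rw [h2.2, abs_of_pos h, p.neg, h1]
  have h3 : ((sin x : ℝ) : ℂ) * Complex.I ≠ 0 := by
    rw [sin_E]
    exact mul_ne_zero key.1 half_ne
  have h4 : ((sin x : ℝ) : ℂ) ≠ 0 := left_ne_zero_of_mul h3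
  refine ⟨h4, ?_⟩
  have h5 : p.v (((sin x : ℝ) : ℂ) * Complex.I) = -|tv p x| := by
    rw [sin_E, p.mul _ _ key.1 half_ne, half_v, add_zero, key.2]
  rwa [p.mul _ _ h4 Complex.I_ne_zero, p.vI, add_zero] at h5

theorem AA_add {x y : ℝ} (hx : AA x) (hy : AA y) : AA (x + y) := by
  have h := IsAlgebraic.mul hx hy
  change IsAlgebraic ℚ (E x * E y) at h
  rw [← E_add] at h
  exact h

theorem AA_neg {x : ℝ} (hx : AA x) : AA (-x) := by
  have h := IsAlgebraic.inv hx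
  change IsAlgebraic ℚ (E x)⁻¹ at h
  rw [← E_neg] at h
  exact h

theorem AA_sub {x y : ℝ} (hx : AA x) (hy : AA y) : AA (x - y) := by
  rw [sub_eq_add_neg]
  exact AA_add hx (AA_neg hy)

theorem AA_of_two {x : ℝ} (hx : AA (x + x)) : AA x := by
  change IsAlgebraic ℚ (E (x + x)) at hx
  rw [E_add, ← pow_two] at hx
  exact IsAlgebraic.of_pow (n := 2) (by norm_num) hx

theorem alg_half : IsAlgebraic ℚ ((1 / 2 : ℚ) : ℂ) := by
  have h := isAlgebraic_algebraMap (R := ℚ) (A := ℂ) (1 / 2)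
  simpa using h

theorem cos_alg {x : ℝ} (hx : AA x) : IsAlgebraic ℚ ((cos x : ℝ) : ℂ) := by
  rw [cos_E]
  exact (IsAlgebraic.add hx (IsAlgebraic.inv hx)).mul alg_half

theorem I_alg : IsAlgebraic ℚ Complex.I := by
  refine IsAlgebraic.of_pow (n := 2) (by norm_num) ?_
  rw [Complex.I_sq]
  exact isAlgebraic_one.neg

theorem sin_alg {x : ℝ} (hx : AA x) : IsAlgebraic ℚ ((sin x : ℝ) : ℂ) := by
  have h : ((sin x : ℝ) : ℂ) = (E x - (E x)⁻¹) * ((1 / 2 : ℚ) : ℂ) * (Complex.I)⁻¹ := by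
    rw [← sin_E, mul_assoc, mul_inv_cancel₀ Complex.I_ne_zero, mul_one]
  rw [h]
  exact ((IsAlgebraic.sub hx (IsAlgebraic.inv hx)).mul alg_half).mul I_alg.inv

/-- a linear relation between `sin x` and `cos x` is trivial if `x` is not algebraic -/
theorem no_rel {x : ℝ} (hx : ¬ AA x) {A B : ℝ} (hA : IsAlgebraic ℚ (A : ℂ))
    (hB : IsAlgebraic ℚ (B : ℂ)) (h : A * sin x = B * cos x) : A = 0 ∧ B = 0 := by
  by_contra hne
  apply hx
  have h1 : (A : ℂ) * ((sin x : ℝ) : ℂ) = B * ((cos x : ℝ) : ℂ) := by exact_mod_cast h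
  have h2 : (A : ℂ) * ((E x - (E x)⁻¹) * ((1 / 2 : ℚ) : ℂ)) =
      B * Complex.I * ((E x + (E x)⁻¹) * ((1 / 2 : ℚ) : ℂ)) := by
    rw [← sin_E, ← cos_E]
    linear_combination Complex.I * h1
  have h3 : ((A : ℂ) - B * Complex.I) * E x ^ 2 = A + B * Complex.I := by
    have h4 := E_ne x
    have h5 : (((1 / 2 : ℚ)) : ℂ) ≠ 0 := half_ne
    have h6 : (A : ℂ) * (E x - (E x)⁻¹) = B * Complex.I * (E x + (E x)⁻¹) := by
      apply mul_right_cancel₀ h5
      linear_combination h2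
    have h7 : (E x)⁻¹ * E x = 1 := inv_mul_cancel₀ h4
    linear_combination E x * h6 + ((A : ℂ) + B * Complex.I) * h7
  have h4 : (A : ℂ) - B * Complex.I ≠ 0 := by
    intro h5
    apply hne
    have h6 := congrArg Complex.re h5
    have h7 := congrArg Complex.im h5
    simp at h6 h7
    exact ⟨h6, h7⟩
  have h5 : E x ^ 2 = (A + B * Complex.I) * ((A : ℂ) - B * Complex.I)⁻¹ := by
    rw [← h3]
    field_simp
  refine IsAlgebraic.of_pow (n := 2) (by norm_num) ?_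
  change IsAlgebraic ℚ (E x ^ 2)
  rw [h5]
  exact (hA.add (hB.mul I_alg)).mul (hA.sub (hB.mul I_alg)).inv

theorem exists_tv {x : ℝ} (hx : ¬ AA x) : ∃ p : Place, tv p x ≠ 0 := by
  obtain ⟨p, hp⟩ := exists_place _ hx
  exact ⟨p, ne_of_lt hp⟩

/-- the isosceles face with the two edges `0`, `1` -/
theorem iso01' {θ : Fin 6 → ℝ} {a : Fin 4 → ℝ} (h : Geo θ a)
    (h1 : a 2 * sin (θ 0) = a 1 * sin (θ 1)) :
    cos (θ 4) * sin (θ 1) - cos (θ 5) * sin (θ 0) + cos (θ 3) * sin (θ 1 - θ 0) = 0 := by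
  have hs0 : sin (θ 0) ≠ 0 := (sin_pos_of_pos_of_lt_pi (h.mem 0).1 (h.mem 0).2).ne'
  obtain ⟨t, ht⟩ : ∃ t, t = a 1 / sin (θ 0) := ⟨_, rfl⟩
  have e1 : a 1 = t * sin (θ 0) := by
    rw [ht]
    field_simp
  have e2 : a 2 = t * sin (θ 1) := by
    apply mul_right_cancel₀ hs0
    rw [h1, e1]
    ring
  have ht0 : t ≠ 0 := by
    intro h0
    have := h.pos 1
    rw [e1, h0, zero_mul] at this
    exact lt_irrefl _ this
  have r1 := h.r1
  have r2 := h.r2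
  have r3 := h.r3
  rw [e1, e2] at r1 r2 r3
  have P0 := sin_sq_add_cos_sq (θ 0)
  have P1 := sin_sq_add_cos_sq (θ 1)
  have ha := (h.pos 0).ne'
  rw [sin_sub]
  apply mul_left_cancel₀ (mul_ne_zero ha ht0)
  linear_combination (t * sin (θ 0)) * r1 - (t * sin (θ 1)) * r2 -
    (t * (sin (θ 1) * cos (θ 0) - sin (θ 0) * cos (θ 1))) * r3 +
    t ^ 2 * sin (θ 0) ^ 2 * P1 - t ^ 2 * sin (θ 1) ^ 2 * P0

/-- the isosceles face with the two edges `3`, `4` -/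
theorem iso34' {θ : Fin 6 → ℝ} {a : Fin 4 → ℝ} (h : Geo θ a)
    (h1 : a 3 * sin (θ 3) = a 2 * sin (θ 4)) :
    cos (θ 1) * sin (θ 4) - cos (θ 2) * sin (θ 3) + cos (θ 5) * sin (θ 4 - θ 3) = 0 := by
  have hs3 : sin (θ 3) ≠ 0 := (sin_pos_of_pos_of_lt_pi (h.mem 3).1 (h.mem 3).2).ne'
  obtain ⟨t, ht⟩ : ∃ t, t = a 2 / sin (θ 3) := ⟨_, rfl⟩
  have e2 : a 2 = t * sin (θ 3) := by
    rw [ht]
    field_simp
  have e3 : a 3 = t * sin (θ 4) := by
    apply mul_right_cancel₀ hs3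
    rw [h1, e2]
    ring
  have ht0 : t ≠ 0 := by
    intro h0
    have := h.pos 2
    rw [e2, h0, zero_mul] at this
    exact lt_irrefl _ this
  have r0 := h.r0
  have r2 := h.r2
  have r3 := h.r3
  rw [e2, e3] at r0 r2 r3
  have P3 := sin_sq_add_cos_sq (θ 3)
  have P4 := sin_sq_add_cos_sq (θ 4)
  have ha := (h.pos 1).ne'
  rw [sin_sub]
  apply mul_left_cancel₀ (mul_ne_zero ha ht0)
  linear_combination (t * sin (θ 3)) * r2 - (t * sin (θ 4)) * r3 -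
    (t * (sin (θ 4) * cos (θ 3) - sin (θ 3) * cos (θ 4))) * r0 +
    t ^ 2 * sin (θ 3) ^ 2 * P4 - t ^ 2 * sin (θ 4) ^ 2 * P3

end B57

open B57 in
theorem caseB {θ : Fin 6 → ℝ} {a : Fin 4 → ℝ} (h : Geo θ a)
    (h1 : a 2 * sin (θ 0) = a 1 * sin (θ 1))
    (h3 : a 3 * sin (θ 3) = a 2 * sin (θ 4)) (hΦ1 : AA (θ 0 + θ 1)) (hΦ2 : AA (θ 3 + θ 4))
    (hτ : AA (θ 2)) (hσ : AA (θ 5)) (hx : ¬ AA (θ 0)) (hy : ¬ AA (θ 3)) :
    θ 5 = π / 2 ∧ θ 0 + θ 1 = π ∧ θ 2 = π / 3 ∧ θ 3 + θ 4 = π / 2 ∧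
      2 * cos (θ 0) * cos (θ 3) + sin (θ 3) = 0 := by
  have M1 := iso01' h h1
  have M2 := iso34' h h3
  have hm := h.mem
  have M1c : ((cos (θ 4) : ℝ) : ℂ) * ((sin (θ 1) : ℝ) : ℂ) -
      ((cos (θ 5) : ℝ) : ℂ) * ((sin (θ 0) : ℝ) : ℂ) +
      ((cos (θ 3) : ℝ) : ℂ) * ((sin (θ 1 - θ 0) : ℝ) : ℂ) = 0 := by exact_mod_cast M1
  have M2c : ((cos (θ 1) : ℝ) : ℂ) * ((sin (θ 4) : ℝ) : ℂ) -
      ((cos (θ 2) : ℝ) : ℂ) * ((sin (θ 3) : ℝ) : ℂ) +
      ((cos (θ 5) : ℝ) : ℂ) * ((sin (θ 4 - θ 3) : ℝ) : ℂ) = 0 := by exact_mod_cast M2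
  have t1 : ∀ p : TetRot.Place, tv p (θ 1) = - tv p (θ 0) := by
    intro p
    have := tv_AA p hΦ1
    rw [tv_add] at this
    linarith
  have t4 : ∀ p : TetRot.Place, tv p (θ 4) = - tv p (θ 3) := by
    intro p
    have := tv_AA p hΦ2
    rw [tv_add] at this
    linarith
  have hc3 : cos (θ 3) ≠ 0 := by
    intro h0
    apply hy
    have h2 := no_rel (x := θ 3)
    by_contra hy'
    have := (h2 hy' (A := 0) (B := 1) (by simpa using isAlgebraic_zero)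
      (by simpa using isAlgebraic_one) (by rw [h0]; ring)).2
    exact one_ne_zero this
  -- a place with `tv (θ 0) ≠ 0`
  have st1 : ∀ p : TetRot.Place, tv p (θ 0) ≠ 0 → tv p (θ 3) = 0 ∧ cos (θ 3 + θ 4) = 0 := by
    intro p hp
    have hX : 0 < |tv p (θ 0)| := abs_pos.2 hp
    have a1 : |tv p (θ 1)| = |tv p (θ 0)| := by rw [t1, abs_neg]
    have a4 : |tv p (θ 4)| = |tv p (θ 3)| := by rw [t4, abs_neg]
    have t10 : tv p (θ 1 - θ 0) = -(2 * tv p (θ 0)) := by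
      rw [tv_sub, t1]
      ring
    have a10 : |tv p (θ 1 - θ 0)| = 2 * |tv p (θ 0)| := by
      rw [t10, abs_neg, abs_mul, abs_two]
    have n10 : tv p (θ 1 - θ 0) ≠ 0 := by
      rw [t10]
      exact neg_ne_zero.2 (mul_ne_zero two_ne_zero hp)
    obtain ⟨s10, v10⟩ := sin_v n10
    have T1 := (cos_ge (p := p) (θ 4)).mul (sin_ge (p := p) (θ 1))
    have T2 := (Ge.of_alg (p := p) (cos_alg hσ)).mul (sin_ge (p := p) (θ 0))
    rw [a4, a1] at T1
    have T3 : Ge p (-|tv p (θ 3)| + -|tv p (θ 0)|)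
        (((cos (θ 3) : ℝ) : ℂ) * ((sin (θ 1 - θ 0) : ℝ) : ℂ)) := by
      have e : ((cos (θ 3) : ℝ) : ℂ) * ((sin (θ 1 - θ 0) : ℝ) : ℂ) =
          ((cos (θ 5) : ℝ) : ℂ) * ((sin (θ 0) : ℝ) : ℂ) -
          ((cos (θ 4) : ℝ) : ℂ) * ((sin (θ 1) : ℝ) : ℂ) := by linear_combination M1c
      rw [e]
      refine (T2.mono ?_).sub T1
      have := abs_nonneg (tv p (θ 3))
      linarith
    have c3 : ((cos (θ 3) : ℝ) : ℂ) ≠ 0 := by exact_mod_cast hc3
    have T3' := T3.resolve_left (mul_ne_zero c3 s10)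
    rw [p.mul _ _ c3 s10, v10, a10] at T3'
    have hy0 : tv p (θ 3) = 0 := by
      by_contra hy0
      rw [(cos_v hy0).2] at T3'
      linarith
    have vc3 : |tv p (θ 0)| ≤ p.v ((cos (θ 3) : ℝ) : ℂ) := by
      rw [hy0, abs_zero] at T3'
      linarith
    refine ⟨hy0, ?_⟩
    -- `sin (θ 4)` is small
    have b3 : Ge p 0 ((sin (θ 3) : ℝ) : ℂ) := by
      have := sin_ge (p := p) (θ 3)
      rwa [hy0, abs_zero, neg_zero] at this
    have b4 : Ge p 0 ((cos (θ 4) : ℝ) : ℂ) := by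
      have := cos_ge (p := p) (θ 4)
      rwa [a4, hy0, abs_zero, neg_zero] at this
    have b43 : Ge p 0 ((sin (θ 4 - θ 3) : ℝ) : ℂ) := by
      have := sin_ge (p := p) (θ 4 - θ 3)
      rwa [tv_sub, t4, hy0, neg_zero, sub_zero, abs_zero, neg_zero] at this
    have U : Ge p 0 (((cos (θ 1) : ℝ) : ℂ) * ((sin (θ 4) : ℝ) : ℂ)) := by
      have e : ((cos (θ 1) : ℝ) : ℂ) * ((sin (θ 4) : ℝ) : ℂ) =
          ((cos (θ 2) : ℝ) : ℂ) * ((sin (θ 3) : ℝ) : ℂ) -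
          ((cos (θ 5) : ℝ) : ℂ) * ((sin (θ 4 - θ 3) : ℝ) : ℂ) := by linear_combination M2c
      rw [e]
      have u1 := (Ge.of_alg (p := p) (cos_alg hτ)).mul b3
      have u2 := (Ge.of_alg (p := p) (cos_alg hσ)).mul b43
      rw [add_zero] at u1 u2
      exact u1.sub u2
    obtain ⟨c1, w1⟩ := cos_v (p := p) (x := θ 1) (by rw [t1]; exact neg_ne_zero.2 hp)
    have s4 : ((sin (θ 4) : ℝ) : ℂ) ≠ 0 := by
      have := sin_pos_of_pos_of_lt_pi (hm 4).1 (hm 4).2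
      exact_mod_cast this.ne'
    have U' := U.resolve_left (mul_ne_zero c1 s4)
    rw [p.mul _ _ c1 s4, w1, a1] at U'
    have g3 : Ge p (|tv p (θ 0)|) ((cos (θ 3) : ℝ) : ℂ) := Or.inr vc3
    have g4 : Ge p (|tv p (θ 0)|) ((sin (θ 4) : ℝ) : ℂ) := Or.inr (by linarith)
    have g := (g3.mul b4).sub (g4.mul b3)
    have e : ((cos (θ 3) : ℝ) : ℂ) * ((cos (θ 4) : ℝ) : ℂ) -
        ((sin (θ 4) : ℝ) : ℂ) * ((sin (θ 3) : ℝ) : ℂ) = ((cos (θ 3 + θ 4) : ℝ) : ℂ) := by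
      rw [cos_add]
      push_cast
      ring
    rw [e, add_zero] at g
    exact_mod_cast alg_zero hX (cos_alg hΦ2) g
  obtain ⟨p, hp⟩ := exists_tv hx
  obtain ⟨q, hq⟩ := exists_tv hy
  have hcΦ2 := (st1 p hp).2
  -- a place with `tv (θ 3) ≠ 0`
  have hc5 : cos (θ 5) = 0 := by
    by_contra h5
    have hx0 : tv q (θ 0) = 0 := by
      by_contra hx0
      exact hq (st1 q hx0).1
    have hY : 0 < |tv q (θ 3)| := abs_pos.2 hq
    have a4 : |tv q (θ 4)| = |tv q (θ 3)| := by rw [t4, abs_neg]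
    have t43 : tv q (θ 4 - θ 3) = -(2 * tv q (θ 3)) := by
      rw [tv_sub, t4]
      ring
    have a43 : |tv q (θ 4 - θ 3)| = 2 * |tv q (θ 3)| := by
      rw [t43, abs_neg, abs_mul, abs_two]
    have n43 : tv q (θ 4 - θ 3) ≠ 0 := by
      rw [t43]
      exact neg_ne_zero.2 (mul_ne_zero two_ne_zero hq)
    obtain ⟨s43, v43⟩ := sin_v n43
    have b1 : Ge q 0 ((cos (θ 1) : ℝ) : ℂ) := by
      have := cos_ge (p := q) (θ 1)
      rwa [t1, hx0, neg_zero, abs_zero, neg_zero] at this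
    have c5 : ((cos (θ 5) : ℝ) : ℂ) ≠ 0 := by exact_mod_cast h5
    have U : Ge q (0 + -|tv q (θ 3)|)
        (((cos (θ 5) : ℝ) : ℂ) * ((sin (θ 4 - θ 3) : ℝ) : ℂ)) := by
      have e : ((cos (θ 5) : ℝ) : ℂ) * ((sin (θ 4 - θ 3) : ℝ) : ℂ) =
          ((cos (θ 2) : ℝ) : ℂ) * ((sin (θ 3) : ℝ) : ℂ) -
          ((cos (θ 1) : ℝ) : ℂ) * ((sin (θ 4) : ℝ) : ℂ) := by linear_combination M2c
      rw [e]
      have u1 := (Ge.of_alg (p := q) (cos_alg hτ)).mul (sin_ge (p := q) (θ 3))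
      have u2 := b1.mul (sin_ge (p := q) (θ 4))
      rw [a4] at u2
      exact u1.sub u2
    have U' := U.resolve_left (mul_ne_zero c5 s43)
    rw [q.mul _ _ c5 s43, v43, a43, q.alg _ c5 (cos_alg hσ)] at U'
    linarith
  have hs : θ 5 = π / 2 := by
    have h0 := hm 5
    have : cos (θ 5) = cos (π / 2) := by rw [hc5, cos_pi_div_two]
    exact injOn_cos ⟨h0.1.le, h0.2.le⟩ ⟨by positivity, by linarith [pi_pos]⟩ this
  -- `θ 3 + θ 4 = π / 2`
  have hΦ2' : θ 3 + θ 4 = π / 2 := by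
    have h0 := hm 3
    have h0' := hm 4
    by_cases hle : θ 3 + θ 4 ≤ π
    · have : cos (θ 3 + θ 4) = cos (π / 2) := by rw [hcΦ2, cos_pi_div_two]
      exact injOn_cos ⟨by linarith, hle⟩ ⟨by positivity, by linarith [pi_pos]⟩ this
    · exfalso
      have hgt := not_le.1 hle
      have e : cos (θ 3 + θ 4 - π) = cos (π / 2) := by
        rw [cos_sub_pi, hcΦ2, cos_pi_div_two, neg_zero]
      have e2 : θ 3 + θ 4 - π = π / 2 :=
        injOn_cos ⟨by linarith, by linarith⟩ ⟨by positivity, by linarith [pi_pos]⟩ e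
      have k3 : cos (θ 3) < 0 := cos_neg_of_pi_div_two_lt_of_lt (by linarith) (by linarith [pi_pos])
      have k4 : cos (θ 4) < 0 := cos_neg_of_pi_div_two_lt_of_lt (by linarith) (by linarith [pi_pos])
      have r0 := h.r0
      rw [hc5, mul_zero, zero_add] at r0
      have p0 := h.pos 0
      have p2 := mul_neg_of_pos_of_neg (h.pos 2) k4
      have p3 := mul_neg_of_pos_of_neg (h.pos 3) k3
      linarith
  have h4e : θ 4 = π / 2 - θ 3 := by linarith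
  have c4 : cos (θ 4) = sin (θ 3) := by rw [h4e, cos_pi_div_two_sub]
  have s4 : sin (θ 4) = cos (θ 3) := by rw [h4e, sin_pi_div_two_sub]
  rw [c4, hc5] at M1
  rw [s4, hc5] at M2
  -- the relation in `θ 1`
  have R : cos (θ 1) * sin (θ 1) + cos (θ 2) * sin (θ 1 - θ 0) = 0 := by
    apply mul_left_cancel₀ hc3
    linear_combination cos (θ 2) * M1 + sin (θ 1) * M2
  have hx1 : ¬ AA (θ 1 + θ 1) := by
    intro h2
    apply hx
    have h3 := AA_sub hΦ1 (AA_of_two h2)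
    have e : θ 0 + θ 1 - θ 1 = θ 0 := by ring
    rwa [e] at h3
  have R2 : (1 + 2 * cos (θ 2) * cos (θ 0 + θ 1)) * sin (θ 1 + θ 1) =
      (2 * cos (θ 2) * sin (θ 0 + θ 1)) * cos (θ 1 + θ 1) := by
    have e : θ 1 - θ 0 = (θ 1 + θ 1) - (θ 0 + θ 1) := by ring
    rw [e, sin_sub] at R
    have e2 : sin (θ 1 + θ 1) = 2 * (cos (θ 1) * sin (θ 1)) := by
      rw [sin_add]
      ring
    have e3 : cos (θ 1) * sin (θ 1) = sin (θ 1 + θ 1) / 2 := by rw [e2]; ring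
    rw [e3] at R
    linear_combination 2 * R
  have halg2 : IsAlgebraic ℚ (2 : ℂ) := by
    simpa using isAlgebraic_natCast (R := ℚ) (A := ℂ) 2
  obtain ⟨hA, hB⟩ := no_rel hx1
    (by
      rw [Complex.ofReal_add, Complex.ofReal_mul, Complex.ofReal_mul, Complex.ofReal_one,
        Complex.ofReal_ofNat]
      exact isAlgebraic_one.add ((halg2.mul (cos_alg hτ)).mul (cos_alg hΦ1)))
    (by
      rw [Complex.ofReal_mul, Complex.ofReal_mul, Complex.ofReal_ofNat]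
      exact (halg2.mul (cos_alg hτ)).mul (sin_alg hΦ1)) R2
  have hs01 : sin (θ 0 + θ 1) = 0 := by
    rcases mul_eq_zero.1 hB with h2 | h2
    · exfalso
      rw [h2] at hA
      norm_num at hA
    · exact h2
  have h01 : θ 0 + θ 1 = π := by
    have h0 := hm 0
    have h0' := hm 1
    obtain ⟨n, hn⟩ := sin_eq_zero_iff.1 hs01
    have hpi := pi_pos
    have n0 : (0 : ℝ) < n := by
      by_contra hh
      have : (n : ℝ) * π ≤ 0 := mul_nonpos_of_nonpos_of_nonneg (not_lt.1 hh) hpi.le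
      linarith
    have n2 : (n : ℝ) < 2 := by
      by_contra hh
      have : 2 * π ≤ (n : ℝ) * π := mul_le_mul_of_nonneg_right (not_lt.1 hh) hpi.le
      linarith
    have n1 : n = 1 := by
      have i0 : (0 : ℤ) < n := by exact_mod_cast n0
      have i2 : n < 2 := by exact_mod_cast n2
      omega
    rw [← hn, n1]
    simp
  have hc2 : cos (θ 2) = 1 / 2 := by
    rw [h01, cos_pi] at hA
    linarith
  have h2 : θ 2 = π / 3 := by
    have h0 := hm 2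
    have : cos (θ 2) = cos (π / 3) := by rw [hc2, cos_pi_div_three]
    exact injOn_cos ⟨h0.1.le, h0.2.le⟩ ⟨by positivity, by linarith [pi_pos]⟩ this
  refine ⟨hs, h01, h2, hΦ2', ?_⟩
  have h1e : θ 1 = π - θ 0 := by linarith
  have s1 : sin (θ 1) = sin (θ 0) := by rw [h1e, sin_pi_sub]
  have s10 : sin (θ 1 - θ 0) = 2 * sin (θ 0) * cos (θ 0) := by
    have : θ 1 - θ 0 = π - 2 * θ 0 := by linarith
    rw [this, sin_pi_sub, sin_two_mul]
  rw [s1, s10] at M1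
  have hs0 : sin (θ 0) ≠ 0 := (sin_pos_of_pos_of_lt_pi (hm 0).1 (hm 0).2).ne'
  apply mul_left_cancel₀ hs0
  linear_combination M1

end Pool.Agent.TFF
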