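import Pool.Agent.TFF.Defs

/-! # Tetrahedra that tile face-to-face: case C (helper4) -/

set_option autoImplicit false

namespace Pool.Agent.TFF

open Pool.Agent.TetRel Real
open Pool.Agent.TetRot (Place exists_place)

namespace CC

noncomputable def ex (x : ℝ) : ℂ := Complex.exp (x * Complex.I)

noncomputable def tt (p : Place) (x : ℝ) : ℚ := p.v (ex x)

theorem ex_ne (x : ℝ) : ex x ≠ 0 := Complex.exp_ne_zero _

theorem ex_add (x y : ℝ) : ex (x + y) = ex x * ex y := by
  unfold ex
  rw [← Complex.exp_add]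
  push_cast
  ring_nf

theorem tt_add (p : Place) (x y : ℝ) : tt p (x + y) = tt p x + tt p y := by
  unfold tt
  rw [ex_add, p.mul _ _ (ex_ne x) (ex_ne y)]

theorem tt_zero (p : Place) : tt p 0 = 0 := by
  have h := tt_add p 0 0
  rw [add_zero] at h
  linarith

theorem tt_neg (p : Place) (x : ℝ) : tt p (-x) = -tt p x := by
  have h := tt_add p x (-x)
  rw [add_neg_cancel, tt_zero] at h
  linarith

theorem tt_sub (p : Place) (x y : ℝ) : tt p (x - y) = tt p x - tt p y := by
  rw [sub_eq_add_neg, tt_add, tt_neg, sub_eq_add_neg]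

theorem tt_AA (p : Place) {x : ℝ} (h : AA x) : tt p x = 0 := p.alg _ (ex_ne x) h

theorem exists_tt {x : ℝ} (h : ¬ AA x) : ∃ p : Place, tt p x ≠ 0 := by
  obtain ⟨p, hp⟩ := exists_place (ex x) h
  exact ⟨p, hp.ne⟩

theorem AA_add {x y : ℝ} (hx : AA x) (hy : AA y) : AA (x + y) := by
  have h : IsAlgebraic ℚ (ex x * ex y) := IsAlgebraic.mul hx hy
  rw [← ex_add] at h
  exact h

theorem ex_neg (x : ℝ) : ex (-x) = (ex x)⁻¹ := by
  have h := ex_add x (-x)
  rw [add_neg_cancel] at h
  have h0 : ex 0 = 1 := by simp [ex]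
  rw [h0] at h
  exact eq_inv_of_mul_eq_one_right h.symm

theorem AA_neg {x : ℝ} (hx : AA x) : AA (-x) := by
  have h : IsAlgebraic ℚ ((ex x)⁻¹) := IsAlgebraic.inv hx
  rw [← ex_neg] at h
  exact h

theorem AA_sub {x y : ℝ} (hx : AA x) (hy : AA y) : AA (x - y) := by
  rw [sub_eq_add_neg]
  exact AA_add hx (AA_neg hy)

theorem algI : IsAlgebraic ℚ Complex.I := by
  refine IsAlgebraic.of_pow (n := 2) (by norm_num) ?_
  rw [Complex.I_sq]
  exact isAlgebraic_one.neg

theorem cos_ex (x : ℝ) : ((cos x : ℝ) : ℂ) = (ex x + ex (-x)) / 2 := by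
  rw [Complex.ofReal_cos, Complex.cos]
  unfold ex
  push_cast
  ring_nf

theorem sin_ex (x : ℝ) : ((sin x : ℝ) : ℂ) = (ex (-x) - ex x) * (Complex.I / 2) := by
  rw [Complex.ofReal_sin, Complex.sin]
  unfold ex
  push_cast
  ring_nf

theorem alg_two : IsAlgebraic ℚ (2 : ℂ) := by
  have h := isAlgebraic_natCast (R := ℚ) (A := ℂ) 2
  exact_mod_cast h

theorem alg_cos {x : ℝ} (h : AA x) : IsAlgebraic ℚ ((cos x : ℝ) : ℂ) := by
  rw [cos_ex, div_eq_mul_inv]
  have h1 : IsAlgebraic ℚ (ex x) := h
  have h2 : IsAlgebraic ℚ (ex (-x)) := AA_neg h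
  exact (h1.add h2).mul alg_two.inv

theorem alg_sin {x : ℝ} (h : AA x) : IsAlgebraic ℚ ((sin x : ℝ) : ℂ) := by
  rw [sin_ex, div_eq_mul_inv]
  have h1 : IsAlgebraic ℚ (ex x) := h
  have h2 : IsAlgebraic ℚ (ex (-x)) := AA_neg h
  exact (h2.sub h1).mul (algI.mul alg_two.inv)

/-- value at least `c` -/
def Ge (p : Place) (c : ℚ) (z : ℂ) : Prop := z = 0 ∨ c ≤ p.v z

/-- value exactly `c` -/
def Va (p : Place) (c : ℚ) (z : ℂ) : Prop := z ≠ 0 ∧ p.v z = c

theorem Va.ge {p : Place} {c : ℚ} {z : ℂ} (h : Va p c z) : Ge p c z := Or.inr h.2.ge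

theorem Ge.mono {p : Place} {c d : ℚ} {z : ℂ} (h : Ge p c z) (hd : d ≤ c) : Ge p d z :=
  h.imp id hd.trans

theorem Ge.mul {p : Place} {c d : ℚ} {z w : ℂ} (hz : Ge p c z) (hw : Ge p d w) :
    Ge p (c + d) (z * w) := by
  by_cases h1 : z = 0
  · exact Or.inl (by rw [h1, zero_mul])
  by_cases h2 : w = 0
  · exact Or.inl (by rw [h2, mul_zero])
  right
  rw [p.mul _ _ h1 h2]
  exact add_le_add (hz.resolve_left h1) (hw.resolve_left h2)

theorem Va.mul {p : Place} {c d : ℚ} {z w : ℂ} (hz : Va p c z) (hw : Va p d w) :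
    Va p (c + d) (z * w) :=
  ⟨mul_ne_zero hz.1 hw.1, by rw [p.mul _ _ hz.1 hw.1, hz.2, hw.2]⟩

theorem Ge.add {p : Place} {c : ℚ} {z w : ℂ} (hz : Ge p c z) (hw : Ge p c w) :
    Ge p c (z + w) := by
  by_cases h1 : z = 0
  · rw [h1, zero_add]; exact hw
  by_cases h2 : w = 0
  · rw [h2, add_zero]; exact hz
  by_cases h3 : z + w = 0
  · exact Or.inl h3
  right
  exact (le_min (hz.resolve_left h1) (hw.resolve_left h2)).trans (p.add _ _ h1 h2 h3)

theorem Ge.alg {p : Place} {z : ℂ} (h : IsAlgebraic ℚ z) : Ge p 0 z := by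
  by_cases h1 : z = 0
  · exact Or.inl h1
  · exact Or.inr (p.alg z h1 h).ge

theorem Va.alg {p : Place} {z : ℂ} (h : IsAlgebraic ℚ z) (h1 : z ≠ 0) : Va p 0 z :=
  ⟨h1, p.alg z h1 h⟩

theorem Ge.neg {p : Place} {c : ℚ} {z : ℂ} (hz : Ge p c z) : Ge p c (-z) := by
  have h1 : IsAlgebraic ℚ (-1 : ℂ) := isAlgebraic_one.neg
  have h := (Ge.alg (p := p) h1).mul hz
  rw [zero_add, neg_one_mul] at h
  exact h

theorem Va.neg {p : Place} {c : ℚ} {z : ℂ} (hz : Va p c z) : Va p c (-z) := by
  have h1 : IsAlgebraic ℚ (-1 : ℂ) := isAlgebraic_one.neg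
  have h := (Va.alg (p := p) h1 (by norm_num)).mul hz
  rw [zero_add, neg_one_mul] at h
  exact h

/-- a unique term of least value -/
theorem dom {p : Place} {c d : ℚ} {z w : ℂ} (hz : Va p c z) (hw : Ge p d w) (hcd : c < d) :
    z + w ≠ 0 := by
  intro h
  have h1 : w = -z := by linear_combination h
  rw [h1] at hw
  have h2 := hz.neg
  rcases hw with h3 | h3
  · exact h2.1 h3
  · rw [h2.2] at h3
    exact absurd hcd (not_lt.2 h3)

theorem Va.add {p : Place} {c d : ℚ} {z w : ℂ} (hz : Va p c z) (hw : Va p d w) (hcd : c < d) :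
    Va p c (z + w) := by
  have h0 := dom hz hw.ge hcd
  refine ⟨h0, le_antisymm ?_ ?_⟩
  · by_contra hlt
    rw [not_le] at hlt
    -- z = (z + w) + (-w)
    have h1 : Ge p (p.v (z + w)) (z + w) := Or.inr le_rfl
    have h2 : Ge p (min (p.v (z + w)) d) ((z + w) + (-w)) :=
      (h1.mono (min_le_left _ _)).add (hw.neg.ge.mono (min_le_right _ _))
    rw [add_neg_cancel_right] at h2
    have h3 := h2.resolve_left hz.1
    rw [hz.2] at h3
    exact absurd (lt_min hlt hcd) (not_lt.2 h3)
  · have h2 : Ge p c (z + w) := hz.ge.add (hw.ge.mono hcd.le)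
    exact h2.resolve_left h0

theorem Va_ex (p : Place) (x : ℝ) : Va p (tt p x) (ex x) := ⟨ex_ne x, rfl⟩

theorem Va_ex' (p : Place) (x : ℝ) : Va p (-tt p x) (ex (-x)) := ⟨ex_ne (-x), tt_neg p x⟩

theorem sin_ge (p : Place) (x : ℝ) : Ge p (-|tt p x|) ((sin x : ℝ) : ℂ) := by
  rw [sin_ex]
  have h1 : Ge p (-|tt p x|) (ex x) := (Va_ex p x).ge.mono (neg_abs_le _)
  have h2 : Ge p (-|tt p x|) (ex (-x)) :=
    (Va_ex' p x).ge.mono (neg_le_neg (le_abs_self _))
  have h3 : Ge p (-|tt p x|) (ex (-x) - ex x) := by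
    rw [sub_eq_add_neg]
    exact h2.add h1.neg
  have h4 : Ge p 0 (Complex.I / 2) := Ge.alg (by
    rw [div_eq_mul_inv]; exact algI.mul alg_two.inv)
  have h5 := h3.mul h4
  rwa [add_zero] at h5

theorem sin_va (p : Place) (x : ℝ) (h : tt p x ≠ 0) : Va p (-|tt p x|) ((sin x : ℝ) : ℂ) := by
  rw [sin_ex]
  have h4 : Va p 0 (Complex.I / 2) := Va.alg (by
    rw [div_eq_mul_inv]; exact algI.mul alg_two.inv) (by simp)
  have h3 : Va p (-|tt p x|) (ex (-x) - ex x) := by
    rw [sub_eq_add_neg]
    rcases lt_or_gt_of_ne h with h0 | h0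
    · rw [abs_of_neg h0, neg_neg, add_comm]
      exact (Va_ex p x).neg.add (Va_ex' p x) (by linarith)
    · rw [abs_of_pos h0]
      exact (Va_ex' p x).add (Va_ex p x).neg (by linarith)
  have h5 := h3.mul h4
  rwa [add_zero] at h5

theorem AA_half : AA (π / 2) := by
  have h : Complex.exp (((π / 2 : ℝ) : ℂ) * Complex.I) = Complex.I := by
    push_cast
    exact Complex.exp_pi_div_two_mul_I
  unfold AA
  rw [h]
  exact algI

theorem cos_sin (x : ℝ) : cos x = sin (x + π / 2) := (sin_add_pi_div_two x).symm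

theorem tt_cos (p : Place) (x : ℝ) : tt p (x + π / 2) = tt p x := by
  rw [tt_add, tt_AA p AA_half, add_zero]

theorem cos_ge (p : Place) (x : ℝ) : Ge p (-|tt p x|) ((cos x : ℝ) : ℂ) := by
  rw [cos_sin, ← tt_cos p x]
  exact sin_ge p _

theorem cos_va (p : Place) (x : ℝ) (h : tt p x ≠ 0) : Va p (-|tt p x|) ((cos x : ℝ) : ℂ) := by
  rw [cos_sin, ← tt_cos p x]
  exact sin_va p _ (by rwa [tt_cos])

/-- linear relations between `sin` and `cos` of a transcendental angle -/
theorem lin {y P Q : ℝ} (hy : ¬ AA y) (hP : IsAlgebraic ℚ (P : ℂ)) (hQ : IsAlgebraic ℚ (Q : ℂ))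
    (h : P * sin y + Q * cos y = 0) : P = 0 ∧ Q = 0 := by
  have h1 : (P : ℂ) * ((sin y : ℝ) : ℂ) + Q * ((cos y : ℝ) : ℂ) = 0 := by exact_mod_cast h
  rw [sin_ex, cos_ex] at h1
  have h2 : ex (-y) * ex y = 1 := by rw [ex_neg, inv_mul_cancel₀ (ex_ne y)]
  have h3 : (ex y) ^ 2 * ((Q : ℂ) - Complex.I * P) = -((Q : ℂ) + Complex.I * P) := by
    linear_combination 2 * ex y * h1 - (Complex.I * P + Q) * h2
  by_cases h4 : (Q : ℂ) - Complex.I * P = 0
  · have h5 := congrArg Complex.re h4
    have h6 := congrArg Complex.im h4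
    simp at h5 h6
    exact ⟨h6, h5⟩
  · exfalso
    apply hy
    have h5 : (ex y) ^ 2 = -((Q : ℂ) + Complex.I * P) * ((Q : ℂ) - Complex.I * P)⁻¹ := by
      rw [← h3, mul_inv_cancel_right₀ h4]
    have h6 : IsAlgebraic ℚ ((ex y) ^ 2) := by
      rw [h5]
      exact ((hQ.add (algI.mul hP)).neg).mul (hQ.sub (algI.mul hP)).inv
    exact IsAlgebraic.of_pow (n := 2) (by norm_num) h6

end CC

namespace CC

/-- the isosceles relation, first form -/
theorem iso03' {θ : Fin 6 → ℝ} {a : Fin 4 → ℝ} (h : Geo θ a)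
    (h1 : a 2 * sin (θ 0) = a 0 * sin (θ 3)) :
    cos (θ 2) * sin (θ 3) = cos (θ 5) * sin (θ 0) + cos (θ 1) * sin (θ 0 - θ 3) := by
  have hx := sin_sq_add_cos_sq (θ 0)
  have hy := sin_sq_add_cos_sq (θ 3)
  have h0 := h.r0
  have h2 := h.r2
  have h3 := h.r3
  have key : a 0 * a 1 * (cos (θ 2) * sin (θ 3) - cos (θ 5) * sin (θ 0) -
      cos (θ 1) * sin (θ 0 - θ 3)) = 0 := by
    rw [sin_sub]
    linear_combination (-a 1 * (cos (θ 2) + cos (θ 1) * cos (θ 0)) +
      sin (θ 0) * (a 2 * sin (θ 0) + a 0 * sin (θ 3))) * h1 - sin (θ 0) * a 2 ^ 2 * hx +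
      sin (θ 0) * a 0 ^ 2 * hy + sin (θ 0) * (a 0 * cos (θ 3) - a 2 * cos (θ 0)) * h3 -
      sin (θ 0) * a 2 * h2 + sin (θ 0) * a 0 * h0
  have hne : a 0 * a 1 ≠ 0 := (mul_pos (h.pos 0) (h.pos 1)).ne'
  have := (mul_eq_zero.1 key).resolve_left hne
  linarith

/-- the isosceles relation, second form -/
theorem iso35' {θ : Fin 6 → ℝ} {a : Fin 4 → ℝ} (h : Geo θ a)
    (h1 : a 3 * sin (θ 3) = a 1 * sin (θ 5)) :
    cos (θ 2) * sin (θ 3) = cos (θ 0) * sin (θ 5) + cos (θ 4) * sin (θ 5 - θ 3) := by
  have hx := sin_sq_add_cos_sq (θ 5)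
  have hy := sin_sq_add_cos_sq (θ 3)
  have h0 := h.r0
  have h2 := h.r1
  have h3 := h.r3
  have key : a 3 * a 2 * (cos (θ 2) * sin (θ 3) - cos (θ 0) * sin (θ 5) -
      cos (θ 4) * sin (θ 5 - θ 3)) = 0 := by
    rw [sin_sub]
    linear_combination -(-a 2 * (cos (θ 2) + cos (θ 4) * cos (θ 5)) +
      sin (θ 5) * (a 1 * sin (θ 5) + a 3 * sin (θ 3))) * h1 - sin (θ 5) * a 1 ^ 2 * hx +
      sin (θ 5) * a 3 ^ 2 * hy + sin (θ 5) * (a 3 * cos (θ 3) - a 1 * cos (θ 5)) * h0 -
      sin (θ 5) * a 1 * h2 + sin (θ 5) * a 3 * h3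
  have hne : a 3 * a 2 ≠ 0 := (mul_pos (h.pos 3) (h.pos 2)).ne'
  have := (mul_eq_zero.1 key).resolve_left hne
  linarith

/-- two small terms and one large one, reals -/
theorem dom3 {p : Place} {c d e : ℚ} {A B C : ℝ} (hA : Va p c (A : ℂ)) (hB : Ge p d (B : ℂ))
    (hC : Ge p e (C : ℂ)) (hd : c < d) (he : c < e) (h : A + B + C = 0) : False := by
  have h1 : (A : ℂ) + (B + C) = 0 := by
    have : (A : ℂ) + B + C = 0 := by exact_mod_cast h
    rw [← this]; ring
  exact dom hA ((hB.mono (min_le_left d e)).add (hC.mono (min_le_right d e)))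
    (lt_min hd he) h1

theorem ge_mul {p : Place} {c d : ℚ} {A B : ℝ} (hA : Ge p c (A : ℂ)) (hB : Ge p d (B : ℂ)) :
    Ge p (c + d) ((A * B : ℝ) : ℂ) := by
  rw [Complex.ofReal_mul]; exact hA.mul hB

theorem va_mul {p : Place} {c d : ℚ} {A B : ℝ} (hA : Va p c (A : ℂ)) (hB : Va p d (B : ℂ)) :
    Va p (c + d) ((A * B : ℝ) : ℂ) := by
  rw [Complex.ofReal_mul]; exact hA.mul hB

theorem ge_neg {p : Place} {c : ℚ} {A : ℝ} (hA : Ge p c (A : ℂ)) :
    Ge p c ((-A : ℝ) : ℂ) := by
  rw [Complex.ofReal_neg]; exact hA.neg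

/-- the combinatorics of three values with sum zero -/
theorem comb (a b c : ℚ) (hs : a + b + c = 0) (h0 : ¬ (a = 0 ∧ b = 0 ∧ c = 0))
    (n1 : ¬ (|a - b| < |a - c| ∧ |b - c| < |a - c|))
    (n2 : ¬ (|a - c| < |a - b| ∧ |b - c| < |a - b|))
    (n3 : ¬ (|a - c| < |b - c| ∧ |a - b| < |b - c|)) :
    (b = c ∧ c ≠ 0 ∧ a = -2 * c) ∨ (a = b ∧ b ≠ 0 ∧ c = -2 * b) ∨
      (a = c ∧ c ≠ 0 ∧ b = -2 * c) := by
  have hc : c = -a - b := by linarith
  subst hc
  by_cases e1 : b = -a - b
  · left
    have : a ≠ 0 := by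
      intro h
      apply h0
      refine ⟨h, by linarith, by linarith⟩
    refine ⟨e1, ?_, by linarith⟩
    intro h
    apply this
    linarith
  by_cases e2 : a = b
  · right; left
    refine ⟨e2, ?_, by linarith⟩
    intro h
    apply h0
    refine ⟨by linarith, h, by linarith⟩
  by_cases e3 : a = -a - b
  · right; right
    refine ⟨e3, ?_, by linarith⟩
    intro h
    apply h0
    refine ⟨by linarith, by linarith, by linarith⟩
  exfalso
  -- all three differences nonzero, one is the sum of the others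
  have d1 : a - (-a - b) = (a - b) + (b - (-a - b)) := by ring
  have p1 : 0 < |a - b| := abs_pos.2 (sub_ne_zero.2 e2)
  have p2 : 0 < |b - (-a - b)| := abs_pos.2 (sub_ne_zero.2 e1)
  have p3 : 0 < |a - (-a - b)| := abs_pos.2 (sub_ne_zero.2 e3)
  rcases abs_cases (a - b) with ⟨q1, r1⟩ | ⟨q1, r1⟩ <;>
  rcases abs_cases (b - (-a - b)) with ⟨q2, r2⟩ | ⟨q2, r2⟩ <;>
  rcases abs_cases (a - (-a - b)) with ⟨q3, r3⟩ | ⟨q3, r3⟩ <;>
  rw [q1, q2, q3] at n1 n2 n3 <;> rw [q1] at p1 <;> rw [q2] at p2 <;> rw [q3] at p3 <;>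
  first
    | exact n1 ⟨by linarith, by linarith⟩
    | exact n2 ⟨by linarith, by linarith⟩
    | exact n3 ⟨by linarith, by linarith⟩

end CC

open CC

/-- case C -/
theorem caseC {θ : Fin 6 → ℝ} {a : Fin 4 → ℝ} (h : Geo θ a)
    (h1 : a 2 * sin (θ 0) = a 0 * sin (θ 3))
    (h2 : a 3 * sin (θ 3) = a 1 * sin (θ 5)) (hΦ : AA (θ 0 + θ 3 + θ 5))
    (ha1 : AA (θ 1)) (ha2 : AA (θ 4)) (ha3 : AA (θ 2)) :
    (AA (θ 0) ∧ AA (θ 3) ∧ AA (θ 5)) ∨ a 1 * a 3 * sin (θ 1) = a 0 * a 2 * sin (θ 4) := by
  have Q1 := iso03' h h1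
  have Q2 := iso35' h h2
  have m0 := h.mem 0
  have m1 := h.mem 1
  have m3 := h.mem 3
  have m4 := h.mem 4
  have m5 := h.mem 5
  have s1 : 0 < sin (θ 1) := sin_pos_of_pos_of_lt_pi m1.1 m1.2
  have s4 : 0 < sin (θ 4) := sin_pos_of_pos_of_lt_pi m4.1 m4.2
  generalize hx : θ 0 = x at *
  generalize hy : θ 3 = y at *
  generalize hz : θ 5 = z at *
  generalize hA1 : cos (θ 1) = A1 at *
  generalize hA2 : cos (θ 4) = A2 at *
  generalize hA3 : cos (θ 2) = A3 at *
  have g1 : IsAlgebraic ℚ (A1 : ℂ) := by rw [← hA1]; exact alg_cos ha1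
  have g2 : IsAlgebraic ℚ (A2 : ℂ) := by rw [← hA2]; exact alg_cos ha2
  have g3 : IsAlgebraic ℚ (A3 : ℂ) := by rw [← hA3]; exact alg_cos ha3
  have hsum : ∀ p : Place, tt p x + tt p y + tt p z = 0 := by
    intro p
    have := tt_AA p hΦ
    rwa [tt_add, tt_add] at this
  have Q3 : sin (x - z) + A1 * sin (x - y) + A2 * sin (y - z) = 0 := by
    have e1 : sin (z - y) = -sin (y - z) := by rw [← sin_neg]; ring_nf
    rw [e1] at Q2
    rw [sin_sub x z]
    linarith
  -- dominating terms
  have q2 : ∀ p : Place, tt p x ≠ 0 → tt p z ≠ 0 → |tt p y| < |tt p x| + |tt p z| →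
      |tt p z - tt p y| < |tt p x| + |tt p z| → False := by
    intro p hpx hpz u1 u2
    have t1 := va_mul (cos_va p x hpx) (sin_va p z hpz)
    have t2 := ge_mul (Ge.alg g2) (sin_ge p (z - y))
    have t3 := ge_neg (ge_mul (Ge.alg (p := p) g3) (sin_ge p y))
    rw [tt_sub] at t2
    exact dom3 t1 t2 t3 (by linarith) (by linarith) (by linarith)
  have q1 : ∀ p : Place, tt p x ≠ 0 → tt p z ≠ 0 → |tt p y| < |tt p x| + |tt p z| →
      |tt p x - tt p y| < |tt p x| + |tt p z| → False := by
    intro p hpx hpz u1 u2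
    have t1 := va_mul (cos_va p z hpz) (sin_va p x hpx)
    have t2 := ge_mul (Ge.alg g1) (sin_ge p (x - y))
    have t3 := ge_neg (ge_mul (Ge.alg (p := p) g3) (sin_ge p y))
    rw [tt_sub] at t2
    exact dom3 t1 t2 t3 (by linarith) (by linarith) (by linarith)
  have T1v : ∀ p : Place, tt p x ≠ tt p z →
      Va p (-|tt p x - tt p z|) ((sin (x - z) : ℝ) : ℂ) := by
    intro p hp
    have := sin_va p (x - z) (by rw [tt_sub]; exact sub_ne_zero.2 hp)
    rwa [tt_sub] at this
  have T1g : ∀ p : Place, Ge p (-|tt p x - tt p z|) ((sin (x - z) : ℝ) : ℂ) := by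
    intro p
    have := sin_ge p (x - z)
    rwa [tt_sub] at this
  have T2v : A1 ≠ 0 → ∀ p : Place, tt p x ≠ tt p y →
      Va p (-|tt p x - tt p y|) ((A1 * sin (x - y) : ℝ) : ℂ) := by
    intro hA p hp
    have := va_mul (Va.alg g1 (Complex.ofReal_ne_zero.2 hA))
      (sin_va p (x - y) (by rw [tt_sub]; exact sub_ne_zero.2 hp))
    rwa [tt_sub, zero_add] at this
  have T2g : ∀ p : Place, Ge p (-|tt p x - tt p y|) ((A1 * sin (x - y) : ℝ) : ℂ) := by
    intro p
    have := ge_mul (Ge.alg g1) (sin_ge p (x - y))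
    rwa [tt_sub, zero_add] at this
  have T3v : A2 ≠ 0 → ∀ p : Place, tt p y ≠ tt p z →
      Va p (-|tt p y - tt p z|) ((A2 * sin (y - z) : ℝ) : ℂ) := by
    intro hA p hp
    have := va_mul (Va.alg g2 (Complex.ofReal_ne_zero.2 hA))
      (sin_va p (y - z) (by rw [tt_sub]; exact sub_ne_zero.2 hp))
    rwa [tt_sub, zero_add] at this
  have T3g : ∀ p : Place, Ge p (-|tt p y - tt p z|) ((A2 * sin (y - z) : ℝ) : ℂ) := by
    intro p
    have := ge_mul (Ge.alg g2) (sin_ge p (y - z))
    rwa [tt_sub, zero_add] at this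
  have zg : ∀ (p : Place) (c : ℚ), Ge p c (((0 : ℝ)) : ℂ) := fun p c => Or.inl (by simp)
  by_cases hall : AA x ∧ AA y ∧ AA z
  · exact Or.inl hall
  by_cases k1 : A1 = 0
  · by_cases k2 : A2 = 0
    · -- both vanish
      right
      rw [k1, k2, zero_mul, zero_mul, add_zero, add_zero] at Q3
      have hxz : x = z := by
        have := (sin_eq_zero_iff_of_lt_of_lt (x := x - z) (by linarith [m0.1, m5.2])
          (by linarith [m0.2, m5.1])).1 Q3
        linarith
      have u1 : sin (θ 1) = 1 := by
        have := sin_sq_add_cos_sq (θ 1)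
        rw [hA1, k1] at this
        nlinarith
      have u4 : sin (θ 4) = 1 := by
        have := sin_sq_add_cos_sq (θ 4)
        rw [hA2, k2] at this
        nlinarith
      rw [u1, u4]
      have r0 := h.r0
      have r3 := h.r3
      rw [hx, hy, hA1, k1] at r3
      rw [hy, hz, hA2, k2] at r0
      rw [← hxz] at r0 h2
      have sx : 0 < sin x := sin_pos_of_pos_of_lt_pi m0.1 m0.2
      have sy : 0 < sin y := sin_pos_of_pos_of_lt_pi m3.1 m3.2
      have p0 := h.pos 0
      have p1 := h.pos 1
      have p2 := h.pos 2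
      have p3 := h.pos 3
      have w1 : a 2 * sin x = a 1 * sin (x + y) := by
        rw [sin_add]
        linear_combination h1 + sin y * r0 + cos y * h2
      have w2 : a 1 * sin x = a 2 * sin (x + y) := by
        rw [sin_add]
        linear_combination -h2 + sin y * r3 - cos y * h1
      have w3 : (a 2 - a 1) * (a 2 + a 1) * sin x = 0 := by
        linear_combination a 2 * w1 - a 1 * w2
      have w4 : a 2 = a 1 := by
        rcases mul_eq_zero.1 w3 with w | w
        · rcases mul_eq_zero.1 w with w | w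
          · linarith
          · linarith
        · exact absurd w sx.ne'
      have w5 : a 3 = a 0 := by
        have : (a 3 - a 0) * sin y = 0 := by
          rw [w4] at h1
          linear_combination h2 + h1
        rcases mul_eq_zero.1 this with w | w
        · linarith
        · exact absurd w sy.ne'
      rw [w4, w5]
      ring
    · -- A1 = 0, A2 ≠ 0
      rw [k1, zero_mul, add_zero] at Q3
      have hc : ∀ p : Place, tt p z = 0 := by
        intro p
        by_contra hne
        have hs := hsum p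
        have n1 : ¬ (tt p x ≠ tt p z ∧ |tt p y - tt p z| < |tt p x - tt p z|) := by
          rintro ⟨u, v⟩
          exact dom3 (T1v p u) (T3g p) (zg p _) (neg_lt_neg v) (lt_add_one _)
            (by rw [add_zero]; exact Q3)
        have n3 : ¬ (tt p y ≠ tt p z ∧ |tt p x - tt p z| < |tt p y - tt p z|) := by
          rintro ⟨u, v⟩
          exact dom3 (T3v k2 p u) (T1g p) (zg p _) (neg_lt_neg v) (lt_add_one _)
            (by rw [add_zero, add_comm]; exact Q3)
        have e1 : |tt p x - tt p z| = |tt p y - tt p z| := by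
          rcases lt_trichotomy |tt p x - tt p z| |tt p y - tt p z| with u | u | u
          · exfalso
            refine n3 ⟨?_, u⟩
            intro w
            rw [w, sub_self, abs_zero] at u
            exact absurd u (not_lt.2 (abs_nonneg _))
          · exact u
          · exfalso
            refine n1 ⟨?_, u⟩
            intro w
            rw [w, sub_self, abs_zero] at u
            exact absurd u (not_lt.2 (abs_nonneg _))
        rcases abs_eq_abs.1 e1 with u | u
        · have u1 : tt p x = tt p y := by linarith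
          have u2 : tt p z = -2 * tt p x := by linarith
          have u3 : tt p x ≠ 0 := by
            intro w
            apply hne
            rw [u2, w, mul_zero]
          have u4 : 0 < |tt p x| := abs_pos.2 u3
          refine q1 p u3 hne ?_ ?_
          · rw [← u1]
            linarith [abs_pos.2 hne]
          · rw [← u1, sub_self, abs_zero]
            linarith [abs_nonneg (tt p z)]
        · apply hne
          linarith
      have hAz : AA z := by
        by_contra hn
        obtain ⟨p, hp⟩ := exists_tt hn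
        exact hp (hc p)
      by_cases hAy : AA y
      · left
        refine ⟨?_, hAy, hAz⟩
        have := AA_sub (AA_sub hΦ hAy) hAz
        have e : x + y + z - y - z = x := by ring
        rwa [e] at this
      · exfalso
        set w : ℝ := x + y + z with hw
        have e1 : x - z = (w - 2 * z) - y := by rw [hw]; ring
        have hAw : AA (w - 2 * z) := by
          have := AA_sub (AA_sub hΦ hAz) hAz
          have e : w - z - z = w - 2 * z := by ring
          rwa [e] at this
        have e2 : (-cos (w - 2 * z) + A2 * cos z) * sin y +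
            (sin (w - 2 * z) - A2 * sin z) * cos y = 0 := by
          rw [e1, sin_sub (w - 2 * z) y, sin_sub y z] at Q3
          linarith
        have l := lin hAy (P := -cos (w - 2 * z) + A2 * cos z)
          (Q := sin (w - 2 * z) - A2 * sin z)
          (by push_cast [-Complex.ofReal_cos, -Complex.ofReal_sin]
              exact (alg_cos hAw).neg.add (g2.mul (alg_cos hAz)))
          (by push_cast [-Complex.ofReal_cos, -Complex.ofReal_sin]
              exact (alg_sin hAw).sub (g2.mul (alg_sin hAz))) e2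
        have t1 := sin_sq_add_cos_sq (w - 2 * z)
        have t2 := sin_sq_add_cos_sq z
        have t3 := sin_sq_add_cos_sq (θ 4)
        rw [hA2] at t3
        have t4 : A2 ^ 2 = 1 := by
          have v1 : cos (w - 2 * z) = A2 * cos z := by linarith [l.1]
          have v2 : sin (w - 2 * z) = A2 * sin z := by linarith [l.2]
          rw [v1, v2] at t1
          linear_combination t1 - A2 ^ 2 * t2
        have t5 : sin (θ 4) ^ 2 = 0 := by linarith
        exact s4.ne' (pow_eq_zero_iff two_ne_zero |>.1 t5)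
  · by_cases k2 : A2 = 0
    · -- A1 ≠ 0, A2 = 0
      rw [k2, zero_mul, add_zero] at Q3
      have hc : ∀ p : Place, tt p x = 0 := by
        intro p
        by_contra hne
        have hs := hsum p
        have n1 : ¬ (tt p x ≠ tt p z ∧ |tt p x - tt p y| < |tt p x - tt p z|) := by
          rintro ⟨u, v⟩
          exact dom3 (T1v p u) (T2g p) (zg p _) (neg_lt_neg v) (lt_add_one _)
            (by rw [add_zero]; exact Q3)
        have n3 : ¬ (tt p x ≠ tt p y ∧ |tt p x - tt p z| < |tt p x - tt p y|) := by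
          rintro ⟨u, v⟩
          exact dom3 (T2v k1 p u) (T1g p) (zg p _) (neg_lt_neg v) (lt_add_one _)
            (by rw [add_zero, add_comm]; exact Q3)
        have e1 : |tt p x - tt p z| = |tt p x - tt p y| := by
          rcases lt_trichotomy |tt p x - tt p z| |tt p x - tt p y| with u | u | u
          · exfalso
            refine n3 ⟨?_, u⟩
            intro w
            rw [w, sub_self, abs_zero] at u
            exact absurd u (not_lt.2 (abs_nonneg _))
          · exact u
          · exfalso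
            refine n1 ⟨?_, u⟩
            intro w
            rw [w, sub_self, abs_zero] at u
            exact absurd u (not_lt.2 (abs_nonneg _))
        rcases abs_eq_abs.1 e1 with u | u
        · have u1 : tt p z = tt p y := by linarith
          have u2 : tt p x = -2 * tt p z := by linarith
          have u3 : tt p z ≠ 0 := by
            intro w
            apply hne
            rw [u2, w, mul_zero]
          have u4 : 0 < |tt p z| := abs_pos.2 u3
          refine q2 p hne u3 ?_ ?_
          · rw [← u1]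
            linarith [abs_pos.2 hne]
          · rw [← u1, sub_self, abs_zero]
            linarith [abs_nonneg (tt p x)]
        · apply hne
          linarith
      have hAx : AA x := by
        by_contra hn
        obtain ⟨p, hp⟩ := exists_tt hn
        exact hp (hc p)
      by_cases hAy : AA y
      · left
        refine ⟨hAx, hAy, ?_⟩
        have := AA_sub (AA_sub hΦ hAx) hAy
        have e : x + y + z - x - y = z := by ring
        rwa [e] at this
      · exfalso
        set w : ℝ := x + y + z with hw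
        have e1 : x - z = (2 * x - w) + y := by rw [hw]; ring
        have hAw : AA (2 * x - w) := by
          have := AA_sub (AA_add hAx hAx) hΦ
          have e : x + x - w = 2 * x - w := by ring
          rwa [e] at this
        have e2 : (cos (2 * x - w) - A1 * cos x) * sin y +
            (sin (2 * x - w) + A1 * sin x) * cos y = 0 := by
          rw [e1, sin_add (2 * x - w) y, sin_sub x y] at Q3
          linarith
        have l := lin hAy (P := cos (2 * x - w) - A1 * cos x)
          (Q := sin (2 * x - w) + A1 * sin x)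
          (by push_cast [-Complex.ofReal_cos, -Complex.ofReal_sin]
              exact (alg_cos hAw).sub (g1.mul (alg_cos hAx)))
          (by push_cast [-Complex.ofReal_cos, -Complex.ofReal_sin]
              exact (alg_sin hAw).add (g1.mul (alg_sin hAx))) e2
        have t1 := sin_sq_add_cos_sq (2 * x - w)
        have t2 := sin_sq_add_cos_sq x
        have t3 := sin_sq_add_cos_sq (θ 1)
        rw [hA1] at t3
        have t4 : A1 ^ 2 = 1 := by
          have v1 : cos (2 * x - w) = A1 * cos x := by linarith [l.1]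
          have v2 : sin (2 * x - w) = -(A1 * sin x) := by linarith [l.2]
          rw [v1, v2] at t1
          linear_combination t1 - A1 ^ 2 * t2
        have t5 : sin (θ 1) ^ 2 = 0 := by linarith
        exact s1.ne' (pow_eq_zero_iff two_ne_zero |>.1 t5)
    · -- both nonzero
      left
      have key : ∀ p : Place, tt p x = 0 ∧ tt p y = 0 ∧ tt p z = 0 := by
        intro p
        by_contra h0
        have hs := hsum p
        rcases comb (tt p x) (tt p y) (tt p z) hs h0
          (by
            rintro ⟨u, v⟩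
            have hne : tt p x ≠ tt p z := by
              intro w
              rw [w, sub_self, abs_zero] at v
              exact absurd v (not_lt.2 (abs_nonneg _))
            exact dom3 (T1v p hne) (T2g p) (T3g p) (neg_lt_neg u) (neg_lt_neg v) Q3)
          (by
            rintro ⟨u, v⟩
            have hne : tt p x ≠ tt p y := by
              intro w
              rw [w, sub_self, abs_zero] at v
              exact absurd v (not_lt.2 (abs_nonneg _))
            exact dom3 (T2v k1 p hne) (T1g p) (T3g p) (neg_lt_neg u) (neg_lt_neg v)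
              (by linarith))
          (by
            rintro ⟨u, v⟩
            have hne : tt p y ≠ tt p z := by
              intro w
              rw [w, sub_self, abs_zero] at v
              exact absurd v (not_lt.2 (abs_nonneg _))
            exact dom3 (T3v k2 p hne) (T1g p) (T2g p) (neg_lt_neg u) (neg_lt_neg v)
              (by linarith)) with ⟨u1, u2, u3⟩ | ⟨u1, u2, u3⟩ | ⟨u1, u2, u3⟩
        · -- y = z, x = -2 z
          have u4 : 0 < |tt p z| := abs_pos.2 u2
          have u5 : tt p x ≠ 0 := by rw [u3]; exact mul_ne_zero (by norm_num) u2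
          refine q2 p u5 u2 ?_ ?_
          · rw [u1]
            linarith [abs_pos.2 u5]
          · rw [u1, sub_self, abs_zero]
            linarith [abs_pos.2 u5]
        · have u4 : 0 < |tt p y| := abs_pos.2 u2
          have u5 : tt p z ≠ 0 := by rw [u3]; exact mul_ne_zero (by norm_num) u2
          have u6 : tt p x ≠ 0 := by rw [u1]; exact u2
          refine q1 p u6 u5 ?_ ?_
          · rw [u1]
            linarith [abs_pos.2 u5]
          · rw [u1, sub_self, abs_zero]
            linarith [abs_pos.2 u5]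
        · -- x = z = u, y = -2u: the term A1 sin (x - y)
          have u4 : 0 < |tt p z| := abs_pos.2 u2
          have e1 : tt p x - tt p y = 3 * tt p z := by rw [u1, u3]; ring
          have hne : tt p x ≠ tt p y := by
            intro w
            rw [w, sub_self] at e1
            apply u2
            linarith
          have t1 := T2v k1 p hne
          rw [e1, abs_mul] at t1
          have t2 := ge_mul (cos_ge p z) (sin_ge p x)
          have t3 := ge_neg (ge_mul (Ge.alg (p := p) g3) (sin_ge p y))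
          rw [u1] at t2
          rw [u3, abs_mul] at t3
          refine dom3 t1 t2 t3 ?_ ?_ ?_
          · norm_num
            linarith
          · norm_num
            linarith
          · linarith
      refine ⟨?_, ?_, ?_⟩
      · by_contra hn
        obtain ⟨p, hp⟩ := exists_tt hn
        exact hp (key p).1
      · by_contra hn
        obtain ⟨p, hp⟩ := exists_tt hn
        exact hp (key p).2.1
      · by_contra hn
        obtain ⟨p, hp⟩ := exists_tt hn
        exact hp (key p).2.2

end Pool.Agent.TFF
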