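import Pool.Agent.TFF.Star

/-! # Three equal edges at a vertex and algebraic angles (helper95, package S2 of helper21) -/

set_option autoImplicit false

namespace Pool.Agent.TFF

open Pool.Agent.TetRel Real

/-- a root of a nonzero cubic with algebraic coefficients is algebraic -/
theorem dg_cubic {c0 c1 c2 c3 h : ℝ} (h0 : IsAlgebraic ℚ c0) (h1 : IsAlgebraic ℚ c1)
    (h2 : IsAlgebraic ℚ c2) (h3 : IsAlgebraic ℚ c3) (hne : c0 ≠ 0)
    (he : c0 + c1 * h + c2 * h ^ 2 + c3 * h ^ 3 = 0) : IsAlgebraic ℚ h := by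
  have m0 : c0 ∈ algebraicClosure ℚ ℝ := mem_algebraicClosure_iff.2 h0
  have m1 : c1 ∈ algebraicClosure ℚ ℝ := mem_algebraicClosure_iff.2 h1
  have m2 : c2 ∈ algebraicClosure ℚ ℝ := mem_algebraicClosure_iff.2 h2
  have m3 : c3 ∈ algebraicClosure ℚ ℝ := mem_algebraicClosure_iff.2 h3
  have hA : IsAlgebraic (algebraicClosure ℚ ℝ) h := by
    refine ⟨Polynomial.C (⟨c0, m0⟩ : algebraicClosure ℚ ℝ) + Polynomial.C (⟨c1, m1⟩ : algebraicClosure ℚ ℝ) * Polynomial.X +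
      Polynomial.C (⟨c2, m2⟩ : algebraicClosure ℚ ℝ) * Polynomial.X ^ 2 +
      Polynomial.C (⟨c3, m3⟩ : algebraicClosure ℚ ℝ) * Polynomial.X ^ 3, ?_, ?_⟩
    · intro hp
      have := congrArg (fun p => Polynomial.coeff p 0) hp
      simp [Polynomial.coeff_X_pow] at this
      exact hne (congrArg (Subtype.val) this)
    · simp only [map_add, map_mul, Polynomial.aeval_C, Polynomial.aeval_X, map_pow]
      exact he
  have : Algebra.IsAlgebraic ℚ (algebraicClosure ℚ ℝ) := algebraicClosure.isAlgebraic ℚ ℝ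
  exact hA.restrictScalars ℚ

theorem dg_alg_sin {x : ℝ} (h : AA x) : IsAlgebraic ℚ (sin x) := by
  have hI : IsAlgebraic ℚ Complex.I := by
    refine ⟨Polynomial.X ^ 2 + 1, ?_, by simp⟩
    intro hp
    have := congrArg (fun p => Polynomial.coeff p 2) hp
    simp [Polynomial.coeff_one] at this
  have hinv : IsAlgebraic ℚ (Complex.exp (-(x * Complex.I))) := by
    rw [Complex.exp_neg]; exact h.inv
  have hs : IsAlgebraic ℚ (Complex.sin x) := by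
    have : Complex.sin x = (Complex.exp (-(x * Complex.I)) - Complex.exp (x * Complex.I)) *
        Complex.I * (algebraMap ℚ ℂ (1 / 2)) := by
      rw [Complex.sin]
      simp
      ring
    rw [this]
    exact ((hinv.sub h).mul hI).mul (isAlgebraic_algebraMap _)
  have : Complex.sin x = algebraMap ℝ ℂ (sin x) := by simp
  rw [this] at hs
  exact (isAlgebraic_algebraMap_iff (algebraMap ℝ ℂ).injective).1 hs

theorem dg_nat (n : ℕ) : IsAlgebraic ℚ (n : ℝ) := by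
  have := isAlgebraic_algebraMap (R := ℚ) (A := ℝ) (n : ℚ)
  simpa using this

/-- from the ratios of the squares -/
theorem dg_alglen (v : Fin 4 → E3) (L : ℝ) (hL : 0 < L)
    (h : ∀ e, IsAlgebraic ℚ (len v e ^ 2 / L ^ 2)) : TetMir.AlgLen v := by
  have h' : ∀ e, IsAlgebraic ℚ (len v e / L) := by
    intro e
    refine IsAlgebraic.of_pow (n := 2) (by norm_num) ?_
    rw [div_pow]; exact h e
  intro i j
  have : len v i / len v j = (len v i / L) * (len v j / L)⁻¹ := by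
    rw [inv_div]
    field_simp
  rw [this]
  exact (h' i).mul (h' j).inv

/-- the three free edges from the star identities -/
theorem dg_free {L H l s : ℝ} (hL : 0 < L) (hH : 0 < H) (he : (4 * L ^ 2 - l ^ 2) * s ^ 2 = 4 * H) :
    s ≠ 0 ∧ l ^ 2 / L ^ 2 = 4 * (1 - (H / L ^ 2) * (s ^ 2)⁻¹) := by
  have hs : s ≠ 0 := by
    rintro rfl
    norm_num at he
    linarith
  refine ⟨hs, ?_⟩
  have hL' : L ≠ 0 := hL.ne'
  field_simp
  linarith

theorem caseD_core (v : Fin 4 → E3) (hv : AffineIndependent ℝ v) (h1 : len v 0 = len v 1)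
    (h2 : len v 1 = len v 2) (h3 : AA (dih v 3)) (h4 : AA (dih v 4)) (h5 : AA (dih v 5))
    (star : ∃ H : ℝ, 0 < H ∧
    (4 * len v 0 ^ 2 - len v 3 ^ 2) * sin (dih v 3) ^ 2 = 4 * H ∧
    (4 * len v 0 ^ 2 - len v 4 ^ 2) * sin (dih v 4) ^ 2 = 4 * H ∧
    (4 * len v 0 ^ 2 - len v 5 ^ 2) * sin (dih v 5) ^ 2 = 4 * H ∧
    (len v 0 ^ 2 - H) * (2 * len v 3 ^ 2 * len v 4 ^ 2 + 2 * len v 4 ^ 2 * len v 5 ^ 2 +
      2 * len v 5 ^ 2 * len v 3 ^ 2 - len v 3 ^ 4 - len v 4 ^ 4 - len v 5 ^ 4) =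
      len v 3 ^ 2 * len v 4 ^ 2 * len v 5 ^ 2) :
    TetMir.AlgLen v := by
  obtain ⟨H, hH, e3, e4, e5, e⟩ := star
  have hL : 0 < len v 0 := by
    unfold len
    exact dist_pos.2 (fun hc => absurd (hv.injective hc) (by decide))
  set L := len v 0 with hLdef
  obtain ⟨s3, u3⟩ := dg_free hL hH e3
  obtain ⟨s4, u4⟩ := dg_free hL hH e4
  obtain ⟨s5, u5⟩ := dg_free hL hH e5
  have a3 : IsAlgebraic ℚ (sin (dih v 3) ^ 2)⁻¹ := ((dg_alg_sin h3).pow 2).inv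
  have a4 : IsAlgebraic ℚ (sin (dih v 4) ^ 2)⁻¹ := ((dg_alg_sin h4).pow 2).inv
  have a5 : IsAlgebraic ℚ (sin (dih v 5) ^ 2)⁻¹ := ((dg_alg_sin h5).pow 2).inv
  set p := (sin (dih v 3) ^ 2)⁻¹ with hp
  set q := (sin (dih v 4) ^ 2)⁻¹ with hq
  set r := (sin (dih v 5) ^ 2)⁻¹ with hr
  set h := H / L ^ 2 with hh
  have hL' : L ≠ 0 := hL.ne'
  have E : (1 - h) * (2 * (len v 3 ^ 2 / L ^ 2) * (len v 4 ^ 2 / L ^ 2) +
      2 * (len v 4 ^ 2 / L ^ 2) * (len v 5 ^ 2 / L ^ 2) +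
      2 * (len v 5 ^ 2 / L ^ 2) * (len v 3 ^ 2 / L ^ 2) - (len v 3 ^ 2 / L ^ 2) ^ 2 -
      (len v 4 ^ 2 / L ^ 2) ^ 2 - (len v 5 ^ 2 / L ^ 2) ^ 2) =
      (len v 3 ^ 2 / L ^ 2) * (len v 4 ^ 2 / L ^ 2) * (len v 5 ^ 2 / L ^ 2) := by
    rw [hh]
    field_simp
    linear_combination e
  rw [u3, u4, u5] at E
  have ha : IsAlgebraic ℚ h := by
    refine dg_cubic (c0 := -((16 : ℕ) : ℝ))
      (c1 := (16 : ℕ) * (-(3 : ℕ) - (2 : ℕ) * (p + q + r)) + (64 : ℕ) * (p + q + r))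
      (c2 := (16 : ℕ) * ((2 : ℕ) * (p * q + q * r + r * p) - (p ^ 2 + q ^ 2 + r ^ 2) +
        (2 : ℕ) * (p + q + r)) - (64 : ℕ) * (p * q + q * r + r * p))
      (c3 := -((16 : ℕ) * ((2 : ℕ) * (p * q + q * r + r * p) - (p ^ 2 + q ^ 2 + r ^ 2))) +
        (64 : ℕ) * (p * q * r)) ?_ ?_ ?_ ?_ ?_ ?_
    · exact (dg_nat 16).neg
    · exact ((dg_nat 16).mul ((dg_nat 3).neg.sub ((dg_nat 2).mul ((a3.add a4).add a5)))).add
        ((dg_nat 64).mul ((a3.add a4).add a5))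
    · have hs2 : IsAlgebraic ℚ (p * q + q * r + r * p) :=
        ((a3.mul a4).add (a4.mul a5)).add (a5.mul a3)
      have hq2 : IsAlgebraic ℚ (p ^ 2 + q ^ 2 + r ^ 2) := ((a3.pow 2).add (a4.pow 2)).add (a5.pow 2)
      exact ((dg_nat 16).mul ((((dg_nat 2).mul hs2).sub hq2).add
        ((dg_nat 2).mul ((a3.add a4).add a5)))).sub ((dg_nat 64).mul hs2)
    · have hs2 : IsAlgebraic ℚ (p * q + q * r + r * p) :=
        ((a3.mul a4).add (a4.mul a5)).add (a5.mul a3)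
      have hq2 : IsAlgebraic ℚ (p ^ 2 + q ^ 2 + r ^ 2) := ((a3.pow 2).add (a4.pow 2)).add (a5.pow 2)
      exact ((dg_nat 16).mul (((dg_nat 2).mul hs2).sub hq2)).neg.add
        ((dg_nat 64).mul ((a3.mul a4).mul a5))
    · norm_num
    · push_cast
      linear_combination E
  have f3 : IsAlgebraic ℚ (len v 3 ^ 2 / L ^ 2) := by
    rw [u3]; exact (dg_nat 4).mul (isAlgebraic_one.sub (ha.mul a3))
  have f4 : IsAlgebraic ℚ (len v 4 ^ 2 / L ^ 2) := by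
    rw [u4]; exact (dg_nat 4).mul (isAlgebraic_one.sub (ha.mul a4))
  have f5 : IsAlgebraic ℚ (len v 5 ^ 2 / L ^ 2) := by
    rw [u5]; exact (dg_nat 4).mul (isAlgebraic_one.sub (ha.mul a5))
  have f0 : IsAlgebraic ℚ (L ^ 2 / L ^ 2) := by
    rw [div_self (pow_ne_zero 2 hL')]; exact isAlgebraic_one
  refine dg_alglen v L hL fun i => ?_
  fin_cases i
  · exact f0
  · change IsAlgebraic ℚ (len v 1 ^ 2 / L ^ 2)
    rw [← h1]; exact f0
  · change IsAlgebraic ℚ (len v 2 ^ 2 / L ^ 2)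
    rw [← h2, ← h1]; exact f0
  · exact f3
  · exact f4
  · exact f5

theorem caseG_core (v : Fin 4 → E3) (hv : AffineIndependent ℝ v) (h1 : len v 0 = len v 1)
    (h2 : len v 1 = len v 2) (h3 : len v 2 = len v 3) (h4 : AA (dih v 4)) (h5 : AA (dih v 5))
    (star : ∃ H : ℝ, 0 < H ∧
    (4 * len v 0 ^ 2 - len v 3 ^ 2) * sin (dih v 3) ^ 2 = 4 * H ∧
    (4 * len v 0 ^ 2 - len v 4 ^ 2) * sin (dih v 4) ^ 2 = 4 * H ∧
    (4 * len v 0 ^ 2 - len v 5 ^ 2) * sin (dih v 5) ^ 2 = 4 * H ∧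
    (len v 0 ^ 2 - H) * (2 * len v 3 ^ 2 * len v 4 ^ 2 + 2 * len v 4 ^ 2 * len v 5 ^ 2 +
      2 * len v 5 ^ 2 * len v 3 ^ 2 - len v 3 ^ 4 - len v 4 ^ 4 - len v 5 ^ 4) =
      len v 3 ^ 2 * len v 4 ^ 2 * len v 5 ^ 2) :
    TetMir.AlgLen v := by
  obtain ⟨H, hH, e3, e4, e5, e⟩ := star
  have hL : 0 < len v 0 := by
    unfold len
    exact dist_pos.2 (fun hc => absurd (hv.injective hc) (by decide))
  have h03 : len v 3 = len v 0 := by rw [h1, h2, h3]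
  set L := len v 0 with hLdef
  obtain ⟨s4, u4⟩ := dg_free hL hH e4
  obtain ⟨s5, u5⟩ := dg_free hL hH e5
  have a4 : IsAlgebraic ℚ (sin (dih v 4) ^ 2)⁻¹ := ((dg_alg_sin h4).pow 2).inv
  have a5 : IsAlgebraic ℚ (sin (dih v 5) ^ 2)⁻¹ := ((dg_alg_sin h5).pow 2).inv
  set q := (sin (dih v 4) ^ 2)⁻¹ with hq
  set r := (sin (dih v 5) ^ 2)⁻¹ with hr
  set h := H / L ^ 2 with hh
  have hL' : L ≠ 0 := hL.ne'
  have u3 : len v 3 ^ 2 / L ^ 2 = 1 := by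
    rw [h03, div_self (pow_ne_zero 2 hL')]
  have E : (1 - h) * (2 * (len v 3 ^ 2 / L ^ 2) * (len v 4 ^ 2 / L ^ 2) +
      2 * (len v 4 ^ 2 / L ^ 2) * (len v 5 ^ 2 / L ^ 2) +
      2 * (len v 5 ^ 2 / L ^ 2) * (len v 3 ^ 2 / L ^ 2) - (len v 3 ^ 2 / L ^ 2) ^ 2 -
      (len v 4 ^ 2 / L ^ 2) ^ 2 - (len v 5 ^ 2 / L ^ 2) ^ 2) =
      (len v 3 ^ 2 / L ^ 2) * (len v 4 ^ 2 / L ^ 2) * (len v 5 ^ 2 / L ^ 2) := by
    rw [hh]
    field_simp
    linear_combination e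
  rw [u3, u4, u5] at E
  have ha : IsAlgebraic ℚ h := by
    refine dg_cubic (c0 := -((1 : ℕ) : ℝ))
      (c1 := -((15 : ℕ) : ℝ) + (8 : ℕ) * (q + r))
      (c2 := (8 : ℕ) * (q + r) - (16 : ℕ) * (q - r) ^ 2 - (16 : ℕ) * (q * r))
      (c3 := (16 : ℕ) * (q - r) ^ 2) ?_ ?_ ?_ ?_ ?_ ?_
    · exact (dg_nat 1).neg
    · exact (dg_nat 15).neg.add ((dg_nat 8).mul (a4.add a5))
    · exact (((dg_nat 8).mul (a4.add a5)).sub ((dg_nat 16).mul ((a4.sub a5).pow 2))).sub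
        ((dg_nat 16).mul (a4.mul a5))
    · exact (dg_nat 16).mul ((a4.sub a5).pow 2)
    · norm_num
    · push_cast
      linear_combination E
  have f4 : IsAlgebraic ℚ (len v 4 ^ 2 / L ^ 2) := by
    rw [u4]; exact (dg_nat 4).mul (isAlgebraic_one.sub (ha.mul a4))
  have f5 : IsAlgebraic ℚ (len v 5 ^ 2 / L ^ 2) := by
    rw [u5]; exact (dg_nat 4).mul (isAlgebraic_one.sub (ha.mul a5))
  have f0 : IsAlgebraic ℚ (L ^ 2 / L ^ 2) := by
    rw [div_self (pow_ne_zero 2 hL')]; exact isAlgebraic_one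
  refine dg_alglen v L hL fun i => ?_
  fin_cases i
  · exact f0
  · change IsAlgebraic ℚ (len v 1 ^ 2 / L ^ 2)
    rw [← h1]; exact f0
  · change IsAlgebraic ℚ (len v 2 ^ 2 / L ^ 2)
    rw [← h2, ← h1]; exact f0
  · change IsAlgebraic ℚ (len v 3 ^ 2 / L ^ 2)
    rw [h03]; exact f0
  · exact f4
  · exact f5

theorem caseD (v : Fin 4 → E3) (hv : AffineIndependent ℝ v) (h1 : len v 0 = len v 1)
    (h2 : len v 1 = len v 2) (h3 : AA (dih v 3)) (h4 : AA (dih v 4)) (h5 : AA (dih v 5)) :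
    TetMir.AlgLen v :=
  caseD_core v hv h1 h2 h3 h4 h5 (star v hv h1 h2)

theorem caseG (v : Fin 4 → E3) (hv : AffineIndependent ℝ v) (h1 : len v 0 = len v 1)
    (h2 : len v 1 = len v 2) (h3 : len v 2 = len v 3) (h4 : AA (dih v 4)) (h5 : AA (dih v 5)) :
    TetMir.AlgLen v :=
  caseG_core v hv h1 h2 h3 h4 h5 (star v hv h1 h2)

end Pool.Agent.TFF
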