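import Pool.Agent.TFF.Defs

/-! # TFF, package S3 (helper82): an equilateral face -/

set_option autoImplicit false

namespace Pool.Agent.TFF

open Real

/-- a real root of a polynomial of degree at most four with algebraic coefficients, not all zero,
is algebraic -/
theorem E_quartic {c0 c1 c2 c3 c4 x : ℝ} (h0 : IsAlgebraic ℚ c0) (h1 : IsAlgebraic ℚ c1)
    (h2 : IsAlgebraic ℚ c2) (h3 : IsAlgebraic ℚ c3) (h4 : IsAlgebraic ℚ c4)
    (hne : ¬ (c0 = 0 ∧ c2 = 0 ∧ c4 = 0))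
    (hx : c0 + c1 * x + c2 * x ^ 2 + c3 * x ^ 3 + c4 * x ^ 4 = 0) : IsAlgebraic ℚ x := by
  let k0 : algebraicClosure ℚ ℝ := ⟨c0, mem_algebraicClosure_iff.2 h0⟩
  let k1 : algebraicClosure ℚ ℝ := ⟨c1, mem_algebraicClosure_iff.2 h1⟩
  let k2 : algebraicClosure ℚ ℝ := ⟨c2, mem_algebraicClosure_iff.2 h2⟩
  let k3 : algebraicClosure ℚ ℝ := ⟨c3, mem_algebraicClosure_iff.2 h3⟩
  let k4 : algebraicClosure ℚ ℝ := ⟨c4, mem_algebraicClosure_iff.2 h4⟩
  have hA : IsAlgebraic (algebraicClosure ℚ ℝ) x := by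
    refine ⟨Polynomial.C k0 + Polynomial.C k1 * Polynomial.X + Polynomial.C k2 *
      Polynomial.X ^ 2 + Polynomial.C k3 * Polynomial.X ^ 3 + Polynomial.C k4 *
      Polynomial.X ^ 4, ?_, ?_⟩
    · intro h
      apply hne
      have e0 := congrArg (fun p => Polynomial.coeff p 0) h
      have e2 := congrArg (fun p => Polynomial.coeff p 2) h
      have e4 := congrArg (fun p => Polynomial.coeff p 4) h
      simp [Polynomial.coeff_X, Polynomial.coeff_C] at e0 e2 e4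
      exact ⟨congrArg Subtype.val e0, congrArg Subtype.val e2, congrArg Subtype.val e4⟩
    · simp only [map_add, map_mul, map_pow, Polynomial.aeval_C, Polynomial.aeval_X]
      exact hx
  by_contra hx'
  exact Transcendental.algebraicClosure (F := ℚ) hx' hA

theorem E_cos {x : ℝ} (h : AA x) : IsAlgebraic ℚ (cos x) := by
  have h1 : IsAlgebraic ℚ (((cos x : ℝ)) : ℂ) := by
    have e : ((cos x : ℝ) : ℂ) = (Complex.exp (x * Complex.I) +
        (Complex.exp (x * Complex.I))⁻¹) * (2 : ℂ)⁻¹ := by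
      rw [Complex.ofReal_cos, Complex.cos, ← Complex.exp_neg, neg_mul]
      ring
    rw [e]
    exact (h.add h.inv).mul ((isAlgebraic_nat (R := ℚ) (A := ℂ) 2).inv)
  exact (isAlgebraic_algebraMap_iff (RingHom.injective (algebraMap ℝ ℂ))).1 h1

theorem E_of_cos {x : ℝ} (h : IsAlgebraic ℚ (cos x)) : AA x := by
  have h2 : IsAlgebraic ℚ (sin x) := TetMir.alg_sin_of_cos h
  have hI : IsAlgebraic ℚ Complex.I := by
    refine IsAlgebraic.of_pow (n := 2) (by norm_num) ?_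
    rw [Complex.I_sq]
    exact isAlgebraic_one.neg
  unfold AA
  rw [Complex.exp_mul_I, ← Complex.ofReal_cos, ← Complex.ofReal_sin]
  exact (h.algebraMap (A := ℂ)).add ((h2.algebraMap (A := ℂ)).mul hI)

variable {θ : Fin 6 → ℝ} {a : Fin 4 → ℝ}

theorem caseE (h : Geo θ a) (h1 : a 3 * sin (θ 3) = a 2 * sin (θ 4))
    (h2 : a 2 * sin (θ 4) = a 1 * sin (θ 5)) (h0 : AA (θ 0)) (h1' : AA (θ 1)) (h2' : AA (θ 2)) :
    AA (θ 3) ∧ AA (θ 4) ∧ AA (θ 5) := by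
  have p0 := h.pos 0
  have p1 := h.pos 1
  have p2 := h.pos 2
  have p3 := h.pos 3
  have sp : ∀ e, 0 < sin (θ e) := fun e => sin_pos_of_pos_of_lt_pi (h.mem e).1 (h.mem e).2
  have q0 := sp 0
  have q1 := sp 1
  have q2 := sp 2
  have c0 := E_cos h0
  have c1 := E_cos h1'
  have c2 := E_cos h2'
  have s0 := TetMir.alg_sin_of_cos c0
  have s1 := TetMir.alg_sin_of_cos c1
  have s2 := TetMir.alg_sin_of_cos c2
  have t3 := sin_sq_add_cos_sq (θ 3)
  have t4 := sin_sq_add_cos_sq (θ 4)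
  have t5 := sin_sq_add_cos_sq (θ 5)
  have t0 := sin_sq_add_cos_sq (θ 0)
  have t1 := sin_sq_add_cos_sq (θ 1)
  have t2 := sin_sq_add_cos_sq (θ 2)
  have r0 := h.r0
  have r1 := h.r1
  have r2 := h.r2
  have r3 := h.r3
  have hd := h.det
  generalize a 0 = A0 at *
  generalize a 1 = A1 at *
  generalize a 2 = A2 at *
  generalize a 3 = A3 at *
  generalize hC0 : cos (θ 0) = C0 at *
  generalize hC1 : cos (θ 1) = C1 at *
  generalize hC2 : cos (θ 2) = C2 at *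
  generalize hS0 : sin (θ 0) = S0 at *
  generalize hS1 : sin (θ 1) = S1 at *
  generalize hS2 : sin (θ 2) = S2 at *
  -- the cosines at the equilateral face
  have k3 : A0 * cos (θ 3) = A3 - A1 * C1 - A2 * C0 := by linarith
  have k4 : A0 * cos (θ 4) = A2 - A1 * C2 - A3 * C0 := by linarith
  have k5 : A0 * cos (θ 5) = A1 - A2 * C2 - A3 * C1 := by linarith
  have kE : A0 ^ 2 = A1 ^ 2 + A2 ^ 2 + A3 ^ 2 - 2 * A1 * A2 * C2 - 2 * A1 * A3 * C1 -
      2 * A2 * A3 * C0 := by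
    linear_combination A0 * r0 + A1 * k5 + A2 * k4 + A3 * k3
  have m3 : (A0 * (A3 * sin (θ 3))) ^ 2 = A3 ^ 2 * (A1 ^ 2 * S1 ^ 2 + A2 ^ 2 * S0 ^ 2 -
      2 * A1 * A2 * (C2 + C0 * C1)) := by
    linear_combination A3 ^ 2 * A0 ^ 2 * t3 - A3 ^ 2 * (A0 * cos (θ 3) + (A3 - A1 * C1 - A2 * C0)) *
      k3 + A3 ^ 2 * kE - A3 ^ 2 * A1 ^ 2 * t1 - A3 ^ 2 * A2 ^ 2 * t0
  have m4 : (A0 * (A2 * sin (θ 4))) ^ 2 = A2 ^ 2 * (A1 ^ 2 * S2 ^ 2 + A3 ^ 2 * S0 ^ 2 -
      2 * A1 * A3 * (C1 + C0 * C2)) := by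
    linear_combination A2 ^ 2 * A0 ^ 2 * t4 - A2 ^ 2 * (A0 * cos (θ 4) + (A2 - A1 * C2 - A3 * C0)) *
      k4 + A2 ^ 2 * kE - A2 ^ 2 * A1 ^ 2 * t2 - A2 ^ 2 * A3 ^ 2 * t0
  have m5 : (A0 * (A1 * sin (θ 5))) ^ 2 = A1 ^ 2 * (A2 ^ 2 * S2 ^ 2 + A3 ^ 2 * S1 ^ 2 -
      2 * A2 * A3 * (C0 + C1 * C2)) := by
    linear_combination A1 ^ 2 * A0 ^ 2 * t5 - A1 ^ 2 * (A0 * cos (θ 5) + (A1 - A2 * C2 - A3 * C1)) *
      k5 + A1 ^ 2 * kE - A1 ^ 2 * A2 ^ 2 * t2 - A1 ^ 2 * A3 ^ 2 * t1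
  rw [h1] at m3
  rw [← h2] at m5
  have n1 := m3.symm.trans m4
  have n2 := m3.symm.trans m5
  -- the cosines of the face angles
  set g12 := (C2 + C0 * C1) / (S0 * S1) with hg12
  set g13 := (C1 + C0 * C2) / (S0 * S2) with hg13
  set g23 := (C0 + C1 * C2) / (S1 * S2) with hg23
  have e12 : g12 * (S0 * S1) = C2 + C0 * C1 := div_mul_cancel₀ _ (by positivity)
  have e13 : g13 * (S0 * S2) = C1 + C0 * C2 := div_mul_cancel₀ _ (by positivity)
  have e23 : g23 * (S1 * S2) = C0 + C1 * C2 := div_mul_cancel₀ _ (by positivity)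
  have a12 : IsAlgebraic ℚ g12 := by
    rw [hg12, div_eq_mul_inv]
    exact (c2.add (c0.mul c1)).mul (s0.mul s1).inv
  have a13 : IsAlgebraic ℚ g13 := by
    rw [hg13, div_eq_mul_inv]
    exact (c1.add (c0.mul c2)).mul (s0.mul s2).inv
  have a23 : IsAlgebraic ℚ g23 := by
    rw [hg23, div_eq_mul_inv]
    exact (c0.add (c1.mul c2)).mul (s1.mul s2).inv
  set u := A3 * S0 / (A1 * S2) with hu
  set w := A3 * S1 / (A2 * S2) with hw
  have eu : u * (A1 * S2) = A3 * S0 := div_mul_cancel₀ _ (by positivity)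
  have ew : w * (A2 * S2) = A3 * S1 := div_mul_cancel₀ _ (by positivity)
  have up : 0 < u := by positivity
  have wp : 0 < w := by positivity
  have f1 : w ^ 2 - 1 - 2 * u * w * g12 + 2 * u * g13 = 0 := by
    have hne : (A1 * A2 * S2) ^ 2 ≠ 0 := by positivity
    apply mul_left_cancel₀ hne
    linear_combination n1 + A1 ^ 2 * (w * (A2 * S2) + A3 * S1) * ew -
      2 * A1 * A2 * g12 * ((w * (A2 * S2)) * eu + A3 * S0 * ew) - 2 * A1 * A2 * A3 ^ 2 * e12 +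
      2 * A1 * A2 ^ 2 * S2 * g13 * eu + 2 * A1 * A2 ^ 2 * A3 * e13
  have f2 : u ^ 2 - 1 - 2 * w * (g12 * u - g23) = 0 := by
    have hne : (A1 * A2 * S2) ^ 2 ≠ 0 := by positivity
    apply mul_left_cancel₀ hne
    linear_combination n2 + A2 ^ 2 * (u * (A1 * S2) + A3 * S0) * eu -
      2 * A1 * A2 * g12 * ((w * (A2 * S2)) * eu + A3 * S0 * ew) - 2 * A1 * A2 * A3 ^ 2 * e12 +
      2 * A1 ^ 2 * A2 * S2 * g23 * ew + 2 * A1 ^ 2 * A2 * A3 * e23
  have hP : (1 - 4 * g23 ^ 2) + (4 * g12 * g23 + 8 * g13 * g23 ^ 2) * u +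
      (-2 - 16 * g12 * g13 * g23) * u ^ 2 + (4 * g12 * g23 + 8 * g13 * g12 ^ 2) * u ^ 3 +
      (1 - 4 * g12 ^ 2) * u ^ 4 = 0 := by
    linear_combination 4 * (g12 * u - g23) ^ 2 * f1 +
      ((u ^ 2 - 1) + 2 * w * (g12 * u - g23) - 4 * u * g12 * (g12 * u - g23)) * f2
  have num : ∀ n : ℕ, IsAlgebraic ℚ (n : ℝ) := fun n => isAlgebraic_nat n
  have n4 : IsAlgebraic ℚ (4 : ℝ) := by exact_mod_cast num 4
  have n8 : IsAlgebraic ℚ (8 : ℝ) := by exact_mod_cast num 8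
  have n16 : IsAlgebraic ℚ (16 : ℝ) := by exact_mod_cast num 16
  have n02 : IsAlgebraic ℚ (2 : ℝ) := by exact_mod_cast num 2
  have au : IsAlgebraic ℚ u := by
    refine E_quartic (isAlgebraic_one.sub (n4.mul (a23.pow 2)))
      (((n4.mul a12).mul a23).add ((n8.mul a13).mul (a23.pow 2)))
      (n02.neg.sub (((n16.mul a12).mul a13).mul a23))
      (((n4.mul a12).mul a23).add ((n8.mul a13).mul (a12.pow 2)))
      (isAlgebraic_one.sub (n4.mul (a12.pow 2))) ?_ hP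
    rintro ⟨z1, z2, z3⟩
    have y23 : g23 ^ 2 = 1 / 4 := by linarith
    have y12 : g12 ^ 2 = 1 / 4 := by linarith
    have yp : g12 * g13 * g23 = -1 / 8 := by linarith
    have y13 : g13 ^ 2 = 1 / 4 := by
      have : (g12 * g13 * g23) ^ 2 = g12 ^ 2 * g23 ^ 2 * g13 ^ 2 := by ring
      rw [yp, y12, y23] at this
      linarith
    have hG : (1 - C0 ^ 2 - C1 ^ 2 - C2 ^ 2 - 2 * C0 * C1 * C2) ^ 2 =
        (1 + 2 * (g12 * g13 * g23) - g12 ^ 2 - g13 ^ 2 - g23 ^ 2) * (S0 * S1 * S2) ^ 2 := by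
      have w12 : g12 ^ 2 * (S0 * S1 * S2) ^ 2 = (C2 + C0 * C1) ^ 2 * S2 ^ 2 := by
        rw [← e12]; ring
      have w13 : g13 ^ 2 * (S0 * S1 * S2) ^ 2 = (C1 + C0 * C2) ^ 2 * S1 ^ 2 := by
        rw [← e13]; ring
      have w23 : g23 ^ 2 * (S0 * S1 * S2) ^ 2 = (C0 + C1 * C2) ^ 2 * S0 ^ 2 := by
        rw [← e23]; ring
      have wp3 : (g12 * g13 * g23) * (S0 * S1 * S2) ^ 2 =
          (C2 + C0 * C1) * (C1 + C0 * C2) * (C0 + C1 * C2) := by
        rw [← e12, ← e13, ← e23]; ring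
      have hS0 : S0 ^ 2 = 1 - C0 ^ 2 := by linarith
      have hS1 : S1 ^ 2 = 1 - C1 ^ 2 := by linarith
      have hS2 : S2 ^ 2 = 1 - C2 ^ 2 := by linarith
      have hSS : (S0 * S1 * S2) ^ 2 = (1 - C0 ^ 2) * (1 - C1 ^ 2) * (1 - C2 ^ 2) := by
        rw [← hS0, ← hS1, ← hS2]; ring
      have : (1 + 2 * (g12 * g13 * g23) - g12 ^ 2 - g13 ^ 2 - g23 ^ 2) * (S0 * S1 * S2) ^ 2 =
          (S0 * S1 * S2) ^ 2 + 2 * ((g12 * g13 * g23) * (S0 * S1 * S2) ^ 2) -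
          g12 ^ 2 * (S0 * S1 * S2) ^ 2 - g13 ^ 2 * (S0 * S1 * S2) ^ 2 -
          g23 ^ 2 * (S0 * S1 * S2) ^ 2 := by ring
      rw [this, w12, w13, w23, wp3, hSS, hS0, hS1, hS2]
      ring
    rw [yp, y12, y13, y23] at hG
    have : (1 - C0 ^ 2 - C1 ^ 2 - C2 ^ 2 - 2 * C0 * C1 * C2) ^ 2 = 0 := by
      rw [hG]; ring
    have h5 := pow_eq_zero_iff (n := 2) (by norm_num) |>.1 this
    linarith
  have aw : IsAlgebraic ℚ w := by
    refine E_quartic (c0 := 2 * u * g13 - 1) (c1 := -(2 * u * g12)) (c2 := 1) (c3 := 0) (c4 := 0)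
      (((n02.mul au).mul a13).sub isAlgebraic_one) ((n02.mul au).mul a12).neg isAlgebraic_one
      isAlgebraic_zero isAlgebraic_zero (fun h => one_ne_zero h.2.1) ?_
    linear_combination f1
  -- the areas
  set x1 := S0 / (u * S2) with hx1
  set x2 := S1 / (w * S2) with hx2
  have b1 : IsAlgebraic ℚ x1 := by
    rw [hx1, div_eq_mul_inv]
    exact s0.mul (au.mul s2).inv
  have b2 : IsAlgebraic ℚ x2 := by
    rw [hx2, div_eq_mul_inv]
    exact s1.mul (aw.mul s2).inv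
  have d1 : A1 = A3 * x1 := by
    rw [hx1]
    field_simp
    linarith
  have d2 : A2 = A3 * x2 := by
    rw [hx2]
    field_simp
    linarith
  have b0 : IsAlgebraic ℚ (A0 / A3) := by
    refine IsAlgebraic.of_pow (n := 2) (by norm_num) ?_
    have : (A0 / A3) ^ 2 = x1 ^ 2 + x2 ^ 2 + 1 - 2 * x1 * x2 * C2 - 2 * x1 * C1 - 2 * x2 * C0 := by
      rw [div_pow, kE, d1, d2]
      field_simp
    rw [this]
    exact (((((b1.pow 2).add (b2.pow 2)).add isAlgebraic_one).sub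
      (((n02.mul b1).mul b2).mul c2)).sub ((n02.mul b1).mul c1)).sub ((n02.mul b2).mul c0)
  set x0 := A0 / A3 with hx0
  have d0 : A0 = A3 * x0 := by
    rw [hx0]; field_simp
  have x0p : 0 < x0 := by positivity
  refine ⟨E_of_cos ?_, E_of_cos ?_, E_of_cos ?_⟩
  · have e : cos (θ 3) = (1 - x1 * C1 - x2 * C0) * x0⁻¹ := by
      rw [eq_mul_inv_iff_mul_eq₀ x0p.ne']
      apply mul_left_cancel₀ p3.ne'
      rw [d0, d1, d2] at k3
      linear_combination k3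
    rw [e]
    exact ((isAlgebraic_one.sub (b1.mul c1)).sub (b2.mul c0)).mul b0.inv
  · have e : cos (θ 4) = (x2 - x1 * C2 - C0) * x0⁻¹ := by
      rw [eq_mul_inv_iff_mul_eq₀ x0p.ne']
      apply mul_left_cancel₀ p3.ne'
      rw [d0, d1, d2] at k4
      linear_combination k4
    rw [e]
    exact ((b2.sub (b1.mul c2)).sub c0).mul b0.inv
  · have e : cos (θ 5) = (x1 - x2 * C2 - C1) * x0⁻¹ := by
      rw [eq_mul_inv_iff_mul_eq₀ x0p.ne']
      apply mul_left_cancel₀ p3.ne'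
      rw [d0, d1, d2] at k5
      linear_combination k5
    rw [e]
    exact ((b1.sub (b2.mul c2)).sub c1).mul b0.inv

end Pool.Agent.TFF
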