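import Pool.Agent.TFF.Defs

/-! # Tetrahedra that tile space face-to-face: three and two equal edges (helper87) -/

set_option autoImplicit false

namespace Pool.Agent.TFF

open Pool.Agent.TetRel Real
open Pool.Agent.TetRot (Place)

namespace CI

/-! ## values -/

/-- value at least `q` -/
def GE (p : Place) (q : ℚ) (z : ℂ) : Prop := z = 0 ∨ q ≤ p.v z

/-- value larger than `q` -/
def GT (p : Place) (q : ℚ) (z : ℂ) : Prop := z = 0 ∨ q < p.v z

/-- value equal to `q` -/
def EQ (p : Place) (q : ℚ) (z : ℂ) : Prop := z ≠ 0 ∧ p.v z = q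

variable {p : Place} {q r : ℚ} {a b : ℂ}

theorem GT.ge (h : GT p q a) : GE p q a := h.imp id le_of_lt

theorem EQ.ge (h : EQ p q a) : GE p q a := Or.inr h.2.ge

theorem GE.gt (h : GE p q a) (hr : r < q) : GT p r a := h.imp id fun h1 => hr.trans_le h1

theorem GE.mono (h : GE p q a) (hr : r ≤ q) : GE p r a := h.imp id fun h1 => hr.trans h1

theorem GT.mono (h : GT p q a) (hr : r ≤ q) : GT p r a := h.imp id fun h1 => hr.trans_lt h1

theorem GE.zero : GE p q 0 := Or.inl rfl

theorem GT.zero : GT p q 0 := Or.inl rfl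

theorem v_neg (a : ℂ) (ha : a ≠ 0) : p.v (-a) = p.v a := by
  have h1 : -a = (-1) * a := by ring
  rw [h1, p.mul _ _ (by norm_num) ha, p.alg (-1) (by norm_num) (isAlgebraic_one.neg), zero_add]

theorem v_inv (a : ℂ) (ha : a ≠ 0) : p.v a⁻¹ = -p.v a := by
  have h1 := p.mul a a⁻¹ ha (inv_ne_zero ha)
  rw [mul_inv_cancel₀ ha, p.alg 1 one_ne_zero isAlgebraic_one] at h1
  linarith

theorem GE.add (ha : GE p q a) (hb : GE p q b) : GE p q (a + b) := by
  by_cases h0 : a = 0
  · rw [h0, zero_add]; exact hb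
  by_cases h1 : b = 0
  · rw [h1, add_zero]; exact ha
  by_cases h2 : a + b = 0
  · exact Or.inl h2
  · exact Or.inr ((le_min (ha.resolve_left h0) (hb.resolve_left h1)).trans (p.add _ _ h0 h1 h2))

theorem GT.add (ha : GT p q a) (hb : GT p q b) : GT p q (a + b) := by
  by_cases h0 : a = 0
  · rw [h0, zero_add]; exact hb
  by_cases h1 : b = 0
  · rw [h1, add_zero]; exact ha
  by_cases h2 : a + b = 0
  · exact Or.inl h2
  · exact Or.inr ((lt_min (ha.resolve_left h0) (hb.resolve_left h1)).trans_le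
      (p.add _ _ h0 h1 h2))

theorem GE.neg (ha : GE p q a) : GE p q (-a) := by
  by_cases h0 : a = 0
  · left; rw [h0, neg_zero]
  · right; rw [v_neg _ h0]; exact ha.resolve_left h0

theorem GT.neg (ha : GT p q a) : GT p q (-a) := by
  by_cases h0 : a = 0
  · left; rw [h0, neg_zero]
  · right; rw [v_neg _ h0]; exact ha.resolve_left h0

theorem EQ.neg (ha : EQ p q a) : EQ p q (-a) :=
  ⟨neg_ne_zero.2 ha.1, by rw [v_neg _ ha.1]; exact ha.2⟩

theorem GE.sub (ha : GE p q a) (hb : GE p q b) : GE p q (a - b) := by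
  rw [sub_eq_add_neg]; exact ha.add hb.neg

theorem GT.sub (ha : GT p q a) (hb : GT p q b) : GT p q (a - b) := by
  rw [sub_eq_add_neg]; exact ha.add hb.neg

theorem GE.mul (ha : GE p q a) (hb : GE p r b) : GE p (q + r) (a * b) := by
  by_cases h0 : a = 0
  · left; rw [h0, zero_mul]
  by_cases h1 : b = 0
  · left; rw [h1, mul_zero]
  · right
    rw [p.mul _ _ h0 h1]
    exact add_le_add (ha.resolve_left h0) (hb.resolve_left h1)

theorem GT.mul (ha : GT p q a) (hb : GE p r b) : GT p (q + r) (a * b) := by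
  by_cases h0 : a = 0
  · left; rw [h0, zero_mul]
  by_cases h1 : b = 0
  · left; rw [h1, mul_zero]
  · right
    rw [p.mul _ _ h0 h1]
    exact add_lt_add_of_lt_of_le (ha.resolve_left h0) (hb.resolve_left h1)

theorem EQ.mul (ha : EQ p q a) (hb : EQ p r b) : EQ p (q + r) (a * b) :=
  ⟨mul_ne_zero ha.1 hb.1, by rw [p.mul _ _ ha.1 hb.1, ha.2, hb.2]⟩

theorem EQ.not_gt (ha : EQ p q a) : ¬ GT p q a := by
  rintro (h | h)
  · exact ha.1 h
  · exact absurd ha.2 h.ne'

/-- the term of the smallest value -/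
theorem EQ.add (ha : EQ p q a) (hb : GT p q b) : EQ p q (a + b) := by
  have h0 : ¬ GT p q (a + b) := by
    intro h
    apply ha.not_gt
    have h1 : a = (a + b) + -b := by ring
    rw [h1]
    exact h.add hb.neg
  have h1 : a + b ≠ 0 := fun h => h0 (Or.inl h)
  refine ⟨h1, le_antisymm ?_ ?_⟩
  · by_contra h
    exact h0 (Or.inr (not_le.1 h))
  · exact (ha.ge.add hb.ge).resolve_left h1

theorem EQ.of_mul (ha : EQ p q a) (h : GE p r (a * b)) : GE p (r - q) b := by
  by_cases h1 : b = 0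
  · exact Or.inl h1
  · right
    have h2 := h.resolve_left (mul_ne_zero ha.1 h1)
    rw [p.mul _ _ ha.1 h1, ha.2] at h2
    linarith

theorem EQ.of_alg (h0 : a ≠ 0) (h : IsAlgebraic ℚ a) : EQ p 0 a := ⟨h0, p.alg _ h0 h⟩

theorem GE.of_alg (h : IsAlgebraic ℚ a) : GE p 0 a := by
  by_cases h0 : a = 0
  · exact Or.inl h0
  · exact (EQ.of_alg h0 h).ge

theorem GT.alg_zero (h : GT p 0 a) (ha : IsAlgebraic ℚ a) : a = 0 := by
  by_contra h0
  exact (EQ.of_alg (p := p) h0 ha).not_gt h

theorem GE.mul_alg (ha : GE p q a) (hb : IsAlgebraic ℚ b) : GE p q (a * b) := by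
  have h := ha.mul (GE.of_alg (p := p) hb)
  rwa [add_zero] at h

theorem GT.mul_bd (ha : GT p 0 a) (hb : GE p 0 b) : GT p 0 (a * b) := by
  have h := ha.mul hb
  rwa [add_zero] at h

theorem GE.mul_bd (ha : GE p 0 a) (hb : GE p 0 b) : GE p 0 (a * b) := by
  have h := ha.mul hb
  rwa [add_zero] at h

theorem GT.bd_mul (ha : GE p 0 a) (hb : GT p 0 b) : GT p 0 (a * b) := by
  rw [mul_comm]; exact hb.mul_bd ha

/-- one of two bounded factors of a small product is small -/
theorem GT.of_mul (h : GT p 0 (a * b)) :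
    GT p 0 a ∨ GT p 0 b := by
  by_contra hcon
  rw [not_or] at hcon
  obtain ⟨h1, h2⟩ := hcon
  have ha0 : a ≠ 0 := fun h => h1 (Or.inl h)
  have hb0 : b ≠ 0 := fun h => h2 (Or.inl h)
  have h3 := h.resolve_left (mul_ne_zero ha0 hb0)
  rw [p.mul _ _ ha0 hb0] at h3
  have h4 : p.v a ≤ 0 := by
    by_contra h; exact h1 (Or.inr (not_le.1 h))
  have h5 : p.v b ≤ 0 := by
    by_contra h; exact h2 (Or.inr (not_le.1 h))
  linarith

/-! ## sines and cosines -/

noncomputable def cc (x : ℝ) : ℂ := ((Real.cos x : ℝ) : ℂ)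
noncomputable def ss (x : ℝ) : ℂ := ((Real.sin x : ℝ) : ℂ)
noncomputable def ee (x : ℝ) : ℂ := Complex.exp (x * Complex.I)

theorem ee_ne (x : ℝ) : ee x ≠ 0 := Complex.exp_ne_zero _

theorem ee_add (x y : ℝ) : ee (x + y) = ee x * ee y := by
  unfold ee
  rw [← Complex.exp_add]
  push_cast
  ring_nf

theorem ee_neg (x : ℝ) : ee (-x) = (ee x)⁻¹ := by
  unfold ee
  rw [← Complex.exp_neg]
  push_cast
  ring_nf

theorem ee_eq (x : ℝ) : ee x = cc x + ss x * Complex.I := by
  unfold ee cc ss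
  rw [Complex.exp_mul_I]
  push_cast
  rfl

theorem cc_neg (x : ℝ) : cc (-x) = cc x := by unfold cc; rw [Real.cos_neg]
theorem ss_neg (x : ℝ) : ss (-x) = -ss x := by unfold ss; rw [Real.sin_neg]; push_cast; rfl

theorem cc_eq (x : ℝ) : cc x = (ee x + (ee x)⁻¹) * (1 / 2) := by
  rw [← ee_neg, ee_eq x, ee_eq (-x), cc_neg, ss_neg]
  ring

theorem ss_eq (x : ℝ) : ss x = (ee x - (ee x)⁻¹) * (-Complex.I / 2) := by
  rw [← ee_neg, ee_eq x, ee_eq (-x), cc_neg, ss_neg]
  have h := Complex.I_mul_I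
  linear_combination (ss x) * h

theorem cc_add (x y : ℝ) : cc (x + y) = cc x * cc y - ss x * ss y := by
  unfold cc ss
  rw [Real.cos_add]
  push_cast
  rfl

theorem ss_add (x y : ℝ) : ss (x + y) = ss x * cc y + cc x * ss y := by
  unfold cc ss
  rw [Real.sin_add]
  push_cast
  rfl

theorem sq_add_sq (x : ℝ) : cc x ^ 2 + ss x ^ 2 = 1 := by
  unfold cc ss
  have h := Real.cos_sq_add_sin_sq x
  exact_mod_cast h

theorem alg_I : IsAlgebraic ℚ Complex.I := by
  refine IsAlgebraic.of_pow (n := 2) (by norm_num) ?_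
  rw [Complex.I_sq]
  exact isAlgebraic_one.neg

theorem alg_half : IsAlgebraic ℚ (1 / 2 : ℂ) := by
  have h : (1 / 2 : ℂ) = algebraMap ℚ ℂ (1 / 2) := by simp
  rw [h]
  exact isAlgebraic_algebraMap _

theorem alg_mIhalf : IsAlgebraic ℚ (-Complex.I / 2 : ℂ) := by
  have h : (-Complex.I / 2 : ℂ) = -Complex.I * (1 / 2) := by ring
  rw [h]
  exact alg_I.neg.mul alg_half

theorem alg_cc {x : ℝ} (h : AA x) : IsAlgebraic ℚ (cc x) := by
  rw [cc_eq]
  have h1 : IsAlgebraic ℚ (ee x) := h
  exact (h1.add h1.inv).mul alg_half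

theorem alg_ss {x : ℝ} (h : AA x) : IsAlgebraic ℚ (ss x) := by
  rw [ss_eq]
  have h1 : IsAlgebraic ℚ (ee x) := h
  exact (h1.sub h1.inv).mul alg_mIhalf

/-- the value of `exp (i x)` -/
noncomputable def t (p : Place) (x : ℝ) : ℚ := p.v (ee x)

theorem t_add (p : Place) (x y : ℝ) : t p (x + y) = t p x + t p y := by
  unfold t
  rw [ee_add, p.mul _ _ (ee_ne x) (ee_ne y)]

theorem t_neg (p : Place) (x : ℝ) : t p (-x) = -t p x := by
  unfold t
  rw [ee_neg, v_inv _ (ee_ne x)]

theorem t_sub (p : Place) (x y : ℝ) : t p (x - y) = t p x - t p y := by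
  rw [sub_eq_add_neg, t_add, t_neg, ← sub_eq_add_neg]

theorem t_AA (p : Place) {x : ℝ} (h : AA x) : t p x = 0 := p.alg _ (ee_ne x) h

theorem EQ_ee (p : Place) (x : ℝ) : EQ p (t p x) (ee x) := ⟨ee_ne x, rfl⟩

theorem EQ_ee_inv (p : Place) (x : ℝ) : EQ p (-t p x) (ee x)⁻¹ :=
  ⟨inv_ne_zero (ee_ne x), v_inv _ (ee_ne x)⟩

theorem EQ_cc {p : Place} {x : ℝ} (h : t p x ≠ 0) : EQ p (-|t p x|) (cc x) := by
  rw [cc_eq]
  have h2 : EQ p 0 (1 / 2 : ℂ) := EQ.of_alg (by norm_num) alg_half
  have h3 : EQ p (-|t p x|) (ee x + (ee x)⁻¹) := by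
    rcases lt_or_gt_of_ne h with h1 | h1
    · rw [abs_of_neg h1, neg_neg]
      exact (EQ_ee p x).add ((EQ_ee_inv p x).ge.gt (by linarith))
    · rw [abs_of_pos h1, add_comm]
      exact (EQ_ee_inv p x).add ((EQ_ee p x).ge.gt (by linarith))
  have h4 := h3.mul h2
  rwa [add_zero] at h4

theorem EQ_ss {p : Place} {x : ℝ} (h : t p x ≠ 0) : EQ p (-|t p x|) (ss x) := by
  rw [ss_eq]
  have h2 : EQ p 0 (-Complex.I / 2 : ℂ) := EQ.of_alg (by simp) alg_mIhalf
  have h3 : EQ p (-|t p x|) (ee x - (ee x)⁻¹) := by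
    rw [sub_eq_add_neg]
    rcases lt_or_gt_of_ne h with h1 | h1
    · rw [abs_of_neg h1, neg_neg]
      exact (EQ_ee p x).add ((EQ_ee_inv p x).neg.ge.gt (by linarith))
    · rw [abs_of_pos h1, add_comm]
      exact (EQ_ee_inv p x).neg.add ((EQ_ee p x).ge.gt (by linarith))
  have h4 := h3.mul h2
  rwa [add_zero] at h4

theorem GE_cc (p : Place) (x : ℝ) : GE p (-|t p x|) (cc x) := by
  by_cases h : t p x = 0
  · rw [h, abs_zero, neg_zero, cc_eq]
    have h1 := (EQ_ee p x).ge
    have h2 := (EQ_ee_inv p x).ge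
    rw [h] at h1 h2
    rw [neg_zero] at h2
    exact (h1.add h2).mul_alg alg_half
  · exact (EQ_cc h).ge

theorem GE_ss (p : Place) (x : ℝ) : GE p (-|t p x|) (ss x) := by
  by_cases h : t p x = 0
  · rw [h, abs_zero, neg_zero, ss_eq]
    have h1 := (EQ_ee p x).ge
    have h2 := (EQ_ee_inv p x).ge
    rw [h] at h1 h2
    rw [neg_zero] at h2
    exact (h1.sub h2).mul_alg alg_mIhalf
  · exact (EQ_ss h).ge

theorem GE_cc0 {p : Place} {x : ℝ} (h : t p x = 0) : GE p 0 (cc x) := by
  have h1 := GE_cc p x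
  rwa [h, abs_zero, neg_zero] at h1

theorem GE_ss0 {p : Place} {x : ℝ} (h : t p x = 0) : GE p 0 (ss x) := by
  have h1 := GE_ss p x
  rwa [h, abs_zero, neg_zero] at h1

/-- a bounded sine is small: the cosine is close to `1` or to `-1` -/
theorem cc_res {p : Place} {x : ℝ} (h : GT p 0 (ss x)) :
    ∃ e : ℝ, (e = 1 ∨ e = -1) ∧ GT p 0 (cc x - (e : ℂ)) := by
  have h1 : (cc x - 1) * (cc x + 1) = -(ss x * ss x) := by
    linear_combination sq_add_sq x
  rcases GT.of_mul (p := p) (a := cc x - 1) (b := cc x + 1)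
    (by rw [h1]; exact (h.mul_bd h.ge).neg) with h2 | h2
  · exact ⟨1, Or.inl rfl, by push_cast; exact h2⟩
  · exact ⟨-1, Or.inr rfl, by push_cast; rw [sub_neg_eq_add]; exact h2⟩

/-- Part I -/
theorem partI {p : Place} {x y z w w' μ : ℝ}
    (Q1 : cc w' * ss y = cc z * ss x + cc w * ss (x - y))
    (Q6 : cc y * ss w' - cc μ * ss w + cc z * ss (w' - w) = 0)
    (hs : t p x + t p y + t p z = 0) (hw : t p w + t p w' = 0) (hμ : t p μ = 0)
    (hE : t p w < 0) (hz : EQ p (-|t p z|) (cc z)) : False := by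
  have hw' : t p w' = -t p w := by linarith
  have hsub : t p (w' - w) = -2 * t p w := by rw [t_sub]; linarith
  have e1 : |t p w'| = -t p w := by rw [hw', abs_of_pos (by linarith)]
  have e2 : |t p w| = -t p w := abs_of_neg hE
  have e3 : |t p (w' - w)| = -2 * t p w := by rw [hsub, abs_of_pos (by linarith)]
  -- the three terms of Q6
  have h3 : EQ p (-|t p z| + 2 * t p w) (cc z * ss (w' - w)) := by
    have h := hz.mul (EQ_ss (p := p) (x := w' - w) (by rw [hsub]; linarith))
    rw [e3] at h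
    convert h using 1
    ring
  have h2 : GE p (t p w) (cc μ * ss w) := by
    have h := (GE_cc0 hμ).mul (GE_ss p w)
    rw [e2] at h
    convert h using 1
    ring
  have h1 : GE p (-|t p y| + t p w) (cc y * ss w') := by
    have h := (GE_cc p y).mul (GE_ss p w')
    rw [e1] at h
    convert h using 1
    ring
  have hc0 := abs_nonneg (t p z)
  have hb0 := abs_nonneg (t p y)
  -- |b| = |c| + E
  have hb : |t p y| = |t p z| - t p w := by
    apply le_antisymm
    · by_contra hcon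
      have hby : t p y ≠ 0 := by
        intro h
        rw [h, abs_zero] at hcon
        exact hcon (by linarith)
      have h1' : EQ p (-|t p y| + t p w) (cc y * ss w') := by
        have h := (EQ_cc hby).mul (EQ_ss (p := p) (x := w') (by rw [hw']; linarith))
        rw [e1] at h
        convert h using 1
        ring
      have h4 : EQ p (-|t p y| + t p w) (cc y * ss w' + (-(cc μ * ss w) + cc z * ss (w' - w))) := by
        refine h1'.add ?_
        refine GT.add ?_ ?_
        · exact h2.neg.gt (by linarith)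
        · exact h3.ge.gt (by linarith)
      refine h4.1 ?_
      rw [← Q6]
      ring
    · by_contra hcon
      have h4 : EQ p (-|t p z| + 2 * t p w) (cc z * ss (w' - w) + (cc y * ss w' + -(cc μ * ss w))) := by
        refine h3.add ?_
        refine GT.add ?_ ?_
        · exact h1.gt (by linarith)
        · exact h2.neg.gt (by linarith)
      refine h4.1 ?_
      rw [← Q6]
      ring
  have hby : t p y ≠ 0 := by
    intro h
    rw [h, abs_zero] at hb
    linarith
  -- Q1
  have hxy : t p (x - y) = -2 * t p y - t p z := by rw [t_sub]; linarith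
  have hx : t p x = -t p y - t p z := by linarith
  have key : |t p (x - y)| = 2 * |t p y| + (if 0 < t p y then t p z else -t p z) := by
    rw [hxy]
    split_ifs with h
    · rw [abs_of_pos h] at hb ⊢
      rw [abs_of_neg (by rw [hb]; linarith [neg_abs_le (t p z)])]
      ring
    · have h' : t p y < 0 := lt_of_le_of_ne (not_lt.1 h) hby
      rw [abs_of_neg h'] at hb ⊢
      rw [abs_of_pos (by linarith [le_abs_self (t p z)])]
      ring
  have key2 : |t p x| = |t p y| + (if 0 < t p y then t p z else -t p z) := by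
    rw [hx]
    split_ifs with h
    · rw [abs_of_pos h] at hb ⊢
      rw [abs_of_nonpos (by linarith [neg_abs_le (t p z)])]
      ring
    · have h' : t p y < 0 := lt_of_le_of_ne (not_lt.1 h) hby
      rw [abs_of_neg h'] at hb ⊢
      rw [abs_of_nonneg (by linarith [le_abs_self (t p z)])]
      ring
  have hσ : -|t p z| ≤ (if 0 < t p y then t p z else -t p z) := by
    split_ifs
    · exact neg_abs_le _
    · exact neg_le_neg (le_abs_self _)
  set σ := (if 0 < t p y then t p z else -t p z) with hσdef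
  have hxy0 : t p (x - y) ≠ 0 := by
    intro h
    rw [h, abs_zero] at key
    linarith
  have g3 : EQ p (t p w - |t p (x - y)|) (cc w * ss (x - y)) := by
    have h := (EQ_cc (p := p) (x := w) hE.ne).mul (EQ_ss hxy0)
    rw [e2] at h
    convert h using 1
    ring
  have g2 : GE p (-|t p z| - |t p x|) (cc z * ss x) := by
    have h := (GE_cc p z).mul (GE_ss p x)
    convert h using 1
    ring
  have g1 : GE p (t p w - |t p y|) (cc w' * ss y) := by
    have h := (GE_cc p w').mul (GE_ss p y)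
    rw [e1] at h
    convert h using 1
    ring
  have h4 : EQ p (t p w - |t p (x - y)|) (cc w * ss (x - y) + (cc z * ss x + -(cc w' * ss y))) := by
    refine g3.add ?_
    refine GT.add ?_ ?_
    · exact g2.gt (by rw [key, key2]; linarith)
    · exact g1.neg.gt (by rw [key]; linarith)
  refine h4.1 ?_
  rw [Q1]
  ring

/-- Part II: all three values vanish, and the sines of `x` and `y` are small -/
theorem partII {p : Place} {x y z w w' μ : ℝ}
    (Q1 : cc w' * ss y = cc z * ss x + cc w * ss (x - y))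
    (Q2 : cc w' * ss y = cc x * ss z + cc μ * ss (z - y))
    (hs : t p x + t p y + t p z = 0) (hw : t p w + t p w' = 0) (hμ : t p μ = 0)
    (hE : t p w < 0) (hz0 : t p z = 0) :
    t p x = 0 ∧ t p y = 0 ∧ GE p (-t p w) (ss y) ∧ GE p (-t p w) (ss x) := by
  have hw' : t p w' = -t p w := by linarith
  have e1 : |t p w'| = -t p w := by rw [hw', abs_of_pos (by linarith)]
  have e2 : |t p w| = -t p w := abs_of_neg hE
  have hxy : t p x = -t p y := by linarith
  have hy : t p y = 0 := by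
    by_contra hy
    have h1 : EQ p (t p w - |t p y|) (cc w' * ss y) := by
      have h := (EQ_cc (p := p) (x := w') (by rw [hw']; linarith)).mul (EQ_ss hy)
      rw [e1] at h
      convert h using 1
      ring
    have h2 : GE p (-|t p y|) (cc x * ss z) := by
      have h := (GE_cc p x).mul (GE_ss0 hz0)
      rw [hxy, abs_neg] at h
      convert h using 1
      ring
    have h3 : GE p (-|t p y|) (cc μ * ss (z - y)) := by
      have h := (GE_cc0 hμ).mul (GE_ss p (z - y))
      rw [t_sub, hz0, zero_sub, abs_neg] at h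
      convert h using 1
      ring
    apply h1.not_gt
    rw [Q2]
    exact (h2.add h3).gt (by linarith)
  have hx : t p x = 0 := by rw [hxy, hy, neg_zero]
  have hw'0 : EQ p (t p w) (cc w') := by
    have h := EQ_cc (p := p) (x := w') (by rw [hw']; linarith)
    rw [e1] at h
    convert h using 1
    ring
  have hw0 : EQ p (t p w) (cc w) := by
    have h := EQ_cc (p := p) (x := w) hE.ne
    rw [e2] at h
    convert h using 1
    ring
  have h1 : GE p (-t p w) (ss y) := by
    have h := hw'0.of_mul (b := ss y) (r := 0) (by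
      rw [Q2]
      refine ((GE_cc0 hx).mul_bd (GE_ss0 hz0)).add ((GE_cc0 hμ).mul_bd (GE_ss0 ?_))
      rw [t_sub, hz0, hy, sub_zero])
    convert h using 1
    ring
  have h2 : GE p (-t p w) (ss (x - y)) := by
    have h := hw0.of_mul (b := ss (x - y)) (r := 0) (by
      have h3 : cc w * ss (x - y) = cc w' * ss y - cc z * ss x := by rw [Q1]; ring
      rw [h3]
      refine GE.sub ?_ ((GE_cc0 hz0).mul_bd (GE_ss0 hx))
      have h4 := hw'0.ge.mul h1
      convert h4 using 1
      ring)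
    convert h using 1
    ring
  refine ⟨hx, hy, h1, ?_⟩
  have h3 : ss x = ss (x - y) * cc y + cc (x - y) * ss y := by
    rw [← ss_add, sub_add_cancel]
  rw [h3]
  have h4 : t p (x - y) = 0 := by rw [t_sub, hx, hy, sub_zero]
  have h5 := h2.mul (GE_cc0 hy)
  have h6 := (GE_cc0 h4).mul h1
  rw [add_zero] at h5
  rw [zero_add] at h6
  exact h5.add h6

/-- Part II: the residues -/
theorem partIII {p : Place} {x y z w w' μ : ℝ}
    (Q1 : cc w' * ss y = cc z * ss x + cc w * ss (x - y))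
    (Q2 : cc w' * ss y = cc x * ss z + cc μ * ss (z - y))
    (Q6 : cc y * ss w' - cc μ * ss w + cc z * ss (w' - w) = 0)
    (Rb : ss y ^ 2 * ss w' = ss x * ss w * ss z * cc z + ss y * ss z * ss (w + w'))
    (hΦ : AA (x + y + z)) (hΨ : AA (w + w')) (hμ : AA μ) (hm : |Real.cos μ| < 1)
    (hw0 : 0 < w) (hwπ : w < π) (hw0' : 0 < w') (hwπ' : w' < π)
    (hE : t p w < 0) (hx : t p x = 0) (hy : t p y = 0) (hz : t p z = 0)
    (hcz : GT p 0 (cc z)) (hsy : GE p (-t p w) (ss y)) (hsx : GE p (-t p w) (ss x)) : False := by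
  have hsx0 : GT p 0 (ss x) := hsx.gt (by linarith)
  have hsy0 : GT p 0 (ss y) := hsy.gt (by linarith)
  obtain ⟨ex, hex, Rx⟩ := cc_res hsx0
  obtain ⟨ey, hey, Ry⟩ := cc_res hsy0
  have hex2 : ((ex : ℝ) : ℂ) * ex = 1 := by
    rcases hex with rfl | rfl <;> push_cast <;> ring
  have hey2 : ((ey : ℝ) : ℂ) * ey = 1 := by
    rcases hey with rfl | rfl <;> push_cast <;> ring
  have aex : IsAlgebraic ℚ ((ex : ℝ) : ℂ) := by
    rcases hex with rfl | rfl
    · push_cast; exact isAlgebraic_one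
    · push_cast; exact isAlgebraic_one.neg
  have aey : IsAlgebraic ℚ ((ey : ℝ) : ℂ) := by
    rcases hey with rfl | rfl
    · push_cast; exact isAlgebraic_one
    · push_cast; exact isAlgebraic_one.neg
  have bcx := GE_cc0 hx
  have bcy := GE_cc0 hy
  have bsz := GE_ss0 hz
  have bex : GE p 0 ((ex : ℝ) : ℂ) := GE.of_alg aex
  have bey : GE p 0 ((ey : ℝ) : ℂ) := GE.of_alg aey
  have hxy : t p (x + y) = 0 := by rw [t_add, hx, hy, add_zero]
  -- the sine and the cosine of z
  have hsxy : GT p 0 (ss (x + y)) := by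
    rw [ss_add]
    exact (hsx0.mul_bd bcy).add (GT.bd_mul bcx hsy0)
  have hcΦ : cc (x + y + z) = 0 := by
    refine GT.alg_zero (p := p) ?_ (alg_cc hΦ)
    rw [cc_add]
    exact (GT.bd_mul (GE_cc0 hxy) hcz).sub (hsxy.mul_bd bsz)
  set s := ss (x + y + z) with hs
  have as : IsAlgebraic ℚ s := alg_ss hΦ
  have bs : GE p 0 s := GE.of_alg as
  have hs2 : s * s = 1 := by
    have h := sq_add_sq (x + y + z)
    rw [hcΦ, ← hs] at h
    linear_combination h
  have ez : z = (x + y + z) + (-(x + y)) := by ring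
  have hccz : cc z = s * (ss x * cc y + cc x * ss y) := by
    have h := cc_add (x + y + z) (-(x + y))
    rw [← ez, cc_neg, ss_neg, hcΦ, ← hs, ss_add x y] at h
    rw [h]
    ring
  have hssz : ss z = s * (cc x * cc y - ss x * ss y) := by
    have h := ss_add (x + y + z) (-(x + y))
    rw [← ez, cc_neg, ss_neg, hcΦ, ← hs, cc_add x y] at h
    rw [h]
    ring
  -- the exponentials
  set W := ee w with hW
  set P := ee (w + w') with hP
  have hW0 : W ≠ 0 := ee_ne w
  have hP0 : P ≠ 0 := ee_ne _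
  have aP : IsAlgebraic ℚ P := hΨ
  have bP : GE p 0 P := GE.of_alg aP
  have bPi : GE p 0 P⁻¹ := GE.of_alg aP.inv
  set m := cc μ with hmdef
  have am : IsAlgebraic ℚ m := alg_cc hμ
  have bm : GE p 0 m := GE.of_alg am
  have eU : EQ p (-t p w) W⁻¹ := EQ_ee_inv p w
  have sU : GT p 0 W⁻¹ := eU.ge.gt (by linarith)
  have bU : GE p 0 W⁻¹ := sU.ge
  have hw' : ee w' = P * W⁻¹ := by
    rw [hP, ee_add, ← hW]
    field_simp
  have hw'i : (ee w')⁻¹ = P⁻¹ * W := by
    rw [hw', mul_inv, inv_inv]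
  set U := W⁻¹ with hU
  have hWU : W * U = 1 := mul_inv_cancel₀ hW0
  have hPP : P * P⁻¹ = 1 := mul_inv_cancel₀ hP0
  have c1 : cc w' = (P * U + P⁻¹ * W) * (1 / 2) := by rw [cc_eq, hw'i, hw']
  have s1 : ss w' = (P * U - P⁻¹ * W) * (-Complex.I / 2) := by rw [ss_eq, hw'i, hw']
  have c2 : cc w = (W + U) * (1 / 2) := by rw [cc_eq]
  have s2 : ss w = (W - U) * (-Complex.I / 2) := by rw [ss_eq]
  have s3 : ss (w' - w) = (P * U * U - P⁻¹ * W * W) * (-Complex.I / 2) := by
    have h1 : ee (w' - w) = P * U * U := by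
      rw [sub_eq_add_neg, ee_add, ee_neg, hw', ← hW]
    have h2 : (ee (w' - w))⁻¹ = P⁻¹ * W * W := by
      rw [h1, mul_inv, mul_inv, hU, inv_inv]
    rw [ss_eq, h2, h1]
  have hI : (-Complex.I / 2 : ℂ) ≠ 0 := by simp
  -- the bounded quantities
  have hWnu : GE p 0 (W * ss x) := by
    have h := (EQ_ee p w).ge.mul hsx
    rwa [add_neg_cancel] at h
  have hWlam : GE p 0 (W * ss y) := by
    have h := (EQ_ee p w).ge.mul hsy
    rwa [add_neg_cancel] at h
  set nu := W * ss x with hnu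
  set lam := W * ss y with hlam
  have hkap : W * cc z = s * (nu * cc y + lam * cc x) := by
    rw [hccz, hnu, hlam]; ring
  have bkap : GE p 0 (W * cc z) := by
    rw [hkap]
    exact bs.mul_bd ((hWnu.mul_bd bcy).add (hWlam.mul_bd bcx))
  set kap := W * cc z with hkapdef
  -- the four congruences
  have d1 : GT p 0 (kap - (-ey - m * P)) := by
    have h : kap - (-ey - m * P) = -(cc y - ey) +
        U * (U * (cc y * (P * P) + m * P + kap * (P * P) * (U * U))) := by
      rw [s1, s2, s3] at Q6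
      have h1 : cc y * (P * U - P⁻¹ * W) - m * (W - U) + cc z * (P * U * U - P⁻¹ * W * W) = 0 := by
        have h2 : (-Complex.I / 2) * (cc y * (P * U - P⁻¹ * W) - m * (W - U) +
            cc z * (P * U * U - P⁻¹ * W * W)) = 0 := by
          linear_combination Q6
        exact (mul_eq_zero.1 h2).resolve_left hI
      rw [hkapdef]
      linear_combination (-(U * P)) * h1 + (-(cc z * W * P * P⁻¹) - m * P - cc y * P * P⁻¹ -
        cc z * P ^ 2 * U ^ 3) * hWU + (-(cc z * W) - cc y) * hPP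
    rw [h]
    refine Ry.neg.add (sU.mul_bd (bU.mul_bd ?_))
    exact ((bcy.mul_bd (bP.mul_bd bP)).add (bm.mul_bd bP)).add
      ((bkap.mul_bd (bP.mul_bd bP)).mul_bd (bU.mul_bd bU))
  have eszy : ss (z - y) = ss z * cc y - cc z * ss y := by
    rw [sub_eq_add_neg, ss_add, cc_neg, ss_neg]; ring
  have esxy : ss (x - y) = ss x * cc y - cc x * ss y := by
    rw [sub_eq_add_neg, ss_add, cc_neg, ss_neg]; ring
  have elam : ss y = U * lam := by rw [hlam]; linear_combination (-ss y) * hWU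
  -- the residue of the sine of z
  have dsz : GT p 0 (ss z - s * ex * ey) := by
    have h : ss z - s * ex * ey = s * ((cc x - ex) * cc y + ex * (cc y - ey) - ss x * ss y) := by
      rw [hssz]; ring
    rw [h]
    exact GT.bd_mul bs (((Rx.mul_bd bcy).add (GT.bd_mul bex Ry)).sub (hsx0.mul_bd hsy0.ge))
  have d2 : GT p 0 (lam - 2 * P * s * (ey + m * ex)) := by
    have h : lam - 2 * P * s * (ey + m * ex) =
        P * (((cc x - ex) * ss z + ex * (ss z - s * ex * ey)) * (1 + 1) +
          m * ((ss z - s * ex * ey) * cc y + s * ex * ey * (cc y - ey) - cc z * ss y) * (1 + 1)) -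
        (P * P * (U * lam)) * U := by
      have h1 : (P * U + P⁻¹ * W) * (U * lam) = 2 * (cc x * ss z + m * (ss z * cc y - cc z * ss y)) := by
        rw [c1, eszy] at Q2
        rw [← elam]
        linear_combination 2 * Q2
      linear_combination P * h1 + (-(P * P⁻¹ * lam)) * hWU + (-lam) * hPP +
        (2 * P * s * ey) * hex2 + (2 * P * s * m * ex) * hey2
    rw [h]
    have b1 : GE p 0 (1 + 1 : ℂ) := GE.of_alg (isAlgebraic_one.add isAlgebraic_one)
    have bsex : GE p 0 (s * ex * ey) := (bs.mul_bd bex).mul_bd bey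
    refine GT.sub (GT.bd_mul bP (GT.add ?_ ?_)) (GT.bd_mul ((bP.mul_bd bP).mul_bd
      (bU.mul_bd hWlam)) sU)
    · exact ((Rx.mul_bd bsz).add (GT.bd_mul bex dsz)).mul_bd b1
    · exact (GT.bd_mul bm (((dsz.mul_bd bcy).add (GT.bd_mul bsex Ry)).sub
        (hcz.mul_bd hsy0.ge))).mul_bd b1
  have d3 : GT p 0 (lam * P⁻¹ - (nu * ey - lam * ex)) := by
    have h : lam * P⁻¹ - (nu * ey - lam * ex) =
        cc z * ss x * (1 + 1) + nu * (cc y - ey) - lam * (cc x - ex) + U * ss (x - y) -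
          U * (U * (P * lam)) := by
      have h1 : (P * U + P⁻¹ * W) * (U * lam) = 2 * (cc z * ss x) + (W + U) * ss (x - y) := by
        rw [c1, c2] at Q1
        rw [← elam]
        linear_combination 2 * Q1
      have h2 : W * ss (x - y) = nu * cc y - lam * cc x := by
        rw [esxy, hnu, hlam]; ring
      linear_combination h1 + (-(P⁻¹ * lam)) * hWU + h2
    rw [h]
    have b1 : GE p 0 (1 + 1 : ℂ) := GE.of_alg (isAlgebraic_one.add isAlgebraic_one)
    have hs0 : t p (x - y) = 0 := by rw [t_sub, hx, hy, sub_zero]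
    refine GT.sub (GT.add (GT.sub (GT.add ?_ ?_) ?_) ?_) ?_
    · exact (hcz.mul_bd hsx0.ge).mul_bd b1
    · exact GT.bd_mul hWnu Ry
    · exact GT.bd_mul hWlam Rx
    · exact sU.mul_bd (GE_ss0 hs0)
    · exact sU.mul_bd (bU.mul_bd (bP.mul_bd hWlam))
  have d4 : GT p 0 (kap - s * (nu * ey + lam * ex)) := by
    have h : kap - s * (nu * ey + lam * ex) = s * (nu * (cc y - ey) + lam * (cc x - ex)) := by
      rw [hkap]; ring
    rw [h]
    exact GT.bd_mul bs ((GT.bd_mul hWnu Ry).add (GT.bd_mul hWlam Rx))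
  -- the equation between algebraic numbers
  have a2 : IsAlgebraic ℚ (2 : ℂ) := by
    have h := isAlgebraic_one (R := ℚ) (A := ℂ) |>.add isAlgebraic_one
    rwa [one_add_one_eq_two] at h
  have a3 : IsAlgebraic ℚ (3 : ℂ) := by
    have h := a2.add (isAlgebraic_one (R := ℚ) (A := ℂ))
    rwa [show (2 : ℂ) + 1 = 3 by norm_num] at h
  have a4 : IsAlgebraic ℚ (4 : ℂ) := by
    have h := a3.add (isAlgebraic_one (R := ℚ) (A := ℂ))
    rwa [show (3 : ℂ) + 1 = 4 by norm_num] at h
  have a5 : IsAlgebraic ℚ (5 : ℂ) := by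
    have h := a4.add (isAlgebraic_one (R := ℚ) (A := ℂ))
    rwa [show (4 : ℂ) + 1 = 5 by norm_num] at h
  have hT : (3 * ey + 2 * m * ex + P * (4 * ex * ey + 5 * m) : ℂ) = 0 := by
    refine GT.alg_zero (p := p) ?_ ?_
    · have h : (3 * ey + 2 * m * ex + P * (4 * ex * ey + 5 * m) : ℂ) =
          (kap - (-ey - m * P)) - s * (lam - 2 * P * s * (ey + m * ex)) * (P⁻¹ + 2 * ex) +
            s * (lam * P⁻¹ - (nu * ey - lam * ex)) - (kap - s * (nu * ey + lam * ex)) := by
        linear_combination (-(2 * (ey + m * ex) * P * (P⁻¹ + 2 * ex))) * hs2 +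
          (-(2 * (ey + m * ex))) * hPP + (-(4 * P * m)) * hex2
      rw [h]
      refine ((d1.sub ((GT.bd_mul bs d2).mul_bd ?_)).add (GT.bd_mul bs d3)).sub d4
      exact bPi.add ((GE.of_alg a2).mul_bd bex)
    · exact ((a3.mul aey).add ((a2.mul am).mul aex)).add
        (aP.mul (((a4.mul aex).mul aey).add (a5.mul am)))
  -- real and imaginary part
  have hT2 : ((3 * ey + 2 * Real.cos μ * ex + Real.cos (w + w') * (4 * ex * ey +
      5 * Real.cos μ) : ℝ) : ℂ) +
      ((Real.sin (w + w') * (4 * ex * ey + 5 * Real.cos μ) : ℝ) : ℂ) * Complex.I = 0 := by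
    rw [← hT, hP, ee_eq, hmdef]
    unfold cc ss
    push_cast
    ring
  have hre : 3 * ey + 2 * Real.cos μ * ex + Real.cos (w + w') * (4 * ex * ey +
      5 * Real.cos μ) = 0 := by
    have h := congrArg Complex.re hT2
    simpa only [Complex.add_re, Complex.ofReal_re, Complex.mul_re, Complex.I_re, Complex.I_im,
      Complex.ofReal_im, mul_zero, zero_mul, mul_one, sub_zero, add_zero, Complex.zero_re] using h
  have him : Real.sin (w + w') * (4 * ex * ey + 5 * Real.cos μ) = 0 := by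
    have h := congrArg Complex.im hT2
    simpa only [Complex.add_im, Complex.ofReal_re, Complex.mul_im, Complex.I_re, Complex.I_im,
      Complex.ofReal_im, mul_zero, zero_mul, mul_one, sub_zero, add_zero, zero_add,
      Complex.zero_im] using h
  obtain ⟨hm1, hm2⟩ := abs_lt.1 hm
  have hsin : Real.sin (w + w') = 0 := by
    rcases mul_eq_zero.1 him with h | h
    · exact h
    · exfalso
      rw [h, mul_zero, add_zero] at hre
      rcases hex with h1 | h1 <;> rcases hey with h2 | h2 <;> rw [h1, h2] at hre <;> linarith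
  have hπ : w + w' = π := by
    rcases lt_trichotomy (w + w') π with h | h | h
    · exact absurd hsin (Real.sin_pos_of_pos_of_lt_pi (by linarith) h).ne'
    · exact h
    · have h1 := Real.sin_neg_of_neg_of_neg_pi_lt (x := w + w' - 2 * π) (by linarith)
        (by linarith)
      rw [Real.sin_sub_two_pi] at h1
      exact absurd hsin h1.ne
  rw [hπ, Real.cos_pi] at hre
  have hex1 : ex = 1 := by
    rcases hex with h1 | h1
    · exact h1
    · exfalso
      rcases hey with h2 | h2 <;> rw [h1, h2] at hre <;> linarith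
  have hm3 : 3 * Real.cos μ = -ey := by
    rw [hex1] at hre
    linarith
  have hm3' : 3 * m = -(ey : ℂ) := by
    rw [hmdef]
    unfold cc
    exact_mod_cast hm3
  have hP1 : P = -1 := by
    rw [hP, ee_eq, hπ]
    unfold cc ss
    rw [Real.cos_pi, Real.sin_pi]
    push_cast
    ring
  have hex1' : ((ex : ℝ) : ℂ) = 1 := by rw [hex1]; push_cast; rfl
  have hPi1 : P⁻¹ = -1 := by rw [hP1]; norm_num
  have snu : GT p 0 nu := by
    have h : nu = -((lam * P⁻¹ - (nu * ey - lam * ex)) * ey) := by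
      rw [hPi1, hex1']
      linear_combination (-nu) * hey2
    rw [h]
    exact (d3.mul_bd bey).neg
  have hssw : ss w' = ss w := by
    have h : w' = π - w := by linarith
    unfold ss
    rw [h, Real.sin_pi_sub]
  have hssw0 : ss w ≠ 0 := by
    unfold ss
    exact_mod_cast (Real.sin_pos_of_pos_of_lt_pi hw0 hwπ).ne'
  have hll : lam * lam = nu * (ss z * kap) := by
    have h1 : ss (w + w') = 0 := by
      unfold ss
      rw [hsin]
      push_cast
      rfl
    rw [h1, hssw, mul_zero, add_zero] at Rb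
    have h2 : ss y ^ 2 = ss x * ss z * cc z := by
      refine mul_right_cancel₀ hssw0 ?_
      rw [Rb]
      ring
    rw [hlam, hnu, hkapdef]
    linear_combination (W * W) * h2
  have slam : GT p 0 lam := by
    have h : GT p 0 (lam * lam) := by
      rw [hll]
      exact snu.mul_bd (bsz.mul_bd bkap)
    exact (GT.of_mul h).elim id id
  have h0 : 2 * s * (ey + m) = 0 := by
    refine GT.alg_zero (p := p) ?_ ((a2.mul as).mul (aey.add am))
    have h : 2 * s * (ey + m) = (lam - 2 * P * s * (ey + m * ex)) - lam := by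
      rw [hP1, hex1']
      ring
    rw [h]
    exact d2.sub slam
  have h1 : (ey : ℂ) * ey = 0 := by
    have h2 : s * (2 * s * (ey + m)) * ey * 3 = 0 := by rw [h0]; ring
    have h3 : s * (2 * s * (ey + m)) * ey * 3 = 4 * (ey * ey) := by
      linear_combination (6 * (ey + m) * ey) * hs2 + (2 * (ey : ℂ)) * hm3'
    rw [h2] at h3
    linear_combination (-1 / 4 : ℂ) * h3
  rw [hey2] at h1
  exact one_ne_zero h1

/-- an isosceles face, from three of the four projections -/
theorem iso_gen {A B C D u v c1 c2 c4 c5 : ℝ} (hA : A ≠ 0) (hC : C ≠ 0)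
    (rA : A = C * c5 + B * c4 + D * Real.cos v) (rB : B = A * c4 + C * c2 + D * Real.cos u)
    (rD : D = A * Real.cos v + C * c1 + B * Real.cos u)
    (h : B * Real.sin u = A * Real.sin v) :
    c2 * Real.sin v = c5 * Real.sin u + c1 * Real.sin (u - v) := by
  have sv := Real.sin_sq_add_cos_sq v
  have su := Real.sin_sq_add_cos_sq u
  have key : A * c5 - B * c2 + c1 * (A * Real.cos v - B * Real.cos u) = 0 := by
    refine (mul_eq_zero.1 (?_ : C * (A * c5 - B * c2 + c1 * (A * Real.cos v -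
      B * Real.cos u)) = 0)).resolve_left hC
    linear_combination (-A) * rA + B * rB - (A * Real.cos v - B * Real.cos u) * rD - A ^ 2 * sv +
      B ^ 2 * su - (A * Real.sin v + B * Real.sin u) * h
  refine mul_left_cancel₀ hA ?_
  rw [Real.sin_sub]
  linear_combination (-Real.sin u) * key + (-c2 - c1 * Real.cos u) * h

end CI

theorem caseI {θ : Fin 6 → ℝ} {a : Fin 4 → ℝ} (h : Geo θ a)
    (h1 : a 2 * sin (θ 0) = a 0 * sin (θ 3))
    (h2 : a 3 * sin (θ 3) = a 1 * sin (θ 5)) (h3 : a 3 * sin (θ 1) = a 2 * sin (θ 2))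
    (hΦ : AA (θ 0 + θ 3 + θ 5)) (hΨ : AA (θ 1 + θ 2)) (hμ : AA (θ 4)) : AA (θ 1) := by
  by_contra hw
  obtain ⟨p, hp⟩ := Pool.Agent.TetRot.exists_place _ hw
  have hE : CI.t p (θ 1) < 0 := hp
  have Q1 : cos (θ 2) * sin (θ 3) = cos (θ 5) * sin (θ 0) + cos (θ 1) * sin (θ 0 - θ 3) :=
    CI.iso_gen (A := a 0) (B := a 2) (C := a 1) (D := a 3) (c4 := cos (θ 4)) (h.pos 0).ne'
      (h.pos 1).ne' (by linarith [h.r0]) (by linarith [h.r2]) (by linarith [h.r3]) h1
  have Q2 : cos (θ 2) * sin (θ 3) = cos (θ 0) * sin (θ 5) + cos (θ 4) * sin (θ 5 - θ 3) :=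
    CI.iso_gen (A := a 3) (B := a 1) (C := a 2) (D := a 0) (c4 := cos (θ 1)) (h.pos 3).ne'
      (h.pos 2).ne' (by linarith [h.r3]) (by linarith [h.r1]) (by linarith [h.r0]) h2.symm
  have Q3 : cos (θ 3) * sin (θ 2) = cos (θ 4) * sin (θ 1) + cos (θ 5) * sin (θ 1 - θ 2) :=
    CI.iso_gen (A := a 2) (B := a 3) (C := a 0) (D := a 1) (c4 := cos (θ 0)) (h.pos 2).ne'
      (h.pos 0).ne' (by linarith [h.r2]) (by linarith [h.r3]) (by linarith [h.r1]) h3
  have Q6 : cos (θ 3) * sin (θ 2) - cos (θ 4) * sin (θ 1) + cos (θ 5) * sin (θ 2 - θ 1) = 0 := by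
    rw [← neg_sub (θ 1) (θ 2), Real.sin_neg, Q3]
    ring
  have Rb : sin (θ 3) ^ 2 * sin (θ 2) = sin (θ 0) * sin (θ 1) * sin (θ 5) * cos (θ 5) +
      sin (θ 3) * sin (θ 5) * sin (θ 1 + θ 2) := by
    refine mul_left_cancel₀ (h.pos 2).ne' ?_
    rw [Real.sin_add]
    linear_combination (sin (θ 3) * sin (θ 1)) * h2 + (sin (θ 3) * sin (θ 1) * sin (θ 5)) * h.r1 +
      (-sin (θ 3) ^ 2 + sin (θ 3) * sin (θ 5) * cos (θ 1)) * h3 -
        sin (θ 1) * sin (θ 5) * cos (θ 5) * h1
  have Q1' : CI.cc (θ 2) * CI.ss (θ 3) = CI.cc (θ 5) * CI.ss (θ 0) +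
      CI.cc (θ 1) * CI.ss (θ 0 - θ 3) := by
    unfold CI.cc CI.ss
    exact_mod_cast Q1
  have Q2' : CI.cc (θ 2) * CI.ss (θ 3) = CI.cc (θ 0) * CI.ss (θ 5) +
      CI.cc (θ 4) * CI.ss (θ 5 - θ 3) := by
    unfold CI.cc CI.ss
    exact_mod_cast Q2
  have Q6' : CI.cc (θ 3) * CI.ss (θ 2) - CI.cc (θ 4) * CI.ss (θ 1) +
      CI.cc (θ 5) * CI.ss (θ 2 - θ 1) = 0 := by
    unfold CI.cc CI.ss
    exact_mod_cast Q6
  have Rb' : CI.ss (θ 3) ^ 2 * CI.ss (θ 2) = CI.ss (θ 0) * CI.ss (θ 1) * CI.ss (θ 5) *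
      CI.cc (θ 5) + CI.ss (θ 3) * CI.ss (θ 5) * CI.ss (θ 1 + θ 2) := by
    unfold CI.cc CI.ss
    exact_mod_cast Rb
  have hs : CI.t p (θ 0) + CI.t p (θ 3) + CI.t p (θ 5) = 0 := by
    have h4 := CI.t_AA p hΦ
    rwa [CI.t_add, CI.t_add] at h4
  have ht : CI.t p (θ 1) + CI.t p (θ 2) = 0 := by
    have h4 := CI.t_AA p hΨ
    rwa [CI.t_add] at h4
  have hm : |cos (θ 4)| < 1 := by
    obtain ⟨h5, h6⟩ := h.mem 4
    have h7 := Real.sin_pos_of_pos_of_lt_pi h5 h6
    rw [← sq_lt_one_iff_abs_lt_one, ← Real.sin_sq_add_cos_sq (θ 4)]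
    have h8 := pow_pos h7 2
    linarith
  by_cases hz : CI.EQ p (-|CI.t p (θ 5)|) (CI.cc (θ 5))
  · exact CI.partI Q1' Q6' hs ht (CI.t_AA p hμ) hE hz
  · have hz0 : CI.t p (θ 5) = 0 := by
      by_contra h0
      exact hz (CI.EQ_cc h0)
    rw [hz0, abs_zero, neg_zero] at hz
    have hcz : CI.GT p 0 (CI.cc (θ 5)) := by
      rcases CI.GE_cc0 hz0 with h5 | h5
      · exact Or.inl h5
      · by_cases h6 : CI.cc (θ 5) = 0
        · exact Or.inl h6
        · exact Or.inr (lt_of_le_of_ne h5 fun h7 => hz ⟨h6, h7.symm⟩)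
    obtain ⟨hx, hy, hsy, hsx⟩ := CI.partII Q1' Q2' hs ht (CI.t_AA p hμ) hE hz0
    exact CI.partIII Q1' Q2' Q6' Rb' hΦ hΨ hμ hm (h.mem 1).1 (h.mem 1).2 (h.mem 2).1 (h.mem 2).2
      hE hx hy hz0 hcz hsy hsx

end Pool.Agent.TFF
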