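import Pool.Agent.TFF.Defs

/-! # The isosceles faces (package A0, helper30) -/

set_option autoImplicit false

namespace Pool.Agent.TFF

open Real

/-- the common form: `p, q, r, s` are the areas of the four faces and `pq`, ... are the dihedral
angles between them; the edges `rs` and `qs` have the same length -/
theorem iso_core {p q r s pq pr ps qr qs rs : ℝ} (hp : 0 < p) (hq0 : 0 < q)
    (hq : q = p * cos pq + r * cos qr + s * cos qs)
    (hr : r = p * cos pr + q * cos qr + s * cos rs)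
    (hs : s = p * cos ps + q * cos qs + r * cos rs)
    (h : r * sin rs = q * sin qs) :
    cos pr * sin qs - cos pq * sin rs + cos ps * sin (qs - rs) = 0 := by
  have h1 := sin_sq_add_cos_sq rs
  have h2 := sin_sq_add_cos_sq qs
  have key : p * q * (cos pr * sin qs - cos pq * sin rs + cos ps * sin (qs - rs)) = 0 := by
    rw [sin_sub]
    linear_combination (-p * (cos pr + cos ps * cos rs) + sin rs * (r * sin rs + q * sin qs)) * h +
      sin rs * q * hq - sin rs * r * hr - sin rs * (r * cos rs - q * cos qs) * hs -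
      sin rs * r ^ 2 * h1 + sin rs * q ^ 2 * h2
  rcases mul_eq_zero.1 key with h3 | h3
  · exact absurd h3 (by positivity)
  · exact h3

variable {θ : Fin 6 → ℝ} {a : Fin 4 → ℝ}

theorem iso01 (h : Geo θ a) (h1 : a 2 * sin (θ 0) = a 1 * sin (θ 1)) :
    cos (θ 4) * sin (θ 1) - cos (θ 5) * sin (θ 0) + cos (θ 3) * sin (θ 1 - θ 0) = 0 := by
  obtain ⟨-, hp, r0, r1, r2, r3, -⟩ := h
  exact iso_core (p := a 0) (q := a 1) (r := a 2) (s := a 3) (qr := θ 2) (hp 0) (hp 1)
    (by linarith) (by linarith) (by linarith) h1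

theorem iso34 (h : Geo θ a) (h1 : a 3 * sin (θ 3) = a 2 * sin (θ 4)) :
    cos (θ 1) * sin (θ 4) - cos (θ 2) * sin (θ 3) + cos (θ 5) * sin (θ 4 - θ 3) = 0 := by
  obtain ⟨-, hp, r0, r1, r2, r3, -⟩ := h
  exact iso_core (p := a 1) (q := a 2) (r := a 3) (s := a 0) (qr := θ 0) (hp 1) (hp 2)
    (by linarith) (by linarith) (by linarith) h1

theorem iso25 (h : Geo θ a) (h1 : a 2 * sin (θ 2) = a 0 * sin (θ 5)) :
    cos (θ 0) * sin (θ 5) - cos (θ 3) * sin (θ 2) + cos (θ 1) * sin (θ 5 - θ 2) = 0 := by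
  obtain ⟨-, hp, r0, r1, r2, r3, -⟩ := h
  exact iso_core (p := a 3) (q := a 0) (r := a 2) (s := a 1) (qr := θ 4) (hp 3) (hp 0)
    (by linarith) (by linarith) (by linarith) h1

theorem iso03 (h : Geo θ a) (h1 : a 2 * sin (θ 0) = a 0 * sin (θ 3)) :
    cos (θ 2) * sin (θ 3) = cos (θ 5) * sin (θ 0) + cos (θ 1) * sin (θ 0 - θ 3) := by
  obtain ⟨-, hp, r0, r1, r2, r3, -⟩ := h
  have := iso_core (p := a 1) (q := a 0) (r := a 2) (s := a 3) (pq := θ 5) (pr := θ 2)
    (ps := θ 1) (qr := θ 4) (qs := θ 3) (rs := θ 0) (hp 1) (hp 0)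
    (by linarith) (by linarith) (by linarith) h1
  have h2 : sin (θ 0 - θ 3) = -sin (θ 3 - θ 0) := by rw [← sin_neg, neg_sub]
  rw [h2]
  linarith

theorem iso35 (h : Geo θ a) (h1 : a 3 * sin (θ 3) = a 1 * sin (θ 5)) :
    cos (θ 2) * sin (θ 3) = cos (θ 0) * sin (θ 5) + cos (θ 4) * sin (θ 5 - θ 3) := by
  obtain ⟨-, hp, r0, r1, r2, r3, -⟩ := h
  have := iso_core (p := a 2) (q := a 1) (r := a 3) (s := a 0) (pq := θ 2) (pr := θ 0)
    (ps := θ 4) (qr := θ 1) (qs := θ 5) (rs := θ 3) (hp 2) (hp 1)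
    (by linarith) (by linarith) (by linarith) h1
  linarith

theorem iso12 (h : Geo θ a) (h1 : a 3 * sin (θ 1) = a 2 * sin (θ 2)) :
    cos (θ 3) * sin (θ 2) - cos (θ 4) * sin (θ 1) + cos (θ 5) * sin (θ 2 - θ 1) = 0 := by
  obtain ⟨-, hp, r0, r1, r2, r3, -⟩ := h
  exact iso_core (p := a 0) (q := a 2) (r := a 3) (s := a 1) (qr := θ 0) (hp 0) (hp 2)
    (by linarith) (by linarith) (by linarith) h1

end Pool.Agent.TFF
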