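import Pool.Agent.TFF.CaseB
import Pool.Agent.TFF.Iso

/-! # Three isosceles faces, case M (helper57) -/

set_option autoImplicit false

open Real

namespace Pool.Agent.TFF

namespace B57

open Pool.Agent.TetRot

theorem Ge.min_sub {p : Place} {r s : ℚ} {z w : ℂ} (hz : Ge p r z) (hw : Ge p s w) :
    Ge p (min r s) (z - w) :=
  (hz.mono (min_le_left _ _)).sub (hw.mono (min_le_right _ _))

theorem abs_tv_of_sum (p : Place) {r s : ℝ} (h : AA (r + s)) : |tv p s| = |tv p r| := by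
  have := tv_AA p h
  rw [tv_add] at this
  have e : tv p s = - tv p r := by linarith
  rw [e, abs_neg]

theorem tv_diff (p : Place) {r s : ℝ} (h : AA (r + s)) : tv p (s - r) = -(2 * tv p r) := by
  have := tv_AA p h
  rw [tv_add] at this
  rw [tv_sub]
  linarith

/-- the value of `c * sin (s - r)` -/
theorem third (p : Place) {r s : ℝ} (h : AA (r + s)) (hr : tv p r ≠ 0) (c : ℝ) {m : ℚ}
    (hm : Ge p m (((c : ℝ) : ℂ) * ((sin (s - r) : ℝ) : ℂ))) :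
    Ge p (m + 2 * |tv p r|) ((c : ℝ) : ℂ) := by
  have n : tv p (s - r) ≠ 0 := by
    rw [tv_diff p h]
    exact neg_ne_zero.2 (mul_ne_zero two_ne_zero hr)
  have a : |tv p (s - r)| = 2 * |tv p r| := by
    rw [tv_diff p h, abs_neg, abs_mul, abs_two]
  obtain ⟨s0, v0⟩ := sin_v n
  by_cases hc : ((c : ℝ) : ℂ) = 0
  · exact Or.inl hc
  · have := hm.resolve_left (mul_ne_zero hc s0)
    rw [p.mul _ _ hc s0, v0, a] at this
    exact Or.inr (by linarith)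

theorem coreM (p : Place) {r1 s1 r2 s2 r3 s3 : ℝ}
    (E1 : cos r2 * sin s1 - cos s3 * sin r1 + cos s2 * sin (s1 - r1) = 0)
    (E2 : cos r3 * sin s2 - cos s1 * sin r2 + cos s3 * sin (s2 - r2) = 0)
    (E3 : cos r1 * sin s3 - cos s2 * sin r3 + cos s1 * sin (s3 - r3) = 0)
    (h1 : AA (r1 + s1)) (h2 : AA (r2 + s2)) (h3 : AA (r3 + s3)) (hp : tv p r1 ≠ 0) :
    cos (r2 + s2) = 0 := by
  have X0 : 0 < |tv p r1| := abs_pos.2 hp
  have x1 := abs_tv_of_sum p h1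
  have y1 := abs_tv_of_sum p h2
  have z1 := abs_tv_of_sum p h3
  have Y0 := abs_nonneg (tv p r2)
  have Z0 := abs_nonneg (tv p r3)
  have E1c : ((cos s2 : ℝ) : ℂ) * ((sin (s1 - r1) : ℝ) : ℂ) =
      ((cos s3 : ℝ) : ℂ) * ((sin r1 : ℝ) : ℂ) - ((cos r2 : ℝ) : ℂ) * ((sin s1 : ℝ) : ℂ) := by
    have : cos s2 * sin (s1 - r1) = cos s3 * sin r1 - cos r2 * sin s1 := by linarith
    exact_mod_cast this
  have E2c : ((cos s1 : ℝ) : ℂ) * ((sin r2 : ℝ) : ℂ) =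
      ((cos r3 : ℝ) : ℂ) * ((sin s2 : ℝ) : ℂ) + ((cos s3 : ℝ) : ℂ) * ((sin (s2 - r2) : ℝ) : ℂ) := by
    have : cos s1 * sin r2 = cos r3 * sin s2 + cos s3 * sin (s2 - r2) := by linarith
    exact_mod_cast this
  have E3c : ((cos s1 : ℝ) : ℂ) * ((sin (s3 - r3) : ℝ) : ℂ) =
      ((cos s2 : ℝ) : ℂ) * ((sin r3 : ℝ) : ℂ) - ((cos r1 : ℝ) : ℂ) * ((sin s3 : ℝ) : ℂ) := by
    have : cos s1 * sin (s3 - r3) = cos s2 * sin r3 - cos r1 * sin s3 := by linarith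
    exact_mod_cast this
  have G1 : Ge p (min (-|tv p r3| + -|tv p r1|) (-|tv p r2| + -|tv p r1|))
      (((cos s2 : ℝ) : ℂ) * ((sin (s1 - r1) : ℝ) : ℂ)) := by
    rw [E1c]
    have u1 := (cos_ge (p := p) s3).mul (sin_ge (p := p) r1)
    have u2 := (cos_ge (p := p) r2).mul (sin_ge (p := p) s1)
    rw [z1] at u1
    rw [x1] at u2
    exact u1.min_sub u2
  have G3 : Ge p (min (-|tv p r2| + -|tv p r3|) (-|tv p r1| + -|tv p r3|))
      (((cos s1 : ℝ) : ℂ) * ((sin (s3 - r3) : ℝ) : ℂ)) := by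
    rw [E3c]
    have u1 := (cos_ge (p := p) s2).mul (sin_ge (p := p) r3)
    have u2 := (cos_ge (p := p) r1).mul (sin_ge (p := p) s3)
    rw [y1] at u1
    rw [z1] at u2
    exact u1.min_sub u2
  have K1 := third p h1 hp (cos s2) G1
  obtain ⟨cs1, vs1⟩ := cos_v (p := p) (x := s1) (by
    intro h0
    rw [h0, abs_zero] at x1
    rw [← x1] at X0
    exact lt_irrefl _ X0)
  rw [x1] at vs1
  have K3 : tv p r3 ≠ 0 →
      min (-|tv p r2| + -|tv p r3|) (-|tv p r1| + -|tv p r3|) + 2 * |tv p r3| ≤ -|tv p r1| := by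
    intro hr3
    have := (third p h3 hr3 (cos s1) G3).resolve_left cs1
    rwa [vs1] at this
  -- `tv p r3 = 0`, `tv p r2 = 0`
  have hY : tv p r2 = 0 := by
    by_contra hY
    have Yp : 0 < |tv p r2| := abs_pos.2 hY
    obtain ⟨cs2, vs2⟩ := cos_v (p := p) (x := s2) (by
      intro h0
      rw [h0, abs_zero] at y1
      rw [← y1] at Yp
      exact lt_irrefl _ Yp)
    rw [y1] at vs2
    have k1 := K1.resolve_left cs2
    rw [vs2] at k1
    have hZ : |tv p r1| + |tv p r2| ≤ |tv p r3| := by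
      rcases min_choice (-|tv p r3| + -|tv p r1|) (-|tv p r2| + -|tv p r1|) with e | e
      · rw [e] at k1
        linarith
      · rw [e] at k1
        linarith
    have k3 := K3 (fun h0 => by
      rw [h0, abs_zero] at hZ
      linarith)
    rcases min_choice (-|tv p r2| + -|tv p r3|) (-|tv p r1| + -|tv p r3|) with e | e
    · rw [e] at k3
      linarith
    · rw [e] at k3
      linarith
  have hZ : tv p r3 = 0 := by
    by_contra hZ
    have Zp : 0 < |tv p r3| := abs_pos.2 hZ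
    have k3 := K3 hZ
    rw [hY, abs_zero] at k3
    rcases min_choice (-(0 : ℚ) + -|tv p r3|) (-|tv p r1| + -|tv p r3|) with e | e
    · rw [e] at k3
      linarith
    · rw [e] at k3
      linarith
  rw [hY, abs_zero] at y1
  rw [hZ, abs_zero] at z1
  rw [hY, hZ, abs_zero, min_self] at K1
  have g3 : Ge p |tv p r1| ((cos s2 : ℝ) : ℂ) := K1.mono (by linarith)
  have bs2 : Ge p 0 ((sin s2 : ℝ) : ℂ) := by
    have := sin_ge (p := p) s2
    rwa [y1, neg_zero] at this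
  have br2 : Ge p 0 ((cos r2 : ℝ) : ℂ) := by
    have := cos_ge (p := p) r2
    rwa [hY, abs_zero, neg_zero] at this
  have br3 : Ge p 0 ((cos r3 : ℝ) : ℂ) := by
    have := cos_ge (p := p) r3
    rwa [hZ, abs_zero, neg_zero] at this
  have bs3 : Ge p 0 ((cos s3 : ℝ) : ℂ) := by
    have := cos_ge (p := p) s3
    rwa [z1, neg_zero] at this
  have bd : Ge p 0 ((sin (s2 - r2) : ℝ) : ℂ) := by
    have := sin_ge (p := p) (s2 - r2)
    rwa [tv_diff p h2, hY, mul_zero, neg_zero, abs_zero, neg_zero] at this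
  have G2 : Ge p 0 (((cos s1 : ℝ) : ℂ) * ((sin r2 : ℝ) : ℂ)) := by
    rw [E2c]
    have u1 := br3.mul bs2
    have u2 := bs3.mul bd
    rw [add_zero] at u1 u2
    exact u1.add u2
  have g4 : Ge p |tv p r1| ((sin r2 : ℝ) : ℂ) := by
    by_cases h0 : ((sin r2 : ℝ) : ℂ) = 0
    · exact Or.inl h0
    · have := G2.resolve_left (mul_ne_zero cs1 h0)
      rw [p.mul _ _ cs1 h0, vs1] at this
      exact Or.inr (by linarith)
  have g := (g3.mul br2).sub (g4.mul bs2)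
  have e : ((cos s2 : ℝ) : ℂ) * ((cos r2 : ℝ) : ℂ) -
      ((sin r2 : ℝ) : ℂ) * ((sin s2 : ℝ) : ℂ) = ((cos (r2 + s2) : ℝ) : ℂ) := by
    rw [cos_add]
    push_cast
    ring
  rw [e, add_zero] at g
  exact_mod_cast alg_zero X0 (cos_alg h2) g

end B57

open B57 in
theorem caseM {θ : Fin 6 → ℝ} {a : Fin 4 → ℝ} (h : Geo θ a)
    (h1 : a 2 * sin (θ 0) = a 1 * sin (θ 1))
    (h3 : a 3 * sin (θ 3) = a 2 * sin (θ 4)) (h2 : a 2 * sin (θ 2) = a 0 * sin (θ 5))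
    (hΦ1 : AA (θ 0 + θ 1)) (hΦ2 : AA (θ 3 + θ 4)) (hΦ3 : AA (θ 2 + θ 5))
    (hx : ¬ AA (θ 0)) (hy : ¬ AA (θ 3)) (hz : ¬ AA (θ 2)) :
    cos (θ 0 + θ 1) = 0 ∧ cos (θ 3 + θ 4) = 0 ∧ cos (θ 2 + θ 5) = 0 := by
  have E1 := iso01 h h1
  have E2 := iso34 h h3
  have E3 := iso25 h h2
  have hΦ2' : AA (θ 4 + θ 3) := by rwa [add_comm]
  have E2' : cos (θ 2) * sin (θ 3) - cos (θ 1) * sin (θ 4) +
      cos (θ 5) * sin (θ 3 - θ 4) = 0 := by
    rw [sin_sub] at E2 ⊢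
    linarith
  have hy' : ¬ AA (θ 4) := by
    intro h4
    apply hy
    have := AA_sub hΦ2 h4
    rwa [add_sub_cancel_right] at this
  refine ⟨?_, ?_, ?_⟩
  · obtain ⟨p, hp⟩ := exists_tv hz
    exact coreM p (r1 := θ 2) (s1 := θ 5) (r2 := θ 0) (s2 := θ 1) (r3 := θ 4) (s3 := θ 3)
      E3 E1 E2' hΦ3 hΦ1 hΦ2' hp
  · obtain ⟨p, hp⟩ := exists_tv hx
    rw [add_comm]
    exact coreM p (r1 := θ 0) (s1 := θ 1) (r2 := θ 4) (s2 := θ 3) (r3 := θ 2) (s3 := θ 5)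
      E1 E2' E3 hΦ1 hΦ2' hΦ3 hp
  · obtain ⟨p, hp⟩ := exists_tv hy'
    exact coreM p (r1 := θ 4) (s1 := θ 3) (r2 := θ 2) (s2 := θ 5) (r3 := θ 0) (s3 := θ 1)
      E2' E3 E1 hΦ2' hΦ3 hΦ1 hp

end Pool.Agent.TFF
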