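import Pool.Agent.TFF.Defs
import Pool.Agent.TetRel.Main

/-! # The cone theorem for the edges labelled in a closed set (helper83) -/

set_option autoImplicit false

open MeasureTheory Set Module Metric
open scoped Pointwise

namespace Pool.Agent.TFF

open Pool.Agent.TetRel

/-- the types supported on `K` -/
def typesK (b : AffineBasis (Fin 4) ℝ E3) (K : Finset (Fin 6)) : Set (Fin 6 → ℕ) :=
  {n | n ∈ types b ∧ ∀ e ∉ K, n e = 0}

/-- the types supported on `K` as real vectors -/
def rtypesK (b : AffineBasis (Fin 4) ℝ E3) (K : Finset (Fin 6)) : Set (Fin 6 → ℝ) :=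
  (fun n : Fin 6 → ℕ => fun i => (n i : ℝ)) '' typesK b K

lemma rtypesK_finite (b : AffineBasis (Fin 4) ℝ E3) (K : Finset (Fin 6)) :
    (rtypesK b K).Finite :=
  ((types_finite b).subset fun _ hn => hn.1).image _

section
variable {b : AffineBasis (Fin 4) ℝ E3} {Φ : Set E3 → (E3 ≃ᵢ E3)} {S : Set (Set E3)}

/-- the sum over the tiles at a point of the weights of their open edges is nonnegative -/
lemma ptK (h : IsTiling b S Φ) (K : Finset (Fin 6))
    (hK : ∀ x, ∀ A ∈ S, ∀ B ∈ S, x ∈ B → ∀ e, x ∈ Φ A '' Eo b e →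
      ∃ e', x ∈ Φ B '' Eo b e' ∧ (e ∈ K ↔ e' ∈ K))
    {y : Fin 6 → ℝ} (hy0 : ∀ e ∉ K, y e = 0)
    (hy : ∀ n ∈ typesK b K, 0 ≤ ∑ i, y i * n i) (R : ℝ) {x : E3}
    (hx : x ∉ ⋃ A ∈ h.tiles R, Φ A '' range b) :
    0 ≤ ∑ A ∈ h.tiles R, ∑ i, y i * (seg b Φ A i R).indicator (fun _ => (1 : ℝ)) x := by
  classical
  by_cases hex : ∃ A ∈ S, ∃ e ∈ K, x ∈ Φ A '' Eo b e
  · obtain ⟨A0, hA0, e0, he0, hx0⟩ := hex
    have hall : ∀ B ∈ S, x ∈ B → ∃ e' ∈ K, x ∈ Φ B '' Eo b e' := by
      intro B hB hxB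
      obtain ⟨e', h1, h2⟩ := hK x A0 hA0 B hB hxB e0 hx0
      exact ⟨e', h2.1 he0, h1⟩
    by_cases hxR : x ∈ ball (0 : E3) R
    · let F := (h.tiles R).filter fun A => x ∈ A
      have hF : ∀ A, A ∈ F ↔ A ∈ S ∧ x ∈ A := by
        intro A
        simp only [F, Finset.mem_filter, h.mem_tiles]
        exact ⟨fun hh => ⟨hh.1.1, hh.2⟩, fun hh => ⟨⟨hh.1, x, hh.2, hxR⟩, hh.2⟩⟩
      have hzs : ∀ A ∈ F, ∃ e ∈ K, zs b ((Φ A).symm x) = fc e := by
        intro A hA
        obtain ⟨hAS, hxA⟩ := (hF A).1 hA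
        obtain ⟨e, he, z, hz, hzx⟩ := hall A hAS hxA
        refine ⟨e, he, ?_⟩
        rw [← hzx, IsometryEquiv.symm_apply_apply]
        exact hz.2
      have e1 : ∑ A ∈ F, ∑ i, y i * (seg b Φ A i R).indicator (fun _ => (1 : ℝ)) x =
          ∑ A ∈ h.tiles R, ∑ i, y i * (seg b Φ A i R).indicator (fun _ => (1 : ℝ)) x := by
        apply Finset.sum_subset (Finset.filter_subset _ _)
        intro A hA hAF
        have hAS := (h.mem_tiles.1 hA).1
        apply Finset.sum_eq_zero
        intro i _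
        rw [indicator_of_notMem, mul_zero]
        intro hc
        exact hAF ((hF A).2 ⟨hAS, h.seg_sub hAS i R hc⟩)
      have e2 : ∑ A ∈ F, ∑ i, y i * (seg b Φ A i R).indicator (fun _ => (1 : ℝ)) x =
          ∑ A ∈ F, ∑ i, y i * (if zs b ((Φ A).symm x) = fc i then (1 : ℝ) else 0) := by
        refine Finset.sum_congr rfl fun A hA => Finset.sum_congr rfl fun i _ => ?_
        obtain ⟨hAS, hxA⟩ := (hF A).1 hA
        congr 1
        have hiff : x ∈ seg b Φ A i R ↔ zs b ((Φ A).symm x) = fc i := by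
          constructor
          · rintro ⟨⟨z, hz, rfl⟩, _⟩
            rw [IsometryEquiv.symm_apply_apply]; exact hz.2
          · intro hz
            rw [h.eq A hAS] at hxA
            obtain ⟨z, hzh, hzx⟩ := hxA
            refine ⟨⟨z, ⟨hzh, ?_⟩, hzx⟩, hxR⟩
            rw [← hzx, IsometryEquiv.symm_apply_apply] at hz
            exact hz
        by_cases hh : zs b ((Φ A).symm x) = fc i
        · rw [if_pos hh, indicator_of_mem (hiff.2 hh)]
        · rw [if_neg hh, indicator_of_notMem fun hc => hh (hiff.1 hc)]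
      rw [← e1, e2]
      let cnt : Fin 6 → ℕ := fun i => (F.filter fun A => zs b ((Φ A).symm x) = fc i).card
      have hcnt : ∀ i, ∑ A ∈ F, (if zs b ((Φ A).symm x) = fc i then (1 : ℝ) else 0) = cnt i := by
        intro i; simp [cnt, Finset.sum_boole]
      have hcK : ∀ e ∉ K, cnt e = 0 := by
        intro e he
        simp only [cnt, Finset.card_eq_zero, Finset.filter_eq_empty_iff]
        intro A hA hc
        obtain ⟨e', he', h1⟩ := hzs A hA
        rw [h1] at hc
        exact he (fc_inj hc ▸ he')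
      have hsum := h.local_sum hF
      have htyp : cnt ∈ types b := by
        change ∑ i, (cnt i : ℝ) * om b i = 1
        rw [← hsum]
        have h3 : ∀ A ∈ F, fr b (zs b ((Φ A).symm x)) =
            ∑ i, (if zs b ((Φ A).symm x) = fc i then (1 : ℝ) else 0) * om b i := by
          intro A hA
          obtain ⟨e, -, he⟩ := hzs A hA
          rw [he]
          have h4 : ∀ j, (fc e = fc j) ↔ (j = e) :=
            fun j => ⟨fun hh => (fc_inj hh).symm, fun hh => hh ▸ rfl⟩
          simp [h4, om]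
        rw [Finset.sum_congr rfl h3, Finset.sum_comm]
        refine Finset.sum_congr rfl fun i _ => ?_
        rw [← Finset.sum_mul, hcnt]
      have h5 := hy cnt ⟨htyp, hcK⟩
      have e3 : ∑ A ∈ F, ∑ i, y i * (if zs b ((Φ A).symm x) = fc i then (1 : ℝ) else 0) =
          ∑ i, y i * cnt i := by
        rw [Finset.sum_comm]
        refine Finset.sum_congr rfl fun i _ => ?_
        rw [← Finset.mul_sum, hcnt]
      rw [e3]
      exact h5
    · have : ∑ A ∈ h.tiles R, ∑ i, y i * (seg b Φ A i R).indicator (fun _ => (1 : ℝ)) x = 0 := by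
        refine Finset.sum_eq_zero fun A _ => Finset.sum_eq_zero fun i _ => ?_
        rw [indicator_of_notMem, mul_zero]
        exact fun hc => hxR hc.2
      rw [this]
  · push Not at hex
    have : ∑ A ∈ h.tiles R, ∑ i, y i * (seg b Φ A i R).indicator (fun _ => (1 : ℝ)) x = 0 := by
      refine Finset.sum_eq_zero fun A hA => Finset.sum_eq_zero fun i _ => ?_
      by_cases hi : i ∈ K
      · rw [indicator_of_notMem, mul_zero]
        exact fun hc => hex A (h.mem_tiles.1 hA).1 i hi hc.1
      · rw [hy0 i hi, zero_mul]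
    rw [this]

/-- integration of a pointwise inequality -/
lemma integral_nonneg' (h : IsTiling b S Φ) {y : Fin 6 → ℝ} (R : ℝ)
    (hpt : ∀ x : E3, x ∉ ⋃ A ∈ h.tiles R, Φ A '' range b →
      0 ≤ ∑ A ∈ h.tiles R, ∑ i, y i * (seg b Φ A i R).indicator (fun _ => (1 : ℝ)) x) :
    0 ≤ ∑ A ∈ h.tiles R, ∑ i, y i * (μH[1] : Measure E3).real (seg b Φ A i R) := by
  have hI : ∀ (A : Set E3) (i : Fin 6), Integrable
      ((seg b Φ A i R).indicator (fun _ => (1 : ℝ))) (μH[1] : Measure E3) := by
    intro A i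
    rw [integrable_indicator_iff (seg_meas b Φ A i R)]
    exact integrableOn_const (seg_lt b Φ A i R).ne
  have e : ∫ x, ∑ A ∈ h.tiles R, ∑ i, y i * (seg b Φ A i R).indicator (fun _ => (1 : ℝ)) x
      ∂(μH[1] : Measure E3) =
      ∑ A ∈ h.tiles R, ∑ i, y i * (μH[1] : Measure E3).real (seg b Φ A i R) := by
    rw [integral_finsetSum _ fun A _ => integrable_finsetSum _ fun i _ => (hI A i).const_mul (y i)]
    refine Finset.sum_congr rfl fun A _ => ?_
    rw [integral_finsetSum _ fun i _ => (hI A i).const_mul (y i)]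
    refine Finset.sum_congr rfl fun i _ => ?_
    rw [integral_const_mul]
    congr 1
    have := integral_indicator_one (μ := (μH[1] : Measure E3)) (seg_meas b Φ A i R)
    exact this
  rw [← e]
  apply integral_nonneg_of_ae
  have hfin : (⋃ A ∈ h.tiles R, Φ A '' range b).Finite := by
    apply Set.Finite.biUnion (h.tiles R).finite_toSet
    intro A _
    exact (finite_range b).image _
  have hz : (μH[1] : Measure E3) (⋃ A ∈ h.tiles R, Φ A '' range b) = 0 := hfin.measure_zero _
  rw [Filter.EventuallyLE, ae_iff]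
  refine measure_mono_null ?_ hz
  intro x hx
  by_contra hc
  exact hx (hpt x hc)

/-- the cone inequality from the pointwise inequality -/
theorem cone_ineq' (h : IsTiling b S Φ) {y : Fin 6 → ℝ}
    (hpt : ∀ R : ℝ, ∀ x : E3, x ∉ ⋃ A ∈ h.tiles R, Φ A '' range b →
      0 ≤ ∑ A ∈ h.tiles R, ∑ i, y i * (seg b Φ A i R).indicator (fun _ => (1 : ℝ)) x) :
    0 ≤ ∑ i, y i * ln b i := by
  classical
  obtain ⟨D, hD0, hD⟩ := exists_D b
  by_contra hneg
  push Not at hneg
  set δ := - ∑ i, y i * ln b i with hδ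
  have hδ0 : 0 < δ := by rw [hδ]; linarith
  set C := ∑ i, |y i| * ln b i with hC
  have hC0 : 0 ≤ C := Finset.sum_nonneg fun i _ => mul_nonneg (abs_nonneg _) (ln_pos b i).le
  -- choose the radius
  obtain ⟨R, hRD, hR⟩ : ∃ R, D < R ∧ 8 * D * (C + δ) / δ < R :=
    ⟨max D (8 * D * (C + δ) / δ) + 1, by
      have := le_max_left D (8 * D * (C + δ) / δ); linarith, by
      have := le_max_right D (8 * D * (C + δ) / δ); linarith⟩
  have hR0 : 0 < R := hD0.trans hRD
  let I := h.tiles R
  let G := I.filter fun A => A ⊆ ball (0 : E3) R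
  let B := I.filter fun A => ¬ A ⊆ ball (0 : E3) R
  have h0 := integral_nonneg' h R (hpt R)
  have hsplit : ∑ A ∈ I, ∑ i, y i * (μH[1] : Measure E3).real (seg b Φ A i R) =
      ∑ A ∈ G, ∑ i, y i * (μH[1] : Measure E3).real (seg b Φ A i R) +
      ∑ A ∈ B, ∑ i, y i * (μH[1] : Measure E3).real (seg b Φ A i R) :=
    (Finset.sum_filter_add_sum_filter_not _ _ _).symm
  have hG : ∑ A ∈ G, ∑ i, y i * (μH[1] : Measure E3).real (seg b Φ A i R) = G.card * (-δ) := by
    rw [Finset.sum_congr rfl (g := fun _ => -δ), Finset.sum_const, nsmul_eq_mul]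
    intro A hA
    obtain ⟨hAI, hAR⟩ := Finset.mem_filter.1 hA
    rw [hδ, neg_neg]
    exact Finset.sum_congr rfl fun i _ => by rw [h.seg_full (h.mem_tiles.1 hAI).1 i hAR]
  have hB : ∑ A ∈ B, ∑ i, y i * (μH[1] : Measure E3).real (seg b Φ A i R) ≤ B.card * C := by
    rw [← nsmul_eq_mul]
    refine Finset.sum_le_card_nsmul _ _ _ fun A _ => ?_
    refine Finset.sum_le_sum fun i _ => ?_
    have h1 := seg_real_le b Φ A i R
    have h2 : 0 ≤ (μH[1] : Measure E3).real (seg b Φ A i R) := measureReal_nonneg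
    calc y i * (μH[1] : Measure E3).real (seg b Φ A i R)
        ≤ |y i| * (μH[1] : Measure E3).real (seg b Φ A i R) :=
          mul_le_mul_of_nonneg_right (le_abs_self _) h2
      _ ≤ |y i| * ln b i := mul_le_mul_of_nonneg_left h1 (abs_nonneg _)
  have hcard : (I.card : ℝ) = G.card + B.card := by
    have := Finset.card_filter_add_card_filter_not (s := I) (fun A => A ⊆ ball (0 : E3) R)
    rw [← this]; push_cast; rfl
  have hmain : (I.card : ℝ) * δ ≤ B.card * (C + δ) := by
    have : 0 ≤ (G.card : ℝ) * (-δ) + B.card * C := by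
      have h0' : 0 ≤ ∑ A ∈ I, ∑ i, y i * (μH[1] : Measure E3).real (seg b Φ A i R) := h0
      rw [hsplit, hG] at h0'
      linarith
    rw [hcard]
    nlinarith
  -- volumes
  set V := vr (hull b) with hV
  have hV0 : 0 < V := V_pos b
  set w := vr (ball (0 : E3) 1) with hw
  have hw0 : 0 < w := vr_ball_pos _ one_pos
  have hI1 : R ^ 3 * w ≤ I.card * V := by
    rw [← ball_scale hR0]
    apply h.le_count (fun A hA => (h.mem_tiles.1 hA).1)
    intro x hx
    obtain ⟨A, hA, hxA⟩ := h.cover x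
    simp only [mem_iUnion, exists_prop]
    exact ⟨A, h.mem_tiles.2 ⟨hA, x, hxA, hx⟩, hxA⟩
  have hB1 : B.card * V ≤ ((R + D) ^ 3 - (R - D) ^ 3) * w := by
    have hsub : ball (0 : E3) (R - D) ⊆ ball (0 : E3) (R + D) :=
      ball_subset_ball (by linarith)
    have hvr : vr (ball (0 : E3) (R + D) \ ball (0 : E3) (R - D)) =
        ((R + D) ^ 3 - (R - D) ^ 3) * w := by
      have := measure_sdiff (μ := vol) hsub measurableSet_ball.nullMeasurableSet
        measure_ball_lt_top.ne
      unfold vr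
      rw [this, ENNReal.toReal_sub_of_le (measure_mono hsub) measure_ball_lt_top.ne]
      have e1 := ball_scale (r := R + D) (by linarith)
      have e2 := ball_scale (r := R - D) (by linarith)
      unfold vr at e1 e2
      rw [e1, e2, hw]; unfold vr; ring
    rw [← hvr]
    refine h.count_le (fun A hA => (h.mem_tiles.1 (Finset.mem_filter.1 hA).1).1) ?_
      ((measure_mono sdiff_subset).trans_lt measure_ball_lt_top).ne
    intro A hA z hz
    obtain ⟨hAI, hAR⟩ := Finset.mem_filter.1 hA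
    obtain ⟨hAS, p, hpA, hpR⟩ := h.mem_tiles.1 hAI
    obtain ⟨q, hqA, hqR⟩ := Set.not_subset.1 hAR
    have d1 := h.dist_le hD hAS hz hpA
    have d2 := h.dist_le hD hAS hqA hz
    rw [mem_ball] at hpR hqR
    refine ⟨?_, ?_⟩
    · rw [mem_ball]; linarith [dist_triangle z p 0]
    · rw [mem_ball]; push Not at hqR ⊢; linarith [dist_triangle q z 0]
  -- the contradiction
  have hcub : (R + D) ^ 3 - (R - D) ^ 3 ≤ 8 * D * R ^ 2 := by
    have hk : 0 < D * ((R - D) * (R + D)) :=
      mul_pos hD0 (mul_pos (by linarith) (by linarith))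
    nlinarith [hk]
  rw [div_lt_iff₀ hδ0] at hR
  have hCδ : 0 < C + δ := by linarith
  have s1 : R ^ 3 * w * δ ≤ I.card * V * δ := mul_le_mul_of_nonneg_right hI1 hδ0.le
  have s2 : (I.card : ℝ) * V * δ ≤ B.card * V * (C + δ) := by nlinarith
  have s3 : (B.card : ℝ) * V * (C + δ) ≤ ((R + D) ^ 3 - (R - D) ^ 3) * w * (C + δ) :=
    mul_le_mul_of_nonneg_right hB1 hCδ.le
  have s4 : ((R + D) ^ 3 - (R - D) ^ 3) * w * (C + δ) ≤ 8 * D * R ^ 2 * w * (C + δ) :=
    mul_le_mul_of_nonneg_right (mul_le_mul_of_nonneg_right hcub hw0.le) hCδ.le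
  have s5 : 8 * D * R ^ 2 * w * (C + δ) < R ^ 3 * w * δ := by
    have : 0 < R ^ 2 * w := by positivity
    nlinarith [mul_lt_mul_of_pos_left hR this]
  linarith

end

/-- The vector of the lengths of the edges labelled in `K` is a nonnegative combination of
linearly independent types supported on `K`. -/
theorem coneK (b : AffineBasis (Fin 4) ℝ E3) (S : Set (Set E3)) (Φ : Set E3 → (E3 ≃ᵢ E3))
    (h : IsTiling b S Φ) (K : Finset (Fin 6))
    (hK : ∀ x, ∀ A ∈ S, ∀ B ∈ S, x ∈ B → ∀ e, x ∈ Φ A '' Eo b e →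
      ∃ e', x ∈ Φ B '' Eo b e' ∧ (e ∈ K ↔ e' ∈ K)) :
    ∃ (k : ℕ) (n : Fin k → Fin 6 → ℕ) (c : Fin k → ℝ),
      LinearIndependent ℝ (fun i : Fin k => fun e : Fin 6 => (n i e : ℝ)) ∧
      (∀ i, ∀ e ∉ K, n i e = 0) ∧
      (∀ i, ∑ e, (n i e : ℝ) * dih b e = 2 * Real.pi) ∧ (∀ i, 0 < c i) ∧
      ∀ e ∈ K, len b e = ∑ i, c i * (n i e : ℝ) := by
  classical
  rcases K.eq_empty_or_nonempty with rfl | hne
  · exact ⟨0, fun i => i.elim0, fun i => i.elim0, linearIndependent_empty_type, fun i => i.elim0,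
      fun i => i.elim0, fun i => i.elim0, fun e he => absurd he (Finset.notMem_empty e)⟩
  -- the normalising factor
  set lK : Fin 6 → ℝ := fun i => if i ∈ K then ln b i else 0 with hlK
  set lam : ℝ := ∑ i, lK i * om b i with hlam
  have hlam0 : 0 < lam := by
    obtain ⟨j, hj⟩ := hne
    have h1 : lK j * om b j ≤ lam := by
      rw [hlam]
      refine Finset.single_le_sum (f := fun i => lK i * om b i) (fun i _ => ?_) (Finset.mem_univ j)
      refine mul_nonneg ?_ (om_pos b i).le
      simp only [hlK]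
      split_ifs
      · exact (ln_pos b i).le
      · exact le_rfl
    have h2 : 0 < lK j * om b j := by
      refine mul_pos ?_ (om_pos b j)
      simp only [hlK, if_pos hj]
      exact ln_pos b j
    linarith
  have hmem : (fun i => lam⁻¹ * lK i) ∈ convexHull ℝ (rtypesK b K) := by
    by_contra hcon
    obtain ⟨f, u, hf1, hf2⟩ := geometric_hahn_banach_closed_point
      (convex_convexHull ℝ (rtypesK b K))
      ((rtypesK_finite b K).isCompact_convexHull ℝ).isClosed hcon
    have hf : ∀ x : Fin 6 → ℝ, f x = ∑ i, f (Pi.single i 1) * x i := by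
      intro x
      conv_lhs => rw [← Finset.univ_sum_single x]
      rw [map_sum]
      refine Finset.sum_congr rfl fun i _ => ?_
      have : (Pi.single i (x i) : Fin 6 → ℝ) = x i • Pi.single i (1 : ℝ) := by
        rw [← Pi.single_smul, smul_eq_mul, mul_one]
      rw [this, map_smul, smul_eq_mul, mul_comm]
    set y : Fin 6 → ℝ := fun i => if i ∈ K then u * om b i - f (Pi.single i 1) else 0 with hyd
    have hy0 : ∀ e ∉ K, y e = 0 := fun e he => by simp only [hyd, if_neg he]
    have hy : ∀ n ∈ typesK b K, 0 ≤ ∑ i, y i * (n i : ℝ) := by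
      intro n hn
      have h1 : ∑ i, (n i : ℝ) * om b i = 1 := hn.1
      have h2 := hf1 (fun i => (n i : ℝ)) (subset_convexHull ℝ _ ⟨n, hn, rfl⟩)
      rw [hf] at h2
      have h3 : ∑ i, y i * (n i : ℝ) =
          u * (∑ i, (n i : ℝ) * om b i) - ∑ i, f (Pi.single i 1) * (n i : ℝ) := by
        rw [Finset.mul_sum, ← Finset.sum_sub_distrib]
        refine Finset.sum_congr rfl fun i _ => ?_
        by_cases hi : i ∈ K
        · simp only [hyd, if_pos hi]; ring
        · rw [hn.2 i hi]; simp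
      rw [h3, h1]; linarith
    have h4 := cone_ineq' h (y := y) fun R x hx => ptK h K hK hy0 hy R hx
    have h5 : ∑ i, y i * ln b i = u * lam - ∑ i, f (Pi.single i 1) * lK i := by
      rw [hlam, Finset.mul_sum, ← Finset.sum_sub_distrib]
      refine Finset.sum_congr rfl fun i _ => ?_
      by_cases hi : i ∈ K
      · simp only [hyd, hlK, if_pos hi]; ring
      · simp only [hyd, hlK, if_neg hi]; ring
    rw [hf] at hf2
    have h6 : ∑ i, f (Pi.single i 1) * (lam⁻¹ * lK i) =
        lam⁻¹ * ∑ i, f (Pi.single i 1) * lK i := by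
      rw [Finset.mul_sum]
      exact Finset.sum_congr rfl fun i _ => by ring
    rw [h6] at hf2
    have h7 : u * lam < ∑ i, f (Pi.single i 1) * lK i := by
      rw [← div_eq_inv_mul, lt_div_iff₀ hlam0] at hf2
      exact hf2
    rw [h5] at h4
    linarith
  obtain ⟨ι, hι, z, w, hz, haff, hw, hw1, hsum⟩ :=
    eq_pos_convex_span_of_mem_convexHull hmem
  have hz' : ∀ i, ∃ n : Fin 6 → ℕ, n ∈ typesK b K ∧ (fun e => (n e : ℝ)) = z i :=
    fun i => hz (mem_range_self i)
  choose n hn hnz using hz'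
  have hom : ∀ i, ∑ e, z i e * om b e = 1 := by
    intro i
    rw [← hnz i]; exact (hn i).1
  have hlin : LinearIndependent ℝ z := by
    rw [Fintype.linearIndependent_iff]
    intro g hg
    have h1 : ∑ i, g i = 0 := by
      have h2 : ∑ e, (∑ i, g i • z i) e * om b e = 0 := by rw [hg]; simp
      simp only [Finset.sum_apply, Pi.smul_apply, smul_eq_mul, Finset.sum_mul] at h2
      rw [Finset.sum_comm] at h2
      have h3 : ∀ i, ∑ e, g i * z i e * om b e = g i := by
        intro i
        simp only [mul_assoc, ← Finset.mul_sum, hom, mul_one]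
      simpa only [h3] using h2
    have h4 := (affineIndependent_iff.1 haff) Finset.univ g h1 hg
    exact fun i => h4 i (Finset.mem_univ i)
  let e := Fintype.equivFin ι
  have hlen : ∀ x ∈ K, ln b x = ∑ i : Fin (Fintype.card ι), (lam * w (e.symm i)) *
      (n (e.symm i) x : ℝ) := by
    intro x hx
    have h1 := congrFun hsum x
    simp only [Finset.sum_apply, Pi.smul_apply, smul_eq_mul] at h1
    have h2 : ∑ i : Fin (Fintype.card ι), (lam * w (e.symm i)) * (n (e.symm i) x : ℝ) =
        ∑ j, (lam * w j) * (n j x : ℝ) :=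
      Equiv.sum_comp e.symm (fun j => (lam * w j) * (n j x : ℝ))
    rw [h2]
    have h3 : ∀ j, (n j x : ℝ) = z j x := fun j => by rw [← hnz j]
    simp only [h3, mul_assoc, ← Finset.mul_sum]
    rw [h1]
    have h8 : lK x = ln b x := by simp only [hlK, if_pos hx]
    rw [h8]
    field_simp
  refine ⟨Fintype.card ι, fun i => n (e.symm i), fun i => lam * w (e.symm i), ?_, ?_, ?_, ?_, ?_⟩
  · have : (fun i : Fin (Fintype.card ι) => fun x : Fin 6 => (n (e.symm i) x : ℝ)) =
        z ∘ e.symm := by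
      funext i; exact hnz _
    rw [this]
    exact hlin.comp _ e.symm.injective
  · exact fun i => (hn _).2
  · intro i
    have h1 : ∑ x, (n (e.symm i) x : ℝ) * om b x = 1 := (hn (e.symm i)).1
    have h2 : ∀ e, om b e = dih (b : Fin 4 → E3) e / (2 * Real.pi) := om_eq b
    simp only [h2] at h1
    have hpi : (2 * Real.pi) ≠ 0 := by positivity
    have h3 : ∑ x, (n (e.symm i) x : ℝ) * (dih (b : Fin 4 → E3) x / (2 * Real.pi)) =
        (∑ x, (n (e.symm i) x : ℝ) * dih (b : Fin 4 → E3) x) / (2 * Real.pi) := by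
      rw [Finset.sum_div]
      exact Finset.sum_congr rfl fun e _ => by rw [mul_div_assoc]
    rw [h3, div_eq_one_iff_eq hpi] at h1
    exact h1
  · exact fun i => mul_pos hlam0 (hw _)
  · intro x hx
    rw [← ln_eq_len]
    exact hlen x hx

end Pool.Agent.TFF
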