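import Pool.Agent.TetRel.Tiles

/-! # Around an edge of a tiling (helper85, package G3 of TFF) -/

set_option autoImplicit false

open MeasureTheory Set Module Metric

namespace Pool.Agent.TFF

open Pool.Agent.TetRel Real

/-- a ball minus a line through its centre is connected -/
lemma ball_diff_preconn (x : E3) {r : ℝ} (hr : 0 < r) (L : AffineSubspace ℝ E3) (hxL : x ∈ L)
    (hL : finrank ℝ L.direction ≤ 1) : IsPreconnected (ball x r \ (L : Set E3)) := by
  have hcod : 1 < Module.rank ℝ (E3 ⧸ L.direction) := by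
    have h1 := Submodule.finrank_quotient_add_finrank L.direction
    have h2 : finrank ℝ E3 = 3 := by simp [E3]
    have h3 : 1 < finrank ℝ (E3 ⧸ L.direction) := by omega
    rw [← Module.finrank_eq_rank]
    exact_mod_cast h3
  have hconn : IsPreconnected ((L.direction : Set E3)ᶜ) :=
    (isConnected_compl_of_one_lt_codim hcod).isPreconnected
  have hcont : Continuous (fun y : E3 => x + (r / (1 + ‖y‖)) • y) := by
    refine continuous_const.add
      ((continuous_const.div (continuous_const.add continuous_norm) ?_).smul continuous_id)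
    intro y
    exact (add_pos_of_pos_of_nonneg one_pos (norm_nonneg _)).ne'
  have him : ball x r \ (L : Set E3) = (fun y : E3 => x + (r / (1 + ‖y‖)) • y) ''
      ((L.direction : Set E3)ᶜ) := by
    ext z
    constructor
    · rintro ⟨hz, hzL⟩
      have hz' : ‖z - x‖ < r := by rwa [mem_ball, dist_eq_norm] at hz
      have hd : 0 < r - ‖z - x‖ := by linarith
      refine ⟨(r - ‖z - x‖)⁻¹ • (z - x), ?_, ?_⟩
      · intro hm
        apply hzL
        have h1 : z - x ∈ L.direction := by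
          have := L.direction.smul_mem (r - ‖z - x‖) hm
          rwa [smul_smul, mul_inv_cancel₀ hd.ne', one_smul] at this
        have h2 := AffineSubspace.vadd_mem_of_mem_direction h1 hxL
        simpa using h2
      · have hn : ‖(r - ‖z - x‖)⁻¹ • (z - x)‖ = (r - ‖z - x‖)⁻¹ * ‖z - x‖ := by
          rw [norm_smul, Real.norm_of_nonneg (inv_nonneg.mpr hd.le)]
        simp only [hn]
        rw [smul_smul]
        have hc : r / (1 + (r - ‖z - x‖)⁻¹ * ‖z - x‖) * (r - ‖z - x‖)⁻¹ = 1 := by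
          have h1 : 1 + (r - ‖z - x‖)⁻¹ * ‖z - x‖ = (r - ‖z - x‖)⁻¹ * r := by
            field_simp
            ring
          rw [h1]
          field_simp
        rw [hc, one_smul, add_sub_cancel]
    · rintro ⟨y, hy, rfl⟩
      have hp : 0 < 1 + ‖y‖ := by positivity
      refine ⟨?_, ?_⟩
      · rw [mem_ball, dist_eq_norm, add_sub_cancel_left, norm_smul,
          Real.norm_of_nonneg (by positivity), div_mul_eq_mul_div, div_lt_iff₀ hp]
        nlinarith [norm_nonneg y]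
      · intro hm
        apply hy
        have h1 : (x + (r / (1 + ‖y‖)) • y) -ᵥ x ∈ L.direction :=
          AffineSubspace.vsub_mem_direction hm hxL
        rw [vsub_eq_sub, add_sub_cancel_left] at h1
        have h2 := L.direction.smul_mem (r / (1 + ‖y‖))⁻¹ h1
        rwa [smul_smul, inv_mul_cancel₀ (by positivity), one_smul] at h2
  rw [him]
  exact hconn.image _ hcont.continuousOn

/-- near a point of a tile there is a point of the tile off a given line -/
lemma exists_off (b : AffineBasis (Fin 4) ℝ E3) (φ : E3 ≃ᵢ E3) {x : E3}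
    (hx : x ∈ φ '' hull b) {r : ℝ} (hr : 0 < r) (L : AffineSubspace ℝ E3) (hL : L ≠ ⊤) :
    ∃ y ∈ ball x r, y ∈ φ '' hull b ∧ y ∉ L := by
  obtain ⟨z, hz, rfl⟩ := hx
  have hcl : z ∈ closure (interior (hull b)) := by
    rw [(hull_convex b).closure_interior_eq_closure_of_nonempty_interior (hull_int_nonempty b)]
    exact subset_closure hz
  have hne : (ball z r ∩ interior (hull b)).Nonempty :=
    mem_closure_iff.1 hcl _ isOpen_ball (mem_ball_self hr)
  have hopen : IsOpen (φ '' (ball z r ∩ interior (hull b))) :=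
    φ.toHomeomorph.isOpenMap _ (isOpen_ball.inter isOpen_interior)
  by_contra hcon
  push Not at hcon
  have hsub : φ '' (ball z r ∩ interior (hull b)) ⊆ (L : Set E3) := by
    rintro y ⟨w, ⟨hw1, hw2⟩, rfl⟩
    refine hcon (φ w) ?_ ⟨w, interior_subset hw2, rfl⟩
    rw [mem_ball, φ.dist_eq]
    exact hw1
  have h0 : (volume : Measure E3) (L : Set E3) = 0 := Measure.addHaar_affineSubspace _ L hL
  have h1 := hopen.measure_pos (volume : Measure E3) (hne.image φ)
  exact absurd (measure_mono_null hsub h0) h1.ne'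

theorem around (b : AffineBasis (Fin 4) ℝ E3) (S : Set (Set E3)) (Φ : Set E3 → (E3 ≃ᵢ E3))
    (h : IsTiling b S Φ) (x P Q : E3) (hPQ : P ≠ Q) (hx : x ∈ openSegment ℝ P Q)
    (T : Set (Set E3)) (A B : Set E3) (hA : A ∈ S) (hxA : x ∈ A) (hAT : A ∈ T)
    (hB : B ∈ S) (hxB : x ∈ B) (hBT : B ∉ T) :
    ∃ A' ∈ S, ∃ B' ∈ S, A' ∈ T ∧ B' ∉ T ∧ x ∈ A' ∧ x ∈ B' ∧
      ∃ y, y ∈ A' ∧ y ∈ B' ∧ y ∉ line[ℝ, P, Q] := by
  obtain ⟨r, hr, hnear⟩ := h.near (x := x)
  have hdir : finrank ℝ (line[ℝ, P, Q]).direction ≤ 1 := by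
    rw [direction_affineSpan, vectorSpan_pair]
    exact (finrank_span_singleton (vsub_ne_zero.mpr hPQ)).le
  have hxL : x ∈ line[ℝ, P, Q] := by
    obtain ⟨s, t, hs, ht, hst, rfl⟩ := hx
    have hs' : s = 1 - t := by linarith
    rw [hs', ← AffineMap.lineMap_apply_module]
    exact AffineMap.lineMap_mem_affineSpan_pair _ _ _
  have htop : line[ℝ, P, Q] ≠ ⊤ := by
    intro hc
    rw [hc, AffineSubspace.direction_top, finrank_top] at hdir
    simp [E3] at hdir
  have hfin : {C | C ∈ S ∧ x ∈ C}.Finite := by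
    refine (h.finite (‖x‖ + 1)).subset ?_
    rintro C ⟨hC, hxC⟩
    refine ⟨hC, x, hxC, ?_⟩
    rw [mem_ball, dist_zero_right]
    linarith
  have hcl1 : IsClosed (⋃ C ∈ {C | (C ∈ S ∧ x ∈ C) ∧ C ∈ T}, C) := by
    refine (hfin.subset (fun C hC => hC.1)).isClosed_biUnion (f := fun C : Set E3 => C) ?_
    rintro C ⟨⟨hC, _⟩, _⟩
    exact h.closed hC
  have hcl2 : IsClosed (⋃ C ∈ {C | (C ∈ S ∧ x ∈ C) ∧ C ∉ T}, C) := by
    refine (hfin.subset (fun C hC => hC.1)).isClosed_biUnion (f := fun C : Set E3 => C) ?_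
    rintro C ⟨⟨hC, _⟩, _⟩
    exact h.closed hC
  have hpre := ball_diff_preconn x hr _ hxL hdir
  rw [isPreconnected_closed_iff] at hpre
  have hoff : ∀ C ∈ S, x ∈ C → ∃ y ∈ ball x r, y ∈ C ∧ y ∉ line[ℝ, P, Q] := by
    intro C hC hxC
    have e := h.eq C hC
    obtain ⟨y, hy1, hy2, hy3⟩ := exists_off b (Φ C) (x := x) (by rw [← e]; exact hxC) hr _ htop
    exact ⟨y, hy1, by rw [e]; exact hy2, hy3⟩
  obtain ⟨y, ⟨hy1, hy2⟩, hyA, hyB⟩ := hpre _ _ hcl1 hcl2 (by
      rintro y ⟨hy1, hy2⟩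
      obtain ⟨C, hC, hyC⟩ := h.cover y
      have hxC := hnear y hy1 C hC hyC
      by_cases hCT : C ∈ T
      · exact Or.inl (mem_biUnion (t := fun C : Set E3 => C) (x := C) ⟨⟨hC, hxC⟩, hCT⟩ hyC)
      · exact Or.inr (mem_biUnion (t := fun C : Set E3 => C) (x := C) ⟨⟨hC, hxC⟩, hCT⟩ hyC))
    (by
      obtain ⟨y, hy1, hy2, hy3⟩ := hoff A hA hxA
      exact ⟨y, ⟨hy1, hy3⟩, mem_biUnion (t := fun C : Set E3 => C) (x := A)
        ⟨⟨hA, hxA⟩, hAT⟩ hy2⟩)
    (by
      obtain ⟨y, hy1, hy2, hy3⟩ := hoff B hB hxB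
      exact ⟨y, ⟨hy1, hy3⟩, mem_biUnion (t := fun C : Set E3 => C) (x := B)
        ⟨⟨hB, hxB⟩, hBT⟩ hy2⟩)
  simp only [mem_iUnion, exists_prop] at hyA hyB
  obtain ⟨A', ⟨⟨hA'S, hxA'⟩, hA'T⟩, hyA'⟩ := hyA
  obtain ⟨B', ⟨⟨hB'S, hxB'⟩, hB'T⟩, hyB'⟩ := hyB
  exact ⟨A', hA'S, B', hB'S, hA'T, hB'T, hxA', hxB', y, hyA', hyB', hy2⟩

end Pool.Agent.TFF
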