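import Pool.Agent.TetRel.AreasV
import Pool.Agent.TetRot.PlaceV
import Pool.Agent.TetMir57.AlgCos

/-! # Tetrahedra that tile space face-to-face: definitions (helper21)

Edges: 0 = 01, 1 = 02, 2 = 03, 3 = 12, 4 = 13, 5 = 23; `Fin.rev e` is the opposite edge. -/

set_option autoImplicit false

namespace Pool.Agent.TFF

open Pool.Agent.TetRel Real

/-- a face-to-face monohedral tiling: the common part of two tiles is a face (an extreme subset)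
of both (possibly empty) -/
def FFTiles (v : Fin 4 → E3) : Prop :=
  ∃ S : Set (Set E3), (∀ A ∈ S, ∃ φ : E3 ≃ᵢ E3, A = φ '' convexHull ℝ (Set.range v)) ∧
    ⋃₀ S = Set.univ ∧ S.Pairwise (fun A B => Disjoint (interior A) (interior B)) ∧
    ∀ A ∈ S, ∀ B ∈ S, IsExtreme ℝ A (A ∩ B)

/-- no symmetry -/
def Asym (v : Fin 4 → E3) : Prop :=
  ∀ σ : Equiv.Perm (Fin 4), (∀ i j, dist (v (σ i)) (v (σ j)) = dist (v i) (v j)) → σ = 1

/-- a set of edges such that no edge outside is adjacent to an edge inside of the same length -/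
def Closed (l : Fin 6 → ℝ) (K : Finset (Fin 6)) : Prop :=
  ∀ e ∈ K, ∀ e' ∉ K, e' ≠ e.rev → l e ≠ l e'

/-- `exp (i x)` is algebraic -/
def AA (x : ℝ) : Prop := IsAlgebraic ℚ (Complex.exp (x * Complex.I))

/-- the dihedral angles `θ` and the areas `a` of the faces of a tetrahedron -/
structure Geo (θ : Fin 6 → ℝ) (a : Fin 4 → ℝ) : Prop where
  mem : ∀ e, 0 < θ e ∧ θ e < π
  pos : ∀ c, 0 < a c
  r0 : a 0 = a 1 * cos (θ 5) + a 2 * cos (θ 4) + a 3 * cos (θ 3)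
  r1 : a 1 = a 0 * cos (θ 5) + a 2 * cos (θ 2) + a 3 * cos (θ 1)
  r2 : a 2 = a 0 * cos (θ 4) + a 1 * cos (θ 2) + a 3 * cos (θ 0)
  r3 : a 3 = a 0 * cos (θ 3) + a 1 * cos (θ 1) + a 2 * cos (θ 0)
  det : 0 < 1 - cos (θ 0) ^ 2 - cos (θ 1) ^ 2 - cos (θ 2) ^ 2 -
    2 * cos (θ 0) * cos (θ 1) * cos (θ 2)

/-- the permutation of the edges given by a permutation of the vertices -/
def pe (σ : Equiv.Perm (Fin 4)) (e : Fin 6) : Fin 6 :=
  if (σ (ea e) = 0 ∧ σ (eb e) = 1) ∨ (σ (ea e) = 1 ∧ σ (eb e) = 0) then 0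
  else if (σ (ea e) = 0 ∧ σ (eb e) = 2) ∨ (σ (ea e) = 2 ∧ σ (eb e) = 0) then 1
  else if (σ (ea e) = 0 ∧ σ (eb e) = 3) ∨ (σ (ea e) = 3 ∧ σ (eb e) = 0) then 2
  else if (σ (ea e) = 1 ∧ σ (eb e) = 2) ∨ (σ (ea e) = 2 ∧ σ (eb e) = 1) then 3
  else if (σ (ea e) = 1 ∧ σ (eb e) = 3) ∨ (σ (ea e) = 3 ∧ σ (eb e) = 1) then 4
  else 5

/-- `P 0, P 1, P 2, P 3` are the corners of a Hill tetrahedron, in the order of the path -/
def Hill4 (P0 P1 P2 P3 : E3) : Prop :=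
  ‖P1 - P0‖ = ‖P2 - P1‖ ∧ ‖P2 - P1‖ = ‖P3 - P2‖ ∧
    inner ℝ (P1 - P0) (P2 - P1) = inner ℝ (P2 - P1) (P3 - P2) ∧
    inner ℝ (P2 - P1) (P3 - P2) = inner ℝ (P1 - P0) (P3 - P2)

/-- half of a Hill tetrahedron `P 0, P 1, P 2, P 3`, cut by the plane through the edge `P 1 P 2`
and the midpoint of `P 0 P 3`: in some order the corners are `A, B, C, D` with
`P 0 = D, P 1 = B, P 2 = C, P 3 = 2 A - D` -/
def HalfHill (v : Fin 4 → E3) : Prop := ∃ τ : Equiv.Perm (Fin 4),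
  Hill4 (v (τ 3)) (v (τ 1)) (v (τ 2)) ((2 : ℝ) • v (τ 0) - v (τ 3))

end Pool.Agent.TFF
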