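import Pool.Agent.TFF.Defs

/-! # Face-to-face periodic tilings: definition (helper21) -/

set_option autoImplicit false

namespace Pool.Agent.TFF

open Pool.Agent.TetRel

/-- a monohedral tiling which is face-to-face and periodic -/
def FFPer (v : Fin 4 → E3) : Prop :=
  ∃ S : Set (Set E3), (∀ A ∈ S, ∃ φ : E3 ≃ᵢ E3, A = φ '' convexHull ℝ (Set.range v)) ∧
    ⋃₀ S = Set.univ ∧ S.Pairwise (fun A B => Disjoint (interior A) (interior B)) ∧
    (∀ A ∈ S, ∀ B ∈ S, IsExtreme ℝ A (A ∩ B)) ∧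
    ∃ a : Fin 3 → E3, LinearIndependent ℝ a ∧ ∀ i, ∀ A ∈ S, (fun x => x + a i) '' A ∈ S

end Pool.Agent.TFF
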