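import Pool.Agent.TFF.Defs

/-! # Two congruent faces of a tetrahedron force a symmetry (package G4)

*Proof.* Let the face `s` miss the corner `f` and the face `t` the corner `g`, `f ≠ g`, and `p`, `q`
the two other corners. The sums of the lengths of the edges of the two faces are equal, and so are
the sums of their squares. So `pg + qg = pf + qf` and the same for the squares: either `pg = pf`,
`qg = qf`, and `f`, `g` can be swapped, or `pg = qf`, `qg = pf`, and one can swap `f`, `g` and
`p`, `q`. -/

set_option autoImplicit false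

namespace Pool.Agent.TFF

open Finset Pool.Agent.TetRel Real

/-- four distinct corners -/
theorem four_corners : ∀ f g : Fin 4, f ≠ g → ∃ p q : Fin 4, p ≠ q ∧ p ≠ f ∧ p ≠ g ∧ q ≠ f ∧
    q ≠ g ∧ (univ.erase f : Finset (Fin 4)) = {p, q, g} ∧
    (univ.erase g : Finset (Fin 4)) = {p, q, f} ∧ ∀ x : Fin 4, x = p ∨ x = q ∨ x = f ∨ x = g := by
  decide

/-- a face misses a corner -/
theorem exists_miss (s : Fin 3 → Fin 4) (hs : Function.Injective s) :
    ∃ f : Fin 4, (univ.image s) = univ.erase f := by
  have h1 : (univ.image s).card = 3 := by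
    rw [card_image_of_injective _ hs]
    simp
  have h2 : ((univ.image s)ᶜ).card = 1 := by
    rw [card_compl, h1]
    simp
  obtain ⟨f, hf⟩ := card_eq_one.1 h2
  refine ⟨f, ?_⟩
  ext x
  have h3 : x ∈ (univ.image s)ᶜ ↔ x = f := by rw [hf, mem_singleton]
  rw [mem_compl] at h3
  rw [mem_erase]
  constructor
  · intro h
    exact ⟨fun h4 => (h3.2 h4) h, mem_univ _⟩
  · rintro ⟨h, _⟩
    by_contra h4
    exact h (h3.1 h4)

/-- sums over a face -/
theorem sum_face (s : Fin 3 → Fin 4) (hs : Function.Injective s) (d : Fin 4 → Fin 4 → ℝ)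
    {p q g : Fin 4} (hpq : p ≠ q) (hpg : p ≠ g) (hqg : q ≠ g)
    (h : (univ.image s) = {p, q, g}) (hd : ∀ i j, d i j = d j i) (h0 : ∀ i, d i i = 0) :
    ∑ i, ∑ j, d (s i) (s j) = 2 * (d p q + d p g + d q g) := by
  have h1 : ∑ i, ∑ j, d (s i) (s j) = ∑ x ∈ univ.image s, ∑ y ∈ univ.image s, d x y := by
    rw [sum_image (fun _ _ _ _ h => hs h)]
    refine sum_congr rfl fun i _ => ?_
    rw [sum_image (fun _ _ _ _ h => hs h)]
  rw [h1, h]
  have h2 : p ∉ ({q, g} : Finset (Fin 4)) := by simp [hpq, hpg]
  have h3 : q ∉ ({g} : Finset (Fin 4)) := by simp [hqg]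
  simp only [sum_insert h2, sum_insert h3, sum_singleton, h0]
  rw [hd q p, hd g p, hd g q]
  ring

/-- **Two congruent faces are equal if there is no symmetry.** -/
theorem faces_eq (v : Fin 4 → E3) (hA : Asym v) (s t : Fin 3 → Fin 4) (hs : Function.Injective s)
    (ht : Function.Injective t) (h : ∀ i j, dist (v (s i)) (v (s j)) = dist (v (t i)) (v (t j))) :
    Set.range s = Set.range t := by
  obtain ⟨f, hf⟩ := exists_miss s hs
  obtain ⟨g, hg⟩ := exists_miss t ht
  by_cases hfg : f = g
  · have h1 : Set.range s = ((univ.image s : Finset (Fin 4)) : Set (Fin 4)) := by simp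
    have h2 : Set.range t = ((univ.image t : Finset (Fin 4)) : Set (Fin 4)) := by simp
    rw [h1, h2, hf, hg, hfg]
  exfalso
  obtain ⟨p, q, hpq, hpf, hpg, hqf, hqg, e1, e2, hall⟩ := four_corners f g hfg
  have hc : ∀ i j, dist (v i) (v j) = dist (v j) (v i) := fun i j => dist_comm _ _
  have a1 := sum_face s hs (fun i j => dist (v i) (v j)) hpq hpg hqg (hf.trans e1)
    hc (fun i => dist_self _)
  have a2 := sum_face t ht (fun i j => dist (v i) (v j)) hpq hpf hqf (hg.trans e2)
    hc (fun i => dist_self _)
  have b1 := sum_face s hs (fun i j => dist (v i) (v j) ^ 2) hpq hpg hqg (hf.trans e1)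
    (fun i j => by rw [hc]) (fun i => by simp)
  have b2 := sum_face t ht (fun i j => dist (v i) (v j) ^ 2) hpq hpf hqf (hg.trans e2)
    (fun i j => by rw [hc]) (fun i => by simp)
  simp only [h] at a1 b1
  rw [a1] at a2
  rw [b1] at b2
  have key : (dist (v p) (v g) = dist (v p) (v f) ∧ dist (v q) (v g) = dist (v q) (v f)) ∨
      (dist (v p) (v g) = dist (v q) (v f) ∧ dist (v q) (v g) = dist (v p) (v f)) := by
    have h1 : (dist (v p) (v g) - dist (v p) (v f)) *
        (dist (v p) (v g) - dist (v q) (v f)) = 0 := by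
      have h2 : dist (v q) (v g) = dist (v p) (v f) + dist (v q) (v f) - dist (v p) (v g) := by
        linarith
      rw [h2] at b2
      linarith
    rcases mul_eq_zero.1 h1 with h1 | h1
    · left
      constructor <;> linarith
    · right
      constructor <;> linarith
  have c1 := hc p g
  have c2 := hc p f
  have c3 := hc q g
  have c4 := hc q f
  have c5 := hc f g
  have c6 := hc p q
  rcases key with ⟨h1, h2⟩ | ⟨h1, h2⟩
  · have sp : Equiv.swap f g p = p := Equiv.swap_apply_of_ne_of_ne hpf hpg
    have sq : Equiv.swap f g q = q := Equiv.swap_apply_of_ne_of_ne hqf hqg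
    have sf : Equiv.swap f g f = g := Equiv.swap_apply_left _ _
    have sg : Equiv.swap f g g = f := Equiv.swap_apply_right _ _
    have h3 := hA (Equiv.swap f g) (fun i j => by
      rcases hall i with hi | hi | hi | hi <;> rcases hall j with hj | hj | hj | hj <;>
        rw [hi, hj] <;> simp only [sp, sq, sf, sg, dist_self] <;> linarith)
    exact hfg (Equiv.swap_eq_one_iff.1 h3)
  · have sp : (Equiv.swap f g * Equiv.swap p q) p = q := by
      rw [Equiv.Perm.mul_apply, Equiv.swap_apply_left, Equiv.swap_apply_of_ne_of_ne hqf hqg]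
    have sq : (Equiv.swap f g * Equiv.swap p q) q = p := by
      rw [Equiv.Perm.mul_apply, Equiv.swap_apply_right, Equiv.swap_apply_of_ne_of_ne hpf hpg]
    have sf : (Equiv.swap f g * Equiv.swap p q) f = g := by
      rw [Equiv.Perm.mul_apply, Equiv.swap_apply_of_ne_of_ne hpf.symm hqf.symm,
        Equiv.swap_apply_left]
    have sg : (Equiv.swap f g * Equiv.swap p q) g = f := by
      rw [Equiv.Perm.mul_apply, Equiv.swap_apply_of_ne_of_ne hpg.symm hqg.symm,
        Equiv.swap_apply_right]
    have h3 := hA (Equiv.swap f g * Equiv.swap p q) (fun i j => by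
      rcases hall i with hi | hi | hi | hi <;> rcases hall j with hj | hj | hj | hj <;>
        rw [hi, hj] <;> simp only [sp, sq, sf, sg, dist_self] <;> linarith)
    rw [h3, Equiv.Perm.one_apply] at sp
    exact hpq sp

end Pool.Agent.TFF
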