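import Pool.Agent.TFF.Defs

/-! # Face-to-face tilings: shared vertices and edges (helper29) -/

set_option autoImplicit false

open Set Module Metric

namespace Pool.Agent.TFF

open Pool.Agent.TetRel Real

theorem img_open (φ : E3 ≃ᵢ E3) {x y z : E3} (h : z ∈ openSegment ℝ x y) :
    φ z ∈ openSegment ℝ (φ x) (φ y) := by
  have h1 := image_openSegment (𝕜 := ℝ)
    (φ.toRealAffineIsometryEquiv.toAffineEquiv : E3 →ᵃ[ℝ] E3) x y
  have h2 : (φ.toRealAffineIsometryEquiv.toAffineEquiv : E3 →ᵃ[ℝ] E3) z ∈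
      openSegment ℝ ((φ.toRealAffineIsometryEquiv.toAffineEquiv : E3 →ᵃ[ℝ] E3) x)
        ((φ.toRealAffineIsometryEquiv.toAffineEquiv : E3 →ᵃ[ℝ] E3) y) := by
    rw [← h1]
    exact ⟨z, h, rfl⟩
  simpa using h2

theorem coord_open (b : AffineBasis (Fin 4) ℝ E3) (c : Fin 4) (s t : ℝ) (hst : s + t = 1)
    (x y : E3) : b.coord c (s • x + t • y) = s * b.coord c x + t * b.coord c y := by
  have e : s • x + t • y = AffineMap.lineMap x y t := by
    rw [AffineMap.lineMap_apply_module]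
    congr 2
    linarith
  rw [e, AffineMap.apply_lineMap, AffineMap.lineMap_apply_module, smul_eq_mul, smul_eq_mul]
  congr 2
  linarith

theorem eq_of_coord (b : AffineBasis (Fin 4) ℝ E3) {k : Fin 4} {z : E3}
    (h : ∀ c, c ≠ k → b.coord c z = 0) : z = b k := by
  refine b.ext_elem fun c => ?_
  have hs : ∑ c, b.coord c z = 1 := b.sum_coord_apply_eq_one z
  rw [Finset.sum_eq_single k (fun c _ hc => h c hc) (by simp)] at hs
  by_cases hc : c = k
  · subst hc
    rw [hs, b.coord_apply_eq]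
  · rw [h c hc, b.coord_apply_ne hc]

theorem open_of_coord (b : AffineBasis (Fin 4) ℝ E3) {k : Fin 4} {z : E3} (hz : z ∈ hull b)
    (hk : 0 < b.coord k z) : z = b k ∨ ∃ w ∈ hull b, z ∈ openSegment ℝ (b k) w := by
  have hs : ∑ c, b.coord c z = 1 := b.sum_coord_apply_eq_one z
  have h0 := (mem_hull b z).1 hz
  by_cases h1 : ∀ c, c ≠ k → b.coord c z = 0
  · exact Or.inl (eq_of_coord b h1)
  · right
    push Not at h1
    obtain ⟨j, hj, hj0⟩ := h1
    have hjp : 0 < b.coord j z := lt_of_le_of_ne (h0 j) (Ne.symm hj0)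
    have hlt : b.coord k z < 1 := by
      have h2 : b.coord k z + b.coord j z ≤ ∑ c, b.coord c z := by
        rw [← Finset.sum_pair (f := fun c => b.coord c z) (Ne.symm hj)]
        exact Finset.sum_le_sum_of_subset_of_nonneg (Finset.subset_univ _) fun c _ _ => h0 c
      rw [hs] at h2
      linarith
    set c := b.coord k z with hc
    have h1c : 0 < 1 - c := by linarith
    refine ⟨(-(c / (1 - c))) • b k + (1 / (1 - c)) • z, ?_, ?_⟩
    · rw [mem_hull]
      intro i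
      rw [coord_open b i _ _ (by field_simp; ring)]
      by_cases hi : i = k
      · subst hi
        rw [b.coord_apply_eq, ← hc]
        have : -(c / (1 - c)) * 1 + 1 / (1 - c) * c = 0 := by ring
        rw [this]
      · rw [b.coord_apply_ne hi, mul_zero, zero_add]
        exact mul_nonneg (by positivity) (h0 i)
    · refine ⟨c, 1 - c, hk, h1c, by ring, ?_⟩
      rw [smul_add, smul_smul, smul_smul, ← add_assoc, ← add_smul]
      have e1 : c + (1 - c) * -(c / (1 - c)) = 0 := by field_simp; ring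
      have e2 : (1 - c) * (1 / (1 - c)) = 1 := by field_simp
      rw [e1, e2, zero_smul, zero_add, one_smul]

theorem vert_extreme (b : AffineBasis (Fin 4) ℝ E3) (φ : E3 ≃ᵢ E3) (i : Fin 4) :
    φ (b i) ∈ (φ '' hull b).extremePoints ℝ := by
  rw [mem_extremePoints_iff_left]
  refine ⟨⟨b i, ?_, rfl⟩, ?_⟩
  · rw [mem_hull]
    intro c
    by_cases hc : c = i
    · subst hc
      rw [b.coord_apply_eq]
      exact zero_le_one
    · rw [b.coord_apply_ne hc]
  · rintro _ ⟨x, hx, rfl⟩ _ ⟨y, hy, rfl⟩ h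
    have h1 : b i ∈ openSegment ℝ x y := by
      have := img_open φ.symm h
      simpa using this
    obtain ⟨s, t, hs, ht, hst, h2⟩ := h1
    congr 1
    refine eq_of_coord b fun c hc => ?_
    have h3 := coord_open b c s t hst x y
    rw [h2, b.coord_apply_ne hc] at h3
    have hx0 := (mem_hull b x).1 hx c
    have hy0 := (mem_hull b y).1 hy c
    have h4 : s * b.coord c x = 0 := by nlinarith [mul_nonneg hs.le hx0, mul_nonneg ht.le hy0]
    rcases mul_eq_zero.1 h4 with h5 | h5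
    · exact absurd h5 hs.ne'
    · exact h5

theorem img_hull (b : AffineBasis (Fin 4) ℝ E3) (φ : E3 ≃ᵢ E3) :
    φ '' hull b = convexHull ℝ (range fun i => φ (b i)) := by
  have h := AffineMap.image_convexHull (𝕜 := ℝ)
    (φ.toRealAffineIsometryEquiv.toAffineEquiv : E3 →ᵃ[ℝ] E3) (range b)
  have e : ((φ.toRealAffineIsometryEquiv.toAffineEquiv : E3 →ᵃ[ℝ] E3) : E3 → E3) = φ := by
    funext z
    simp
  rw [e, ← range_comp] at h
  exact h

theorem vert_share (b : AffineBasis (Fin 4) ℝ E3) (φ ψ : E3 ≃ᵢ E3)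
    (h1 : IsExtreme ℝ (φ '' hull b) (φ '' hull b ∩ ψ '' hull b))
    (h2 : IsExtreme ℝ (ψ '' hull b) (ψ '' hull b ∩ φ '' hull b))
    (i : Fin 4) (hi : φ (b i) ∈ ψ '' hull b) : ∃ j, φ (b i) = ψ (b j) := by
  have h3 := vert_extreme b φ i
  have h4 : φ (b i) ∈ (φ '' hull b ∩ ψ '' hull b).extremePoints ℝ :=
    inter_extremePoints_subset_extremePoints_of_subset h1.subset
      ⟨⟨extremePoints_subset h3, hi⟩, h3⟩
  rw [inter_comm] at h4
  have h5 := h2.extremePoints_subset_extremePoints h4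
  rw [img_hull b ψ] at h5
  obtain ⟨j, hj⟩ := extremePoints_convexHull_subset h5
  exact ⟨j, hj.symm⟩

theorem coord_share (b : AffineBasis (Fin 4) ℝ E3) (φ ψ : E3 ≃ᵢ E3)
    (h1 : IsExtreme ℝ (φ '' hull b) (φ '' hull b ∩ ψ '' hull b))
    (y : E3) (hy : y ∈ φ '' hull b) (hy' : y ∈ ψ '' hull b) (k : Fin 4)
    (hk : 0 < b.coord k (φ.symm y)) : φ (b k) ∈ ψ '' hull b := by
  obtain ⟨z, hz, rfl⟩ := hy
  rw [φ.symm_apply_apply] at hk
  rcases open_of_coord b hz hk with h | ⟨w, hw, h⟩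
  · rw [← h]
    exact hy'
  · exact (h1.left_mem_of_mem_openSegment (extremePoints_subset (vert_extreme b φ k))
      ⟨w, hw, rfl⟩ ⟨⟨z, hz, rfl⟩, hy'⟩ (img_open φ h)).2

theorem exists_edge : ∀ i j : Fin 4, i ≠ j → ∃ e : Fin 6,
    (ea e = i ∧ eb e = j) ∨ (ea e = j ∧ eb e = i) := by decide

theorem coord_pos_of_Eo (b : AffineBasis (Fin 4) ℝ E3) {e : Fin 6} {z : E3} (hz : z ∈ Eo b e) :
    0 < b.coord (ea e) z ∧ 0 < b.coord (eb e) z := by
  obtain ⟨hz, hzs⟩ := hz
  have h0 := (mem_hull b z).1 hz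
  have key : ∀ c, c ∉ fc e → 0 < b.coord c z := by
    intro c hc
    refine lt_of_le_of_ne (h0 c) fun h => hc ?_
    rw [← hzs]
    simp [zs, h.symm]
  refine ⟨key _ ?_, key _ ?_⟩
  · simp only [fc, Finset.mem_insert, Finset.mem_singleton, not_or]
    exact ⟨ea_ne_ec e, ea_ne_ed e⟩
  · simp only [fc, Finset.mem_insert, Finset.mem_singleton, not_or]
    exact ⟨eb_ne_ec e, eb_ne_ed e⟩

theorem open_of_Eo (b : AffineBasis (Fin 4) ℝ E3) {e : Fin 6} {z : E3} (hz : z ∈ Eo b e) :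
    z ∈ openSegment ℝ (b (ea e)) (b (eb e)) := by
  obtain ⟨s, t, hs, ht, hst, rfl⟩ := Eo_sub b e hz
  obtain ⟨h1, h2⟩ := coord_pos_of_Eo b hz
  rw [coord_open b _ s t hst, b.coord_apply_eq, b.coord_apply_ne (ea_ne_eb e)] at h1
  rw [coord_open b _ s t hst, b.coord_apply_eq, b.coord_apply_ne (ea_ne_eb e).symm] at h2
  exact ⟨s, t, by linarith, by linarith, hst, rfl⟩

theorem Eo_of_open (b : AffineBasis (Fin 4) ℝ E3) {e : Fin 6} {z : E3}
    (hz : z ∈ openSegment ℝ (b (ea e)) (b (eb e))) : z ∈ Eo b e := by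
  obtain ⟨s, t, hs, ht, hst, rfl⟩ := hz
  rcases sub_Eo b e ⟨s, t, hs.le, ht.le, hst, rfl⟩ with h | h | h
  · exact h
  · exfalso
    have h2 := congrArg (b.coord (eb e)) h
    rw [coord_open b _ s t hst, b.coord_apply_eq, b.coord_apply_ne (ea_ne_eb e).symm] at h2
    linarith
  · exfalso
    have h2 := congrArg (b.coord (ea e)) h
    rw [coord_open b _ s t hst, b.coord_apply_eq, b.coord_apply_ne (ea_ne_eb e)] at h2
    linarith

theorem edge_share (b : AffineBasis (Fin 4) ℝ E3) (φ ψ : E3 ≃ᵢ E3)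
    (h1 : IsExtreme ℝ (φ '' hull b) (φ '' hull b ∩ ψ '' hull b))
    (h2 : IsExtreme ℝ (ψ '' hull b) (ψ '' hull b ∩ φ '' hull b))
    (x : E3) (e : Fin 6) (hx : x ∈ φ '' Eo b e) (hx' : x ∈ ψ '' hull b) :
    ∃ e', x ∈ ψ '' Eo b e' ∧
      ({φ (b (ea e)), φ (b (eb e))} : Set E3) = {ψ (b (ea e')), ψ (b (eb e'))} := by
  obtain ⟨z, hz, rfl⟩ := hx
  obtain ⟨ha, hb⟩ := coord_pos_of_Eo b hz
  have hs : φ.symm (φ z) = z := φ.symm_apply_apply z
  have hy : φ z ∈ φ '' hull b := ⟨z, hz.1, rfl⟩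
  obtain ⟨i, hi⟩ := vert_share b φ ψ h1 h2 _
    (coord_share b φ ψ h1 _ hy hx' (ea e) (by rw [hs]; exact ha))
  obtain ⟨j, hj⟩ := vert_share b φ ψ h1 h2 _
    (coord_share b φ ψ h1 _ hy hx' (eb e) (by rw [hs]; exact hb))
  have hij : i ≠ j := by
    rintro rfl
    rw [← hj] at hi
    exact ea_ne_eb e (b.ind.injective (φ.injective hi))
  have hseg : φ z ∈ openSegment ℝ (ψ (b i)) (ψ (b j)) := by
    rw [← hi, ← hj]
    exact img_open φ (open_of_Eo b hz)
  have hseg' : ψ.symm (φ z) ∈ openSegment ℝ (b i) (b j) := by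
    have := img_open ψ.symm hseg
    rwa [ψ.symm_apply_apply, ψ.symm_apply_apply] at this
  obtain ⟨e', he | he⟩ := exists_edge i j hij
  · refine ⟨e', ⟨ψ.symm (φ z), Eo_of_open b ?_, ψ.apply_symm_apply _⟩, ?_⟩
    · rw [he.1, he.2]
      exact hseg'
    · rw [he.1, he.2, hi, hj]
  · refine ⟨e', ⟨ψ.symm (φ z), Eo_of_open b ?_, ψ.apply_symm_apply _⟩, ?_⟩
    · rw [he.1, he.2, openSegment_symm]
      exact hseg'
    · rw [he.1, he.2, hi, hj, pair_comm]

end Pool.Agent.TFF
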