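import Pool.Agent.TFF.Cone
import Pool.Agent.TFF.Vert
import Pool.Agent.TFF.Conn
import Pool.Agent.TFF.Faces

/-! # Face-to-face tilings: the cone theorem for a closed set of edges (helper97) -/

set_option autoImplicit false
open Set Module Metric
namespace Pool.Agent.TFF
open Pool.Agent.TetRel Real

/-- A face-to-face tiling gives a tiling in the sense of `IsTiling`. -/
lemma FFTiles.isTiling {v : Fin 4 → E3} (hv : AffineIndependent ℝ v) (hT : FFTiles v) :
    ∃ (b : AffineBasis (Fin 4) ℝ E3) (S : Set (Set E3)) (Φ : Set E3 → (E3 ≃ᵢ E3)),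
      (b : Fin 4 → E3) = v ∧ IsTiling b S Φ ∧ ∀ A ∈ S, ∀ B ∈ S, IsExtreme ℝ A (A ∩ B) := by
  classical
  obtain ⟨S, h1, h2, h3, h4⟩ := hT
  have htop : affineSpan ℝ (range v) = ⊤ := by
    rw [hv.affineSpan_eq_top_iff_card_eq_finrank_add_one]
    simp
  let b : AffineBasis (Fin 4) ℝ E3 := ⟨v, hv, htop⟩
  have hb : (b : Fin 4 → E3) = v := rfl
  choose f hf using h1
  refine ⟨b, S, fun A => if h : A ∈ S then f A h else IsometryEquiv.refl E3, hb, ⟨?_, ?_, ?_⟩, h4⟩
  · intro A hA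
    simp only [dif_pos hA]
    exact hf A hA
  · intro x
    have : x ∈ ⋃₀ S := by rw [h2]; trivial
    exact this
  · intro A hA B hB hne
    exact h3 hA hB hne

section
variable (b : AffineBasis (Fin 4) ℝ E3)

/-- the label of a point in an open edge is unique -/
lemma label_unique (φ : E3 ≃ᵢ E3) {x : E3} {e f : Fin 6} (he : x ∈ φ '' Eo b e)
    (hf : x ∈ φ '' Eo b f) : e = f := by
  obtain ⟨z, hz, hzx⟩ := he
  obtain ⟨w, hw, hwx⟩ := hf
  have hzw : z = w := φ.injective (hzx.trans hwx.symm)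
  subst hzw
  exact fc_inj (hz.2.symm.trans hw.2)

/-- a point of an open edge lies in the open segment between its ends -/
lemma mem_openSeg (φ : E3 ≃ᵢ E3) {x : E3} {e : Fin 6} (he : x ∈ φ '' Eo b e) :
    x ∈ openSegment ℝ (φ (b (ea e))) (φ (b (eb e))) := by
  obtain ⟨z, hz, rfl⟩ := he
  have hc : b.coord (ec e) z = 0 := by
    have : ec e ∈ zs b z := by rw [hz.2]; simp [fc]
    simpa [zs] using this
  have hd : b.coord (ed e) z = 0 := by
    have : ed e ∈ zs b z := by rw [hz.2]; simp [fc]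
    simpa [zs] using this
  have ha : b.coord (ea e) z ≠ 0 := by
    intro h0
    have : ea e ∈ zs b z := by simp [zs, h0]
    rw [hz.2] at this
    simp [fc, ea_ne_ec, ea_ne_ed] at this
  have hb : b.coord (eb e) z ≠ 0 := by
    intro h0
    have : eb e ∈ zs b z := by simp [zs, h0]
    rw [hz.2] at this
    simp [fc, eb_ne_ec, eb_ne_ed] at this
  have hs : ∑ c, b.coord c z = 1 := b.sum_coord_apply_eq_one z
  have hl := b.linear_combination_coord_eq_self z
  rw [sum_split _ e, hc, hd, add_zero, add_zero] at hs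
  rw [sum_split _ e, hc, hd, zero_smul, zero_smul, add_zero, add_zero] at hl
  have ha' : 0 < b.coord (ea e) z := lt_of_le_of_ne ((mem_hull b z).1 hz.1 _) (Ne.symm ha)
  have hb' : 0 < b.coord (eb e) z := lt_of_le_of_ne ((mem_hull b z).1 hz.1 _) (Ne.symm hb)
  have hz' : z ∈ openSegment ℝ (b (ea e)) (b (eb e)) := ⟨_, _, ha', hb', hs, hl⟩
  have h2 : (φ.toRealAffineIsometryEquiv.toAffineMap) '' openSegment ℝ (b (ea e)) (b (eb e)) =
      openSegment ℝ (φ.toRealAffineIsometryEquiv.toAffineMap (b (ea e)))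
        (φ.toRealAffineIsometryEquiv.toAffineMap (b (eb e))) := by
    exact image_openSegment ℝ _ _ _
  have h3 : φ.toRealAffineIsometryEquiv.toAffineMap z ∈
      (φ.toRealAffineIsometryEquiv.toAffineMap) '' openSegment ℝ (b (ea e)) (b (eb e)) :=
    ⟨z, hz', rfl⟩
  rw [h2] at h3
  simpa using h3

/-- a point of a tile off the line through an edge of the tile has a positive coordinate at a
vertex off the edge -/
lemma exists_coord (φ : E3 ≃ᵢ E3) {y : E3} (hy : y ∈ φ '' hull b) (f : Fin 6)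
    (hl : y ∉ line[ℝ, φ (b (ea f)), φ (b (eb f))]) :
    ∃ k, k ≠ ea f ∧ k ≠ eb f ∧ 0 < b.coord k (φ.symm y) := by
  obtain ⟨z, hz, rfl⟩ := hy
  rw [IsometryEquiv.symm_apply_apply]
  by_contra hcon
  push Not at hcon
  have hc : b.coord (ec f) z = 0 :=
    le_antisymm (hcon _ (ea_ne_ec f).symm (eb_ne_ec f).symm) ((mem_hull b z).1 hz _)
  have hd : b.coord (ed f) z = 0 :=
    le_antisymm (hcon _ (ea_ne_ed f).symm (eb_ne_ed f).symm) ((mem_hull b z).1 hz _)
  have hs : ∑ c, b.coord c z = 1 := b.sum_coord_apply_eq_one z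
  have hl' := b.linear_combination_coord_eq_self z
  rw [sum_split _ f, hc, hd, add_zero, add_zero] at hs
  rw [sum_split _ f, hc, hd, zero_smul, zero_smul, add_zero, add_zero] at hl'
  apply hl
  have hz' : z ∈ line[ℝ, b (ea f), b (eb f)] := by
    rw [← hl']
    have e : b.coord (ea f) z • b (ea f) + b.coord (eb f) z • b (eb f) =
        AffineMap.lineMap (b (ea f)) (b (eb f)) (b.coord (eb f) z) := by
      rw [AffineMap.lineMap_apply_module]
      congr 2; linarith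
    rw [e]
    exact AffineMap.lineMap_mem_affineSpan_pair _ _ _
  have h3 : φ.toRealAffineIsometryEquiv.toAffineMap z ∈
      (line[ℝ, b (ea f), b (eb f)]).map φ.toRealAffineIsometryEquiv.toAffineMap :=
    AffineSubspace.mem_map_of_mem _ hz'
  rw [AffineSubspace.map_span, image_pair] at h3
  simpa using h3

end

lemma rev_cover : ∀ f : Fin 6,
    ({ea f, eb f, ea f.rev, eb f.rev} : Finset (Fin 4)) = Finset.univ := by decide

/-- edges with both ends in a set of three vertices are not opposite -/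
lemma not_rev (s : Fin 3 → Fin 4) (f f' : Fin 6)
    (h1 : ea f ∈ range s) (h2 : eb f ∈ range s) (h3 : ea f' ∈ range s) (h4 : eb f' ∈ range s) :
    f' ≠ f.rev := by
  rintro rfl
  have hcard := rev_cover f
  have hsub : ({ea f, eb f, ea f.rev, eb f.rev} : Finset (Fin 4)) ⊆ Finset.univ.image s := by
    intro x hx
    simp only [Finset.mem_insert, Finset.mem_singleton] at hx
    rw [Finset.mem_image]
    rcases hx with rfl | rfl | rfl | rfl
    · obtain ⟨i, hi⟩ := h1; exact ⟨i, Finset.mem_univ _, hi⟩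
    · obtain ⟨i, hi⟩ := h2; exact ⟨i, Finset.mem_univ _, hi⟩
    · obtain ⟨i, hi⟩ := h3; exact ⟨i, Finset.mem_univ _, hi⟩
    · obtain ⟨i, hi⟩ := h4; exact ⟨i, Finset.mem_univ _, hi⟩
  have h5 := Finset.card_le_card hsub
  rw [hcard] at h5
  have h6 := (Finset.card_image_le (s := (Finset.univ : Finset (Fin 3))) (f := s))
  simp at h5 h6
  omega

/-- the tiles around an edge of a face-to-face tiling: labels stay inside a closed set -/
lemma closed_step (b : AffineBasis (Fin 4) ℝ E3) (S : Set (Set E3)) (Φ : Set E3 → (E3 ≃ᵢ E3))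
    (h : IsTiling b S Φ) (hF : ∀ A ∈ S, ∀ B ∈ S, IsExtreme ℝ A (A ∩ B))
    (hA : Asym (b : Fin 4 → E3)) (K : Finset (Fin 6)) (hK : Closed (len (b : Fin 4 → E3)) K)
    {x : E3} {A B : Set E3} (hAS : A ∈ S) (hBS : B ∈ S) {e e' : Fin 6}
    (hxA : x ∈ Φ A '' Eo b e) (hxB : x ∈ Φ B '' Eo b e') (he : e ∈ K) : e' ∈ K := by
  classical
  by_contra he'
  have hext : ∀ C ∈ S, ∀ D ∈ S, IsExtreme ℝ (Φ C '' hull b) (Φ C '' hull b ∩ Φ D '' hull b) := by
    intro C hC D hD
    have := hF C hC D hD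
    rw [← h.eq C hC, ← h.eq D hD]
    exact this
  have hin : ∀ C ∈ S, ∀ f, x ∈ Φ C '' Eo b f → x ∈ C := by
    rintro C hC f ⟨z, hz, rfl⟩
    rw [h.eq C hC]
    exact ⟨z, hz.1, by rw [← h.eq C hC]⟩
  set P := Φ A (b (ea e)) with hP
  set Q := Φ A (b (eb e)) with hQ
  have hPQ : P ≠ Q := fun hh => ea_ne_eb e (b.ind.injective ((Φ A).injective hh))
  have hxo : x ∈ openSegment ℝ P Q := mem_openSeg b (Φ A) hxA
  -- every tile at `x` has `P Q` as an edge
  have hedge : ∀ C ∈ S, x ∈ C → ∃ f, x ∈ Φ C '' Eo b f ∧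
      ({P, Q} : Set E3) = {Φ C (b (ea f)), Φ C (b (eb f))} := by
    intro C hC hxC
    obtain ⟨f, hf1, hf2⟩ := edge_share b (Φ A) (Φ C) (hext A hAS C hC) (hext C hC A hAS) x e hxA
      (by rw [← h.eq C hC]; exact hxC)
    exact ⟨f, hf1, hf2⟩
  let T : Set (Set E3) := {C | ∃ f ∈ K, x ∈ Φ C '' Eo b f}
  have hAT : A ∈ T := ⟨e, he, hxA⟩
  have hBT : B ∉ T := by
    rintro ⟨f, hf, hxf⟩
    exact he' (label_unique b (Φ B) hxf hxB ▸ hf)
  obtain ⟨C, hC, D, hD, hCT, hDT, hxC, hxD, y, hyC, hyD, hyl⟩ :=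
    around b S Φ h x P Q hPQ hxo T A B hAS (hin A hAS e hxA) hAT hBS (hin B hBS e' hxB) hBT
  obtain ⟨f, hfK, hxf⟩ := hCT
  obtain ⟨f₁, hxf₁, hends⟩ := hedge C hC hxC
  have := label_unique b (Φ C) hxf₁ hxf
  subst this
  obtain ⟨f', hxf', hends'⟩ := hedge D hD hxD
  have hf'K : f' ∉ K := fun hh => hDT ⟨f', hh, hxf'⟩
  have hyC' : y ∈ Φ C '' hull b := by rw [← h.eq C hC]; exact hyC
  have hyD' : y ∈ Φ D '' hull b := by rw [← h.eq D hD]; exact hyD
  obtain ⟨k, hka, hkb, hk⟩ := exists_coord b (Φ C) hyC' f₁ (by rw [← hends]; exact hyl)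
  have hkD : Φ C (b k) ∈ Φ D '' hull b :=
    coord_share b (Φ C) (Φ D) (hext C hC D hD) y hyC' hyD' k hk
  obtain ⟨j, hj⟩ := vert_share b (Φ C) (Φ D) (hext C hC D hD) (hext D hD C hC) k hkD
  -- the three common vertices
  have hpair : ({Φ C (b (ea f₁)), Φ C (b (eb f₁))} : Set E3) =
      {Φ D (b (ea f')), Φ D (b (eb f'))} := hends.symm.trans hends'
  obtain ⟨t0, t1, ht0, ht1, hm0, hm1, ht⟩ : ∃ t0 t1 : Fin 4, Φ C (b (ea f₁)) = Φ D (b t0) ∧
      Φ C (b (eb f₁)) = Φ D (b t1) ∧ (t0 = ea f' ∨ t0 = eb f') ∧ (t1 = ea f' ∨ t1 = eb f') ∧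
      t0 ≠ t1 := by
    rcases Set.pair_eq_pair_iff.1 hpair with ⟨h1, h2⟩ | ⟨h1, h2⟩
    · exact ⟨ea f', eb f', h1, h2, Or.inl rfl, Or.inr rfl, ea_ne_eb f'⟩
    · exact ⟨eb f', ea f', h1, h2, Or.inr rfl, Or.inl rfl, (ea_ne_eb f').symm⟩
  let s : Fin 3 → Fin 4 := ![ea f₁, eb f₁, k]
  let t : Fin 3 → Fin 4 := ![t0, t1, j]
  have hst : ∀ i, Φ C (b (s i)) = Φ D (b (t i)) := by
    intro i
    fin_cases i
    · exact ht0
    · exact ht1
    · exact hj
  have hsinj : Function.Injective s := by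
    have h01 := ea_ne_eb f₁
    intro i i' hii
    fin_cases i <;> fin_cases i' <;> simp [s] at hii ⊢
    · exact h01 hii
    · exact hka hii.symm
    · exact h01 hii.symm
    · exact hkb hii.symm
    · exact hka hii
    · exact hkb hii
  have htinj : Function.Injective t := by
    intro i i' hii
    apply hsinj
    apply b.ind.injective
    apply (Φ C).injective
    rw [hst i, hst i', hii]
  have hd : ∀ i i', dist (b (s i)) (b (s i')) = dist (b (t i)) (b (t i')) := by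
    intro i i'
    rw [← (Φ C).dist_eq, hst i, hst i', (Φ D).dist_eq]
  have hr := faces_eq (b : Fin 4 → E3) hA s t hsinj htinj hd
  have hf'r : f' ≠ f₁.rev := by
    refine not_rev s f₁ f' ⟨0, rfl⟩ ⟨1, rfl⟩ ?_ ?_
    · rw [hr]
      rcases hm0 with h0 | h0
      · exact ⟨0, h0⟩
      · rcases hm1 with h1 | h1
        · exact ⟨1, h1⟩
        · exact absurd (h0.trans h1.symm) ht
    · rw [hr]
      rcases hm0 with h0 | h0
      · rcases hm1 with h1 | h1
        · exact absurd (h0.trans h1.symm) ht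
        · exact ⟨1, h1⟩
      · exact ⟨0, h0⟩
  refine hK f₁ hfK f' hf'K hf'r ?_
  have hlen : ∀ E (g : Fin 6), len (b : Fin 4 → E3) g =
      dist (Φ E (b (ea g))) (Φ E (b (eb g))) := by
    intro E g
    rw [(Φ E).dist_eq]; rfl
  rw [hlen C f₁, hlen D f']
  rcases Set.pair_eq_pair_iff.1 hpair with ⟨h1, h2⟩ | ⟨h1, h2⟩
  · rw [h1, h2]
  · rw [h1, h2, dist_comm]

/-- the cone theorem of a face-to-face tiling for a closed set of edges -/
theorem ffcone (v : Fin 4 → E3) (hv : AffineIndependent ℝ v) (hT : FFTiles v) (hA : Asym v)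
    (K : Finset (Fin 6)) (hK : Closed (len v) K) :
    ∃ (k : ℕ) (n : Fin k → Fin 6 → ℕ) (c : Fin k → ℝ),
      LinearIndependent ℝ (fun i : Fin k => fun e : Fin 6 => (n i e : ℝ)) ∧
      (∀ i, ∀ e ∉ K, n i e = 0) ∧
      (∀ i, ∑ e, (n i e : ℝ) * dih v e = 2 * π) ∧ (∀ i, 0 < c i) ∧
      ∀ e ∈ K, len v e = ∑ i, c i * (n i e : ℝ) := by
  obtain ⟨b, S, Φ, rfl, h, hF⟩ := hT.isTiling hv
  refine coneK b S Φ h K ?_
  intro x A hAS B hBS hxB e hxe
  have hext : ∀ C ∈ S, ∀ D ∈ S, IsExtreme ℝ (Φ C '' hull b) (Φ C '' hull b ∩ Φ D '' hull b) := by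
    intro C hC D hD
    have := hF C hC D hD
    rw [← h.eq C hC, ← h.eq D hD]
    exact this
  obtain ⟨e', he', _⟩ := edge_share b (Φ A) (Φ B) (hext A hAS B hBS) (hext B hBS A hAS) x e hxe
    (by rw [← h.eq B hBS]; exact hxB)
  refine ⟨e', he', fun hh => ?_, fun hh => ?_⟩
  · exact closed_step b S Φ h hF hA K hK hAS hBS hxe he' hh
  · exact closed_step b S Φ h hF hA K hK hBS hAS he' hxe hh

end Pool.Agent.TFF
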