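import Pool.Agent.TFF.Defs
import Pool.Agent.TetRel.Bridge
import Pool.Agent.TetRel.Cone
import Pool.Agent.TetRel.AreasV

/-! # The geometry of `Geo` (helper35, helper14, package G7) -/

set_option autoImplicit false

open Module Real Set
open scoped InnerProductSpace

namespace Pool.Agent.TFF

open Pool.Agent.TetRel

/-- the Gram determinant of three unit vectors is positive -/
lemma gram_posG7 {x y z t : E3} {α β γ : ℝ} (hxt : ⟪x, t⟫_ℝ ≠ 0) (hyt : ⟪y, t⟫_ℝ = 0)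
    (hzt : ⟪z, t⟫_ℝ = 0) (hx : x ≠ 0) (hy : y ≠ 0) (hz : z ≠ 0)
    (hyz : ⟪y, z⟫_ℝ = -(‖y‖ * ‖z‖ * cos α)) (hxz : ⟪x, z⟫_ℝ = -(‖x‖ * ‖z‖ * cos β))
    (hxy : ⟪x, y⟫_ℝ = -(‖x‖ * ‖y‖ * cos γ)) (hα : 0 < α ∧ α < π) :
    0 < 1 - cos α ^ 2 - cos β ^ 2 - cos γ ^ 2 - 2 * cos α * cos β * cos γ := by
  have sα : 0 < sin α := sin_pos_of_pos_of_lt_pi hα.1 hα.2
  have hA : 1 - cos α ^ 2 = sin α ^ 2 := by
    have := sin_sq_add_cos_sq α
    linarith
  have hA0 : 0 < 1 - cos α ^ 2 := by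
    rw [hA]
    positivity
  have nx : ‖x‖ ≠ 0 := norm_ne_zero_iff.2 hx
  have ny : ‖y‖ ≠ 0 := norm_ne_zero_iff.2 hy
  have nz : ‖z‖ ≠ 0 := norm_ne_zero_iff.2 hz
  set X : E3 := ((1 - cos α ^ 2) / ‖x‖) • x + ((cos γ + cos α * cos β) / ‖y‖) • y +
    ((cos β + cos α * cos γ) / ‖z‖) • z with hX
  have hXt : ⟪X, t⟫_ℝ = (1 - cos α ^ 2) / ‖x‖ * ⟪x, t⟫_ℝ := by
    rw [hX, inner_add_left, inner_add_left, real_inner_smul_left, real_inner_smul_left,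
      real_inner_smul_left, hyt, hzt]
    ring
  have hX0 : X ≠ 0 := by
    intro h
    rw [h, inner_zero_left] at hXt
    exact mul_ne_zero (div_ne_zero hA0.ne' nx) hxt hXt.symm
  have hpos : 0 < ⟪X, X⟫_ℝ := real_inner_self_pos.2 hX0
  have hyx : ⟪y, x⟫_ℝ = ⟪x, y⟫_ℝ := real_inner_comm _ _
  have hzx : ⟪z, x⟫_ℝ = ⟪x, z⟫_ℝ := real_inner_comm _ _
  have hzy : ⟪z, y⟫_ℝ = ⟪y, z⟫_ℝ := real_inner_comm _ _
  have hval : ⟪X, X⟫_ℝ = (1 - cos α ^ 2) *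
      (1 - cos α ^ 2 - cos β ^ 2 - cos γ ^ 2 - 2 * cos α * cos β * cos γ) := by
    have sx : ⟪x, x⟫_ℝ = ‖x‖ ^ 2 := real_inner_self_eq_norm_sq x
    have sy : ⟪y, y⟫_ℝ = ‖y‖ ^ 2 := real_inner_self_eq_norm_sq y
    have sz : ⟪z, z⟫_ℝ = ‖z‖ ^ 2 := real_inner_self_eq_norm_sq z
    rw [hX]
    simp only [inner_add_left, inner_add_right, real_inner_smul_left, real_inner_smul_right,
      hyx, hzx, hzy, hxy, hxz, hyz, sx, sy, sz]
    field_simp
    ring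
  rw [hval] at hpos
  exact (mul_pos_iff_of_pos_left hA0).1 hpos

theorem geo (v : Fin 4 → E3) (hv : AffineIndependent ℝ v) :
    ∃ (a : Fin 4 → ℝ) (K : ℝ), 0 < K ∧ Geo (dih v) a ∧
      ∀ e, len v e = K * a (ec e) * a (ed e) * sin (dih v e) := by
  obtain ⟨a, K, hK, ha, hl, r0, r1, r2, r3⟩ := areas v hv
  refine ⟨a, K, hK, ⟨dih_mem v hv, ha, r0, r1, r2, r3, ?_⟩, hl⟩
  obtain ⟨b, rfl⟩ := exists_basis v hv
  have e0 := (edge_facts b 0).1
  have e1 := (edge_facts b 1).1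
  have e2 := (edge_facts b 2).1
  simp only [ec, ed, Fin.isValue, Matrix.cons_val, Matrix.cons_val_zero, Matrix.cons_val_one]
    at e0 e1 e2
  have hcm : ∀ c d : Fin 4, ⟪wv b d, wv b c⟫_ℝ = ⟪wv b c, wv b d⟫_ℝ :=
    fun c d => real_inner_comm _ _
  have h := gram_posG7 (x := wv b 1) (y := wv b 2) (z := wv b 3) (t := b 1 - b 0)
    (α := dih b 0) (β := dih b 1) (γ := dih b 2) ?_ ?_ ?_
    (wv_ne b _) (wv_ne b _) (wv_ne b _) e0 e1 e2 (dih_pos_lt b _)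
  · exact h
  · rw [inner_wv, lin_vertex]; simp
  · rw [inner_wv, lin_vertex]; simp
  · rw [inner_wv, lin_vertex]; simp

theorem gaddum (v : Fin 4 → E3) (hv : AffineIndependent ℝ v) : 2 * π < ∑ e, dih v e := by
  obtain ⟨b, rfl⟩ := exists_basis v hv
  have h1 : 1 < ∑ x, om b x := Pool.Agent.TetRel.gaddum b
  simp only [om_eq] at h1
  rw [← Finset.sum_div, lt_div_iff₀ (by positivity)] at h1
  linarith

/-! ## Permutations of the vertices (helper14) -/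

lemma pe_ends : ∀ (σ : Equiv.Perm (Fin 4)) (e : Fin 6),
    ((σ (ea e) = ea (pe σ e) ∧ σ (eb e) = eb (pe σ e)) ∨
      (σ (ea e) = eb (pe σ e) ∧ σ (eb e) = ea (pe σ e))) ∧
    ((σ (ec e) = ec (pe σ e) ∧ σ (ed e) = ed (pe σ e)) ∨
      (σ (ec e) = ed (pe σ e) ∧ σ (ed e) = ec (pe σ e))) := by
  decide

theorem len_comp (v : Fin 4 → E3) (σ : Equiv.Perm (Fin 4)) (e : Fin 6) :
    len (v ∘ σ) e = len v (pe σ e) := by
  have h := (pe_ends σ e).1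
  unfold len
  simp only [Function.comp_apply]
  rcases h with ⟨h1, h2⟩ | ⟨h1, h2⟩
  · rw [h1, h2]
  · rw [h1, h2, dist_comm]

lemma perp_swap (a b c : E3) : perp (a - b) (c - b) = perp (b - a) (c - a) := by
  by_cases h : b - a = 0
  · have h' : a = b := by
      rw [sub_eq_zero] at h
      exact h.symm
    rw [h']
  · have hne : ⟪b - a, b - a⟫_ℝ ≠ 0 := by
      simpa using h
    have e1 : a - b = -(b - a) := by abel
    have e2 : c - b = (c - a) - (b - a) := by abel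
    rw [e1, e2]
    generalize b - a = e at *
    generalize c - a = p at *
    unfold perp
    have e3 : ⟪-e, p - e⟫_ℝ / ⟪-e, -e⟫_ℝ = 1 - ⟪e, p⟫_ℝ / ⟪e, e⟫_ℝ := by
      rw [inner_neg_neg, inner_neg_left, inner_sub_right]
      field_simp
      ring
    rw [e3]
    module

theorem dih_comp (v : Fin 4 → E3) (hv : AffineIndependent ℝ v) (σ : Equiv.Perm (Fin 4))
    (e : Fin 6) : dih (v ∘ σ) e = dih v (pe σ e) := by
  obtain ⟨h, h'⟩ := pe_ends σ e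
  unfold dih
  simp only [Function.comp_apply]
  rcases h with ⟨h1, h2⟩ | ⟨h1, h2⟩ <;> rcases h' with ⟨h3, h4⟩ | ⟨h3, h4⟩
  · rw [h1, h2, h3, h4]
  · rw [h1, h2, h3, h4, InnerProductGeometry.angle_comm]
  · rw [h1, h2, h3, h4, perp_swap _ _ (v (ec (pe σ e))), perp_swap _ _ (v (ed (pe σ e)))]
  · rw [h1, h2, h3, h4, perp_swap _ _ (v (ec (pe σ e))), perp_swap _ _ (v (ed (pe σ e))),
      InnerProductGeometry.angle_comm]

end Pool.Agent.TFF
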