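import Pool.Agent.TFF.GeoV

/-! # The half of a Hill tetrahedron (helper37) -/

set_option autoImplicit false

namespace Pool.Agent.TFF

open Pool.Agent.TetRel Real

/-- the squares of the lengths of the edges -/
theorem half_aux (v : Fin 4 → E3) (hv : AffineIndependent ℝ v) (h1 : len v 0 = len v 1)
    (h3 : len v 3 = len v 4) (h5 : dih v 5 = π / 2) (h01 : dih v 0 + dih v 1 = π)
    (h2 : dih v 2 = π / 3) (h34 : dih v 3 + dih v 4 = π / 2)
    (hc : 2 * cos (dih v 0) * cos (dih v 3) + sin (dih v 3) = 0) :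
    len v 2 ^ 2 = 3 * (len v 3 ^ 2 - len v 0 ^ 2) ∧
      len v 5 ^ 2 = 5 * len v 3 ^ 2 - 4 * len v 0 ^ 2 ∧ len v 2 ≠ len v 5 := by
  obtain ⟨a, K, hK, hg, hl⟩ := geo v hv
  have l0 : len v 0 = K * a 2 * a 3 * sin (dih v 0) := hl 0
  have l1 : len v 1 = K * a 1 * a 3 * sin (dih v 1) := hl 1
  have l2 : len v 2 = K * a 1 * a 2 * sin (dih v 2) := hl 2
  have l3 : len v 3 = K * a 0 * a 3 * sin (dih v 3) := hl 3
  have l4 : len v 4 = K * a 0 * a 2 * sin (dih v 4) := hl 4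
  have l5 : len v 5 = K * a 0 * a 1 * sin (dih v 5) := hl 5
  have e1 : dih v 1 = π - dih v 0 := by linarith
  have e4 : dih v 4 = π / 2 - dih v 3 := by linarith
  have p0 := hg.pos 0
  have p1 := hg.pos 1
  have p2 := hg.pos 2
  have p3 := hg.pos 3
  have sx : 0 < sin (dih v 0) := sin_pos_of_pos_of_lt_pi (hg.mem 0).1 (hg.mem 0).2
  have sy : 0 < sin (dih v 3) := sin_pos_of_pos_of_lt_pi (hg.mem 3).1 (hg.mem 3).2
  have hr0 := hg.r0
  rw [h5, e4, cos_pi_div_two, cos_pi_div_two_sub] at hr0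
  rw [e1, sin_pi_sub] at l1
  rw [e4, sin_pi_div_two_sub] at l4
  rw [h5, sin_pi_div_two] at l5
  rw [h2, sin_pi_div_three] at l2
  have a12 : a 1 = a 2 := by
    have h : K * a 3 * sin (dih v 0) * (a 1 - a 2) = 0 := by
      linear_combination l0 - l1 - h1
    have hne : K * a 3 * sin (dih v 0) ≠ 0 := by positivity
    have h' := (mul_eq_zero.1 h).resolve_left hne
    linarith
  have a32 : a 3 * sin (dih v 3) = a 2 * cos (dih v 3) := by
    have h : K * a 0 * (a 3 * sin (dih v 3) - a 2 * cos (dih v 3)) = 0 := by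
      linear_combination l4 - l3 + h3
    have hne : K * a 0 ≠ 0 := by positivity
    have h' := (mul_eq_zero.1 h).resolve_left hne
    linarith
  have hs := sin_sq_add_cos_sq (dih v 3)
  have hsx := sin_sq_add_cos_sq (dih v 0)
  have a2 : a 2 = a 0 * sin (dih v 3) := by
    linear_combination (-sin (dih v 3)) * hr0 - cos (dih v 3) * a32 - a 2 * hs
  have a3 : a 3 = a 0 * cos (dih v 3) := by
    linear_combination (-cos (dih v 3)) * hr0 + sin (dih v 3) * a32 - a 3 * hs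
  set S := sin (dih v 3)
  set c := cos (dih v 3)
  set sx' := sin (dih v 0)
  set cx := cos (dih v 0)
  have hcS : c ^ 2 * cx ^ 2 = S ^ 2 / 4 := by
    have h : cx * c = -S / 2 := by linarith
    calc c ^ 2 * cx ^ 2 = (cx * c) ^ 2 := by ring
      _ = S ^ 2 / 4 := by rw [h]; ring
  have q3 : len v 3 ^ 2 = (K * a 0 ^ 2) ^ 2 * S ^ 2 * c ^ 2 := by rw [l3, a3]; ring
  have q5 : len v 5 ^ 2 = (K * a 0 ^ 2) ^ 2 * S ^ 2 := by rw [l5, a12, a2]; ring
  have h33 : (√3) ^ 2 = 3 := Real.sq_sqrt (by norm_num)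
  have q2 : len v 2 ^ 2 = (K * a 0 ^ 2) ^ 2 * S ^ 4 * (3 / 4) := by
    rw [l2, a12, a2]
    linear_combination ((K * a 0 ^ 2) ^ 2 * S ^ 4 / 4) * h33
  have q0 : len v 0 ^ 2 = (K * a 0 ^ 2) ^ 2 * S ^ 2 * (c ^ 2 - S ^ 2 / 4) := by
    rw [l0, a3, a2]
    linear_combination ((K * a 0 ^ 2) ^ 2 * S ^ 2 * c ^ 2) * hsx -
      ((K * a 0 ^ 2) ^ 2 * S ^ 2) * hcS
  refine ⟨?_, ?_, ?_⟩
  · rw [q2, q3, q0]
    ring
  · rw [q5, q3, q0]
    linear_combination (-(K * a 0 ^ 2) ^ 2 * S ^ 2) * hs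
  · intro h
    have h' : (K * a 0 ^ 2) ^ 2 * S ^ 4 * (3 / 4) = (K * a 0 ^ 2) ^ 2 * S ^ 2 := by
      rw [← q2, ← q5, h]
    have hpos : 0 < (K * a 0 ^ 2) ^ 2 * S ^ 2 := by positivity
    have h'' : S ^ 2 * (3 / 4) = 1 := by
      have : ((K * a 0 ^ 2) ^ 2 * S ^ 2) * (S ^ 2 * (3 / 4) - 1) = 0 := by
        linear_combination h'
      have := (mul_eq_zero.1 this).resolve_left hpos.ne'
      linarith
    nlinarith [sq_nonneg c]

theorem half_shape (v : Fin 4 → E3) (hv : AffineIndependent ℝ v) (h1 : len v 0 = len v 1)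
    (h3 : len v 3 = len v 4) (h5 : dih v 5 = π / 2) (h01 : dih v 0 + dih v 1 = π)
    (h2 : dih v 2 = π / 3) (h34 : dih v 3 + dih v 4 = π / 2)
    (hc : 2 * cos (dih v 0) * cos (dih v 3) + sin (dih v 3) = 0) :
    Hill4 (v 3) (v 1) (v 2) ((2 : ℝ) • v 0 - v 3) := by
  obtain ⟨q2, q5, -⟩ := half_aux v hv h1 h3 h5 h01 h2 h34 hc
  set b := v 1 - v 0 with hb
  set c := v 2 - v 0 with hc'
  set d := v 3 - v 0 with hd
  have l0 : len v 0 = ‖b‖ := by
    change dist (v 0) (v 1) = _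
    rw [dist_comm, dist_eq_norm]
  have l1 : len v 1 = ‖c‖ := by
    change dist (v 0) (v 2) = _
    rw [dist_comm, dist_eq_norm]
  have l2 : len v 2 = ‖d‖ := by
    change dist (v 0) (v 3) = _
    rw [dist_comm, dist_eq_norm]
  have l3 : len v 3 = ‖b - c‖ := by
    change dist (v 1) (v 2) = _
    rw [dist_eq_norm, hb, hc', sub_sub_sub_cancel_right]
  have l4 : len v 4 = ‖b - d‖ := by
    change dist (v 1) (v 3) = _
    rw [dist_eq_norm, hb, hd, sub_sub_sub_cancel_right]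
  have l5 : len v 5 = ‖c - d‖ := by
    change dist (v 2) (v 3) = _
    rw [dist_eq_norm, hc', hd, sub_sub_sub_cancel_right]
  have hbc := norm_sub_sq_real b c
  have hbd := norm_sub_sq_real b d
  have hcd := norm_sub_sq_real c d
  rw [← l3, ← l0, ← l1, ← h1] at hbc
  rw [← l4, ← l0, ← l2, ← h3, q2] at hbd
  rw [← l5, ← l1, ← l2, ← h1, q2, q5] at hcd
  have e1 : v 1 - v 3 = b - d := by rw [hb, hd, sub_sub_sub_cancel_right]
  have e2 : v 2 - v 1 = c - b := by rw [hb, hc', sub_sub_sub_cancel_right]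
  have e3 : (2 : ℝ) • v 0 - v 3 - v 2 = -(c + d) := by
    rw [hc', hd, two_smul]
    abel
  have hcd' := norm_add_sq_real c d
  unfold Hill4
  rw [e1, e2, e3]
  have s1 : ‖b - d‖ = ‖c - b‖ := by
    rw [← l4, norm_sub_rev, ← l3, h3]
  have s2 : ‖c - b‖ = ‖-(c + d)‖ := by
    have h : ‖c - b‖ ^ 2 = ‖-(c + d)‖ ^ 2 := by
      rw [norm_neg, hcd', norm_sub_rev, ← l3, ← l1, ← l2, ← h1, q2]
      linarith
    exact (sq_eq_sq₀ (norm_nonneg _) (norm_nonneg _)).1 h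
  have c1 : inner ℝ d c = inner ℝ c d := real_inner_comm c d
  have c2 : inner ℝ d b = inner ℝ b d := real_inner_comm b d
  have n2 : ‖d‖ ^ 2 = 3 * (len v 3 ^ 2 - len v 0 ^ 2) := by rw [← l2, q2]
  refine ⟨s1, s2, ?_, ?_⟩
  · simp only [inner_sub_left, inner_sub_right, inner_neg_right, inner_add_right,
      real_inner_self_eq_norm_sq, c1, c2]
    rw [← l0, ← l1, ← h1]
    linarith
  · simp only [inner_sub_left, inner_neg_right, inner_add_right,
      real_inner_self_eq_norm_sq, c1]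
    rw [← l1, ← h1, n2]
    linarith

theorem half_ne (v : Fin 4 → E3) (hv : AffineIndependent ℝ v) (h1 : len v 0 = len v 1)
    (h3 : len v 3 = len v 4) (h5 : dih v 5 = π / 2) (h01 : dih v 0 + dih v 1 = π)
    (h2 : dih v 2 = π / 3) (h34 : dih v 3 + dih v 4 = π / 2)
    (hc : 2 * cos (dih v 0) * cos (dih v 3) + sin (dih v 3) = 0) : len v 2 ≠ len v 5 :=
  (half_aux v hv h1 h3 h5 h01 h2 h34 hc).2.2

end Pool.Agent.TFF
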