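import Pool.Agent.TFF.HillFF

/-! # Half of a Hill tetrahedron tiles space face-to-face and periodically (helper7) -/

set_option autoImplicit false

open Set Filter Topology
open Pool.Agent.TetRel
open Pool.Agent.TetDim.Hill

namespace Pool.Agent.TFF.HalfT

/-- `1 - max u - min u`, where `u i = x i - n i` -/
noncomputable def dl (n : Fin 6 → ℤ) (x : E3) : ℝ :=
  1 - max (max (x 0 - n 0) (x 1 - n 1)) (x 2 - n 2) -
    min (min (x 0 - n 0) (x 1 - n 1)) (x 2 - n 2)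

/-- the sign -/
def sg (s : Bool) : ℝ := if s then 1 else -1

/-- the two halves of the cells -/
def H (n : Fin 6 → ℤ) (s : Bool) : Set E3 := {x | x ∈ C n ∧ 0 ≤ sg s * dl n x}

theorem ord01 (n : Fin 6 → ℤ) : (∀ z ∈ C n, z 1 - n 1 ≤ z 0 - n 0) ∨
    (∀ z ∈ C n, z 0 - n 0 ≤ z 1 - n 1) := by
  rcases le_or_gt (n 0 - n 1) (n 3) with h | h
  · left
    intro z hz
    obtain ⟨-, -, -, ⟨h1, h2⟩, -, -⟩ := (mem_C n z).1 hz
    have h' : ((n 0 : ℝ) - n 1) ≤ n 3 := by exact_mod_cast h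
    linarith
  · right
    intro z hz
    obtain ⟨-, -, -, ⟨h1, h2⟩, -, -⟩ := (mem_C n z).1 hz
    have h' : (n 3 : ℝ) + 1 ≤ (n 0 : ℝ) - n 1 := by exact_mod_cast h
    linarith

theorem ord12 (n : Fin 6 → ℤ) : (∀ z ∈ C n, z 2 - n 2 ≤ z 1 - n 1) ∨
    (∀ z ∈ C n, z 1 - n 1 ≤ z 2 - n 2) := by
  rcases le_or_gt (n 1 - n 2) (n 4) with h | h
  · left
    intro z hz
    obtain ⟨-, -, -, -, ⟨h1, h2⟩, -⟩ := (mem_C n z).1 hz
    have h' : ((n 1 : ℝ) - n 2) ≤ n 4 := by exact_mod_cast h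
    linarith
  · right
    intro z hz
    obtain ⟨-, -, -, -, ⟨h1, h2⟩, -⟩ := (mem_C n z).1 hz
    have h' : (n 4 : ℝ) + 1 ≤ (n 1 : ℝ) - n 2 := by exact_mod_cast h
    linarith

theorem ord02 (n : Fin 6 → ℤ) : (∀ z ∈ C n, z 2 - n 2 ≤ z 0 - n 0) ∨
    (∀ z ∈ C n, z 0 - n 0 ≤ z 2 - n 2) := by
  rcases le_or_gt (n 0 - n 2) (n 5) with h | h
  · left
    intro z hz
    obtain ⟨-, -, -, -, -, ⟨h1, h2⟩⟩ := (mem_C n z).1 hz
    have h' : ((n 0 : ℝ) - n 2) ≤ n 5 := by exact_mod_cast h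
    linarith
  · right
    intro z hz
    obtain ⟨-, -, -, -, -, ⟨h1, h2⟩⟩ := (mem_C n z).1 hz
    have h' : (n 5 : ℝ) + 1 ≤ (n 0 : ℝ) - n 2 := by exact_mod_cast h
    linarith

/-- On each cell the function `dl` is affine. -/
theorem dl_rep (n : Fin 6 → ℤ) : ∃ c : Fin 3 → ℝ, ∀ w ∈ C n,
    dl n w = 1 - c 0 * (w 0 - n 0) - c 1 * (w 1 - n 1) - c 2 * (w 2 - n 2) := by
  rcases ord01 n with h01 | h01 <;> rcases ord12 n with h12 | h12 <;>
    rcases ord02 n with h02 | h02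
  · refine ⟨![1, 0, 1], fun w hw => ?_⟩
    have a1 := h01 w hw
    have a2 := h12 w hw
    have a3 := h02 w hw
    simp [dl, max_eq_left a1, min_eq_right a1, max_eq_left a3, min_eq_right a2]
  · refine ⟨![1, 0, 1], fun w hw => ?_⟩
    have a1 := h01 w hw
    have a2 := h12 w hw
    have a3 : w 2 - n 2 ≤ w 0 - n 0 := a2.trans a1
    simp [dl, max_eq_left a1, min_eq_right a1, max_eq_left a3, min_eq_right a2]
  · refine ⟨![1, 1, 0], fun w hw => ?_⟩
    have a1 := h01 w hw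
    have a2 := h12 w hw
    have a3 := h02 w hw
    simp [dl, max_eq_left a1, min_eq_right a1, max_eq_left a3, min_eq_left a2]
  · refine ⟨![0, 1, 1], fun w hw => ?_⟩
    have a1 := h01 w hw
    have a2 := h12 w hw
    have a3 := h02 w hw
    simp [dl, max_eq_left a1, min_eq_right a1, max_eq_right a3, min_eq_left a2]
    ring
  · refine ⟨![0, 1, 1], fun w hw => ?_⟩
    have a1 := h01 w hw
    have a2 := h12 w hw
    have a3 := h02 w hw
    simp [dl, max_eq_right a1, min_eq_left a1, max_eq_left a2, min_eq_right a3]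
  · refine ⟨![1, 1, 0], fun w hw => ?_⟩
    have a1 := h01 w hw
    have a2 := h12 w hw
    have a3 := h02 w hw
    simp [dl, max_eq_right a1, min_eq_left a1, max_eq_left a2, min_eq_left a3]
    ring
  · refine ⟨![1, 0, 1], fun w hw => ?_⟩
    have a1 := h01 w hw
    have a2 := h12 w hw
    have a3 : w 0 - n 0 ≤ w 2 - n 2 := a1.trans a2
    simp [dl, max_eq_right a1, min_eq_left a1, max_eq_right a2, min_eq_left a3]
    ring
  · refine ⟨![1, 0, 1], fun w hw => ?_⟩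
    have a1 := h01 w hw
    have a2 := h12 w hw
    have a3 := h02 w hw
    simp [dl, max_eq_right a1, min_eq_left a1, max_eq_right a2, min_eq_left a3]
    ring

theorem dl_aff {n : Fin 6 → ℤ} {x y : E3} (hx : x ∈ C n) (hy : y ∈ C n) {s t : ℝ} (hs : 0 ≤ s)
    (ht : 0 ≤ t) (hst : s + t = 1) : dl n (s • x + t • y) = s * dl n x + t * dl n y := by
  obtain ⟨c, hc⟩ := dl_rep n
  rw [hc x hx, hc y hy, hc _ (C_convex n hx hy hs ht hst)]
  have : t = 1 - s := by linarith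
  subst this
  simp
  ring

theorem H_convex (n : Fin 6 → ℤ) (s : Bool) : Convex ℝ (H n s) := by
  intro x hx y hy c d hc hd hcd
  refine ⟨C_convex n hx.1 hy.1 hc hd hcd, ?_⟩
  rw [dl_aff hx.1 hy.1 hc hd hcd]
  have h1 := mul_nonneg hc hx.2
  have h2 := mul_nonneg hd hy.2
  linarith [mul_left_comm c (sg s) (dl n x), mul_left_comm d (sg s) (dl n y)]

theorem dl_nonneg {m : Fin 6 → ℤ} {w : E3} (hw : w ∈ C m)
    (h : w 0 - m 0 ≤ 0 ∨ w 1 - m 1 ≤ 0 ∨ w 2 - m 2 ≤ 0) : 0 ≤ dl m w := by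
  obtain ⟨⟨a1, a2⟩, ⟨b1, b2⟩, ⟨c1, c2⟩, -, -, -⟩ := (mem_C m w).1 hw
  have h1 : max (max (w 0 - m 0) (w 1 - m 1)) (w 2 - m 2) ≤ 1 :=
    max_le (max_le (by linarith) (by linarith)) (by linarith)
  have h2 : min (min (w 0 - (m 0 : ℝ)) (w 1 - m 1)) (w 2 - m 2) ≤ 0 := by
    rcases h with h | h | h
    · exact (min_le_left _ _).trans ((min_le_left _ _).trans h)
    · exact (min_le_left _ _).trans ((min_le_right _ _).trans h)
    · exact (min_le_right _ _).trans h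
  unfold dl
  linarith

theorem dl_nonpos {m : Fin 6 → ℤ} {w : E3} (hw : w ∈ C m)
    (h : 1 ≤ w 0 - m 0 ∨ 1 ≤ w 1 - m 1 ∨ 1 ≤ w 2 - m 2) : dl m w ≤ 0 := by
  obtain ⟨⟨a1, a2⟩, ⟨b1, b2⟩, ⟨c1, c2⟩, -, -, -⟩ := (mem_C m w).1 hw
  have h1 : 0 ≤ min (min (w 0 - m 0) (w 1 - m 1)) (w 2 - m 2) :=
    le_min (le_min (by linarith) (by linarith)) (by linarith)
  have h2 : 1 ≤ max (max (w 0 - (m 0 : ℝ)) (w 1 - m 1)) (w 2 - m 2) := by
    rcases h with h | h | h
    · exact h.trans ((le_max_left _ _).trans (le_max_left _ _))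
    · exact h.trans ((le_max_right _ _).trans (le_max_left _ _))
    · exact h.trans (le_max_right _ _)
  unfold dl
  linarith

/-- The sign of `dl m` on the common part of two cells over different unit cubes. -/
theorem sign_const (n m : Fin 6 → ℤ) (h : n 0 ≠ m 0 ∨ n 1 ≠ m 1 ∨ n 2 ≠ m 2) :
    (∀ w, w ∈ C n → w ∈ C m → 0 ≤ dl m w) ∨ (∀ w, w ∈ C n → w ∈ C m → dl m w ≤ 0) := by
  have key : ∀ {a b : ℤ}, a < b → ((a : ℝ) + 1 ≤ b) := fun h => by exact_mod_cast h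
  rcases h with h | h | h <;> rcases lt_or_gt_of_ne h with h' | h'
  · left
    intro w hw hw'
    have h1 := (mem_C n w).1 hw
    exact dl_nonneg hw' (Or.inl (by linarith [key h', h1.1.2]))
  · right
    intro w hw hw'
    have h1 := (mem_C n w).1 hw
    exact dl_nonpos hw' (Or.inl (by linarith [key h', h1.1.1]))
  · left
    intro w hw hw'
    have h1 := (mem_C n w).1 hw
    exact dl_nonneg hw' (Or.inr (Or.inl (by linarith [key h', h1.2.1.2])))
  · right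
    intro w hw hw'
    have h1 := (mem_C n w).1 hw
    exact dl_nonpos hw' (Or.inr (Or.inl (by linarith [key h', h1.2.1.1])))
  · left
    intro w hw hw'
    have h1 := (mem_C n w).1 hw
    exact dl_nonneg hw' (Or.inr (Or.inr (by linarith [key h', h1.2.2.1.2])))
  · right
    intro w hw hw'
    have h1 := (mem_C n w).1 hw
    exact dl_nonpos hw' (Or.inr (Or.inr (by linarith [key h', h1.2.2.1.1])))

/-- The half cells meet face-to-face. -/
theorem H_ext (n m : Fin 6 → ℤ) (s s' : Bool) : IsExtreme ℝ (H n s) (H n s ∩ H m s') := by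
  refine ⟨inter_subset_left, ?_⟩
  intro x hx y hy z hz hzo
  obtain ⟨hz, hz'⟩ := hz
  have hxm : x ∈ C m := ((cell_ext n m).2 hx.1 hy.1 ⟨hz.1, hz'.1⟩ hzo).2
  have hym : y ∈ C m := ((cell_ext n m).2 hy.1 hx.1 ⟨hz.1, hz'.1⟩
    (by rwa [openSegment_symm])).2
  refine ⟨hx, hxm, ?_⟩
  by_contra hneg
  push Not at hneg
  have hy0 : sg s' * dl m y ≤ 0 := by
    by_contra hpos
    push Not at hpos
    by_cases hc : n 0 ≠ m 0 ∨ n 1 ≠ m 1 ∨ n 2 ≠ m 2
    · rcases sign_const n m hc with h | h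
      · have h1 := h x hx.1 hxm
        have h2 := h y hy.1 hym
        cases s' <;> simp [sg] at hneg hpos <;> linarith
      · have h1 := h x hx.1 hxm
        have h2 := h y hy.1 hym
        cases s' <;> simp [sg] at hneg hpos <;> linarith
    · push Not at hc
      obtain ⟨c0, c1, c2⟩ := hc
      have e : ∀ w, dl n w = dl m w := fun w => by unfold dl; rw [c0, c1, c2]
      have h1 := hx.2
      have h2 := hy.2
      rw [e] at h1 h2
      cases s <;> cases s' <;> simp [sg] at hneg hpos h1 h2 <;> linarith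
  obtain ⟨c, d, hc, hd, hcd, rfl⟩ := hzo
  have h1 := hz'.2
  rw [dl_aff hxm hym hc.le hd.le hcd] at h1
  have h2 : c * (sg s' * dl m x) < 0 := mul_neg_of_pos_of_neg hc hneg
  have h3 : d * (sg s' * dl m y) ≤ 0 := mul_nonpos_of_nonneg_of_nonpos hd.le hy0
  have h4 : sg s' * (c * dl m x + d * dl m y) = c * (sg s' * dl m x) + d * (sg s' * dl m y) := by
    ring
  linarith

theorem dl_add (n : Fin 6 → ℤ) (x : E3) (t : ℝ) :
    dl n (x + t • (!₂[1, 1, 1] : E3)) = dl n x - 2 * t := by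
  have e0 : (x + t • (!₂[1, 1, 1] : E3)) 0 - n 0 = (x 0 - n 0) + t := by simp; ring
  have e1 : (x + t • (!₂[1, 1, 1] : E3)) 1 - n 1 = (x 1 - n 1) + t := by simp; ring
  have e2 : (x + t • (!₂[1, 1, 1] : E3)) 2 - n 2 = (x 2 - n 2) + t := by simp; ring
  unfold dl
  rw [e0, e1, e2, max_add_add_right, max_add_add_right, min_add_add_right, min_add_add_right]
  ring

theorem H_disj {n m : Fin 6 → ℤ} {s s' : Bool} (h : H n s ≠ H m s') :
    Disjoint (interior (H n s)) (interior (H m s')) := by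
  by_cases hC : C n = C m
  · rw [Set.disjoint_left]
    intro x hx hx'
    have hxn : x ∈ interior (C n) := interior_mono (fun y hy => hy.1) hx
    have hxm : x ∈ interior (C m) := hC ▸ hxn
    have hnm : n = m := by
      funext k
      have a1 := lt_of_interior hxn k
      have a2 := (interior_subset hxn k).1
      have b1 := lt_of_interior hxm k
      have b2 := (interior_subset hxm k).1
      have h1 : (n k : ℝ) < m k + 1 := by linarith
      have h2 : (m k : ℝ) < n k + 1 := by linarith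
      have h1' : n k < m k + 1 := by exact_mod_cast h1
      have h2' : m k < n k + 1 := by exact_mod_cast h2
      omega
    subst hnm
    have hs : s ≠ s' := fun e => h (by rw [e])
    have zero : ∀ y, y ∈ H n s → y ∈ H n s' → dl n y = 0 := by
      intro y hy hy'
      have h1 := hy.2
      have h2 := hy'.2
      cases s <;> cases s' <;> simp [sg] at h1 h2 hs <;> linarith
    have hc : Tendsto (fun t : ℝ => x + t • (!₂[1, 1, 1] : E3)) (𝓝 0) (𝓝 x) := by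
      have : Continuous (fun t : ℝ => x + t • (!₂[1, 1, 1] : E3)) := by fun_prop
      simpa using this.tendsto 0
    have h1 : ∀ᶠ t : ℝ in 𝓝 0, x + t • (!₂[1, 1, 1] : E3) ∈ H n s :=
      hc (mem_interior_iff_mem_nhds.1 hx)
    have h2 : ∀ᶠ t : ℝ in 𝓝 0, x + t • (!₂[1, 1, 1] : E3) ∈ H n s' :=
      hc (mem_interior_iff_mem_nhds.1 hx')
    have h3 : ∀ᶠ t : ℝ in 𝓝[>] 0, x + t • (!₂[1, 1, 1] : E3) ∈ H n s ∧
        x + t • (!₂[1, 1, 1] : E3) ∈ H n s' := (h1.and h2).filter_mono nhdsWithin_le_nhds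
    obtain ⟨t, ⟨ht, ht'⟩, ht0⟩ := (h3.and self_mem_nhdsWithin).exists
    have h4 := zero _ ht ht'
    rw [dl_add, zero x (interior_subset hx) (interior_subset hx')] at h4
    have : 0 < t := ht0
    linarith
  · exact (disj hC).mono (interior_mono fun y hy => hy.1) (interior_mono fun y hy => hy.1)

/-- The vertices of the half: the midpoint of `q 0`, `q 3`, then `q 1`, `q 2`, `q 0`. -/
noncomputable def qh : Fin 4 → E3 := ![!₂[1 / 2, 1 / 2, 1 / 2], !₂[1, 0, 0], !₂[1, 1, 0], 0]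

theorem dl_zero {x : E3} (h01 : x 1 ≤ x 0) (h12 : x 2 ≤ x 1) : dl 0 x = 1 - x 0 - x 2 := by
  have h02 := h12.trans h01
  simp [dl, max_eq_left h01, min_eq_right h01, max_eq_left h02, min_eq_right h12]

theorem hull_qh : convexHull ℝ (range qh) = H 0 true := by
  apply Subset.antisymm
  · apply convexHull_min _ (H_convex 0 true)
    rintro _ ⟨i, rfl⟩
    refine ⟨?_, ?_⟩
    · rw [mem_C]
      fin_cases i <;> refine ⟨⟨?_, ?_⟩, ⟨?_, ?_⟩, ⟨?_, ?_⟩, ⟨?_, ?_⟩, ⟨?_, ?_⟩, ⟨?_, ?_⟩⟩ <;>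
        simp [qh] <;> norm_num
    · fin_cases i <;> simp [qh, sg, dl] <;> norm_num
  · rintro x ⟨hx, hx'⟩
    rw [mem_C] at hx
    simp only [Pi.zero_apply, Int.cast_zero, zero_add] at hx
    obtain ⟨⟨-, h0'⟩, -, ⟨h2, -⟩, ⟨h3, -⟩, ⟨h4, -⟩, -⟩ := hx
    rw [dl_zero (by linarith) (by linarith)] at hx'
    simp only [sg, if_true, one_mul] at hx'
    let w : Fin 4 → ℝ := ![2 * x 2, x 0 - x 1, x 1 - x 2, 1 - x 0 - x 2]
    have hw : ∀ i ∈ Finset.univ, 0 ≤ w i := by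
      intro i _
      fin_cases i
      · exact mul_nonneg zero_le_two h2
      · exact h3
      · exact h4
      · exact hx'
    have hw1 : ∑ i, w i = 1 := by
      rw [Fin.sum_univ_four]
      change 2 * x 2 + (x 0 - x 1) + (x 1 - x 2) + (1 - x 0 - x 2) = 1
      ring
    have hm := (convex_convexHull ℝ (range qh)).sum_mem hw hw1
      (fun i _ => subset_convexHull ℝ _ (mem_range_self i))
    have e : ∑ i, w i • qh i = x := by
      rw [Fin.sum_univ_four]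
      ext j
      fin_cases j
      all_goals simp [w, qh]
      all_goals ring
    rwa [e] at hm

/-- Points in a half cell whose image under `M a b` is congruent to the image of the first. -/
def Gh (a b : ℝ) (x : E3) : Prop :=
  ∃ n s, x ∈ H n s ∧ ∃ φ : E3 ≃ᵢ E3, M a b '' H n s = φ '' (M a b '' H 0 true)

theorem Gh_map {a b : ℝ} {g g' : E3 → E3} {h : E3 ≃ᵢ E3} (hg : ∀ x, h (M a b x) = M a b (g x))
    (hgg : ∀ x, g (g' x) = x)
    (hn : ∀ n, ∃ n', ∀ x, (g x ∈ C n' ↔ x ∈ C n) ∧ dl n' (g x) = dl n x) {x : E3}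
    (hx : Gh a b x) : Gh a b (g x) := by
  obtain ⟨n, s, hxn, φ, hφ⟩ := hx
  obtain ⟨n', hn'⟩ := hn n
  have hH : ∀ y, g y ∈ H n' s ↔ y ∈ H n s := fun y => by
    show (g y ∈ C n' ∧ 0 ≤ sg s * dl n' (g y)) ↔ (y ∈ C n ∧ 0 ≤ sg s * dl n y)
    rw [(hn' y).1, (hn' y).2]
  refine ⟨n', s, (hH x).2 hxn, φ.trans h, ?_⟩
  have e : M a b '' H n' s = h '' (M a b '' H n s) := by
    ext y
    constructor
    · rintro ⟨z, hz, rfl⟩
      refine ⟨_, ⟨g' z, (hH _).1 (by rwa [hgg]), rfl⟩, ?_⟩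
      rw [hg, hgg]
    · rintro ⟨_, ⟨z, hz, rfl⟩, rfl⟩
      exact ⟨g z, (hH z).2 hz, (hg z).symm⟩
  rw [e, hφ, image_image]
  rfl

theorem Gh_sw01 {a b : ℝ} {x : E3} (hx : Gh a b (sw01 x)) : Gh a b x := by
  have h := Gh_map (a := a) (b := b) (g := sw01) (g' := sw01) (h := i01) ?_ sw01_sw01 ?_ hx
  · rwa [sw01_sw01] at h
  · intro x
    change sw01 _ = _
    ext i
    fin_cases i <;> simp [sw01, M_apply] <;> exact Or.inl (by ring)
  · intro n
    refine ⟨![n 1, n 0, n 2, -n 3 - 1, n 5, n 4], fun x => ⟨?_, ?_⟩⟩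
    · rw [mem_C, mem_C]
      simp [sw01, -and_congr_right_iff, -and_congr_left_iff]
      constructor <;> rintro ⟨⟨_, _⟩, ⟨_, _⟩, ⟨_, _⟩, ⟨_, _⟩, ⟨_, _⟩, ⟨_, _⟩⟩ <;>
        refine ⟨⟨?_, ?_⟩, ⟨?_, ?_⟩, ⟨?_, ?_⟩, ⟨?_, ?_⟩, ⟨?_, ?_⟩, ⟨?_, ?_⟩⟩ <;> linarith
    · simp [dl, sw01, max_comm (x 1 - (n 1 : ℝ)), min_comm (x 1 - (n 1 : ℝ))]

theorem Gh_sw12 {a b : ℝ} {x : E3} (hx : Gh a b (sw12 x)) : Gh a b x := by
  have h := Gh_map (a := a) (b := b) (g := sw12) (g' := sw12) (h := i12) ?_ sw12_sw12 ?_ hx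
  · rwa [sw12_sw12] at h
  · intro x
    change sw12 _ = _
    ext i
    fin_cases i <;> simp [sw12, M_apply] <;> exact Or.inl (by ring)
  · intro n
    refine ⟨![n 0, n 2, n 1, n 5, -n 4 - 1, n 3], fun x => ⟨?_, ?_⟩⟩
    · rw [mem_C, mem_C]
      simp [sw12, -and_congr_right_iff, -and_congr_left_iff]
      constructor <;> rintro ⟨⟨_, _⟩, ⟨_, _⟩, ⟨_, _⟩, ⟨_, _⟩, ⟨_, _⟩, ⟨_, _⟩⟩ <;>
        refine ⟨⟨?_, ?_⟩, ⟨?_, ?_⟩, ⟨?_, ?_⟩, ⟨?_, ?_⟩, ⟨?_, ?_⟩, ⟨?_, ?_⟩⟩ <;> linarith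
    · simp only [dl, sw12, Matrix.cons_val]
      rw [max_right_comm, min_right_comm]

theorem Gh_tr {a b : ℝ} (m : Fin 3 → ℤ) {x : E3} (hx : Gh a b (x + tr m)) : Gh a b x := by
  have h := Gh_map (a := a) (b := b) (g := fun x => x + tr (-m)) (g' := fun x => x + tr m)
    (h := IsometryEquiv.addRight (M a b (tr (-m)))) ?_ ?_ ?_ hx
  · have e : x + tr m + tr (-m) = x := by
      ext i
      fin_cases i <;> simp [tr]
    change Gh a b (x + tr m + tr (-m)) at h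
    rwa [e] at h
  · intro x
    change M a b x + M a b (tr (-m)) = M a b (x + tr (-m))
    rw [map_add]
  · intro x
    ext i
    fin_cases i <;> simp [tr]
  · intro n
    refine ⟨![n 0 - m 0, n 1 - m 1, n 2 - m 2, n 3 - (m 0 - m 1), n 4 - (m 1 - m 2),
      n 5 - (m 0 - m 2)], fun x => ⟨?_, ?_⟩⟩
    · rw [mem_C, mem_C]
      simp [tr]
      constructor <;> rintro ⟨⟨_, _⟩, ⟨_, _⟩, ⟨_, _⟩, ⟨_, _⟩, ⟨_, _⟩, ⟨_, _⟩⟩ <;>
        refine ⟨⟨?_, ?_⟩, ⟨?_, ?_⟩, ⟨?_, ?_⟩, ⟨?_, ?_⟩, ⟨?_, ?_⟩, ⟨?_, ?_⟩⟩ <;> linarith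
    · have e : ∀ t u v : ℝ, t + -u - (v - u) = t - v := fun t u v => by ring
      simp [dl, tr, e]

/-- the half turn of the cell `C 0`, on the level of the vectors -/
def rv (x : E3) : E3 := !₂[-x 2, -x 1, -x 0]

theorem rv_rv (x : E3) : rv (rv x) = x := by
  ext i
  fin_cases i <;> simp [rv]

noncomputable def irv : E3 ≃ᵢ E3 := IsometryEquiv.mk' rv rv rv_rv
  (by apply isom_of; intro x y; simp [rv]; ring)

theorem turn (a b : ℝ) : ∃ φ : E3 ≃ᵢ E3, M a b '' H 0 false = φ '' (M a b '' H 0 true) := by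
  have hC : ∀ x, rv x + (!₂[1, 1, 1] : E3) ∈ C 0 ↔ x ∈ C 0 := by
    intro x
    rw [mem_C, mem_C]
    simp [rv, -and_congr_right_iff, -and_congr_left_iff]
    constructor <;> rintro ⟨⟨_, _⟩, ⟨_, _⟩, ⟨_, _⟩, ⟨_, _⟩, ⟨_, _⟩, ⟨_, _⟩⟩ <;>
      refine ⟨⟨?_, ?_⟩, ⟨?_, ?_⟩, ⟨?_, ?_⟩, ⟨?_, ?_⟩, ⟨?_, ?_⟩, ⟨?_, ?_⟩⟩ <;> linarith
  have hd : ∀ x, x ∈ C 0 → dl 0 (rv x + (!₂[1, 1, 1] : E3)) = - dl 0 x := by
    intro x hx
    have hx' := (hC x).2 hx
    rw [mem_C] at hx hx'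
    simp only [Pi.zero_apply, Int.cast_zero, zero_add] at hx hx'
    rw [dl_zero (by linarith [hx'.2.2.2.1.1]) (by linarith [hx'.2.2.2.2.1.1]),
      dl_zero (by linarith [hx.2.2.2.1.1]) (by linarith [hx.2.2.2.2.1.1])]
    simp [rv]
    ring
  refine ⟨irv.trans (IsometryEquiv.addRight (M a b !₂[1, 1, 1])), ?_⟩
  have hM : ∀ x, (irv.trans (IsometryEquiv.addRight (M a b !₂[1, 1, 1]))) (M a b x) =
      M a b (rv x + (!₂[1, 1, 1] : E3)) := by
    intro x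
    show rv (M a b x) + M a b !₂[1, 1, 1] = _
    rw [map_add]
    congr 1
    ext i
    fin_cases i <;> simp [rv, M_apply] <;> ring
  have hinv : ∀ x, rv (rv x + (!₂[1, 1, 1] : E3)) + (!₂[1, 1, 1] : E3) = x := by
    intro x
    ext i
    fin_cases i <;> simp [rv]
  ext y
  constructor
  · rintro ⟨x, ⟨hx, hx'⟩, rfl⟩
    refine ⟨_, ⟨rv x + (!₂[1, 1, 1] : E3), ⟨(hC x).2 hx, ?_⟩, rfl⟩, ?_⟩
    · rw [hd x hx]
      simp [sg] at hx' ⊢
      linarith
    · rw [hM, hinv]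
  · rintro ⟨_, ⟨x, ⟨hx, hx'⟩, rfl⟩, rfl⟩
    refine ⟨rv x + (!₂[1, 1, 1] : E3), ⟨(hC x).2 hx, ?_⟩, (hM x).symm⟩
    rw [hd x hx]
    simp [sg] at hx' ⊢
    linarith

theorem Gh_sorted {a b : ℝ} {x : E3} (h2 : 0 ≤ x 2) (h12 : x 2 ≤ x 1) (h01 : x 1 ≤ x 0)
    (h0 : x 0 ≤ 1) : Gh a b x := by
  have hx : x ∈ C 0 := by
    rw [mem_C]
    simp only [Pi.zero_apply, Int.cast_zero, zero_add]
    refine ⟨⟨?_, ?_⟩, ⟨?_, ?_⟩, ⟨?_, ?_⟩, ⟨?_, ?_⟩, ⟨?_, ?_⟩, ⟨?_, ?_⟩⟩ <;> linarith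
  rcases le_total 0 (dl 0 x) with h | h
  · exact ⟨0, true, ⟨hx, by simpa [sg] using h⟩, IsometryEquiv.refl _, (image_id _).symm⟩
  · obtain ⟨φ, hφ⟩ := turn a b
    exact ⟨0, false, ⟨hx, by simp [sg]; linarith⟩, φ, hφ⟩

theorem Gh_cube {a b : ℝ} {x : E3} (h : ∀ i, 0 ≤ x i ∧ x i ≤ 1) : Gh a b x := by
  -- sort by transpositions
  have key : ∀ y : E3, (∀ i, 0 ≤ y i ∧ y i ≤ 1) → y 2 ≤ y 1 → y 2 ≤ y 0 → Gh a b y := by
    intro y hy h1 h0
    rcases le_total (y 1) (y 0) with h | h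
    · exact Gh_sorted (hy 2).1 h1 h (hy 0).2
    · apply Gh_sw01
      refine Gh_sorted ?_ ?_ ?_ ?_ <;> simp [sw01]
      exacts [(hy 2).1, h0, h, (hy 1).2]
  have key2 : ∀ y : E3, (∀ i, 0 ≤ y i ∧ y i ≤ 1) → (y 1 ≤ y 0 ∨ y 2 ≤ y 0) → Gh a b y := by
    intro y hy h0
    rcases le_total (y 2) (y 1) with h | h
    · exact key y hy h (by rcases h0 with h0 | h0 <;> linarith)
    · apply Gh_sw12
      refine key _ ?_ ?_ ?_
      · intro i; fin_cases i <;> simp [sw12]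
        exacts [hy 0, hy 2, hy 1]
      · simp [sw12]; exact h
      · simp [sw12]; rcases h0 with h0 | h0 <;> linarith
  by_cases hc : x 1 ≤ x 0 ∨ x 2 ≤ x 0
  · exact key2 x h hc
  · push Not at hc
    apply Gh_sw01
    refine key2 _ ?_ (Or.inl ?_)
    · intro i; fin_cases i <;> simp [sw01]
      exacts [h 1, h 0, h 2]
    · simp [sw01]; exact hc.1.le

theorem Gh_all (a b : ℝ) (x : E3) : Gh a b x := by
  apply Gh_tr (fun i => -⌊x i⌋)
  apply Gh_cube
  have key : ∀ t : ℝ, 0 ≤ t + ((-⌊t⌋ : ℤ) : ℝ) ∧ t + ((-⌊t⌋ : ℤ) : ℝ) ≤ 1 := by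
    intro t
    have h1 := Int.floor_le t
    have h2 := Int.lt_floor_add_one t
    push_cast
    constructor <;> linarith
  intro i
  fin_cases i
  · have := key (x 0); simpa [tr] using this
  · have := key (x 1); simpa [tr] using this
  · have := key (x 2); simpa [tr] using this

/-- The lattice translations permute the half cells. -/
theorem shiftH (m : Fin 3 → ℤ) (n : Fin 6 → ℤ) (s : Bool) :
    ∃ n', (fun x => x + tr m) '' H n s = H n' s := by
  refine ⟨![n 0 + m 0, n 1 + m 1, n 2 + m 2, n 3 + (m 0 - m 1), n 4 + (m 1 - m 2),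
    n 5 + (m 0 - m 2)], ?_⟩
  set n' : Fin 6 → ℤ := ![n 0 + m 0, n 1 + m 1, n 2 + m 2, n 3 + (m 0 - m 1), n 4 + (m 1 - m 2),
    n 5 + (m 0 - m 2)] with hn'
  have hC : ∀ x, x + tr m ∈ C n' ↔ x ∈ C n := by
    intro x
    rw [mem_C, mem_C]
    simp [tr, hn']
    constructor <;> rintro ⟨⟨_, _⟩, ⟨_, _⟩, ⟨_, _⟩, ⟨_, _⟩, ⟨_, _⟩, ⟨_, _⟩⟩ <;>
      refine ⟨⟨?_, ?_⟩, ⟨?_, ?_⟩, ⟨?_, ?_⟩, ⟨?_, ?_⟩, ⟨?_, ?_⟩, ⟨?_, ?_⟩⟩ <;> linarith
  have hd : ∀ x, dl n' (x + tr m) = dl n x := by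
    intro x
    have e : ∀ t u v : ℝ, t + u - (v + u) = t - v := fun t u v => by ring
    simp [dl, tr, hn', e]
  ext y
  constructor
  · rintro ⟨x, ⟨hx, hx'⟩, rfl⟩
    exact ⟨(hC x).2 hx, by show 0 ≤ sg s * dl n' (x + tr m); rw [hd]; exact hx'⟩
  · intro hy
    refine ⟨y - tr m, ⟨(hC _).1 (by simpa using hy.1), ?_⟩, by simp⟩
    rw [← hd, sub_add_cancel]
    exact hy.2

/-- the vertices of the half -/
noncomputable def vh (a b : ℝ) (i : Fin 4) : E3 := M a b (qh i)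

theorem hull_vh (a b : ℝ) : convexHull ℝ (range (vh a b)) = M a b '' H 0 true := by
  have e : range (vh a b) = M a b '' range qh := by
    rw [← range_comp]
    rfl
  rw [e, ← hull_qh]
  exact ((M a b).image_convexHull (range qh)).symm

theorem vh_ff {a b : ℝ} (ha : a ≠ 0) (hb : a + 3 * b ≠ 0) : FFPer (vh a b) := by
  refine ⟨{A | (∃ n s, A = M a b '' H n s) ∧
    ∃ φ : E3 ≃ᵢ E3, A = φ '' convexHull ℝ (range (vh a b))}, ?_, ?_, ?_, ?_, ?_⟩
  · rintro A ⟨-, hA⟩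
    exact hA
  · rw [sUnion_eq_univ_iff]
    intro y
    obtain ⟨x, rfl⟩ := (ME a b ha hb).surjective y
    obtain ⟨n, s, hn, φ, hφ⟩ := Gh_all a b x
    exact ⟨M a b '' H n s, ⟨⟨n, s, rfl⟩, φ, by rw [hull_vh, hφ]⟩, x, hn, rfl⟩
  · rintro _ ⟨⟨n, s, rfl⟩, -⟩ _ ⟨⟨m, s', rfl⟩, -⟩ hne
    have e : ∀ X : Set E3, interior (M a b '' X) = M a b '' interior X := fun X =>
      ((ME a b ha hb).toContinuousLinearEquiv.toHomeomorph.image_interior X).symm
    have inj : Function.Injective (M a b) := (ME a b ha hb).injective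
    show Disjoint _ _
    rw [e, e, Set.disjoint_image_iff inj]
    exact H_disj fun he => hne (by rw [he])
  · rintro _ ⟨⟨n, s, rfl⟩, -⟩ _ ⟨⟨m, s', rfl⟩, -⟩
    refine ext_image (M a b) (ME a b ha hb).injective ?_ (H_ext n m s s')
    intro c d x y _
    rw [map_add, map_smul, map_smul]
  · refine ⟨fun i => M a b (EuclideanSpace.single i (1 : ℝ)), ?_, ?_⟩
    · have h1 := (EuclideanSpace.basisFun (Fin 3) ℝ).toBasis.linearIndependent
      have h2 := h1.map' (M a b) (LinearMap.ker_eq_bot.2 (ME a b ha hb).injective)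
      have h3 : (⇑(M a b) ∘ ⇑(EuclideanSpace.basisFun (Fin 3) ℝ).toBasis) =
          fun i => M a b (EuclideanSpace.single i (1 : ℝ)) := by
        funext i
        simp
      rw [h3] at h2
      exact h2
    · rintro i A ⟨⟨n, s, rfl⟩, φ, hφ⟩
      obtain ⟨n', hn'⟩ := shiftH (Pi.single i 1) n s
      refine ⟨⟨n', s, ?_⟩, φ.trans (IsometryEquiv.addRight (M a b (EuclideanSpace.single i 1))),
        ?_⟩
      · rw [← hn', image_image, image_image]
        refine image_congr fun x _ => ?_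
        rw [map_add, tr_single]
      · rw [hφ, image_image]
        rfl

/-- Half of a Hill tetrahedron has a face-to-face periodic monohedral tiling. -/
theorem half_ff (v : Fin 4 → E3) (hv : AffineIndependent ℝ v) (h : HalfHill v) : FFPer v := by
  obtain ⟨τ, h1, h2, h3, h4⟩ := h
  set w : Fin 4 → E3 := ![v (τ 3), v (τ 1), v (τ 2), (2 : ℝ) • v (τ 0) - v (τ 3)] with hw
  have hwi : AffineIndependent ℝ w := by
    have hvτ : AffineIndependent ℝ (v ∘ τ) := hv.comp_embedding τ.toEmbedding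
    rw [affineIndependent_iff_of_fintype] at hvτ ⊢
    intro c hc h0
    rw [Finset.univ.weightedVSub_eq_linear_combination hc, Fin.sum_univ_four] at h0
    rw [Fin.sum_univ_four] at hc
    have h5 := hvτ ![2 * c 3, c 1, c 2, c 0 - c 3]
      (by simp [Fin.sum_univ_four]; linarith) (by
        rw [Finset.univ.weightedVSub_eq_linear_combination
          (by simp [Fin.sum_univ_four]; linarith), Fin.sum_univ_four]
        rw [← h0]
        simp only [hw, Function.comp_apply, Matrix.cons_val]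
        module)
    have e0 : 2 * c 3 = 0 := h5 0
    have e1 : c 1 = 0 := h5 1
    have e2 : c 2 = 0 := h5 2
    have e3 : c 0 - c 3 = 0 := h5 3
    intro i
    fin_cases i
    · show c 0 = 0
      linarith
    · exact e1
    · exact e2
    · show c 3 = 0
      linarith
  obtain ⟨e1, e2, e3, e4⟩ := TetRot.path_hill (v := w) (τ := 1) h1 h2 h3 h4
  obtain ⟨a, b, ha, hb, Λ, hΛ⟩ := path_normal w hwi (dist (w 0) (w 1)) (dist (w 0) (w 2))
    (dist (w 0) (w 3)) rfl e1.symm (e1.trans e2).symm rfl e3.symm rfl e4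
  refine ff_comp τ.bijective (ff_image (vh_ff ha hb) Λ (w 0) fun i => ?_)
  have hmid : vh a b 0 = (1 / 2 : ℝ) • (vert a b 0 + vert a b 3) := by
    show M a b (qh 0) = (1 / 2 : ℝ) • (M a b (q 0) + M a b (q 3))
    rw [← map_add, ← map_smul]
    congr 1
    ext j
    fin_cases j <;> simp [qh, q]
  fin_cases i
  · show v (τ 0) = Λ (vh a b 0) + w 0
    rw [hmid, map_smul, map_add]
    have h5 : Λ (vert a b 0) = w 0 - w 0 := eq_sub_of_add_eq (hΛ 0).symm
    have h6 : Λ (vert a b 3) = w 3 - w 0 := eq_sub_of_add_eq (hΛ 3).symm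
    rw [h5, h6]
    show v (τ 0) = (1 / 2 : ℝ) • ((v (τ 3) - v (τ 3)) + (((2 : ℝ) • v (τ 0) - v (τ 3)) - v (τ 3))) +
      v (τ 3)
    module
  · exact hΛ 1
  · exact hΛ 2
  · exact hΛ 0

end Pool.Agent.TFF.HalfT

namespace Pool.Agent.TFF

open Pool.Agent.TetRel

theorem half_per (v : Fin 4 → E3) (hv : AffineIndependent ℝ v) (h : HalfHill v) :
    TetRot.TilesPer v := by
  obtain ⟨S, h1, h2, h3, -, h5⟩ := HalfT.half_ff v hv h
  exact ⟨S, h1, h2, h3, h5⟩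

end Pool.Agent.TFF
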