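import Pool.Agent.TFF.Defs2
import Pool.Agent.TetDim.HillFamily
import Pool.Agent.TetRot.FinalCore

/-! # The Hill tetrahedra tile space face-to-face and periodically (helper97; after helper81's
`TetRot/HillT.lean`) -/

set_option autoImplicit false

open Set
open Pool.Agent.TetRel
open Pool.Agent.TetDim.Hill

namespace Pool.Agent.TFF

/-- Extreme parts are carried along by injective affine maps. -/
theorem ext_image (f : E3 → E3) (hf : Function.Injective f)
    (hl : ∀ (s t : ℝ) (x y : E3), s + t = 1 → f (s • x + t • y) = s • f x + t • f y)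
    {A B : Set E3} (h : IsExtreme ℝ A (A ∩ B)) : IsExtreme ℝ (f '' A) (f '' A ∩ f '' B) := by
  refine ⟨inter_subset_left, ?_⟩
  rintro _ ⟨x, hx, rfl⟩ _ ⟨y, hy, rfl⟩ _ ⟨⟨z, hz, rfl⟩, ⟨z', hz', hzz⟩⟩ ⟨s, t, hs, ht, hst, he⟩
  have hzz' : z' = z := hf hzz
  subst hzz'
  rw [← hl s t x y hst] at he
  have hz2 : s • x + t • y = z' := hf he
  have := h.2 hx hy ⟨hz, hz'⟩ ⟨s, t, hs, ht, hst, hz2⟩
  exact ⟨⟨x, hx, rfl⟩, ⟨x, this.2, rfl⟩⟩

/-- The cells of the arrangement meet face-to-face. -/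
theorem cell_ext (n m : Fin 6 → ℤ) : IsExtreme ℝ (C n) (C n ∩ C m) := by
  refine ⟨inter_subset_left, ?_⟩
  rintro x hx y hy z ⟨hz, hz'⟩ ⟨s, t, hs, ht, hst, rfl⟩
  refine ⟨hx, fun k => ?_⟩
  have h1 := hx k
  have h2 := hy k
  have h3 := hz k
  have h4 := hz' k
  rw [F_add, F_smul, F_smul] at h3 h4
  rcases lt_trichotomy (n k) (m k) with h | h | h
  · have h5 : ((n k : ℤ) : ℝ) + 1 ≤ m k := by exact_mod_cast h
    have h6 : F k x = n k + 1 := by
      by_contra hne
      have h7 : F k x < n k + 1 := lt_of_le_of_ne h1.2 hne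
      have h8 : s * F k x < s * (n k + 1) := mul_lt_mul_of_pos_left h7 hs
      have h9 : t * F k y ≤ t * (n k + 1) := mul_le_mul_of_nonneg_left h2.2 ht.le
      have h10 : s * ((n k : ℝ) + 1) + t * (n k + 1) = n k + 1 := by rw [← add_mul, hst, one_mul]
      linarith
    have h7 : s * ((n k : ℝ) + 1) + t * (n k + 1) = n k + 1 := by rw [← add_mul, hst, one_mul]
    have h9 : t * F k y ≤ t * (n k + 1) := mul_le_mul_of_nonneg_left h2.2 ht.le
    rw [h6] at h4 ⊢
    constructor <;> linarith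
  · rw [← h]
    exact h1
  · have h5 : ((m k : ℤ) : ℝ) + 1 ≤ n k := by exact_mod_cast h
    have h10 : s * (n k : ℝ) + t * n k = n k := by rw [← add_mul, hst, one_mul]
    have h9 : t * (n k : ℝ) ≤ t * F k y := mul_le_mul_of_nonneg_left h2.1 ht.le
    have h6 : F k x = n k := by
      by_contra hne
      have h7 : (n k : ℝ) < F k x := lt_of_le_of_ne h1.1 (Ne.symm hne)
      have h8 : s * (n k : ℝ) < s * F k x := mul_lt_mul_of_pos_left h7 hs
      linarith
    rw [h6] at h4 ⊢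
    constructor <;> linarith

/-- The lattice translations permute the cells. -/
theorem shift (m : Fin 3 → ℤ) (n : Fin 6 → ℤ) : ∃ n', (fun x => x + tr m) '' C n = C n' := by
  refine ⟨![n 0 + m 0, n 1 + m 1, n 2 + m 2, n 3 + (m 0 - m 1), n 4 + (m 1 - m 2),
    n 5 + (m 0 - m 2)], ?_⟩
  ext x
  constructor
  · rintro ⟨z, hz, rfl⟩
    rw [mem_C] at hz ⊢
    simp [tr]
    obtain ⟨⟨_, _⟩, ⟨_, _⟩, ⟨_, _⟩, ⟨_, _⟩, ⟨_, _⟩, ⟨_, _⟩⟩ := hz
    refine ⟨⟨?_, ?_⟩, ⟨?_, ?_⟩, ⟨?_, ?_⟩, ⟨?_, ?_⟩, ⟨?_, ?_⟩, ⟨?_, ?_⟩⟩ <;> linarith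
  · intro hx
    refine ⟨x - tr m, ?_, by simp⟩
    rw [mem_C] at hx ⊢
    simp at hx
    simp [tr]
    obtain ⟨⟨_, _⟩, ⟨_, _⟩, ⟨_, _⟩, ⟨_, _⟩, ⟨_, _⟩, ⟨_, _⟩⟩ := hx
    refine ⟨⟨?_, ?_⟩, ⟨?_, ?_⟩, ⟨?_, ?_⟩, ⟨?_, ?_⟩, ⟨?_, ?_⟩, ⟨?_, ?_⟩⟩ <;> linarith

theorem tr_single (i : Fin 3) : tr (Pi.single i 1) = EuclideanSpace.single i (1 : ℝ) := by
  ext j
  fin_cases i <;> fin_cases j <;> simp [tr]

/-- The family of HillFamily tiles periodically. -/
theorem vert_ff {a b : ℝ} (ha : a ≠ 0) (hb : a + 3 * b ≠ 0) : FFPer (vert a b) := by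
  refine ⟨{A | (∃ n, A = M a b '' C n) ∧
    ∃ φ : E3 ≃ᵢ E3, A = φ '' convexHull ℝ (range (vert a b))}, ?_, ?_, ?_, ?_, ?_⟩
  · rintro A ⟨-, hA⟩
    exact hA
  · rw [sUnion_eq_univ_iff]
    intro y
    obtain ⟨x, rfl⟩ := (ME a b ha hb).surjective y
    obtain ⟨n, hn, φ, hφ⟩ := G_all a b x
    exact ⟨M a b '' C n, ⟨⟨n, rfl⟩, φ, by rw [hull_vert, hφ]⟩, x, hn, rfl⟩
  · rintro _ ⟨⟨n, rfl⟩, -⟩ _ ⟨⟨m, rfl⟩, -⟩ hne
    have e : ∀ X : Set E3, interior (M a b '' X) = M a b '' interior X := fun X =>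
      ((ME a b ha hb).toContinuousLinearEquiv.toHomeomorph.image_interior X).symm
    have inj : Function.Injective (M a b) := (ME a b ha hb).injective
    show Disjoint _ _
    rw [e, e, Set.disjoint_image_iff inj]
    exact disj fun he => hne (by rw [he])
  · rintro _ ⟨⟨n, rfl⟩, -⟩ _ ⟨⟨m, rfl⟩, -⟩
    refine ext_image (M a b) (ME a b ha hb).injective ?_ (cell_ext n m)
    intro c d x y _
    rw [map_add, map_smul, map_smul]
  · refine ⟨fun i => M a b (EuclideanSpace.single i (1 : ℝ)), ?_, ?_⟩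
    · have h1 := (EuclideanSpace.basisFun (Fin 3) ℝ).toBasis.linearIndependent
      have h2 := h1.map' (M a b) (LinearMap.ker_eq_bot.2 (ME a b ha hb).injective)
      have h3 : (⇑(M a b) ∘ ⇑(EuclideanSpace.basisFun (Fin 3) ℝ).toBasis) =
          fun i => M a b (EuclideanSpace.single i (1 : ℝ)) := by
        funext i
        simp
      rw [h3] at h2
      exact h2
    · rintro i A ⟨⟨n, rfl⟩, φ, hφ⟩
      obtain ⟨n', hn'⟩ := shift (Pi.single i 1) n
      refine ⟨⟨n', ?_⟩, φ.trans (IsometryEquiv.addRight (M a b (EuclideanSpace.single i 1))), ?_⟩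
      · rw [← hn', image_image, image_image]
        refine image_congr fun x _ => ?_
        rw [map_add, tr_single]
      · rw [hφ, image_image]
        rfl

/-- Transport by an isometry of the form `x ↦ Λ x + c`. -/
theorem ff_image {v w : Fin 4 → E3} (h : FFPer v) (Λ : E3 ≃ₗᵢ[ℝ] E3) (c : E3)
    (hw : ∀ i, w i = Λ (v i) + c) : FFPer w := by
  obtain ⟨S, h1, h2, h3, h5', a, ha, h4⟩ := h
  set f : E3 ≃ᵢ E3 := Λ.toIsometryEquiv.trans (IsometryEquiv.addRight c) with hf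
  have fx : ∀ x, f x = Λ x + c := fun x => rfl
  have hull : convexHull ℝ (range w) = f '' convexHull ℝ (range v) := by
    have e : range w = (fun x => x + c) '' (Λ '' range v) := by
      rw [← range_comp, ← range_comp]
      congr 1
      funext i
      exact hw i
    have e2 : (fun x : E3 => x + c) '' (Λ '' convexHull ℝ (range v)) =
        convexHull ℝ ((fun x : E3 => x + c) '' (Λ '' range v)) := by
      have h5 := (Λ.toLinearEquiv : E3 →ₗ[ℝ] E3).image_convexHull (range v)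
      have h6 := (AffineEquiv.constVAdd ℝ E3 c : E3 →ᵃ[ℝ] E3).image_convexHull (Λ '' range v)
      have h7 : ((AffineEquiv.constVAdd ℝ E3 c : E3 →ᵃ[ℝ] E3) : E3 → E3) =
          fun x => x + c := by
        funext x
        simp [add_comm]
      rw [h7] at h6
      rw [← h6]
      congr 1
    rw [e, ← e2, image_image]
    rfl
  refine ⟨(fun A => f '' A) '' S, ?_, ?_, ?_, ?_, fun i => Λ (a i), ?_, ?_⟩
  · rintro _ ⟨A, hA, rfl⟩
    obtain ⟨φ, rfl⟩ := h1 A hA
    refine ⟨f.symm.trans (φ.trans f), ?_⟩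
    show f '' (φ '' convexHull ℝ (range v)) = _
    rw [hull, image_image, image_image]
    refine image_congr fun x _ => ?_
    simp
  · rw [sUnion_image]
    have h5 := congrArg (fun A => f '' A) h2
    simp only [sUnion_eq_biUnion, image_iUnion₂, image_univ] at h5
    rw [h5]
    exact f.surjective.range_eq
  · rintro _ ⟨A, hA, rfl⟩ _ ⟨B, hB, rfl⟩ hne
    have hAB : A ≠ B := fun e => hne (by rw [e])
    have := h3 hA hB hAB
    show Disjoint (interior (f '' A)) (interior (f '' B))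
    have e : ∀ X : Set E3, interior (f '' X) = f '' interior X := fun X =>
      (f.toHomeomorph.image_interior X).symm
    rw [e, e, Set.disjoint_image_iff f.injective]
    exact this
  · rintro _ ⟨A, hA, rfl⟩ _ ⟨B, hB, rfl⟩
    refine ext_image f f.injective ?_ (h5' A hA B hB)
    intro s t x y hst
    rw [fx, fx, fx, map_add, map_smul, map_smul]
    have hc : c = (s + t) • c := by rw [hst, one_smul]
    conv_lhs => rw [hc]
    module
  · exact ha.map' (Λ.toLinearEquiv : E3 →ₗ[ℝ] E3)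
      (LinearMap.ker_eq_bot.2 Λ.toLinearEquiv.injective)
  · rintro i _ ⟨A, hA, rfl⟩
    refine ⟨_, h4 i A hA, ?_⟩
    show f '' _ = _
    rw [image_image, image_image]
    refine image_congr fun x _ => ?_
    rw [fx, fx, map_add]
    abel

/-- A path with three equal edges and the right diagonals. -/
theorem path_normal (w : Fin 4 → E3) (hw : AffineIndependent ℝ w) (s t r : ℝ)
    (h01 : dist (w 0) (w 1) = s) (h12 : dist (w 1) (w 2) = s) (h23 : dist (w 2) (w 3) = s)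
    (h02 : dist (w 0) (w 2) = t) (h13 : dist (w 1) (w 3) = t) (h03 : dist (w 0) (w 3) = r)
    (hr : 3 * t ^ 2 = 3 * s ^ 2 + r ^ 2) :
    ∃ (a b : ℝ) (_ : a ≠ 0) (_ : a + 3 * b ≠ 0) (Λ : E3 ≃ₗᵢ[ℝ] E3),
      ∀ i, w i = Λ (vert a b i) + w 0 := by
  set u := w 1 - w 0 with hu
  set v := w 2 - w 1 with hv
  set z := w 3 - w 2 with hz
  have nu : ‖u‖ = s := by rw [hu, ← dist_eq_norm, dist_comm]; exact h01
  have nv : ‖v‖ = s := by rw [hv, ← dist_eq_norm, dist_comm]; exact h12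
  have nz : ‖z‖ = s := by rw [hz, ← dist_eq_norm, dist_comm]; exact h23
  have nuv : ‖u + v‖ = t := by
    have : u + v = w 2 - w 0 := by rw [hu, hv]; abel
    rw [this, ← dist_eq_norm, dist_comm]; exact h02
  have nvz : ‖v + z‖ = t := by
    have : v + z = w 3 - w 1 := by rw [hv, hz]; abel
    rw [this, ← dist_eq_norm, dist_comm]; exact h13
  have nuvz : ‖u + v + z‖ = r := by
    have : u + v + z = w 3 - w 0 := by rw [hu, hv, hz]; abel
    rw [this, ← dist_eq_norm, dist_comm]; exact h03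
  have iuv : t ^ 2 = s ^ 2 + 2 * inner ℝ u v + s ^ 2 := by
    rw [← nuv, norm_add_sq_real, nu, nv]
  have ivz : t ^ 2 = s ^ 2 + 2 * inner ℝ v z + s ^ 2 := by
    rw [← nvz, norm_add_sq_real, nv, nz]
  have iuz : r ^ 2 = t ^ 2 + 2 * (inner ℝ u z + inner ℝ v z) + s ^ 2 := by
    rw [← nuvz, norm_add_sq_real, nuv, nz, inner_add_left]
  have inj := hw.injective
  have s0 : 0 < s := by
    rw [← h01]; exact dist_pos.2 fun h => absurd (inj h) (by decide)
  have r0 : 0 < r := by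
    rw [← h03]; exact dist_pos.2 fun h => absurd (inj h) (by decide)
  have t0 : 0 < t := by
    rw [← h02]; exact dist_pos.2 fun h => absurd (inj h) (by decide)
  have st : s < t := by
    have : s ^ 2 < t ^ 2 := by nlinarith
    exact lt_of_pow_lt_pow_left₀ 2 t0.le this
  have ts : t < 2 * s := by
    have hne : u - v ≠ 0 := by
      intro h0
      rw [affineIndependent_iff_of_fintype] at hw
      have h1 := hw ![1, -2, 1, 0] (by simp [Fin.sum_univ_four]; norm_num) (by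
        rw [Finset.univ.weightedVSub_eq_linear_combination
          (by simp [Fin.sum_univ_four]; norm_num), Fin.sum_univ_four]
        have h2 : w 1 - w 0 - (w 2 - w 1) = 0 := h0
        have h3 : (![1, -2, 1, 0] : Fin 4 → ℝ) 0 • w 0 + (![1, -2, 1, 0] : Fin 4 → ℝ) 1 • w 1 +
            (![1, -2, 1, 0] : Fin 4 → ℝ) 2 • w 2 + (![1, -2, 1, 0] : Fin 4 → ℝ) 3 • w 3 =
            -(w 1 - w 0 - (w 2 - w 1)) := by
          simp only [Matrix.cons_val]
          module
        rw [h3, h2, neg_zero]) 0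
      simp at h1
    have h1 : 0 < ‖u - v‖ ^ 2 := by have := norm_pos_iff.2 hne; positivity
    rw [norm_sub_sq_real, nu, nv] at h1
    have : t ^ 2 < (2 * s) ^ 2 := by nlinarith
    exact lt_of_pow_lt_pow_left₀ 2 (by linarith) this
  obtain ⟨a, b, ha, hb, e0, e1⟩ := exists_len s0 st ts
  have q0 : (a + b) ^ 2 + 2 * b ^ 2 = s ^ 2 := by
    rw [len_0] at e0
    rw [← e0, Real.sq_sqrt (by positivity)]
  have q1 : 2 * (a + 2 * b) ^ 2 + 4 * b ^ 2 = t ^ 2 := by
    rw [len_1] at e1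
    rw [← e1, Real.sq_sqrt (by positivity)]
  let L : E3 →ₗ[ℝ] E3 :=
    { toFun := fun x => x 0 • u + x 1 • v + x 2 • z
      map_add' := fun x y => by simp only [PiLp.add_apply]; module
      map_smul' := fun c x => by
        simp only [PiLp.smul_apply, smul_eq_mul, RingHom.id_apply]; module }
  have hL : ∀ x : E3, L x = x 0 • u + x 1 • v + x 2 • z := fun x => rfl
  have nL : ∀ x : E3, ‖L x‖ = ‖M a b x‖ := by
    intro x
    have h1 : ‖L x‖ ^ 2 = ‖M a b x‖ ^ 2 := by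
      have l1 : ‖L x‖ ^ 2 = x 0 ^ 2 * s ^ 2 + x 1 ^ 2 * s ^ 2 + x 2 ^ 2 * s ^ 2 +
          2 * (x 0 * x 1) * inner ℝ u v + 2 * (x 0 * x 2) * inner ℝ u z +
          2 * (x 1 * x 2) * inner ℝ v z := by
        rw [hL, norm_add_sq_real, norm_add_sq_real, norm_smul, norm_smul, norm_smul, nu, nv, nz,
          inner_add_left]
        simp only [inner_smul_left, inner_smul_right, mul_pow, Real.norm_eq_abs, sq_abs,
          conj_trivial]
        ring
      have l2 : ‖M a b x‖ ^ 2 = (a * x 0 + b * (x 0 + x 1 + x 2)) ^ 2 +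
          (a * x 1 + b * (x 0 + x 1 + x 2)) ^ 2 + (a * x 2 + b * (x 0 + x 1 + x 2)) ^ 2 := by
        rw [M_apply, EuclideanSpace.norm_eq, Real.sq_sqrt (by positivity), Fin.sum_univ_three]
        simp
      rw [l1, l2]
      have c1 : inner ℝ u v = t ^ 2 / 2 - s ^ 2 := by linarith
      have c2 : inner ℝ v z = t ^ 2 / 2 - s ^ 2 := by linarith
      have c3 : inner ℝ u z = t ^ 2 / 2 - s ^ 2 := by linarith
      rw [c1, c2, c3, ← q0, ← q1]
      ring
    exact (pow_left_inj₀ (norm_nonneg _) (norm_nonneg _) two_ne_zero).1 h1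
  let Λ₀ : E3 →ₗᵢ[ℝ] E3 :=
    { toLinearMap := L.comp ((ME a b ha hb).symm : E3 →ₗ[ℝ] E3)
      norm_map' := fun x => by
        show ‖L ((ME a b ha hb).symm x)‖ = ‖x‖
        rw [nL, ← ME_apply a b ha hb, LinearEquiv.apply_symm_apply] }
  let Λ : E3 ≃ₗᵢ[ℝ] E3 := Λ₀.toLinearIsometryEquiv rfl
  have hΛ : ∀ x, Λ (M a b x) = L x := by
    intro x
    show L ((ME a b ha hb).symm (M a b x)) = L x
    rw [← ME_apply a b ha hb, LinearEquiv.symm_apply_apply]
  refine ⟨a, b, ha, hb, Λ, fun i => ?_⟩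
  show w i = Λ (M a b (q i)) + w 0
  rw [hΛ, hL]
  fin_cases i
  · simp [q]
  · simp [q, hu]
  · simp [q, hu, hv]
  · simp [q, hu, hv, hz]

/-- A path with three equal edges and the right diagonals. -/
theorem path_ff (w : Fin 4 → E3) (hw : AffineIndependent ℝ w) (s t r : ℝ)
    (h01 : dist (w 0) (w 1) = s) (h12 : dist (w 1) (w 2) = s) (h23 : dist (w 2) (w 3) = s)
    (h02 : dist (w 0) (w 2) = t) (h13 : dist (w 1) (w 3) = t) (h03 : dist (w 0) (w 3) = r)
    (hr : 3 * t ^ 2 = 3 * s ^ 2 + r ^ 2) : FFPer w := by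
  obtain ⟨a, b, ha, hb, Λ, hΛ⟩ := path_normal w hw s t r h01 h12 h23 h02 h13 h03 hr
  exact ff_image (vert_ff ha hb) Λ (w 0) hΛ

theorem ff_comp {v : Fin 4 → E3} {τ : Fin 4 → Fin 4} (hτ : Function.Bijective τ)
    (h : FFPer (v ∘ τ)) : FFPer v := by
  unfold FFPer at h ⊢
  rwa [hτ.2.range_comp] at h

/-- A Hill tetrahedron has a face-to-face periodic monohedral tiling. -/
theorem hill_ff (v : Fin 4 → E3) (hv : AffineIndependent ℝ v) (h : TetRot.Hill v) : FFPer v := by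
  obtain ⟨τ, h1, h2, h3, h4⟩ := h
  obtain ⟨e1, e2, e3, e4⟩ := TetRot.path_hill h1 h2 h3 h4
  exact ff_comp τ.bijective (path_ff (v ∘ τ) (hv.comp_embedding τ.toEmbedding)
    (dist (v (τ 0)) (v (τ 1))) (dist (v (τ 0)) (v (τ 2))) (dist (v (τ 0)) (v (τ 3)))
    rfl e1.symm (e1.trans e2).symm rfl e3.symm rfl e4)

end Pool.Agent.TFF
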