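import Pool.Agent.TFF.Defs

/-! # Package P of TFF: the patterns of equal edges of a tetrahedron

Only the equalities between the six numbers matter, so the statement is checked for all functions
`c : Fin 6 → ℕ` with `c e ≤ e`. -/

set_option autoImplicit false

namespace Pool.Agent.TFF

open Pool.Agent.TetRel Real

/-- the nontrivial permutations of the edges given by permutations of the vertices -/
def peList : List (Fin 6 → Fin 6) :=
  [![0, 2, 1, 4, 3, 5], ![1, 0, 2, 3, 5, 4], ![1, 2, 0, 5, 3, 4],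
   ![2, 0, 1, 4, 5, 3], ![2, 1, 0, 5, 4, 3], ![0, 3, 4, 1, 2, 5],
   ![0, 4, 3, 2, 1, 5], ![3, 0, 4, 1, 5, 2], ![3, 4, 0, 5, 1, 2],
   ![4, 0, 3, 2, 5, 1], ![4, 3, 0, 5, 2, 1], ![1, 3, 5, 0, 2, 4],
   ![1, 5, 3, 2, 0, 4], ![3, 1, 5, 0, 4, 2], ![3, 5, 1, 4, 0, 2],
   ![5, 1, 3, 2, 4, 0], ![5, 3, 1, 4, 2, 0], ![2, 4, 5, 0, 1, 3],
   ![2, 5, 4, 1, 0, 3], ![4, 2, 5, 0, 3, 1], ![4, 5, 2, 3, 0, 1],
   ![5, 2, 4, 1, 3, 0], ![5, 4, 2, 3, 1, 0]]

/-- `Closed` for the set {0} -/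
def C0 {α : Type*} (x : Fin 6 → α) : Prop :=
  x 0 ≠ x 1 ∧ x 0 ≠ x 2 ∧ x 0 ≠ x 3 ∧ x 0 ≠ x 4

instance {α : Type*} [DecidableEq α] (x : Fin 6 → α) : Decidable (C0 x) := by
  unfold C0
  infer_instance

/-- `Closed` for the set {1} -/
def C1 {α : Type*} (x : Fin 6 → α) : Prop :=
  x 1 ≠ x 0 ∧ x 1 ≠ x 2 ∧ x 1 ≠ x 3 ∧ x 1 ≠ x 5

instance {α : Type*} [DecidableEq α] (x : Fin 6 → α) : Decidable (C1 x) := by
  unfold C1
  infer_instance

/-- `Closed` for the set {2} -/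
def C2 {α : Type*} (x : Fin 6 → α) : Prop :=
  x 2 ≠ x 0 ∧ x 2 ≠ x 1 ∧ x 2 ≠ x 4 ∧ x 2 ≠ x 5

instance {α : Type*} [DecidableEq α] (x : Fin 6 → α) : Decidable (C2 x) := by
  unfold C2
  infer_instance

/-- `Closed` for the set {3} -/
def C3 {α : Type*} (x : Fin 6 → α) : Prop :=
  x 3 ≠ x 0 ∧ x 3 ≠ x 1 ∧ x 3 ≠ x 4 ∧ x 3 ≠ x 5

instance {α : Type*} [DecidableEq α] (x : Fin 6 → α) : Decidable (C3 x) := by
  unfold C3
  infer_instance

/-- `Closed` for the set {4} -/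
def C4 {α : Type*} (x : Fin 6 → α) : Prop :=
  x 4 ≠ x 0 ∧ x 4 ≠ x 2 ∧ x 4 ≠ x 3 ∧ x 4 ≠ x 5

instance {α : Type*} [DecidableEq α] (x : Fin 6 → α) : Decidable (C4 x) := by
  unfold C4
  infer_instance

/-- `Closed` for the set {5} -/
def C5 {α : Type*} (x : Fin 6 → α) : Prop :=
  x 5 ≠ x 1 ∧ x 5 ≠ x 2 ∧ x 5 ≠ x 3 ∧ x 5 ≠ x 4

instance {α : Type*} [DecidableEq α] (x : Fin 6 → α) : Decidable (C5 x) := by
  unfold C5
  infer_instance

/-- `Closed` for the set {0, 1} -/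
def C01 {α : Type*} (x : Fin 6 → α) : Prop :=
  x 0 ≠ x 2 ∧ x 0 ≠ x 3 ∧ x 0 ≠ x 4 ∧ x 1 ≠ x 2 ∧ x 1 ≠ x 3 ∧ x 1 ≠ x 5

instance {α : Type*} [DecidableEq α] (x : Fin 6 → α) : Decidable (C01 x) := by
  unfold C01
  infer_instance

/-- `Closed` for the set {3, 4} -/
def C34 {α : Type*} (x : Fin 6 → α) : Prop :=
  x 3 ≠ x 0 ∧ x 3 ≠ x 1 ∧ x 3 ≠ x 5 ∧ x 4 ≠ x 0 ∧ x 4 ≠ x 2 ∧ x 4 ≠ x 5

instance {α : Type*} [DecidableEq α] (x : Fin 6 → α) : Decidable (C34 x) := by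
  unfold C34
  infer_instance

/-- `Closed` for the set {0, 3, 5} -/
def C035 {α : Type*} (x : Fin 6 → α) : Prop :=
  x 0 ≠ x 1 ∧ x 0 ≠ x 2 ∧ x 0 ≠ x 4 ∧ x 3 ≠ x 1 ∧ x 3 ≠ x 4 ∧ x 5 ≠ x 1 ∧ x 5 ≠ x 2 ∧ x 5 ≠ x 4

instance {α : Type*} [DecidableEq α] (x : Fin 6 → α) : Decidable (C035 x) := by
  unfold C035
  infer_instance

/-- `Closed` for the set {1, 2} -/
def C12 {α : Type*} (x : Fin 6 → α) : Prop :=
  x 1 ≠ x 0 ∧ x 1 ≠ x 3 ∧ x 1 ≠ x 5 ∧ x 2 ≠ x 0 ∧ x 2 ≠ x 4 ∧ x 2 ≠ x 5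

instance {α : Type*} [DecidableEq α] (x : Fin 6 → α) : Decidable (C12 x) := by
  unfold C12
  infer_instance

/-- `Closed` for the set {2, 5} -/
def C25 {α : Type*} (x : Fin 6 → α) : Prop :=
  x 2 ≠ x 0 ∧ x 2 ≠ x 1 ∧ x 2 ≠ x 4 ∧ x 5 ≠ x 1 ∧ x 5 ≠ x 3 ∧ x 5 ≠ x 4

instance {α : Type*} [DecidableEq α] (x : Fin 6 → α) : Decidable (C25 x) := by
  unfold C25
  infer_instance

/-- pattern 1 -/
def Q1 {α : Type*} (x : Fin 6 → α) : Prop :=
  C0 x ∧ C1 x ∧ C2 x ∧ C3 x ∧ C4 x ∧ C5 x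

instance {α : Type*} [DecidableEq α] (x : Fin 6 → α) : Decidable (Q1 x) := by
  unfold Q1
  infer_instance

/-- pattern 2 -/
def Q2 {α : Type*} (x : Fin 6 → α) : Prop :=
  x 0 = x 1 ∧ C01 x ∧ C2 x ∧ C3 x ∧ C4 x ∧ C5 x

instance {α : Type*} [DecidableEq α] (x : Fin 6 → α) : Decidable (Q2 x) := by
  unfold Q2
  infer_instance

/-- pattern 3 -/
def Q3 {α : Type*} (x : Fin 6 → α) : Prop :=
  x 0 = x 1 ∧ x 3 = x 4 ∧ C01 x ∧ C34 x ∧ C2 x ∧ C5 x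

instance {α : Type*} [DecidableEq α] (x : Fin 6 → α) : Decidable (Q3 x) := by
  unfold Q3
  infer_instance

/-- pattern 4 -/
def Q4 {α : Type*} (x : Fin 6 → α) : Prop :=
  x 0 = x 3 ∧ x 3 = x 5 ∧ C035 x ∧ C1 x ∧ C2 x ∧ C4 x

instance {α : Type*} [DecidableEq α] (x : Fin 6 → α) : Decidable (Q4 x) := by
  unfold Q4
  infer_instance

/-- pattern 5 -/
def Q5 {α : Type*} (x : Fin 6 → α) : Prop :=
  x 0 = x 3 ∧ x 3 = x 5 ∧ x 1 = x 2 ∧ C035 x ∧ C12 x ∧ C4 x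

instance {α : Type*} [DecidableEq α] (x : Fin 6 → α) : Decidable (Q5 x) := by
  unfold Q5
  infer_instance

/-- pattern 6 -/
def Q6 {α : Type*} (x : Fin 6 → α) : Prop :=
  x 0 = x 1 ∧ x 3 = x 4 ∧ x 2 = x 5 ∧ C01 x ∧ C34 x ∧ C25 x

instance {α : Type*} [DecidableEq α] (x : Fin 6 → α) : Decidable (Q6 x) := by
  unfold Q6
  infer_instance

/-- pattern 7 -/
def Q7 {α : Type*} (x : Fin 6 → α) : Prop :=
  x 0 = x 1 ∧ x 1 = x 2 ∧ C3 x ∧ C4 x ∧ C5 x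

instance {α : Type*} [DecidableEq α] (x : Fin 6 → α) : Decidable (Q7 x) := by
  unfold Q7
  infer_instance

/-- pattern 8 -/
def Q8 {α : Type*} (x : Fin 6 → α) : Prop :=
  x 0 = x 1 ∧ x 1 = x 2 ∧ x 2 = x 3 ∧ C4 x ∧ C5 x

instance {α : Type*} [DecidableEq α] (x : Fin 6 → α) : Decidable (Q8 x) := by
  unfold Q8
  infer_instance

/-- pattern 9 -/
def Q9 {α : Type*} (x : Fin 6 → α) : Prop :=
  x 3 = x 4 ∧ x 4 = x 5 ∧ C0 x ∧ C1 x ∧ C2 x

instance {α : Type*} [DecidableEq α] (x : Fin 6 → α) : Decidable (Q9 x) := by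
  unfold Q9
  infer_instance

/-- the patterns, `x e` is the value at the edge `e` -/
def PatP {α : Type*} (x : Fin 6 → α) : Prop :=
  Q1 x ∨ Q2 x ∨ Q3 x ∨ Q4 x ∨ Q5 x ∨ Q6 x ∨ Q7 x ∨ Q8 x ∨ Q9 x

instance {α : Type*} [DecidableEq α] (x : Fin 6 → α) : Decidable (PatP x) := by
  unfold PatP
  infer_instance

/-- the finite check -/
theorem finite_check : ∀ (c1 : Fin 2) (c2 : Fin 3) (c3 : Fin 4) (c4 : Fin 5) (c5 : Fin 6),
    (∃ p ∈ peList, ∀ e, ((![0, c1, c2, c3, c4, c5] : Fin 6 → ℕ) (p e)) =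
      (![0, c1, c2, c3, c4, c5] : Fin 6 → ℕ) e) ∨
    (PatP (![0, c1, c2, c3, c4, c5] : Fin 6 → ℕ) ∨
      ∃ p ∈ peList, PatP (fun e => (![0, c1, c2, c3, c4, c5] : Fin 6 → ℕ) (p e))) := by
  decide +kernel

/-- a permutation and its inverse -/
def mkP (f g : Fin 4 → Fin 4) (h : ∀ i, g (f i) = i ∧ f (g i) = i) : Equiv.Perm (Fin 4) :=
  ⟨f, g, fun i => (h i).1, fun i => (h i).2⟩

theorem mkP_ne {f g : Fin 4 → Fin 4} (h : ∀ i, g (f i) = i ∧ f (g i) = i) (hf : ∃ i, f i ≠ i) :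
    mkP f g h ≠ 1 := by
  intro he
  obtain ⟨i, hi⟩ := hf
  exact hi (congrArg (fun σ : Equiv.Perm (Fin 4) => σ i) he)

/-- the permutations of the list come from permutations of the vertices -/
theorem peList_spec : ∀ p ∈ peList, ∃ σ : Equiv.Perm (Fin 4), σ ≠ 1 ∧ ∀ e, pe σ e = p e := by
  intro p hp
  simp only [peList, List.mem_cons, List.not_mem_nil, or_false] at hp
  rcases hp with rfl | rfl | rfl | rfl | rfl | rfl | rfl | rfl |
    rfl | rfl | rfl | rfl | rfl | rfl | rfl | rfl |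
    rfl | rfl | rfl | rfl | rfl | rfl | rfl
  · exact ⟨mkP ![0, 1, 3, 2] ![0, 1, 3, 2] (by decide), mkP_ne _ (by decide), by decide⟩
  · exact ⟨mkP ![0, 2, 1, 3] ![0, 2, 1, 3] (by decide), mkP_ne _ (by decide), by decide⟩
  · exact ⟨mkP ![0, 2, 3, 1] ![0, 3, 1, 2] (by decide), mkP_ne _ (by decide), by decide⟩
  · exact ⟨mkP ![0, 3, 1, 2] ![0, 2, 3, 1] (by decide), mkP_ne _ (by decide), by decide⟩
  · exact ⟨mkP ![0, 3, 2, 1] ![0, 3, 2, 1] (by decide), mkP_ne _ (by decide), by decide⟩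
  · exact ⟨mkP ![1, 0, 2, 3] ![1, 0, 2, 3] (by decide), mkP_ne _ (by decide), by decide⟩
  · exact ⟨mkP ![1, 0, 3, 2] ![1, 0, 3, 2] (by decide), mkP_ne _ (by decide), by decide⟩
  · exact ⟨mkP ![1, 2, 0, 3] ![2, 0, 1, 3] (by decide), mkP_ne _ (by decide), by decide⟩
  · exact ⟨mkP ![1, 2, 3, 0] ![3, 0, 1, 2] (by decide), mkP_ne _ (by decide), by decide⟩
  · exact ⟨mkP ![1, 3, 0, 2] ![2, 0, 3, 1] (by decide), mkP_ne _ (by decide), by decide⟩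
  · exact ⟨mkP ![1, 3, 2, 0] ![3, 0, 2, 1] (by decide), mkP_ne _ (by decide), by decide⟩
  · exact ⟨mkP ![2, 0, 1, 3] ![1, 2, 0, 3] (by decide), mkP_ne _ (by decide), by decide⟩
  · exact ⟨mkP ![2, 0, 3, 1] ![1, 3, 0, 2] (by decide), mkP_ne _ (by decide), by decide⟩
  · exact ⟨mkP ![2, 1, 0, 3] ![2, 1, 0, 3] (by decide), mkP_ne _ (by decide), by decide⟩
  · exact ⟨mkP ![2, 1, 3, 0] ![3, 1, 0, 2] (by decide), mkP_ne _ (by decide), by decide⟩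
  · exact ⟨mkP ![2, 3, 0, 1] ![2, 3, 0, 1] (by decide), mkP_ne _ (by decide), by decide⟩
  · exact ⟨mkP ![2, 3, 1, 0] ![3, 2, 0, 1] (by decide), mkP_ne _ (by decide), by decide⟩
  · exact ⟨mkP ![3, 0, 1, 2] ![1, 2, 3, 0] (by decide), mkP_ne _ (by decide), by decide⟩
  · exact ⟨mkP ![3, 0, 2, 1] ![1, 3, 2, 0] (by decide), mkP_ne _ (by decide), by decide⟩
  · exact ⟨mkP ![3, 1, 0, 2] ![2, 1, 3, 0] (by decide), mkP_ne _ (by decide), by decide⟩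
  · exact ⟨mkP ![3, 1, 2, 0] ![3, 1, 2, 0] (by decide), mkP_ne _ (by decide), by decide⟩
  · exact ⟨mkP ![3, 2, 0, 1] ![2, 3, 1, 0] (by decide), mkP_ne _ (by decide), by decide⟩
  · exact ⟨mkP ![3, 2, 1, 0] ![3, 2, 1, 0] (by decide), mkP_ne _ (by decide), by decide⟩

theorem pe_one : ∀ e, pe 1 e = e := by
  decide

theorem closed_0 {m : Fin 6 → ℝ} (h : C0 m) : Closed m {0} := by
  unfold C0 at h
  intro e he e' he' hne
  simp only [Finset.mem_insert, Finset.mem_singleton, not_or] at he he'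
  fin_cases e <;> fin_cases e' <;> simp_all (config := { decide := true })

theorem closed_1 {m : Fin 6 → ℝ} (h : C1 m) : Closed m {1} := by
  unfold C1 at h
  intro e he e' he' hne
  simp only [Finset.mem_insert, Finset.mem_singleton, not_or] at he he'
  fin_cases e <;> fin_cases e' <;> simp_all (config := { decide := true })

theorem closed_2 {m : Fin 6 → ℝ} (h : C2 m) : Closed m {2} := by
  unfold C2 at h
  intro e he e' he' hne
  simp only [Finset.mem_insert, Finset.mem_singleton, not_or] at he he'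
  fin_cases e <;> fin_cases e' <;> simp_all (config := { decide := true })

theorem closed_3 {m : Fin 6 → ℝ} (h : C3 m) : Closed m {3} := by
  unfold C3 at h
  intro e he e' he' hne
  simp only [Finset.mem_insert, Finset.mem_singleton, not_or] at he he'
  fin_cases e <;> fin_cases e' <;> simp_all (config := { decide := true })

theorem closed_4 {m : Fin 6 → ℝ} (h : C4 m) : Closed m {4} := by
  unfold C4 at h
  intro e he e' he' hne
  simp only [Finset.mem_insert, Finset.mem_singleton, not_or] at he he'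
  fin_cases e <;> fin_cases e' <;> simp_all (config := { decide := true })

theorem closed_5 {m : Fin 6 → ℝ} (h : C5 m) : Closed m {5} := by
  unfold C5 at h
  intro e he e' he' hne
  simp only [Finset.mem_insert, Finset.mem_singleton, not_or] at he he'
  fin_cases e <;> fin_cases e' <;> simp_all (config := { decide := true })

theorem closed_01 {m : Fin 6 → ℝ} (h : C01 m) : Closed m {0, 1} := by
  unfold C01 at h
  intro e he e' he' hne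
  simp only [Finset.mem_insert, Finset.mem_singleton, not_or] at he he'
  fin_cases e <;> fin_cases e' <;> simp_all (config := { decide := true })

theorem closed_34 {m : Fin 6 → ℝ} (h : C34 m) : Closed m {3, 4} := by
  unfold C34 at h
  intro e he e' he' hne
  simp only [Finset.mem_insert, Finset.mem_singleton, not_or] at he he'
  fin_cases e <;> fin_cases e' <;> simp_all (config := { decide := true })

theorem closed_035 {m : Fin 6 → ℝ} (h : C035 m) : Closed m {0, 3, 5} := by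
  unfold C035 at h
  intro e he e' he' hne
  simp only [Finset.mem_insert, Finset.mem_singleton, not_or] at he he'
  fin_cases e <;> fin_cases e' <;> simp_all (config := { decide := true })

theorem closed_12 {m : Fin 6 → ℝ} (h : C12 m) : Closed m {1, 2} := by
  unfold C12 at h
  intro e he e' he' hne
  simp only [Finset.mem_insert, Finset.mem_singleton, not_or] at he he'
  fin_cases e <;> fin_cases e' <;> simp_all (config := { decide := true })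

theorem closed_25 {m : Fin 6 → ℝ} (h : C25 m) : Closed m {2, 5} := by
  unfold C25 at h
  intro e he e' he' hne
  simp only [Finset.mem_insert, Finset.mem_singleton, not_or] at he he'
  fin_cases e <;> fin_cases e' <;> simp_all (config := { decide := true })

theorem patP_congr {α β : Type*} {x : Fin 6 → α} {y : Fin 6 → β}
    (h : ∀ i j, x i = x j ↔ y i = y j) : PatP x ↔ PatP y := by
  simp only [PatP, Q1, Q2, Q3, Q4, Q5, Q6, Q7, Q8, Q9, C0, C1, C2, C3, C4, C5, C01, C34, C035, C12,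
    C25, ne_eq, h]

theorem pat_of {m : Fin 6 → ℝ} (h : PatP m) :
    (∀ e, Closed m {e}) ∨
      (m 0 = m 1 ∧ Closed m {0, 1} ∧ Closed m {2} ∧
        Closed m {3} ∧ Closed m {4} ∧ Closed m {5}) ∨
      (m 0 = m 1 ∧ m 3 = m 4 ∧ Closed m {0, 1} ∧
        Closed m {3, 4} ∧ Closed m {2} ∧ Closed m {5}) ∨
      (m 0 = m 3 ∧ m 3 = m 5 ∧ Closed m {0, 3, 5} ∧
        Closed m {1} ∧ Closed m {2} ∧ Closed m {4}) ∨
      (m 0 = m 3 ∧ m 3 = m 5 ∧ m 1 = m 2 ∧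
        Closed m {0, 3, 5} ∧ Closed m {1, 2} ∧ Closed m {4}) ∨
      (m 0 = m 1 ∧ m 3 = m 4 ∧ m 2 = m 5 ∧
        Closed m {0, 1} ∧ Closed m {3, 4} ∧ Closed m {2, 5}) ∨
      (m 0 = m 1 ∧ m 1 = m 2 ∧ Closed m {3} ∧
        Closed m {4} ∧ Closed m {5}) ∨
      (m 0 = m 1 ∧ m 1 = m 2 ∧ m 2 = m 3 ∧
        Closed m {4} ∧ Closed m {5}) ∨
      (m 3 = m 4 ∧ m 4 = m 5 ∧ Closed m {0} ∧
        Closed m {1} ∧ Closed m {2}) := by
  rcases h with h | h | h | h | h | h | h | h | h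
  · obtain ⟨h0, h1, h2, h3, h4, h5⟩ := h
    left
    intro e
    fin_cases e
    · exact closed_0 h0
    · exact closed_1 h1
    · exact closed_2 h2
    · exact closed_3 h3
    · exact closed_4 h4
    · exact closed_5 h5
  · obtain ⟨e1, h0, h1, h2, h3, h4⟩ := h
    exact Or.inr (Or.inl ⟨e1, closed_01 h0, closed_2 h1, closed_3 h2, closed_4 h3, closed_5 h4⟩)
  · obtain ⟨e1, e2, h0, h1, h2, h3⟩ := h
    exact Or.inr (Or.inr (Or.inl
      ⟨e1, e2, closed_01 h0, closed_34 h1, closed_2 h2, closed_5 h3⟩))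
  · obtain ⟨e1, e2, h0, h1, h2, h3⟩ := h
    exact Or.inr (Or.inr (Or.inr (Or.inl
      ⟨e1, e2, closed_035 h0, closed_1 h1, closed_2 h2, closed_4 h3⟩)))
  · obtain ⟨e1, e2, e3, h0, h1, h2⟩ := h
    exact Or.inr (Or.inr (Or.inr (Or.inr (Or.inl
      ⟨e1, e2, e3, closed_035 h0, closed_12 h1, closed_4 h2⟩))))
  · obtain ⟨e1, e2, e3, h0, h1, h2⟩ := h
    exact Or.inr (Or.inr (Or.inr (Or.inr (Or.inr (Or.inl
      ⟨e1, e2, e3, closed_01 h0, closed_34 h1, closed_25 h2⟩)))))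
  · obtain ⟨e1, e2, h0, h1, h2⟩ := h
    exact Or.inr (Or.inr (Or.inr (Or.inr (Or.inr (Or.inr (Or.inl
      ⟨e1, e2, closed_3 h0, closed_4 h1, closed_5 h2⟩))))))
  · obtain ⟨e1, e2, e3, h0, h1⟩ := h
    exact Or.inr (Or.inr (Or.inr (Or.inr (Or.inr (Or.inr (Or.inr (Or.inl
      ⟨e1, e2, e3, closed_4 h0, closed_5 h1⟩)))))))
  · obtain ⟨e1, e2, h0, h1, h2⟩ := h
    exact Or.inr (Or.inr (Or.inr (Or.inr (Or.inr (Or.inr (Or.inr (Or.inr
      ⟨e1, e2, closed_0 h0, closed_1 h1, closed_2 h2⟩)))))))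

/-- the canonical function of a pattern -/
theorem exists_canon (l : Fin 6 → ℝ) :
    ∃ (c1 : Fin 2) (c2 : Fin 3) (c3 : Fin 4) (c4 : Fin 5) (c5 : Fin 6), ∀ i j,
      l i = l j ↔ (![0, c1, c2, c3, c4, c5] : Fin 6 → ℕ) i =
        (![0, c1, c2, c3, c4, c5] : Fin 6 → ℕ) j := by
  classical
  have hne : ∀ e, (Finset.univ.filter (fun e' => l e' = l e)).Nonempty := fun e =>
    ⟨e, by simp⟩
  obtain ⟨c, hc⟩ : ∃ c : Fin 6 → Fin 6, c = fun e =>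
    (Finset.univ.filter (fun e' => l e' = l e)).min' (hne e) := ⟨_, rfl⟩
  have hle : ∀ e, c e ≤ e := by
    intro e
    rw [hc]
    exact Finset.min'_le _ _ (by simp)
  have hlc : ∀ e, l (c e) = l e := by
    intro e
    have h1 := Finset.min'_mem (Finset.univ.filter (fun e' => l e' = l e)) (hne e)
    rw [hc]
    exact (Finset.mem_filter.1 h1).2
  have hiff : ∀ i j, l i = l j ↔ (c i : ℕ) = c j := by
    intro i j
    constructor
    · intro h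
      have h1 : c i = c j := by
        rw [hc]
        simp only [h]
      rw [h1]
    · intro h
      have h1 : c i = c j := Fin.ext h
      rw [← hlc i, ← hlc j, h1]
  have h0 : (c 0 : ℕ) = 0 := by have := hle 0; simpa using this
  have h1 : (c 1 : ℕ) < 2 := by have := hle 1; rw [Fin.le_def] at this; simp at this; omega
  have h2 : (c 2 : ℕ) < 3 := by have := hle 2; rw [Fin.le_def] at this; simp at this; omega
  have h3 : (c 3 : ℕ) < 4 := by have := hle 3; rw [Fin.le_def] at this; simp at this; omega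
  have h4 : (c 4 : ℕ) < 5 := by have := hle 4; rw [Fin.le_def] at this; simp at this; omega
  have h5 : (c 5 : ℕ) < 6 := (c 5).2
  refine ⟨⟨c 1, h1⟩, ⟨c 2, h2⟩, ⟨c 3, h3⟩, ⟨c 4, h4⟩, ⟨c 5, h5⟩, fun i j => ?_⟩
  have hv : ∀ i, (![0, (c 1 : ℕ), (c 2 : ℕ), (c 3 : ℕ), (c 4 : ℕ), (c 5 : ℕ)] : Fin 6 → ℕ) i =
      c i := by
    intro i
    fin_cases i
    · exact h0.symm
    · rfl
    · rfl
    · rfl
    · rfl
    · rfl
  rw [hiff]
  show _ ↔ (![0, (c 1 : ℕ), (c 2 : ℕ), (c 3 : ℕ), (c 4 : ℕ), (c 5 : ℕ)] : Fin 6 → ℕ) i =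
    (![0, (c 1 : ℕ), (c 2 : ℕ), (c 3 : ℕ), (c 4 : ℕ), (c 5 : ℕ)] : Fin 6 → ℕ) j
  rw [hv, hv]

theorem patterns (l : Fin 6 → ℝ) :
    (∃ σ : Equiv.Perm (Fin 4), σ ≠ 1 ∧ ∀ e, l (pe σ e) = l e) ∨
    ∃ σ : Equiv.Perm (Fin 4),
      (∀ e, Closed (l ∘ pe σ) {e}) ∨
      (l (pe σ 0) = l (pe σ 1) ∧ Closed (l ∘ pe σ) {0, 1} ∧ Closed (l ∘ pe σ) {2} ∧
        Closed (l ∘ pe σ) {3} ∧ Closed (l ∘ pe σ) {4} ∧ Closed (l ∘ pe σ) {5}) ∨
      (l (pe σ 0) = l (pe σ 1) ∧ l (pe σ 3) = l (pe σ 4) ∧ Closed (l ∘ pe σ) {0, 1} ∧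
        Closed (l ∘ pe σ) {3, 4} ∧ Closed (l ∘ pe σ) {2} ∧ Closed (l ∘ pe σ) {5}) ∨
      (l (pe σ 0) = l (pe σ 3) ∧ l (pe σ 3) = l (pe σ 5) ∧ Closed (l ∘ pe σ) {0, 3, 5} ∧
        Closed (l ∘ pe σ) {1} ∧ Closed (l ∘ pe σ) {2} ∧ Closed (l ∘ pe σ) {4}) ∨
      (l (pe σ 0) = l (pe σ 3) ∧ l (pe σ 3) = l (pe σ 5) ∧ l (pe σ 1) = l (pe σ 2) ∧
        Closed (l ∘ pe σ) {0, 3, 5} ∧ Closed (l ∘ pe σ) {1, 2} ∧ Closed (l ∘ pe σ) {4}) ∨
      (l (pe σ 0) = l (pe σ 1) ∧ l (pe σ 3) = l (pe σ 4) ∧ l (pe σ 2) = l (pe σ 5) ∧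
        Closed (l ∘ pe σ) {0, 1} ∧ Closed (l ∘ pe σ) {3, 4} ∧ Closed (l ∘ pe σ) {2, 5}) ∨
      (l (pe σ 0) = l (pe σ 1) ∧ l (pe σ 1) = l (pe σ 2) ∧ Closed (l ∘ pe σ) {3} ∧
        Closed (l ∘ pe σ) {4} ∧ Closed (l ∘ pe σ) {5}) ∨
      (l (pe σ 0) = l (pe σ 1) ∧ l (pe σ 1) = l (pe σ 2) ∧ l (pe σ 2) = l (pe σ 3) ∧
        Closed (l ∘ pe σ) {4} ∧ Closed (l ∘ pe σ) {5}) ∨
      (l (pe σ 3) = l (pe σ 4) ∧ l (pe σ 4) = l (pe σ 5) ∧ Closed (l ∘ pe σ) {0} ∧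
        Closed (l ∘ pe σ) {1} ∧ Closed (l ∘ pe σ) {2}) := by
  obtain ⟨c1, c2, c3, c4, c5, hc⟩ := exists_canon l
  rcases finite_check c1 c2 c3 c4 c5 with h | h
  · obtain ⟨p, hp, hpe⟩ := h
    obtain ⟨σ, hσ, hσp⟩ := peList_spec p hp
    exact Or.inl ⟨σ, hσ, fun e => by rw [hσp]; exact (hc _ _).2 (hpe e)⟩
  · right
    have h2 : ∃ σ : Equiv.Perm (Fin 4), PatP (l ∘ pe σ) := by
      rcases h with h | ⟨p, hp, h⟩
      · refine ⟨1, (patP_congr fun i j => ?_).2 h⟩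
        show l (pe 1 i) = l (pe 1 j) ↔ _
        rw [pe_one, pe_one]
        exact hc i j
      · obtain ⟨σ, -, hσp⟩ := peList_spec p hp
        refine ⟨σ, (patP_congr fun i j => ?_).2 h⟩
        show l (pe σ i) = l (pe σ j) ↔ _
        rw [hσp, hσp]
        exact hc _ _
    obtain ⟨σ, hσ⟩ := h2
    exact ⟨σ, pat_of hσ⟩

end Pool.Agent.TFF
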