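import Pool.Agent.TFF.NormF
import Pool.Agent.TFF.Pat
import Pool.Agent.TFF.HillFF
import Pool.Agent.TFF.HalfPer
import Pool.Agent.TetMir57.SymFinal

/-! # Face-to-face tetrahedra: the main theorem (helper21) -/

set_option autoImplicit false

namespace Pool.Agent.TFF

open Pool.Agent.TetRel Real

theorem edge_ex {i j : Fin 4} (h : i ≠ j) : ∃ e : Fin 6, (ea e = i ∧ eb e = j) ∨
    (ea e = j ∧ eb e = i) := by
  revert i j
  decide

theorem FFTiles.comp {v : Fin 4 → E3} (h : FFTiles v) (σ : Equiv.Perm (Fin 4)) :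
    FFTiles (v ∘ σ) := by
  unfold FFTiles at *
  rwa [EquivLike.range_comp v σ]

theorem FFTiles.tiles {v : Fin 4 → E3} (h : FFTiles v) : Tiles v := by
  obtain ⟨S, h1, h2, h3, -⟩ := h
  exact ⟨S, h1, h2, h3⟩

theorem Asym.comp {v : Fin 4 → E3} (h : Asym v) (σ : Equiv.Perm (Fin 4)) : Asym (v ∘ σ) := by
  intro τ hτ
  have h1 := h (σ * τ * σ⁻¹) (by
    intro i j
    have := hτ (σ⁻¹ i) (σ⁻¹ j)
    simpa [Equiv.Perm.mul_apply] using this)
  have : σ * τ = σ := by
    have := congrArg (· * σ) h1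
    simpa using this
  exact mul_left_cancel (a := σ) (by rw [this, mul_one])

theorem dist_of_len {v w : Fin 4 → E3} (h : ∀ e, len v e = len w e) (i j : Fin 4) :
    dist (v i) (v j) = dist (w i) (w j) := by
  by_cases hij : i = j
  · rw [hij, dist_self, dist_self]
  obtain ⟨e, ⟨rfl, rfl⟩ | ⟨rfl, rfl⟩⟩ := edge_ex hij
  · exact h e
  · rw [dist_comm, dist_comm (w _)]
    exact h e

theorem HalfHill.of_comp {v : Fin 4 → E3} {σ : Equiv.Perm (Fin 4)} (h : HalfHill (v ∘ σ)) :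
    HalfHill v := by
  obtain ⟨τ, h⟩ := h
  exact ⟨τ.trans σ, h⟩

theorem not_algLen {v : Fin 4 → E3}
    (hna : ∃ i j k l : Fin 4, ¬ IsAlgebraic ℚ (dist (v i) (v j) / dist (v k) (v l))) :
    ¬ TetMir.AlgLen v := by
  intro hA
  obtain ⟨i, j, k, l, h⟩ := hna
  by_cases hij : i = j
  · rw [hij, dist_self, zero_div] at h
    exact h isAlgebraic_zero
  by_cases hkl : k = l
  · rw [hkl, dist_self, div_zero] at h
    exact h isAlgebraic_zero
  obtain ⟨e, he⟩ := edge_ex hij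
  obtain ⟨f, hf⟩ := edge_ex hkl
  have h1 : dist (v i) (v j) = len v e := by
    rcases he with ⟨rfl, rfl⟩ | ⟨rfl, rfl⟩
    · rfl
    · exact dist_comm _ _
  have h2 : dist (v k) (v l) = len v f := by
    rcases hf with ⟨rfl, rfl⟩ | ⟨rfl, rfl⟩
    · rfl
    · exact dist_comm _ _
  rw [h1, h2] at h
  exact h (hA e f)

theorem algLen_comp {v : Fin 4 → E3} (hv : AffineIndependent ℝ v) {σ : Equiv.Perm (Fin 4)}
    (h : TetMir.AlgLen (v ∘ σ)) : TetMir.AlgLen v := by
  intro e f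
  have key : ∀ e : Fin 6, ∃ e', len v e = len (v ∘ σ) e' := by
    intro e
    have hne : σ.symm (ea e) ≠ σ.symm (eb e) := by
      intro h
      exact ea_ne_eb e (σ.symm.injective h)
    obtain ⟨e', he⟩ := edge_ex hne
    refine ⟨e', ?_⟩
    rcases he with ⟨h1, h2⟩ | ⟨h1, h2⟩
    · simp [len, h1, h2]
    · simp [len, h1, h2, dist_comm]
  obtain ⟨e', he⟩ := key e
  obtain ⟨f', hf⟩ := key f
  rw [he, hf]
  exact h e' f'

theorem FFPer.ff {v : Fin 4 → E3} (h : FFPer v) : FFTiles v := by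
  obtain ⟨S, h1, h2, h3, h4, -⟩ := h
  exact ⟨S, h1, h2, h3, h4⟩

theorem forward (v : Fin 4 → E3) (hv : AffineIndependent ℝ v)
    (hna : ∃ i j k l : Fin 4, ¬ IsAlgebraic ℚ (dist (v i) (v j) / dist (v k) (v l)))
    (hF : FFTiles v) : TetRot.Hill v ∨ HalfHill v := by
  by_cases hs : ∃ σ : Equiv.Perm (Fin 4), σ ≠ 1 ∧
      ∀ i j, dist (v (σ i)) (v (σ j)) = dist (v i) (v j)
  · obtain ⟨h1, h2⟩ := TetMir.sym v hv hs hna
    exact Or.inl (h1.1 hF.tiles)
  have hA : Asym v := by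
    intro σ hσ
    by_contra hne
    exact hs ⟨σ, hne, hσ⟩
  have hH : HalfHill v := by
    rcases patterns (len v) with ⟨σ, hσ, h⟩ | ⟨σ, h⟩
    · exfalso
      refine hσ (hA σ fun i j => ?_)
      have h1 : ∀ e, len (v ∘ σ) e = len v e := fun e => (len_comp v σ e).trans (h e)
      exact dist_of_len h1 i j
    · have hw : AffineIndependent ℝ (v ∘ σ) := hv.comp_embedding σ.toEmbedding
      have e1 : ∀ e, len v (pe σ e) = len (v ∘ σ) e := fun e => (len_comp v σ e).symm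
      have e2 : len v ∘ pe σ = len (v ∘ σ) := funext e1
      rw [e2] at h
      simp only [e1] at h
      rcases norm_cases hw (hF.comp σ) (hA.comp σ) h with h1 | h1
      · exact absurd (algLen_comp hv h1) (not_algLen hna)
      · exact h1.of_comp
  exact Or.inr hH

/-- **Main theorem.** -/
theorem main (v : Fin 4 → E3) (hv : AffineIndependent ℝ v)
    (hna : ∃ i j k l : Fin 4, ¬ IsAlgebraic ℚ (dist (v i) (v j) / dist (v k) (v l))) :
    (FFTiles v ↔
      (∃ τ : Equiv.Perm (Fin 4), Hill4 (v (τ 0)) (v (τ 1)) (v (τ 2)) (v (τ 3))) ∨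
      (∃ τ : Equiv.Perm (Fin 4), Hill4 (v (τ 3)) (v (τ 1)) (v (τ 2)) ((2 : ℝ) • v (τ 0) - v (τ 3)))) ∧
    (FFTiles v → FFPer v) := by
  have back : TetRot.Hill v ∨ HalfHill v → FFPer v := by
    rintro (h | h)
    · exact hill_ff v hv h
    · exact HalfT.half_ff v hv h
  exact ⟨⟨forward v hv hna, fun h => (back h).ff⟩, fun h => back (forward v hv hna h)⟩

end Pool.Agent.TFF
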