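import Pool.Agent.TFF.Defs

/-! # Sums of angles from the types (helper35, package G6) -/

set_option autoImplicit false

namespace Pool.Agent.TFF

open Pool.Agent.TetRel Real

/-- a rational multiple of `π` -/
theorem AA_ratG6 (x : ℝ) (a b : ℤ) (hb : b ≠ 0) (h : (b : ℝ) * x = 2 * π * a) : AA x := by
  obtain ⟨m, a', hm, hma⟩ : ∃ (m : ℕ) (a' : ℤ), m ≠ 0 ∧ (m : ℝ) * x = 2 * π * a' := by
    obtain ⟨m, hm⟩ := Int.eq_nat_or_neg b
    rcases hm with hm | hm
    · refine ⟨m, a, ?_, ?_⟩
      · rintro rfl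
        exact hb (by simpa using hm)
      · rw [← h, hm]
        push_cast
        ring
    · refine ⟨m, -a, ?_, ?_⟩
      · rintro rfl
        exact hb (by simpa using hm)
      · have h1 : (b : ℝ) = -(m : ℝ) := by
          rw [hm]
          push_cast
          ring
        rw [h1] at h
        push_cast
        linarith
  unfold AA
  have h1 : Complex.exp (x * Complex.I) ^ m = 1 := by
    rw [← Complex.exp_nat_mul]
    have h2 : (m : ℂ) * ((x : ℂ) * Complex.I) = (a' : ℂ) * (2 * π * Complex.I) := by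
      have h3 : ((m : ℝ) : ℂ) * (x : ℂ) = 2 * (π : ℂ) * ((a' : ℝ) : ℂ) := by
        exact_mod_cast hma
      push_cast at h3
      linear_combination Complex.I * h3
    rw [h2]
    exact Complex.exp_int_mul_two_pi_mul_I a'
  exact IsAlgebraic.of_pow (Nat.pos_of_ne_zero hm) (h1 ▸ isAlgebraic_one)

/-- a rational functional on the reals with value 1 at 1 -/
theorem exists_ratG6 : ∃ f : ℝ →ₗ[ℚ] ℚ, f 1 = 1 := by
  obtain ⟨f, hf⟩ := LinearMap.exists_leftInverse_of_injective
    (Algebra.linearMap ℚ ℝ) (LinearMap.ker_eq_bot.mpr (algebraMap ℚ ℝ).injective)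
  refine ⟨f, ?_⟩
  have h := LinearMap.congr_fun hf 1
  simpa using h

theorem sum_AA (θ l : Fin 6 → ℝ) (K : Finset (Fin 6)) (L : ℝ) (hL : 0 < L)
    (hl : ∀ e ∈ K, l e = L) (k : ℕ) (n : Fin k → Fin 6 → ℕ) (c : Fin k → ℝ)
    (hn : LinearIndependent ℝ (fun i : Fin k => fun e : Fin 6 => (n i e : ℝ)))
    (hs : ∀ i, ∀ e ∉ K, n i e = 0) (ht : ∀ i, ∑ e, (n i e : ℝ) * θ e = 2 * π)
    (hc : ∀ i, 0 < c i) (hlc : ∀ e ∈ K, l e = ∑ i, c i * (n i e : ℝ)) :
    AA (∑ e ∈ K, θ e) := by
  classical
  obtain ⟨f, hf⟩ := exists_ratG6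
  -- the coefficients
  have hx : ∀ e ∈ K, ∑ i, (c i / L) * (n i e : ℝ) = 1 := by
    intro e he
    have h1 := hlc e he
    rw [hl e he] at h1
    have h2 : ∑ i, (c i / L) * (n i e : ℝ) = (∑ i, c i * (n i e : ℝ)) / L := by
      rw [Finset.sum_div]
      refine Finset.sum_congr rfl fun i _ => ?_
      ring
    rw [h2, ← h1, div_self hL.ne']
  have hy : ∀ e ∈ K, ∑ i, ((f (c i / L) : ℚ) : ℝ) * (n i e : ℝ) = 1 := by
    intro e he
    have h1 := congrArg f (hx e he)
    rw [map_sum, hf] at h1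
    have h2 : ∀ i, f ((c i / L) * (n i e : ℝ)) = f (c i / L) * (n i e : ℚ) := by
      intro i
      have h3 : (c i / L) * (n i e : ℝ) = ((n i e : ℚ)) • (c i / L) := by
        rw [Rat.smul_def]
        push_cast
        ring
      rw [h3, map_smul, smul_eq_mul]
      ring
    simp only [h2] at h1
    exact_mod_cast h1
  have hxy : ∀ i, c i / L = ((f (c i / L) : ℚ) : ℝ) := by
    have h1 := Fintype.linearIndependent_iff.mp hn
      (fun i => c i / L - ((f (c i / L) : ℚ) : ℝ)) ?_
    · intro i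
      have := h1 i
      linarith
    · funext e
      simp only [Finset.sum_apply, Pi.smul_apply, smul_eq_mul, Pi.zero_apply]
      by_cases he : e ∈ K
      · have h2 := hx e he
        have h3 := hy e he
        simp only [sub_mul, Finset.sum_sub_distrib]
        linarith
      · simp [hs _ e he]
  -- the sum
  have hsum : ∑ e ∈ K, θ e = 2 * π * ((∑ i, f (c i / L) : ℚ) : ℝ) := by
    have h1 : ∑ e ∈ K, θ e = ∑ e ∈ K, (∑ i, (c i / L) * (n i e : ℝ)) * θ e := by
      refine Finset.sum_congr rfl fun e he => ?_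
      rw [hx e he, one_mul]
    have h2 : ∑ e ∈ K, (∑ i, (c i / L) * (n i e : ℝ)) * θ e
        = ∑ e, (∑ i, (c i / L) * (n i e : ℝ)) * θ e := by
      refine Finset.sum_subset (Finset.subset_univ K) fun e _ he => ?_
      simp [hs _ e he]
    have h3 : ∑ e, (∑ i, (c i / L) * (n i e : ℝ)) * θ e = ∑ i, (c i / L) * (2 * π) := by
      simp only [Finset.sum_mul]
      rw [Finset.sum_comm]
      refine Finset.sum_congr rfl fun i _ => ?_
      rw [← ht i, Finset.mul_sum]
      refine Finset.sum_congr rfl fun e _ => ?_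
      ring
    rw [h1, h2, h3]
    push_cast
    rw [Finset.mul_sum]
    refine Finset.sum_congr rfl fun i _ => ?_
    rw [← hxy i]
    ring
  set q : ℚ := ∑ i, f (c i / L) with hq
  refine AA_ratG6 _ q.num q.den (by exact_mod_cast q.den_nz) ?_
  rw [hsum]
  have h4 : ((q.den : ℤ) : ℝ) * (q : ℝ) = (q.num : ℝ) := by
    have h5 := Rat.den_mul_eq_num q
    have h6 : ((q.den : ℚ) * q : ℚ) = (q.num : ℚ) := h5
    exact_mod_cast h6
  calc ((q.den : ℤ) : ℝ) * (2 * π * (q : ℝ)) = 2 * π * (((q.den : ℤ) : ℝ) * (q : ℝ)) := by ring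
    _ = 2 * π * (q.num : ℝ) := by rw [h4]

/-- two independent vectors with support in a pair have a nonzero determinant -/
theorem det_pairG6 (e e' : Fin 6) (hne : e ≠ e') (k : ℕ) (n : Fin k → Fin 6 → ℕ)
    (hn : LinearIndependent ℝ (fun i : Fin k => fun e : Fin 6 => (n i e : ℝ)))
    (hs : ∀ i, ∀ f ∉ ({e, e'} : Finset (Fin 6)), n i f = 0) (i j : Fin k) (hij : i ≠ j) :
    (n i e : ℤ) * n j e' - n i e' * n j e ≠ 0 := by
  classical
  intro h
  have hR : (n i e : ℝ) * n j e' - n i e' * n j e = 0 := by exact_mod_cast h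
  -- a combination of the two vectors vanishes
  have hcomb : ∀ x y : ℝ, (∀ f, x * (n i f : ℝ) + y * (n j f : ℝ) = 0) → x = 0 ∧ y = 0 := by
    intro x y hxy
    have h1 := Fintype.linearIndependent_iff.mp hn
      (fun t => if t = i then x else if t = j then y else 0) ?_
    · refine ⟨?_, ?_⟩
      · simpa using h1 i
      · have := h1 j
        rwa [if_neg (Ne.symm hij), if_pos rfl] at this
    · funext f
      simp only [Finset.sum_apply, Pi.smul_apply, smul_eq_mul, Pi.zero_apply]
      have h2 : ∀ t : Fin k, (if t = i then x else if t = j then y else 0) * (n t f : ℝ)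
          = (if t = i then x * (n i f : ℝ) else 0) + (if t = j then y * (n j f : ℝ) else 0) := by
        intro t
        by_cases ht : t = i
        · subst ht
          simp [hij]
        · by_cases ht' : t = j
          · subst ht'
            simp [ht]
          · simp [ht, ht']
      simp only [h2, Finset.sum_add_distrib, Finset.sum_ite_eq', Finset.mem_univ, if_true]
      exact hxy f
  have hoff : ∀ f, f ≠ e → f ≠ e' → (n i f : ℝ) = 0 ∧ (n j f : ℝ) = 0 := by
    intro f h1 h2
    have h3 : f ∉ ({e, e'} : Finset (Fin 6)) := by simp [h1, h2]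
    simp [hs i f h3, hs j f h3]
  have hA := hcomb (n j e') (-(n i e')) (by
    intro f
    by_cases h1 : f = e
    · subst h1
      linarith
    · by_cases h2 : f = e'
      · subst h2
        ring
      · obtain ⟨h3, h4⟩ := hoff f h1 h2
        rw [h3, h4]
        ring)
  have hB := hcomb (n j e) (-(n i e)) (by
    intro f
    by_cases h1 : f = e
    · subst h1
      ring
    · by_cases h2 : f = e'
      · subst h2
        linarith
      · obtain ⟨h3, h4⟩ := hoff f h1 h2
        rw [h3, h4]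
        ring)
  have hz := hcomb 1 0 (by
    intro f
    by_cases h1 : f = e
    · subst h1
      have := hB.2
      linarith
    · by_cases h2 : f = e'
      · subst h2
        have := hA.2
        linarith
      · obtain ⟨h3, h4⟩ := hoff f h1 h2
        rw [h3, h4]
        ring)
  exact one_ne_zero hz.1

theorem pair_types (θ l : Fin 6 → ℝ) (e e' : Fin 6) (hne : e ≠ e') (L : ℝ) (hL : 0 < L)
    (hle : l e = L) (hle' : l e' = L) (k : ℕ) (n : Fin k → Fin 6 → ℕ) (c : Fin k → ℝ)
    (hn : LinearIndependent ℝ (fun i : Fin k => fun e : Fin 6 => (n i e : ℝ)))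
    (hs : ∀ i, ∀ f ∉ ({e, e'} : Finset (Fin 6)), n i f = 0)
    (ht : ∀ i, ∑ e, (n i e : ℝ) * θ e = 2 * π)
    (hc : ∀ i, 0 < c i) (hlc : ∀ f ∈ ({e, e'} : Finset (Fin 6)), l f = ∑ i, c i * (n i f : ℝ)) :
    (AA (θ e) ∧ AA (θ e')) ∨ ∃ m : ℕ, (m : ℝ) * (θ e + θ e') = 2 * π := by
  classical
  have hpair : ∀ i, (n i e : ℝ) * θ e + (n i e' : ℝ) * θ e' = 2 * π := by
    intro i
    have h1 := ht i
    have h2 : ∑ f, (n i f : ℝ) * θ f = ∑ f ∈ ({e, e'} : Finset (Fin 6)), (n i f : ℝ) * θ f := by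
      symm
      refine Finset.sum_subset (Finset.subset_univ _) fun f _ hf => ?_
      simp [hs i f hf]
    rw [h2, Finset.sum_pair hne] at h1
    exact h1
  have he := hlc e (by simp)
  have he' := hlc e' (by simp)
  rw [hle] at he
  rw [hle'] at he'
  rcases Nat.lt_or_ge k 2 with hk | hk
  · interval_cases k
    · exfalso
      simp at he
      linarith
    · right
      simp only [Finset.univ_unique, Fin.default_eq_zero, Finset.sum_singleton] at he he'
      have hc0 := hc 0
      have h1 : c 0 * (n 0 e : ℝ) = c 0 * (n 0 e' : ℝ) := by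
        have he0 : L = c 0 * (n 0 e : ℝ) := by simpa using he
        have he1 : L = c 0 * (n 0 e' : ℝ) := by simpa using he'
        rw [← he0, ← he1]
      have h2 : (n 0 e : ℝ) = (n 0 e' : ℝ) := mul_left_cancel₀ hc0.ne' h1
      refine ⟨n 0 e, ?_⟩
      have h3 := hpair 0
      rw [← h2] at h3
      linarith
  · left
    have hdet := det_pairG6 e e' hne k n hn hs ⟨0, by omega⟩ ⟨1, by omega⟩ (by simp)
    have h0 := hpair ⟨0, by omega⟩
    have h1 := hpair ⟨1, by omega⟩
    refine ⟨AA_ratG6 _ ((n ⟨1, by omega⟩ e' : ℤ) - n ⟨0, by omega⟩ e') _ hdet ?_,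
      AA_ratG6 _ ((n ⟨0, by omega⟩ e : ℤ) - n ⟨1, by omega⟩ e) _ hdet ?_⟩
    · push_cast
      linear_combination (n ⟨1, by omega⟩ e' : ℝ) * h0 - (n ⟨0, by omega⟩ e' : ℝ) * h1
    · push_cast
      linear_combination (n ⟨0, by omega⟩ e : ℝ) * h1 - (n ⟨1, by omega⟩ e : ℝ) * h0

end Pool.Agent.TFF
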