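import Pool.Agent.TFF.FF
import Pool.Agent.TFF.Types
import Pool.Agent.TFF.GeoV
import Pool.Agent.TFF.CaseA
import Pool.Agent.TFF.CaseB
import Pool.Agent.TFF.CaseC
import Pool.Agent.TFF.CaseI
import Pool.Agent.TFF.CaseM
import Pool.Agent.TFF.CaseDG
import Pool.Agent.TFF.CaseE
import Pool.Agent.TFF.Half

/-! # Face-to-face tetrahedra without symmetry: the nine normal forms (helper21) -/

set_option autoImplicit false

namespace Pool.Agent.TFF

open Pool.Agent.TetRel Real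

theorem AA.add_iff {x y : ℝ} (h : AA (x + y)) : AA x ↔ AA y := by
  have e : Complex.exp (((x + y : ℝ) : ℂ) * Complex.I) =
      Complex.exp ((x : ℂ) * Complex.I) * Complex.exp ((y : ℂ) * Complex.I) := by
    rw [← Complex.exp_add]
    congr 1
    push_cast
    ring
  unfold AA at *
  rw [e] at h
  constructor
  · intro hx
    have h1 := hx.inv.mul h
    rwa [← mul_assoc, inv_mul_cancel₀ (Complex.exp_ne_zero _), one_mul] at h1
  · intro hy
    have h1 := h.mul hy.inv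
    rwa [mul_assoc, mul_inv_cancel₀ (Complex.exp_ne_zero _), mul_one] at h1

theorem AA.cos_alg {x : ℝ} (h : AA x) : IsAlgebraic ℚ (cos x) := by
  have h1 : IsAlgebraic ℚ ((cos x : ℝ) : ℂ) := by
    have e : ((cos x : ℝ) : ℂ) = (Complex.exp ((x : ℂ) * Complex.I) +
        (Complex.exp ((x : ℂ) * Complex.I))⁻¹) / 2 := by
      rw [Complex.ofReal_cos, Complex.cos, ← Complex.exp_neg]
      congr 2
      ring_nf
    rw [e, div_eq_mul_inv]
    refine (IsAlgebraic.add h h.inv).mul ?_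
    have : IsAlgebraic ℚ (2 : ℂ) := by
      have := isAlgebraic_algebraMap (R := ℚ) (A := ℂ) 2
      simpa using this
    exact this.inv
  exact (isAlgebraic_algebraMap_iff (R := ℚ) (S := ℝ) (A := ℂ) Complex.ofReal_injective).1 h1

theorem algLen_of_AA (v : Fin 4 → E3) (hv : AffineIndependent ℝ v) (h : ∀ e, AA (dih v e)) :
    TetMir.AlgLen v :=
  TetMir.alg_of_cos v hv fun e => (h e).cos_alg

/-- the relations of lengths in terms of areas -/
theorem rel_of_len {v : Fin 4 → E3} {a : Fin 4 → ℝ} {K : ℝ} (hK : 0 < K) (hG : Geo (dih v) a)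
    (hl : ∀ e, len v e = K * a (ec e) * a (ed e) * sin (dih v e)) :
    (len v 0 = len v 1 → a 2 * sin (dih v 0) = a 1 * sin (dih v 1)) ∧
    (len v 3 = len v 4 → a 3 * sin (dih v 3) = a 2 * sin (dih v 4)) ∧
    (len v 2 = len v 5 → a 2 * sin (dih v 2) = a 0 * sin (dih v 5)) ∧
    (len v 0 = len v 3 → a 2 * sin (dih v 0) = a 0 * sin (dih v 3)) ∧
    (len v 3 = len v 5 → a 3 * sin (dih v 3) = a 1 * sin (dih v 5)) ∧
    (len v 1 = len v 2 → a 3 * sin (dih v 1) = a 2 * sin (dih v 2)) ∧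
    (len v 4 = len v 5 → a 2 * sin (dih v 4) = a 1 * sin (dih v 5)) ∧
    (a 1 * a 3 * sin (dih v 1) = a 0 * a 2 * sin (dih v 4) → len v 1 = len v 4) := by
  have l0 : len v 0 = K * a 2 * a 3 * sin (dih v 0) := hl 0
  have l1 : len v 1 = K * a 1 * a 3 * sin (dih v 1) := hl 1
  have l2 : len v 2 = K * a 1 * a 2 * sin (dih v 2) := hl 2
  have l3 : len v 3 = K * a 0 * a 3 * sin (dih v 3) := hl 3
  have l4 : len v 4 = K * a 0 * a 2 * sin (dih v 4) := hl 4
  have l5 : len v 5 = K * a 0 * a 1 * sin (dih v 5) := hl 5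
  have p := hG.pos
  have canc : ∀ (t x y : ℝ), 0 < t → t * x = t * y → x = y := fun t x y ht h =>
    mul_left_cancel₀ ht.ne' h
  refine ⟨fun h => canc (K * a 3) _ _ (mul_pos hK (p 3)) ?_,
    fun h => canc (K * a 0) _ _ (mul_pos hK (p 0)) ?_,
    fun h => canc (K * a 1) _ _ (mul_pos hK (p 1)) ?_,
    fun h => canc (K * a 3) _ _ (mul_pos hK (p 3)) ?_,
    fun h => canc (K * a 0) _ _ (mul_pos hK (p 0)) ?_,
    fun h => canc (K * a 1) _ _ (mul_pos hK (p 1)) ?_,
    fun h => canc (K * a 0) _ _ (mul_pos hK (p 0)) ?_, fun h => ?_⟩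
  · rw [l0, l1] at h; linarith
  · rw [l3, l4] at h; linarith
  · rw [l2, l5] at h; linarith
  · rw [l0, l3] at h; linarith
  · rw [l3, l5] at h; linarith
  · rw [l1, l2] at h; linarith
  · rw [l4, l5] at h; linarith
  · rw [l1, l4]
    linear_combination K * h

/-! ## the cases -/

section
variable (v : Fin 4 → E3) (hv : AffineIndependent ℝ v)
include hv

theorem vA (h01 : len v 0 = len v 1) (hΦ : AA (dih v 0 + dih v 1)) (h2 : AA (dih v 2))
    (h3 : AA (dih v 3)) (h4 : AA (dih v 4)) (h5 : AA (dih v 5)) : ∀ e, AA (dih v e) := by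
  obtain ⟨a, K, hK, hG, hl⟩ := geo v hv
  obtain ⟨r01, -⟩ := rel_of_len hK hG hl
  have h0 : AA (dih v 0) := caseA hG (r01 h01) hΦ h2 h3 h4 h5
  have h1 : AA (dih v 1) := hΦ.add_iff.1 h0
  intro e
  fin_cases e
  exacts [h0, h1, h2, h3, h4, h5]

/-- the same for the edges 12, 13 -/
theorem vA' (h34 : len v 3 = len v 4) (hΦ : AA (dih v 3 + dih v 4)) (h0 : AA (dih v 0))
    (h1 : AA (dih v 1)) (h2 : AA (dih v 2)) (h5 : AA (dih v 5)) : ∀ e, AA (dih v e) := by
  let τ : Equiv.Perm (Fin 4) := finRotate 4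
  have hw : AffineIndependent ℝ (v ∘ τ) := hv.comp_embedding τ.toEmbedding
  have e0 : pe τ 0 = 3 := by decide
  have e1 : pe τ 1 = 4 := by decide
  have e2 : pe τ 2 = 0 := by decide
  have e3 : pe τ 3 = 5 := by decide
  have e4 : pe τ 4 = 1 := by decide
  have e5 : pe τ 5 = 2 := by decide
  have key := vA (v ∘ τ) hw (by rw [len_comp, len_comp, e0, e1]; exact h34)
    (by rw [dih_comp v hv, dih_comp v hv, e0, e1]; exact hΦ)
    (by rw [dih_comp v hv, e2]; exact h0) (by rw [dih_comp v hv, e3]; exact h5)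
    (by rw [dih_comp v hv, e4]; exact h1) (by rw [dih_comp v hv, e5]; exact h2)
  have k3 := key 0
  have k4 := key 1
  rw [dih_comp v hv, e0] at k3
  rw [dih_comp v hv, e1] at k4
  intro e
  fin_cases e
  exacts [h0, h1, h2, k3, k4, h5]

/-- two P3's: the half of a Hill tetrahedron -/
theorem vB (h01 : len v 0 = len v 1) (h34 : len v 3 = len v 4) (hΦ1 : AA (dih v 0 + dih v 1))
    (hΦ2 : AA (dih v 3 + dih v 4)) (h2 : AA (dih v 2)) (h5 : AA (dih v 5)) :
    (∀ e, AA (dih v e)) ∨ (len v 2 ≠ len v 5 ∧ HalfHill v) := by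
  by_cases h0 : AA (dih v 0)
  · exact Or.inl (vA' v hv h34 hΦ2 h0 (hΦ1.add_iff.1 h0) h2 h5)
  by_cases h3 : AA (dih v 3)
  · exact Or.inl (vA v hv h01 hΦ1 h2 h3 (hΦ2.add_iff.1 h3) h5)
  right
  obtain ⟨a, K, hK, hG, hl⟩ := geo v hv
  obtain ⟨r01, r34, -⟩ := rel_of_len hK hG hl
  obtain ⟨c1, c2, c3, c4, c5⟩ := caseB hG (r01 h01) (r34 h34) hΦ1 hΦ2 h2 h5 h0 h3
  exact ⟨half_ne v hv h01 h34 c1 c2 c3 c4 c5, 1, half_shape v hv h01 h34 c1 c2 c3 c4 c5⟩

theorem vC (h03 : len v 0 = len v 3) (h35 : len v 3 = len v 5)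
    (hΦ : AA (dih v 0 + dih v 3 + dih v 5)) (h1 : AA (dih v 1)) (h2 : AA (dih v 2))
    (h4 : AA (dih v 4)) : (∀ e, AA (dih v e)) ∨ len v 1 = len v 4 := by
  obtain ⟨a, K, hK, hG, hl⟩ := geo v hv
  obtain ⟨-, -, -, r03, r35, -, -, r14⟩ := rel_of_len hK hG hl
  rcases caseC hG (r03 h03) (r35 h35) hΦ h1 h4 h2 with ⟨k0, k3, k5⟩ | h
  · left
    intro e
    fin_cases e
    exacts [k0, h1, h2, k3, h4, k5]
  · exact Or.inr (r14 h)

theorem vI (h03 : len v 0 = len v 3) (h35 : len v 3 = len v 5) (h12 : len v 1 = len v 2)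
    (hΦ : AA (dih v 0 + dih v 3 + dih v 5)) (hΨ : AA (dih v 1 + dih v 2))
    (h4 : AA (dih v 4)) : (∀ e, AA (dih v e)) ∨ len v 1 = len v 4 := by
  obtain ⟨a, K, hK, hG, hl⟩ := geo v hv
  obtain ⟨-, -, -, r03, r35, r12, -, r14⟩ := rel_of_len hK hG hl
  have h1 := caseI hG (r03 h03) (r35 h35) (r12 h12) hΦ hΨ h4
  exact vC v hv h03 h35 hΦ h1 (hΨ.add_iff.1 h1) h4

theorem vE (h34 : len v 3 = len v 4) (h45 : len v 4 = len v 5) (h0 : AA (dih v 0))
    (h1 : AA (dih v 1)) (h2 : AA (dih v 2)) : ∀ e, AA (dih v e) := by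
  obtain ⟨a, K, hK, hG, hl⟩ := geo v hv
  obtain ⟨-, r34, -, -, -, -, r45, -⟩ := rel_of_len hK hG hl
  obtain ⟨k3, k4, k5⟩ := caseE hG (r34 h34) (r45 h45) h0 h1 h2
  intro e
  fin_cases e
  exacts [h0, h1, h2, k3, k4, k5]

/-- three P3's, the last pair algebraic -/
theorem vM2 (h01 : len v 0 = len v 1) (h34 : len v 3 = len v 4) (h25 : len v 2 = len v 5)
    (hΦ1 : AA (dih v 0 + dih v 1)) (hΦ2 : AA (dih v 3 + dih v 4)) (hΦ3 : AA (dih v 2 + dih v 5))
    (h2 : AA (dih v 2)) : ∀ e, AA (dih v e) := by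
  rcases vB v hv h01 h34 hΦ1 hΦ2 h2 (hΦ3.add_iff.1 h2) with h | ⟨h, -⟩
  · exact h
  · exact absurd h25 h

end

theorem half_pi {Φ : ℝ} (h0 : 0 < Φ) (h2 : Φ < 2 * π) (m : ℕ) (hm : (m : ℝ) * Φ = 2 * π)
    (hc : cos Φ = 0) : Φ = π / 2 := by
  have hm2 : 2 ≤ m := by
    by_contra hcon
    have : m = 0 ∨ m = 1 := by omega
    rcases this with rfl | rfl
    · simp at hm
    · simp at hm
      linarith
  have hm2' : (2 : ℝ) ≤ m := by exact_mod_cast hm2
  have hle : Φ ≤ π := by nlinarith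
  exact injOn_cos ⟨h0.le, hle⟩ ⟨by positivity, by linarith [pi_pos]⟩ (by rw [hc, cos_pi_div_two])

/-- three P3's -/
theorem vM (v : Fin 4 → E3) (hv : AffineIndependent ℝ v)
    (h01 : len v 0 = len v 1) (h34 : len v 3 = len v 4) (h25 : len v 2 = len v 5)
    (hΦ1 : AA (dih v 0 + dih v 1)) (hΦ2 : AA (dih v 3 + dih v 4)) (hΦ3 : AA (dih v 2 + dih v 5))
    (t1 : (AA (dih v 0) ∧ AA (dih v 1)) ∨ ∃ m : ℕ, (m : ℝ) * (dih v 0 + dih v 1) = 2 * π)
    (t2 : (AA (dih v 3) ∧ AA (dih v 4)) ∨ ∃ m : ℕ, (m : ℝ) * (dih v 3 + dih v 4) = 2 * π)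
    (t3 : (AA (dih v 2) ∧ AA (dih v 5)) ∨ ∃ m : ℕ, (m : ℝ) * (dih v 2 + dih v 5) = 2 * π) :
    ∀ e, AA (dih v e) := by
  by_cases h2 : AA (dih v 2)
  · exact vM2 v hv h01 h34 h25 hΦ1 hΦ2 hΦ3 h2
  by_cases h4 : AA (dih v 4)
  · let ρ : Equiv.Perm (Fin 4) := Equiv.swap 0 1 * Equiv.swap 0 3
    have hw : AffineIndependent ℝ (v ∘ ρ) := hv.comp_embedding ρ.toEmbedding
    have e0 : pe ρ 0 = 2 := by decide
    have e1 : pe ρ 1 = 5 := by decide
    have e2 : pe ρ 2 = 4 := by decide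
    have e3 : pe ρ 3 = 1 := by decide
    have e4 : pe ρ 4 = 0 := by decide
    have e5 : pe ρ 5 = 3 := by decide
    have key := vM2 (v ∘ ρ) hw (by rw [len_comp, len_comp, e0, e1]; exact h25)
      (by rw [len_comp, len_comp, e3, e4]; exact h01.symm)
      (by rw [len_comp, len_comp, e2, e5]; exact h34.symm)
      (by rw [dih_comp v hv, dih_comp v hv, e0, e1]; exact hΦ3)
      (by rw [dih_comp v hv, dih_comp v hv, e3, e4, add_comm]; exact hΦ1)
      (by rw [dih_comp v hv, dih_comp v hv, e2, e5, add_comm]; exact hΦ2)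
      (by rw [dih_comp v hv, e2]; exact h4)
    have k0 := key 0
    rw [dih_comp v hv, e0] at k0
    exact absurd k0 h2
  by_cases h0 : AA (dih v 0)
  · let ρ : Equiv.Perm (Fin 4) := Equiv.swap 0 3 * Equiv.swap 0 1
    have hw : AffineIndependent ℝ (v ∘ ρ) := hv.comp_embedding ρ.toEmbedding
    have e0 : pe ρ 0 = 4 := by decide
    have e1 : pe ρ 1 = 3 := by decide
    have e2 : pe ρ 2 = 0 := by decide
    have e3 : pe ρ 3 = 5 := by decide
    have e4 : pe ρ 4 = 2 := by decide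
    have e5 : pe ρ 5 = 1 := by decide
    have key := vM2 (v ∘ ρ) hw (by rw [len_comp, len_comp, e0, e1]; exact h34.symm)
      (by rw [len_comp, len_comp, e3, e4]; exact h25.symm)
      (by rw [len_comp, len_comp, e2, e5]; exact h01)
      (by rw [dih_comp v hv, dih_comp v hv, e0, e1, add_comm]; exact hΦ2)
      (by rw [dih_comp v hv, dih_comp v hv, e3, e4, add_comm]; exact hΦ3)
      (by rw [dih_comp v hv, dih_comp v hv, e2, e5]; exact hΦ1)
      (by rw [dih_comp v hv, e2]; exact h0)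
    have k0 := key 0
    rw [dih_comp v hv, e0] at k0
    exact absurd k0 h4
  exfalso
  have h3 : ¬ AA (dih v 3) := fun h => h4 (hΦ2.add_iff.1 h)
  obtain ⟨a, K, hK, hG, hl⟩ := geo v hv
  obtain ⟨r01, r34, r25, -⟩ := rel_of_len hK hG hl
  obtain ⟨c1, c2, c3⟩ := caseM hG (r01 h01) (r34 h34) (r25 h25) hΦ1 hΦ2 hΦ3 h0 h3 h2
  obtain ⟨m1, hm1⟩ := t1.resolve_left fun h => h0 h.1
  obtain ⟨m2, hm2⟩ := t2.resolve_left fun h => h3 h.1
  obtain ⟨m3, hm3⟩ := t3.resolve_left fun h => h2 h.1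
  have b := hG.mem
  have q1 := half_pi (by linarith [(b 0).1, (b 1).1]) (by linarith [(b 0).2, (b 1).2]) m1 hm1 c1
  have q2 := half_pi (by linarith [(b 3).1, (b 4).1]) (by linarith [(b 3).2, (b 4).2]) m2 hm2 c2
  have q3 := half_pi (by linarith [(b 2).1, (b 5).1]) (by linarith [(b 2).2, (b 5).2]) m3 hm3 c3
  have hg := gaddum v hv
  rw [Fin.sum_univ_six] at hg
  linarith [pi_pos]

/-! ## the relations from a face-to-face tiling -/

section
variable {v : Fin 4 → E3} (hv : AffineIndependent ℝ v) (hT : FFTiles v) (hA : Asym v)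
include hv hT hA

theorem len_pos' (e : Fin 6) : 0 < len v e := by
  unfold len
  refine dist_pos.2 fun h => ?_
  exact absurd (hv.injective h) (by fin_cases e <;> decide)

theorem one_AA {e : Fin 6} (hK : Closed (len v) {e}) : AA (dih v e) := by
  obtain ⟨k, n, c, h1, h2, h3, h4, h5⟩ := ffcone v hv hT hA {e} hK
  have := sum_AA (dih v) (len v) {e} (len v e) (len_pos' hv hT hA e) (by simp) k n c h1 h2 h3 h4 h5
  simpa using this

theorem two_AA {e f : Fin 6} (hne : e ≠ f) (hef : len v e = len v f)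
    (hK : Closed (len v) {e, f}) : AA (dih v e + dih v f) ∧
      ((AA (dih v e) ∧ AA (dih v f)) ∨ ∃ m : ℕ, (m : ℝ) * (dih v e + dih v f) = 2 * π) := by
  obtain ⟨k, n, c, h1, h2, h3, h4, h5⟩ := ffcone v hv hT hA {e, f} hK
  refine ⟨?_, pair_types (dih v) (len v) e f hne (len v e) (len_pos' hv hT hA e) rfl hef.symm
    k n c h1 h2 h3 h4 h5⟩
  have := sum_AA (dih v) (len v) {e, f} (len v e) (len_pos' hv hT hA e)
    (by intro x hx; simp at hx; rcases hx with rfl | rfl; exacts [rfl, hef.symm]) k n c h1 h2 h3 h4 h5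
  rwa [Finset.sum_pair hne] at this

theorem three_AA (h03 : len v 0 = len v 3) (h35 : len v 3 = len v 5)
    (hK : Closed (len v) {0, 3, 5}) : AA (dih v 0 + dih v 3 + dih v 5) := by
  obtain ⟨k, n, c, h1, h2, h3, h4, h5⟩ := ffcone v hv hT hA {0, 3, 5} hK
  have := sum_AA (dih v) (len v) {0, 3, 5} (len v 0) (len_pos' hv hT hA 0)
    (by
      intro x hx
      simp at hx
      rcases hx with rfl | rfl | rfl
      exacts [rfl, h03.symm, (h03.trans h35).symm]) k n c h1 h2 h3 h4 h5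
  rw [Finset.sum_insert (by decide), Finset.sum_pair (by decide)] at this
  rwa [add_assoc]

/-- the tetrahedron in one of the nine normal forms -/
theorem norm_cases (h : (∀ e, Closed (len v) {e}) ∨
      (len v 0 = len v 1 ∧ Closed (len v) {0, 1} ∧ Closed (len v) {2} ∧
        Closed (len v) {3} ∧ Closed (len v) {4} ∧ Closed (len v) {5}) ∨
      (len v 0 = len v 1 ∧ len v 3 = len v 4 ∧ Closed (len v) {0, 1} ∧
        Closed (len v) {3, 4} ∧ Closed (len v) {2} ∧ Closed (len v) {5}) ∨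
      (len v 0 = len v 3 ∧ len v 3 = len v 5 ∧ Closed (len v) {0, 3, 5} ∧
        Closed (len v) {1} ∧ Closed (len v) {2} ∧ Closed (len v) {4}) ∨
      (len v 0 = len v 3 ∧ len v 3 = len v 5 ∧ len v 1 = len v 2 ∧
        Closed (len v) {0, 3, 5} ∧ Closed (len v) {1, 2} ∧ Closed (len v) {4}) ∨
      (len v 0 = len v 1 ∧ len v 3 = len v 4 ∧ len v 2 = len v 5 ∧
        Closed (len v) {0, 1} ∧ Closed (len v) {3, 4} ∧ Closed (len v) {2, 5}) ∨
      (len v 0 = len v 1 ∧ len v 1 = len v 2 ∧ Closed (len v) {3} ∧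
        Closed (len v) {4} ∧ Closed (len v) {5}) ∨
      (len v 0 = len v 1 ∧ len v 1 = len v 2 ∧ len v 2 = len v 3 ∧
        Closed (len v) {4} ∧ Closed (len v) {5}) ∨
      (len v 3 = len v 4 ∧ len v 4 = len v 5 ∧ Closed (len v) {0} ∧
        Closed (len v) {1} ∧ Closed (len v) {2})) : TetMir.AlgLen v ∨ HalfHill v := by
  have one : ∀ {e : Fin 6}, Closed (len v) {e} → AA (dih v e) := fun h => one_AA hv hT hA h
  -- `AC = BD` with `AB = CD`: a symmetry
  have nosym : len v 0 = len v 5 → len v 1 ≠ len v 4 := by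
    intro h05 h14
    have h1 := hA (Equiv.swap 0 3 * Equiv.swap 1 2) (by
      have d05 : dist (v 0) (v 1) = dist (v 2) (v 3) := h05
      have d14 : dist (v 0) (v 2) = dist (v 1) (v 3) := h14
      have s0 : (Equiv.swap 0 3 * Equiv.swap 1 2 : Equiv.Perm (Fin 4)) 0 = 3 := by decide
      have s1 : (Equiv.swap 0 3 * Equiv.swap 1 2 : Equiv.Perm (Fin 4)) 1 = 2 := by decide
      have s2 : (Equiv.swap 0 3 * Equiv.swap 1 2 : Equiv.Perm (Fin 4)) 2 = 1 := by decide
      have s3 : (Equiv.swap 0 3 * Equiv.swap 1 2 : Equiv.Perm (Fin 4)) 3 = 0 := by decide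
      have c10 := dist_comm (v 1) (v 0)
      have c20 := dist_comm (v 2) (v 0)
      have c30 := dist_comm (v 3) (v 0)
      have c21 := dist_comm (v 2) (v 1)
      have c31 := dist_comm (v 3) (v 1)
      have c32 := dist_comm (v 3) (v 2)
      intro i j
      fin_cases i <;> fin_cases j <;>
        simp only [Fin.zero_eta, Fin.mk_one, Fin.reduceFinMk, s0, s1, s2, s3, dist_self, c10, c20,
          c30, c21, c31, c32, d05, d14])
    have := congrArg (fun σ : Equiv.Perm (Fin 4) => σ 0) h1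
    revert this
    decide
  rcases h with h | ⟨e01, K01, K2, K3, K4, K5⟩ | ⟨e01, e34, K01, K34, K2, K5⟩ |
    ⟨e03, e35, K035, K1, K2, K4⟩ | ⟨e03, e35, e12, K035, K12, K4⟩ |
    ⟨e01, e34, e25, K01, K34, K25⟩ | ⟨e01, e12, K3, K4, K5⟩ | ⟨e01, e12, e23, K4, K5⟩ |
    ⟨e34, e45, K0, K1, K2⟩
  · exact Or.inl (algLen_of_AA v hv fun e => one (h e))
  · exact Or.inl (algLen_of_AA v hv (vA v hv e01 (two_AA hv hT hA (by decide) e01 K01).1
      (one K2) (one K3) (one K4) (one K5)))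
  · rcases vB v hv e01 e34 (two_AA hv hT hA (by decide) e01 K01).1
      (two_AA hv hT hA (by decide) e34 K34).1 (one K2) (one K5) with h | h
    · exact Or.inl (algLen_of_AA v hv h)
    · exact Or.inr h.2
  · rcases vC v hv e03 e35 (three_AA hv hT hA e03 e35 K035) (one K1) (one K2) (one K4) with h | h
    · exact Or.inl (algLen_of_AA v hv h)
    · exact absurd h (nosym (e03.trans e35))
  · rcases vI v hv e03 e35 e12 (three_AA hv hT hA e03 e35 K035)
      (two_AA hv hT hA (by decide) e12 K12).1 (one K4) with h | h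
    · exact Or.inl (algLen_of_AA v hv h)
    · exact absurd h (nosym (e03.trans e35))
  · obtain ⟨p1, t1⟩ := two_AA hv hT hA (by decide) e01 K01
    obtain ⟨p2, t2⟩ := two_AA hv hT hA (by decide) e34 K34
    obtain ⟨p3, t3⟩ := two_AA hv hT hA (by decide) e25 K25
    exact Or.inl (algLen_of_AA v hv (vM v hv e01 e34 e25 p1 p2 p3 t1 t2 t3))
  · exact Or.inl (caseD v hv e01 e12 (one K3) (one K4) (one K5))
  · exact Or.inl (caseG v hv e01 e12 e23 (one K4) (one K5))
  · exact Or.inl (algLen_of_AA v hv (vE v hv e34 e45 (one K0) (one K1) (one K2)))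
end

end Pool.Agent.TFF
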