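import Pool.Agent.TFF.Defs

/-! # Tetrahedra with three equal edges at a corner: the height over the opposite face (helper14)
-/

set_option autoImplicit false

namespace Pool.Agent.TFF

open Pool.Agent.TetRel Real
open scoped InnerProductSpace

/-- the square of the norm of `perp e p` -/
lemma inner_mul_perp_sq {e : E3} (he : e ≠ 0) (p : E3) :
    ⟪e, e⟫_ℝ * ‖perp e p‖ ^ 2 = ⟪e, e⟫_ℝ * ⟪p, p⟫_ℝ - ⟪e, p⟫_ℝ ^ 2 := by
  have hee : ⟪e, e⟫_ℝ ≠ 0 := by simpa using he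
  have h1 : ⟪p, e⟫_ℝ = ⟪e, p⟫_ℝ := real_inner_comm _ _
  rw [← real_inner_self_eq_norm_sq (perp e p)]
  unfold perp
  simp only [inner_sub_left, inner_sub_right, inner_smul_left, inner_smul_right,
    RCLike.conj_to_real, h1]
  field_simp
  ring

/-- the main relation at an edge, and the positivity of its factors -/
lemma edge_rel (b : AffineBasis (Fin 4) ℝ E3) (i : Fin 6) (e p q : E3)
    (he : e = b (eb i) - b (ea i)) (hp : p = b (ec i) - b (ea i)) (hq : q = b (ed i) - b (ea i)) :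
    0 < sin (dih b i) ∧ 0 < ⟪e, e⟫_ℝ ∧ 0 < ⟪e, e⟫_ℝ * ⟪p, p⟫_ℝ - ⟪e, p⟫_ℝ ^ 2 ∧
    0 < ⟪e, e⟫_ℝ * ⟪q, q⟫_ℝ - ⟪e, q⟫_ℝ ^ 2 ∧
    (⟪e, e⟫_ℝ * ⟪p, p⟫_ℝ - ⟪e, p⟫_ℝ ^ 2) * (⟪e, e⟫_ℝ * ⟪q, q⟫_ℝ - ⟪e, q⟫_ℝ ^ 2) *
      sin (dih b i) ^ 2 = ⟪e, e⟫_ℝ * gram (b 1 - b 0) (b 2 - b 0) (b 3 - b 0) := by
  obtain ⟨he0, hP, hQ, h0, hπ⟩ := Pool.TetraTile.orth_facts (li b i)
  have hs : 0 < sin (dih b i) := sin_pos_of_pos_of_lt_pi h0 hπ
  have hcos : cos (dih b i) * (‖perp (b (eb i) - b (ea i)) (b (ec i) - b (ea i))‖ *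
      ‖perp (b (eb i) - b (ea i)) (b (ed i) - b (ea i))‖)
      = ⟪perp (b (eb i) - b (ea i)) (b (ec i) - b (ea i)),
        perp (b (eb i) - b (ea i)) (b (ed i) - b (ea i))⟫_ℝ :=
    InnerProductGeometry.cos_angle_mul_norm_mul_norm _ _
  have hgr := gram_eq he0 (b (ec i) - b (ea i)) (b (ed i) - b (ea i))
  rw [gram_base b i, ← hcos] at hgr
  change perp (b (eb i) - b (ea i)) (b (ec i) - b (ea i)) ≠ 0 at hP
  change perp (b (eb i) - b (ea i)) (b (ed i) - b (ea i)) ≠ 0 at hQ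
  rw [← he, ← hp] at hP
  rw [← he, ← hq] at hQ
  rw [← he, ← hp, ← hq] at hgr
  rw [← he] at he0
  have hP' : 0 < ‖perp e p‖ := norm_pos_iff.2 hP
  have hQ' : 0 < ‖perp e q‖ := norm_pos_iff.2 hQ
  have hee : 0 < ⟪e, e⟫_ℝ := real_inner_self_pos.2 he0
  have h1 := inner_mul_perp_sq he0 p
  have h2 := inner_mul_perp_sq he0 q
  refine ⟨hs, hee, ?_, ?_, ?_⟩
  · rw [← h1]; positivity
  · rw [← h2]; positivity
  · have hsc := sin_sq_add_cos_sq (dih b i)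
    have h3 : sin (dih b i) ^ 2 = 1 - cos (dih b i) ^ 2 := by linarith
    rw [← h1, ← h2, hgr, ← real_inner_self_eq_norm_sq e, h3]
    ring

theorem star (v : Fin 4 → E3) (hv : AffineIndependent ℝ v) (h1 : len v 0 = len v 1)
    (h2 : len v 1 = len v 2) : ∃ H : ℝ, 0 < H ∧
    (4 * len v 0 ^ 2 - len v 3 ^ 2) * sin (dih v 3) ^ 2 = 4 * H ∧
    (4 * len v 0 ^ 2 - len v 4 ^ 2) * sin (dih v 4) ^ 2 = 4 * H ∧
    (4 * len v 0 ^ 2 - len v 5 ^ 2) * sin (dih v 5) ^ 2 = 4 * H ∧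
    (len v 0 ^ 2 - H) * (2 * len v 3 ^ 2 * len v 4 ^ 2 + 2 * len v 4 ^ 2 * len v 5 ^ 2 +
      2 * len v 5 ^ 2 * len v 3 ^ 2 - len v 3 ^ 4 - len v 4 ^ 4 - len v 5 ^ 4) =
      len v 3 ^ 2 * len v 4 ^ 2 * len v 5 ^ 2 := by
  obtain ⟨b, rfl⟩ := exists_basis v hv
  obtain ⟨X, hX⟩ : ∃ X, X = b 1 - b 0 := ⟨_, rfl⟩
  obtain ⟨Y, hY⟩ : ∃ Y, Y = b 2 - b 0 := ⟨_, rfl⟩
  obtain ⟨Z, hZ⟩ : ∃ Z, Z = b 3 - b 0 := ⟨_, rfl⟩
  have l0 : len b 0 ^ 2 = ⟪X, X⟫_ℝ := by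
    have : len b 0 = ‖X‖ := by
      rw [hX, ← dist_eq_norm, dist_comm]; rfl
    rw [this, real_inner_self_eq_norm_sq]
  have l1 : len b 0 ^ 2 = ⟪Y, Y⟫_ℝ := by
    have : len b 1 = ‖Y‖ := by
      rw [hY, ← dist_eq_norm, dist_comm]; rfl
    rw [h1, this, real_inner_self_eq_norm_sq]
  have l2 : len b 0 ^ 2 = ⟪Z, Z⟫_ℝ := by
    have : len b 2 = ‖Z‖ := by
      rw [hZ, ← dist_eq_norm, dist_comm]; rfl
    rw [h1, h2, this, real_inner_self_eq_norm_sq]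
  have l3 : len b 3 ^ 2 = ⟪Y - X, Y - X⟫_ℝ := by
    have : len b 3 = ‖Y - X‖ := by
      rw [hX, hY, sub_sub_sub_cancel_right, ← dist_eq_norm, dist_comm]; rfl
    rw [this, real_inner_self_eq_norm_sq]
  have l4 : len b 4 ^ 2 = ⟪Z - X, Z - X⟫_ℝ := by
    have : len b 4 = ‖Z - X‖ := by
      rw [hX, hZ, sub_sub_sub_cancel_right, ← dist_eq_norm, dist_comm]; rfl
    rw [this, real_inner_self_eq_norm_sq]
  have l5 : len b 5 ^ 2 = ⟪Z - Y, Z - Y⟫_ℝ := by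
    have : len b 5 = ‖Z - Y‖ := by
      rw [hY, hZ, sub_sub_sub_cancel_right, ← dist_eq_norm, dist_comm]; rfl
    rw [this, real_inner_self_eq_norm_sq]
  have r3 := edge_rel b 3 (Y - X) (-X) (Z - X) (by rw [hX, hY, sub_sub_sub_cancel_right]; rfl)
    (by rw [hX, neg_sub]; rfl) (by rw [hX, hZ, sub_sub_sub_cancel_right]; rfl)
  have r4 := edge_rel b 4 (Z - X) (-X) (Y - X) (by rw [hX, hZ, sub_sub_sub_cancel_right]; rfl)
    (by rw [hX, neg_sub]; rfl) (by rw [hX, hY, sub_sub_sub_cancel_right]; rfl)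
  have r5 := edge_rel b 5 (Z - Y) (-Y) (X - Y) (by rw [hY, hZ, sub_sub_sub_cancel_right]; rfl)
    (by rw [hY, neg_sub]; rfl) (by rw [hX, hY, sub_sub_sub_cancel_right]; rfl)
  rw [← hX, ← hY, ← hZ] at r3 r4 r5
  have c1 : ⟪Y, X⟫_ℝ = ⟪X, Y⟫_ℝ := real_inner_comm _ _
  have c2 : ⟪Z, X⟫_ℝ = ⟪X, Z⟫_ℝ := real_inner_comm _ _
  have c3 : ⟪Z, Y⟫_ℝ = ⟪Y, Z⟫_ℝ := real_inner_comm _ _
  simp only [gram, inner_sub_left, inner_sub_right, inner_neg_left, inner_neg_right, c1, c2, c3,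
    ← l0, ← l1, ← l2] at l3 l4 l5 r3 r4 r5
  generalize len b 0 ^ 2 = L at *
  generalize ⟪X, Y⟫_ℝ = α at *
  generalize ⟪X, Z⟫_ℝ = β at *
  generalize ⟪Y, Z⟫_ℝ = γ at *
  generalize sin (dih b 3) = s3 at *
  generalize sin (dih b 4) = s4 at *
  generalize sin (dih b 5) = s5 at *
  have e3 : len b 3 ^ 4 = (len b 3 ^ 2) ^ 2 := by ring
  have e4 : len b 4 ^ 4 = (len b 4 ^ 2) ^ 2 := by ring
  have e5 : len b 5 ^ 4 = (len b 5 ^ 2) ^ 2 := by ring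
  rw [e3, e4, e5]
  generalize len b 3 ^ 2 = u at *
  generalize len b 4 ^ 2 = v at *
  generalize len b 5 ^ 2 = w at *
  obtain ⟨a1, a2, a3, a4, a5⟩ := r3
  obtain ⟨b1, b2, b3, b4, b5⟩ := r4
  obtain ⟨d1, d2, d3, d4, d5⟩ := r5
  have hα : α = L - u / 2 := by linarith
  have hβ : β = L - v / 2 := by linarith
  have hγ : γ = L - w / 2 := by linarith
  subst hα hβ hγ
  have hu : 0 < u := by linarith
  have hv' : 0 < v := by linarith
  have hw : 0 < w := by linarith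
  have hN : 0 < 2 * u * v + 2 * v * w + 2 * w * u - u ^ 2 - v ^ 2 - w ^ 2 := by
    have : 0 < (2 * u * v + 2 * v * w + 2 * w * u - u ^ 2 - v ^ 2 - w ^ 2) / 4 := by
      refine lt_of_lt_of_eq a4 ?_
      ring
    linarith
  have hLu : 0 < 4 * L - u := by
    have h3 : 0 < u * (4 * L - u) := by
      have : 0 < u * (4 * L - u) / 4 := by
        refine lt_of_lt_of_eq a3 ?_
        ring
      linarith
    exact (mul_pos_iff_of_pos_left hu).1 h3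
  set N := 2 * u * v + 2 * v * w + 2 * w * u - u ^ 2 - v ^ 2 - w ^ 2 with hNdef
  have k3 : (4 * L - u) * s3 ^ 2 * N = 4 * (L * N - u * v * w) := by
    apply mul_left_cancel₀ hu.ne'
    rw [hNdef]
    linear_combination 16 * a5
  have k4 : (4 * L - v) * s4 ^ 2 * N = 4 * (L * N - u * v * w) := by
    apply mul_left_cancel₀ hv'.ne'
    rw [hNdef]
    linear_combination 16 * b5
  have k5 : (4 * L - w) * s5 ^ 2 * N = 4 * (L * N - u * v * w) := by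
    apply mul_left_cancel₀ hw.ne'
    rw [hNdef]
    linear_combination 16 * d5
  have hH : 4 * (L - u * v * w / N) * N = 4 * (L * N - u * v * w) := by
    field_simp
  have g3 : (4 * L - u) * s3 ^ 2 = 4 * (L - u * v * w / N) :=
    mul_right_cancel₀ hN.ne' (k3.trans hH.symm)
  have g4 : (4 * L - v) * s4 ^ 2 = 4 * (L - u * v * w / N) :=
    mul_right_cancel₀ hN.ne' (k4.trans hH.symm)
  have g5 : (4 * L - w) * s5 ^ 2 = 4 * (L - u * v * w / N) :=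
    mul_right_cancel₀ hN.ne' (k5.trans hH.symm)
  refine ⟨L - u * v * w / N, ?_, g3, g4, g5, ?_⟩
  · have : 0 < (4 * L - u) * s3 ^ 2 := by positivity
    linarith
  · have : (L - (L - u * v * w / N)) * N = u * v * w := by
      field_simp
      ring
    exact this

end Pool.Agent.TFF
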