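import Pool.Agent.TFF.Defs

/-! # Values of trigonometric functions at a place (helper94, package Trig of helper21) -/

set_option autoImplicit false

namespace Pool.Agent.TFF

open Complex

/-! ### generalities on places -/

theorem v_one (p : TetRot.Place) : p.v 1 = 0 := p.alg 1 one_ne_zero isAlgebraic_one

theorem alg_I : IsAlgebraic ℚ I := by
  refine IsAlgebraic.of_pow (n := 2) (by norm_num) ?_
  rw [I_sq]
  exact isAlgebraic_one.neg

theorem v_I (p : TetRot.Place) : p.v I = 0 := p.alg I I_ne_zero alg_I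

theorem v_neg (p : TetRot.Place) (z : ℂ) (hz : z ≠ 0) : p.v (-z) = p.v z := by
  have h1 : p.v (-1) = 0 := p.alg _ (by norm_num) isAlgebraic_one.neg
  have h2 := p.mul (-1) z (by norm_num) hz
  rw [h1, zero_add, neg_one_mul] at h2
  exact h2

theorem v_inv (p : TetRot.Place) (z : ℂ) (hz : z ≠ 0) : p.v z⁻¹ = -p.v z := by
  have h2 := p.mul z z⁻¹ hz (inv_ne_zero hz)
  rw [mul_inv_cancel₀ hz, v_one] at h2
  linarith

theorem v_div (p : TetRot.Place) (z w : ℂ) (hz : z ≠ 0) (hw : w ≠ 0) :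
    p.v (z / w) = p.v z - p.v w := by
  rw [div_eq_mul_inv, p.mul z w⁻¹ hz (inv_ne_zero hw), v_inv p w hw, sub_eq_add_neg]

theorem v_alg_mul (p : TetRot.Place) (a z : ℂ) (ha : a ≠ 0) (hal : IsAlgebraic ℚ a)
    (hz : z ≠ 0) : p.v (a * z) = p.v z := by
  rw [p.mul a z ha hz, p.alg a ha hal, zero_add]

/-- `z` is zero or of value at least `r` -/
def Ge (p : TetRot.Place) (r : ℚ) (z : ℂ) : Prop := z = 0 ∨ r ≤ p.v z

/-- `z` is zero or of value greater than `r` -/
def Gt (p : TetRot.Place) (r : ℚ) (z : ℂ) : Prop := z = 0 ∨ r < p.v z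

/-- bounded -/
def Bd (p : TetRot.Place) (z : ℂ) : Prop := z = 0 ∨ 0 ≤ p.v z

/-- small -/
def Sm (p : TetRot.Place) (z : ℂ) : Prop := z = 0 ∨ 0 < p.v z

section GG

variable {p : TetRot.Place} {r s : ℚ} {z w : ℂ}

theorem bd_iff : Bd p z ↔ Ge p 0 z := Iff.rfl

theorem sm_iff : Sm p z ↔ Gt p 0 z := Iff.rfl

theorem Ge.zero : Ge p r 0 := Or.inl rfl

theorem Gt.zero : Gt p r 0 := Or.inl rfl

theorem Gt.ge (h : Gt p r z) : Ge p r z := h.imp_right le_of_lt

theorem Ge.gt (h : Ge p r z) (hs : s < r) : Gt p s z := h.imp_right fun h => hs.trans_le h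

theorem Ge.mono (h : Ge p r z) (hs : s ≤ r) : Ge p s z := h.imp_right fun h => hs.trans h

theorem Gt.mono (h : Gt p r z) (hs : s ≤ r) : Gt p s z := h.imp_right fun h => hs.trans_lt h

theorem Ge.of_eq (h : p.v z = r) : Ge p r z := Or.inr h.ge

theorem Ge.add (h : Ge p r z) (h' : Ge p r w) : Ge p r (z + w) := by
  rcases h with rfl | h
  · rwa [zero_add]
  rcases h' with rfl | h'
  · rw [add_zero]
    exact Or.inr h
  by_cases hz : z = 0
  · rw [hz, zero_add]
    exact Or.inr h'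
  by_cases hw : w = 0
  · rw [hw, add_zero]
    exact Or.inr h
  by_cases hzw : z + w = 0
  · exact Or.inl hzw
  · exact Or.inr ((le_min h h').trans (p.add z w hz hw hzw))

theorem Gt.add (h : Gt p r z) (h' : Gt p r w) : Gt p r (z + w) := by
  rcases h with rfl | h
  · rwa [zero_add]
  rcases h' with rfl | h'
  · rw [add_zero]
    exact Or.inr h
  by_cases hz : z = 0
  · rw [hz, zero_add]
    exact Or.inr h'
  by_cases hw : w = 0
  · rw [hw, add_zero]
    exact Or.inr h
  by_cases hzw : z + w = 0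
  · exact Or.inl hzw
  · exact Or.inr ((lt_min h h').trans_le (p.add z w hz hw hzw))

theorem Ge.neg (h : Ge p r z) : Ge p r (-z) := by
  by_cases hz : z = 0
  · rw [hz, neg_zero]
    exact Ge.zero
  · refine Or.inr ?_
    rw [v_neg p z hz]
    exact h.resolve_left hz

theorem Gt.neg (h : Gt p r z) : Gt p r (-z) := by
  by_cases hz : z = 0
  · rw [hz, neg_zero]
    exact Gt.zero
  · refine Or.inr ?_
    rw [v_neg p z hz]
    exact h.resolve_left hz

theorem Ge.sub (h : Ge p r z) (h' : Ge p r w) : Ge p r (z - w) := by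
  rw [sub_eq_add_neg]
  exact h.add h'.neg

theorem Gt.sub (h : Gt p r z) (h' : Gt p r w) : Gt p r (z - w) := by
  rw [sub_eq_add_neg]
  exact h.add h'.neg

theorem Ge.mul (h : Ge p r z) (h' : Ge p s w) : Ge p (r + s) (z * w) := by
  by_cases hz : z = 0
  · rw [hz, zero_mul]
    exact Ge.zero
  by_cases hw : w = 0
  · rw [hw, mul_zero]
    exact Ge.zero
  refine Or.inr ?_
  rw [p.mul z w hz hw]
  exact add_le_add (h.resolve_left hz) (h'.resolve_left hw)

theorem Gt.mul_ge (h : Gt p r z) (h' : Ge p s w) : Gt p (r + s) (z * w) := by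
  by_cases hz : z = 0
  · rw [hz, zero_mul]
    exact Gt.zero
  by_cases hw : w = 0
  · rw [hw, mul_zero]
    exact Gt.zero
  refine Or.inr ?_
  rw [p.mul z w hz hw]
  exact add_lt_add_of_lt_of_le (h.resolve_left hz) (h'.resolve_left hw)

theorem Ge.mul_gt (h : Ge p r z) (h' : Gt p s w) : Gt p (r + s) (z * w) := by
  rw [mul_comm, add_comm]
  exact h'.mul_ge h

theorem Ge.alg (h : IsAlgebraic ℚ z) : Ge p 0 z := by
  by_cases hz : z = 0
  · exact Or.inl hz
  · exact Or.inr (p.alg z hz h).ge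

theorem Ge.alg_mul (ha : IsAlgebraic ℚ w) (h : Ge p r z) : Ge p r (w * z) := by
  have h1 := (Ge.alg (p := p) ha).mul h
  rwa [zero_add] at h1

theorem Gt.alg_mul (ha : IsAlgebraic ℚ w) (h : Gt p r z) : Gt p r (w * z) := by
  have h1 := (Ge.alg (p := p) ha).mul_gt h
  rwa [zero_add] at h1

/-- an element of value `r` is not of value greater than `r` -/
theorem Gt.false (hz : z ≠ 0) (h : p.v z ≤ r) (h' : Gt p r z) : False :=
  absurd (h'.resolve_left hz) (not_lt.2 h)

/-- a sum with a strictly dominating term is not zero -/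
theorem dom_false (hz : z ≠ 0) (h0 : z + w = 0) (h : Gt p (p.v z) w) : False := by
  have h1 : z = -w := eq_neg_of_add_eq_zero_left h0
  have h2 := h.neg
  rw [← h1] at h2
  exact Gt.false hz le_rfl h2

theorem dom_ne (hz : z ≠ 0) (h : Gt p (p.v z) w) : z + w ≠ 0 := fun h0 => dom_false hz h0 h

/-- the value of a sum with a strictly dominating term -/
theorem v_add_of_gt (hz : z ≠ 0) (h : Gt p (p.v z) w) : p.v (z + w) = p.v z := by
  have h0 := dom_ne hz h
  by_cases hw : w = 0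
  · rw [hw, add_zero]
  have hlt := h.resolve_left hw
  have h1 := p.add z w hz hw h0
  rw [min_eq_left hlt.le] at h1
  refine le_antisymm ?_ h1
  have h2 := p.add (z + w) (-w) h0 (neg_ne_zero.2 hw) (by rwa [add_neg_cancel_right])
  rw [add_neg_cancel_right, v_neg p w hw] at h2
  rcases min_le_iff.1 h2 with h3 | h3
  · exact h3
  · exact absurd hlt (not_lt.2 h3)

/-! bounded and small -/

theorem Bd.add (h : Bd p z) (h' : Bd p w) : Bd p (z + w) := Ge.add h h'

theorem Bd.neg (h : Bd p z) : Bd p (-z) := Ge.neg h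

theorem Bd.sub (h : Bd p z) (h' : Bd p w) : Bd p (z - w) := Ge.sub h h'

theorem Bd.mul (h : Bd p z) (h' : Bd p w) : Bd p (z * w) := by
  have h1 := Ge.mul (r := 0) (s := 0) h h'
  rwa [zero_add] at h1

theorem Bd.pow (h : Bd p z) (n : ℕ) : Bd p (z ^ n) := by
  induction n with
  | zero => exact Or.inr (by rw [pow_zero, v_one])
  | succ n ih =>
    rw [pow_succ]
    exact ih.mul h

theorem Sm.bd (h : Sm p z) : Bd p z := h.imp_right le_of_lt

theorem Sm.add (h : Sm p z) (h' : Sm p w) : Sm p (z + w) := Gt.add h h'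

theorem Sm.neg (h : Sm p z) : Sm p (-z) := Gt.neg h

theorem Sm.sub (h : Sm p z) (h' : Sm p w) : Sm p (z - w) := Gt.sub h h'

theorem Sm.mul_bd (h : Sm p z) (h' : Bd p w) : Sm p (z * w) := by
  have h1 := Gt.mul_ge (r := 0) (s := 0) h h'
  rwa [zero_add] at h1

theorem Bd.mul_sm (h : Bd p z) (h' : Sm p w) : Sm p (z * w) := by
  rw [mul_comm]
  exact h'.mul_bd h

theorem Sm.zero : Sm p 0 := Or.inl rfl

theorem Bd.zero : Bd p 0 := Or.inl rfl

theorem bd_alg (h : IsAlgebraic ℚ z) : Bd p z := Ge.alg h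

/-- algebraic and small is zero -/
theorem Sm.alg_eq_zero (h : Sm p z) (ha : IsAlgebraic ℚ z) : z = 0 := by
  by_contra hz
  have h1 := h.resolve_left hz
  rw [p.alg z hz ha] at h1
  exact lt_irrefl _ h1

/-- a product of two bounded elements is small only if a factor is small -/
theorem Sm.of_mul (h : Sm p (z * w)) (hz : Bd p z) (hw : Bd p w) : Sm p z ∨ Sm p w := by
  by_cases h1 : z = 0
  · exact Or.inl (Or.inl h1)
  by_cases h2 : w = 0
  · exact Or.inr (Or.inl h2)
  have h3 := h.resolve_left (mul_ne_zero h1 h2)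
  rw [p.mul z w h1 h2] at h3
  have h4 := hz.resolve_left h1
  have h5 := hw.resolve_left h2
  by_contra hc
  have h6 : p.v z ≤ 0 := not_lt.1 fun h => hc (Or.inl (Or.inr h))
  have h7 : p.v w ≤ 0 := not_lt.1 fun h => hc (Or.inr (Or.inr h))
  linarith

theorem Sm.of_sq (h : Sm p (z ^ 2)) : Sm p z := by
  by_cases h1 : z = 0
  · exact Or.inl h1
  have h3 := h.resolve_left (pow_ne_zero 2 h1)
  rw [sq, p.mul z z h1 h1] at h3
  exact Or.inr (by linarith)

end GG

/-! ### the value of the exponential function -/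

/-- the value of `exp (i x)` -/
noncomputable def tv (p : TetRot.Place) (x : ℝ) : ℚ := p.v (Complex.exp (x * I))

theorem tv_add (p : TetRot.Place) (x y : ℝ) : tv p (x + y) = tv p x + tv p y := by
  unfold tv
  rw [ofReal_add, add_mul, Complex.exp_add]
  exact p.mul _ _ (Complex.exp_ne_zero _) (Complex.exp_ne_zero _)

theorem tv_neg (p : TetRot.Place) (x : ℝ) : tv p (-x) = -tv p x := by
  unfold tv
  rw [ofReal_neg, neg_mul, Complex.exp_neg]
  exact v_inv p _ (Complex.exp_ne_zero _)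

theorem tv_sub (p : TetRot.Place) (x y : ℝ) : tv p (x - y) = tv p x - tv p y := by
  rw [sub_eq_add_neg, tv_add, tv_neg, sub_eq_add_neg]

theorem tv_zero (p : TetRot.Place) : tv p 0 = 0 := by
  have h := tv_add p 0 0
  rw [add_zero] at h
  linarith

theorem tv_AA (p : TetRot.Place) {x : ℝ} (h : AA x) : tv p x = 0 :=
  p.alg _ (Complex.exp_ne_zero _) h

theorem tv_conj (p : TetRot.Place) (x : ℝ) : tv p.conj x = -tv p x := by
  rw [← tv_neg]
  show p.v (starRingEnd ℂ _) = p.v _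
  rw [← Complex.exp_conj, map_mul, conj_ofReal, conj_I, ofReal_neg, mul_neg, neg_mul]

theorem exists_tv {x : ℝ} (h : ¬ AA x) : ∃ p : TetRot.Place, tv p x < 0 :=
  TetRot.exists_place _ h

theorem exists_tv_pos {x : ℝ} (h : ¬ AA x) : ∃ p : TetRot.Place, 0 < tv p x := by
  obtain ⟨p, hp⟩ := exists_tv h
  exact ⟨p.conj, by rw [tv_conj]; linarith⟩

/-- an angle of value `0` at all places is algebraic -/
theorem AA_of_tv {x : ℝ} (h : ∀ p : TetRot.Place, tv p x = 0) : AA x := by
  by_contra hx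
  obtain ⟨p, hp⟩ := exists_tv hx
  rw [h p] at hp
  exact lt_irrefl _ hp

theorem AA.neg {x : ℝ} (h : AA x) : AA (-x) := AA_of_tv fun p => by
  rw [tv_neg, tv_AA p h, neg_zero]

theorem AA.add {x y : ℝ} (h : AA x) (h' : AA y) : AA (x + y) := AA_of_tv fun p => by
  rw [tv_add, tv_AA p h, tv_AA p h', add_zero]

theorem AA.sub {x y : ℝ} (h : AA x) (h' : AA y) : AA (x - y) := AA_of_tv fun p => by
  rw [tv_sub, tv_AA p h, tv_AA p h', sub_zero]

theorem AA.exp {x : ℝ} (h : AA x) : IsAlgebraic ℚ (Complex.exp (x * I)) := h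

theorem AA.exp_neg {x : ℝ} (h : AA x) : IsAlgebraic ℚ (Complex.exp (-(x * I))) := by
  have h1 := h.neg.exp
  rwa [ofReal_neg, neg_mul] at h1

theorem AA.sin {x : ℝ} (h : AA x) : IsAlgebraic ℚ (Complex.sin x) := by
  have h2 : IsAlgebraic ℚ ((2 : ℂ)) := isAlgebraic_natCast 2
  have h3 : Complex.sin x = (Complex.exp (-(x * I)) - Complex.exp (x * I)) * I * 2⁻¹ := by
    rw [Complex.sin, neg_mul, div_eq_mul_inv]
  rw [h3]
  exact ((h.exp_neg.sub h.exp).mul alg_I).mul h2.inv

theorem AA.cos {x : ℝ} (h : AA x) : IsAlgebraic ℚ (Complex.cos x) := by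
  have h2 : IsAlgebraic ℚ ((2 : ℂ)) := isAlgebraic_natCast 2
  have h3 : Complex.cos x = (Complex.exp (x * I) + Complex.exp (-(x * I))) * 2⁻¹ := by
    rw [Complex.cos, neg_mul, div_eq_mul_inv]
  rw [h3]
  exact (h.exp.add h.exp_neg).mul h2.inv

theorem alg_ofReal {y : ℝ} (h : IsAlgebraic ℚ (y : ℂ)) : IsAlgebraic ℚ y := by
  have h1 : IsAlgebraic ℚ (algebraMap ℝ ℂ y) := h
  exact (isAlgebraic_algebraMap_iff (algebraMap ℝ ℂ).injective).1 h1

theorem AA.rsin {x : ℝ} (h : AA x) : IsAlgebraic ℚ (Real.sin x) :=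
  alg_ofReal (by rw [ofReal_sin]; exact h.sin)

theorem AA.rcos {x : ℝ} (h : AA x) : IsAlgebraic ℚ (Real.cos x) :=
  alg_ofReal (by rw [ofReal_cos]; exact h.cos)

theorem AA_pi : AA Real.pi := by
  show IsAlgebraic ℚ _
  rw [Complex.exp_pi_mul_I]
  exact isAlgebraic_one.neg

theorem AA_of_nat_mul {x : ℝ} {n : ℕ} (hn : n ≠ 0) (h : AA (n * x)) : AA x := by
  refine IsAlgebraic.of_pow (n := n) (Nat.pos_of_ne_zero hn) ?_
  rw [← Complex.exp_nat_mul, ← mul_assoc]
  have h1 : IsAlgebraic ℚ (Complex.exp (((n * x : ℝ) : ℂ) * I)) := h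
  rwa [ofReal_mul, ofReal_natCast] at h1

theorem AA_pi_div_two : AA (Real.pi / 2) :=
  AA_of_nat_mul (n := 2) two_ne_zero (by
    have h : ((2 : ℕ) : ℝ) * (Real.pi / 2) = Real.pi := by push_cast; ring
    rw [h]
    exact AA_pi)

/-- the sine has value `-|t x|` if `t x ≠ 0` -/
theorem sin_ne_v (p : TetRot.Place) {x : ℝ} (h : tv p x ≠ 0) :
    Complex.sin x ≠ 0 ∧ p.v (Complex.sin x) = -|tv p x| := by
  have h2 : IsAlgebraic ℚ ((2 : ℂ)) := isAlgebraic_natCast 2
  have hc : IsAlgebraic ℚ (I * 2⁻¹ : ℂ) := alg_I.mul h2.inv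
  have hc0 : (I * 2⁻¹ : ℂ) ≠ 0 := mul_ne_zero I_ne_zero (by norm_num)
  have e0 := Complex.exp_ne_zero (x * I)
  have e1 := Complex.exp_ne_zero (-(x * I))
  have t0 : p.v (Complex.exp (x * I)) = tv p x := rfl
  have t1 : p.v (Complex.exp (-(x * I))) = -tv p x := by
    rw [Complex.exp_neg, v_inv p _ e0, t0]
  have h3 : Complex.sin x = (I * 2⁻¹) * (Complex.exp (-(x * I)) + -Complex.exp (x * I)) := by
    rw [Complex.sin, neg_mul]
    ring
  have key : (Complex.exp (-(x * I)) + -Complex.exp (x * I)) ≠ 0 ∧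
      p.v (Complex.exp (-(x * I)) + -Complex.exp (x * I)) = -|tv p x| := by
    rcases lt_or_gt_of_ne h with h4 | h4
    · have hg : Gt p (p.v (-Complex.exp (x * I))) (Complex.exp (-(x * I))) := by
        refine Or.inr ?_
        rw [v_neg p _ e0, t0, t1]
        linarith
      rw [add_comm]
      refine ⟨dom_ne (neg_ne_zero.2 e0) hg, ?_⟩
      rw [v_add_of_gt (neg_ne_zero.2 e0) hg, v_neg p _ e0, t0, abs_of_neg h4, neg_neg]
    · have hg : Gt p (p.v (Complex.exp (-(x * I)))) (-Complex.exp (x * I)) := by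
        refine Or.inr ?_
        rw [v_neg p _ e0, t0, t1]
        linarith
      refine ⟨dom_ne e1 hg, ?_⟩
      rw [v_add_of_gt e1 hg, t1, abs_of_pos h4]
  rw [h3]
  exact ⟨mul_ne_zero hc0 key.1, by rw [v_alg_mul p _ _ hc0 hc key.1, key.2]⟩

theorem cos_ne_v (p : TetRot.Place) {x : ℝ} (h : tv p x ≠ 0) :
    Complex.cos x ≠ 0 ∧ p.v (Complex.cos x) = -|tv p x| := by
  have h1 : tv p (Real.pi / 2 - x) = -tv p x := by
    rw [tv_sub, tv_AA p AA_pi_div_two, zero_sub]
  have h2 := sin_ne_v p (x := Real.pi / 2 - x) (by rw [h1]; exact neg_ne_zero.2 h)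
  have h3 : Complex.sin ((Real.pi / 2 - x : ℝ) : ℂ) = Complex.cos x := by
    push_cast
    rw [Complex.sin_pi_div_two_sub]
  rw [h3, h1, abs_neg] at h2
  exact h2

theorem v_sin (p : TetRot.Place) {x : ℝ} (h : tv p x ≠ 0) : p.v (Complex.sin x) = -|tv p x| :=
  (sin_ne_v p h).2

theorem v_cos (p : TetRot.Place) {x : ℝ} (h : tv p x ≠ 0) : p.v (Complex.cos x) = -|tv p x| :=
  (cos_ne_v p h).2

/-- the sine has value at least `-|t x|` or is zero -/
theorem sin_ge (p : TetRot.Place) (x : ℝ) : Ge p (-|tv p x|) (Complex.sin x) := by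
  have h2 : IsAlgebraic ℚ ((2 : ℂ)) := isAlgebraic_natCast 2
  have hc : IsAlgebraic ℚ (I * 2⁻¹ : ℂ) := alg_I.mul h2.inv
  have e0 := Complex.exp_ne_zero (x * I)
  have t0 : p.v (Complex.exp (x * I)) = tv p x := rfl
  have t1 : p.v (Complex.exp (-(x * I))) = -tv p x := by
    rw [Complex.exp_neg, v_inv p _ e0, t0]
  have h3 : Complex.sin x = (I * 2⁻¹) * (Complex.exp (-(x * I)) + -Complex.exp (x * I)) := by
    rw [Complex.sin, neg_mul]
    ring
  rw [h3]
  refine Ge.alg_mul hc (Ge.add (Or.inr ?_) (Ge.neg (Or.inr ?_)))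
  · rw [t1]
    exact neg_le_neg (le_abs_self _)
  · rw [t0]
    exact neg_abs_le _

theorem cos_ge (p : TetRot.Place) (x : ℝ) : Ge p (-|tv p x|) (Complex.cos x) := by
  have h1 : tv p (Real.pi / 2 - x) = -tv p x := by
    rw [tv_sub, tv_AA p AA_pi_div_two, zero_sub]
  have h2 := sin_ge p (Real.pi / 2 - x)
  have h3 : Complex.sin ((Real.pi / 2 - x : ℝ) : ℂ) = Complex.cos x := by
    push_cast
    rw [Complex.sin_pi_div_two_sub]
  rw [h3, h1, abs_neg] at h2
  exact h2

theorem bd_sin (p : TetRot.Place) {x : ℝ} (h : tv p x = 0) : Bd p (Complex.sin x) := by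
  have h1 := sin_ge p x
  rw [h, abs_zero, neg_zero] at h1
  exact h1

theorem bd_cos (p : TetRot.Place) {x : ℝ} (h : tv p x = 0) : Bd p (Complex.cos x) := by
  have h1 := cos_ge p x
  rw [h, abs_zero, neg_zero] at h1
  exact h1

/-- a bounded angle: sine and cosine are not both small -/
theorem not_sm_both (p : TetRot.Place) (x : ℝ) (h1 : Sm p (Complex.sin x))
    (h2 : Sm p (Complex.cos x)) : False := by
  have h3 : Sm p (Complex.sin x * Complex.sin x + Complex.cos x * Complex.cos x) :=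
    (h1.mul_bd h1.bd).add (h2.mul_bd h2.bd)
  have h4 : Complex.sin (x : ℂ) * Complex.sin x + Complex.cos x * Complex.cos x = 1 := by
    have := Complex.sin_sq_add_cos_sq (x : ℂ)
    linear_combination this
  rw [h4] at h3
  have h5 := h3.alg_eq_zero isAlgebraic_one
  exact one_ne_zero h5

/-- the sine is not small if `t x ≠ 0` -/
theorem not_sm_sin (p : TetRot.Place) {x : ℝ} (h : tv p x ≠ 0) : ¬ Sm p (Complex.sin x) := by
  intro h1
  have h2 := sin_ne_v p h
  have h3 := h1.resolve_left h2.1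
  rw [h2.2] at h3
  have := abs_nonneg (tv p x)
  linarith

theorem not_sm_cos (p : TetRot.Place) {x : ℝ} (h : tv p x ≠ 0) : ¬ Sm p (Complex.cos x) := by
  intro h1
  have h2 := cos_ne_v p h
  have h3 := h1.resolve_left h2.1
  rw [h2.2] at h3
  have := abs_nonneg (tv p x)
  linarith

end Pool.Agent.TFF
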